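import Mathlib

set_option autoImplicit false
set_option linter.unusedSectionVars false

noncomputable section

open scoped InnerProductSpace ENNReal Topology
open Filter ContinuousLinearMap

namespace Pool.Agent.VN

variable {E : Type*} [NormedAddCommGroup E] [InnerProductSpace ℂ E] [CompleteSpace E]

/-- continuous functional calculus of a self-adjoint operator -/
def fc (S : E →L[ℂ] E) (f : ℝ → ℝ) : E →L[ℂ] E := cfc f S

variable {S : E →L[ℂ] E} (hS : IsSelfAdjoint S) (hn : ‖S‖ ≤ 1)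

include hS in
lemma fc_poly (q : Polynomial ℝ) : fc S (fun t => q.eval t) = Polynomial.aeval S q :=
  cfc_polynomial q S

lemma fc_sub {f g : ℝ → ℝ} (hf : Continuous f) (hg : Continuous g) :
    fc S (fun t => f t - g t) = fc S f - fc S g :=
  cfc_sub f g S hf.continuousOn hg.continuousOn

lemma fc_mul {f g : ℝ → ℝ} (hf : Continuous f) (hg : Continuous g) :
    fc S (fun t => f t * g t) = fc S f * fc S g :=
  cfc_mul f g S hf.continuousOn hg.continuousOn

include hn in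
lemma spec_mem {t : ℝ} (ht : t ∈ spectrum ℝ S) : t ∈ Set.Icc (-1 : ℝ) 1 := by
  have h1 : ‖t‖ ≤ ‖S‖ * ‖(1 : E →L[ℂ] E)‖ := spectrum.norm_le_norm_mul_of_mem ht
  have h2 : ‖(1 : E →L[ℂ] E)‖ ≤ 1 := ContinuousLinearMap.norm_id_le
  have h3 : ‖t‖ ≤ 1 := by
    have := mul_le_mul hn h2 (norm_nonneg _) zero_le_one
    linarith
  rw [Real.norm_eq_abs, abs_le] at h3
  exact h3

include hn in
lemma norm_fc_le {f : ℝ → ℝ} {c : ℝ} (hc : 0 ≤ c) (h : ∀ x ∈ Set.Icc (-1 : ℝ) 1, |f x| ≤ c) :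
    ‖fc S f‖ ≤ c :=
  norm_cfc_le hc fun x hx => h x (spec_mem hn hx)

lemma fc_adj (f : ℝ → ℝ) : ContinuousLinearMap.adjoint (fc S f) = fc S f := by
  have : IsSelfAdjoint (fc S f) := cfc_predicate f S
  exact this

include hn in
lemma fc_nonneg {f : ℝ → ℝ} (h : ∀ x ∈ Set.Icc (-1 : ℝ) 1, 0 ≤ f x) (v : E) :
    0 ≤ (⟪v, fc S f v⟫_ℂ).re := by
  have h1 : 0 ≤ fc S f := cfc_nonneg fun x hx => h x (spec_mem hn hx)
  rw [ContinuousLinearMap.nonneg_iff_isPositive] at h1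
  have := h1.inner_nonneg_right v
  exact (Complex.le_def.mp this).1

include hS in
lemma fc_id : fc S (fun t => t) = S := cfc_id' ℝ S

lemma fc_comm {B : E →L[ℂ] E} (h : ∀ x, S (B x) = B (S x)) (f : ℝ → ℝ) (x : E) :
    fc S f (B x) = B (fc S f x) := by
  have h1 : Commute S B := by
    ext x
    exact h x
  have h2 : Commute (fc S f) B := h1.cfc_real f
  exact congrArg (fun T : E →L[ℂ] E => T x) h2.eq

/-- The spectral cut-off: the closed subspace `E` where `S > t₀`. -/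
def cutoff (t₀ : ℝ) (t : ℝ) : ℝ := max 0 (t - t₀)

lemma cutoff_cont (t₀ : ℝ) : Continuous (cutoff t₀) := by
  unfold cutoff
  fun_prop

/-- bump function -/
def bump (t₀ M : ℝ) (t : ℝ) : ℝ := (M / max 1 (M * cutoff t₀ t)) * cutoff t₀ t

lemma bump_cont (t₀ M : ℝ) : Continuous (fun t => M / max 1 (M * cutoff t₀ t)) := by
  have := cutoff_cont t₀
  refine continuous_const.div (by fun_prop) fun t => ?_
  have : (1 : ℝ) ≤ max 1 (M * cutoff t₀ t) := le_max_left _ _
  positivity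

lemma cutoff_nonneg (t₀ t : ℝ) : 0 ≤ cutoff t₀ t := le_max_left _ _

lemma bump_nonneg {t₀ M : ℝ} (hM : 0 < M) (t : ℝ) : 0 ≤ bump t₀ M t := by
  unfold bump
  have : (1 : ℝ) ≤ max 1 (M * cutoff t₀ t) := le_max_left _ _
  have := cutoff_nonneg t₀ t
  positivity

lemma bump_le_one {t₀ M : ℝ} (t : ℝ) : bump t₀ M t ≤ 1 := by
  unfold bump
  have h1 : (1 : ℝ) ≤ max 1 (M * cutoff t₀ t) := le_max_left _ _
  have h2 : M * cutoff t₀ t ≤ max 1 (M * cutoff t₀ t) := le_max_right _ _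
  rw [div_mul_eq_mul_div, div_le_one (by positivity)]
  exact h2

lemma bump_eq_one {t₀ M : ℝ} (hM : 0 < M) {t : ℝ} (ht : t₀ + 1 / M ≤ t) : bump t₀ M t = 1 := by
  unfold bump
  have h1 : 1 / M ≤ cutoff t₀ t := by
    unfold cutoff
    exact le_trans (by linarith) (le_max_right _ _)
  have h2 : 1 ≤ M * cutoff t₀ t := by
    rw [div_le_iff₀ hM] at h1
    linarith
  rw [max_eq_right h2]
  have h3 : 0 < cutoff t₀ t := lt_of_lt_of_le (by positivity) h1
  field_simp

include hS hn in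
/-- On the closure of the range of the cut-off, `S ≥ t₀`. -/
lemma fc_range_ge (t₀ : ℝ) (w : E) :
    t₀ * ‖fc S (cutoff t₀) w‖ ^ 2
      ≤ (⟪fc S (cutoff t₀) w, S (fc S (cutoff t₀) w)⟫_ℂ).re := by
  have hc := cutoff_cont t₀
  have h1 : 0 ≤ (⟪w, fc S (fun t => cutoff t₀ t * ((t - t₀) * cutoff t₀ t)) w⟫_ℂ).re := by
    apply fc_nonneg hn
    intro x _
    unfold cutoff
    rcases le_total 0 (x - t₀) with h | h
    · rw [max_eq_right h]; positivity
    · rw [max_eq_left h]; simp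
  rw [fc_mul hc (by fun_prop)] at h1
  have h2 : fc S (fun t => (t - t₀) * cutoff t₀ t) = fc S (fun t => t * cutoff t₀ t)
      - fc S (fun t => t₀ * cutoff t₀ t) := by
    rw [← fc_sub (by fun_prop) (by fun_prop)]
    congr 1
    funext t
    ring
  have h3 : fc S (fun t => t * cutoff t₀ t) = S * fc S (cutoff t₀) := by
    have := fc_mul (S := S) (f := fun t => t) continuous_id hc
    rw [fc_id hS] at this
    exact this
  have h4 : fc S (fun t => t₀ * cutoff t₀ t) = (t₀ : ℂ) • fc S (cutoff t₀) := by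
    have := cfc_const_mul (R := ℝ) t₀ (cutoff t₀) S hc.continuousOn
    unfold fc
    rw [this]
    ext x
    simp
  rw [h2, h3, h4] at h1
  have h5 : (fc S (cutoff t₀) * (S * fc S (cutoff t₀) - (t₀ : ℂ) • fc S (cutoff t₀))) w
      = fc S (cutoff t₀) (S (fc S (cutoff t₀) w) - (t₀ : ℂ) • fc S (cutoff t₀) w) := rfl
  rw [h5, ← ContinuousLinearMap.adjoint_inner_left, fc_adj, inner_sub_right, inner_smul_right,
    inner_self_eq_norm_sq_to_K] at h1
  have h6 : ((t₀ : ℂ) * ((‖fc S (cutoff t₀) w‖ : ℂ)) ^ 2).re = t₀ * ‖fc S (cutoff t₀) w‖ ^ 2 := by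
    norm_cast
  rw [Complex.sub_re] at h1
  have h7 : ((t₀ : ℂ) * ((RCLike.ofReal ‖fc S (cutoff t₀) w‖ : ℂ)) ^ 2).re
      = t₀ * ‖fc S (cutoff t₀) w‖ ^ 2 := h6
  rw [h7] at h1
  linarith

end Pool.Agent.VN
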