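import Pool.Agent.VN.Mat

set_option autoImplicit false
set_option linter.unusedSectionVars false

noncomputable section

open scoped InnerProductSpace ENNReal Topology
open Classical Filter ContinuousLinearMap

namespace Pool.Agent.VN

variable {ι κ μ G H : Type*} [Group G] [Group H]

/-- If the projections of the basis vectors are known, so is the dimension. -/
lemma vdim_of_candidates [Fintype ι] (K : Submodule ℂ (L2 ι G)) (hKc : IsClosed (K : Set (L2 ι G)))
    (w : ι → L2 ι G) (hw : ∀ i, w i ∈ K) (ho : ∀ i, ∀ z ∈ K, ⟪dl (i, (1 : G)) - w i, z⟫_ℂ = 0) :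
    vdim (K : Set (L2 ι G)) = ∑ i, ‖w i‖ ^ 2 := by
  have c1 : CompleteSpace K := hKc.completeSpace_coe
  rw [vdim_eq_sum]
  refine Finset.sum_congr rfl fun i _ => ?_
  rw [Submodule.eq_starProjection_of_mem_of_inner_eq_zero (hw i) (ho i)]

section induction

variable (f : G →* H) (hf : Function.Injective f)

/-- push a linear form along a homomorphism -/
def mapF (a : ι × G →₀ ℂ) : ι × H →₀ ℂ := ∑ p ∈ a.support, Finsupp.single (p.1, f p.2) (a p)

lemma ev_mapF (a : ι × G →₀ ℂ) (z : ι × H → ℂ) (g : H) :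
    ev (mapF f a) z g = ∑ p ∈ a.support, a p * z (p.1, g * (f p.2)⁻¹) := by
  unfold mapF
  rw [ev_finsetSum]
  exact Finset.sum_congr rfl fun p _ => ev_single _ _ _ _

include hf in
lemma injIdx : Function.Injective (fun p : ι × G => ((p.1, f p.2) : ι × H)) := by
  rintro ⟨a, b⟩ ⟨c, d⟩ h
  simp only [Prod.mk.injEq] at h
  exact Prod.ext h.1 (hf h.2)

include hf in
theorem vdim_induced [Fintype ι] (C : Set (ι × G →₀ ℂ)) :
    vdim (Sol (mapF f '' C) : Set (L2 ι H)) = vdim (Sol C : Set (L2 ι G)) := by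
  have c1 : CompleteSpace (Sol C) := (Sol_closed C).completeSpace_coe
  have hpull : ∀ z ∈ Sol (mapF f '' C), pull _ (injIdx (ι := ι) f hf) z ∈ Sol C := by
    intro z hz a ha g
    have h1 := hz _ ⟨a, ha, rfl⟩ (f g)
    rw [ev_mapF] at h1
    rw [ev_def, ← h1]
    refine Finset.sum_congr rfl fun p _ => ?_
    rw [pull_apply]
    simp
  have hpush : ∀ x ∈ Sol C, push _ (injIdx (ι := ι) f hf) x ∈ Sol (mapF f '' C) := by
    rintro x hx _ ⟨a, ha, rfl⟩ g
    rw [ev_mapF]
    by_cases hg : ∃ g₀, f g₀ = g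
    · obtain ⟨g₀, rfl⟩ := hg
      rw [← hx a ha g₀, ev_def]
      refine Finset.sum_congr rfl fun p _ => ?_
      have e : ((p.1, f g₀ * (f p.2)⁻¹) : ι × H) = (fun q : ι × G => ((q.1, f q.2) : ι × H))
          (p.1, g₀ * p.2⁻¹) := by simp
      rw [e, push_apply]
    · refine Finset.sum_eq_zero fun p _ => ?_
      rw [push_apply_of_notMem, mul_zero]
      intro q hq
      apply hg
      have h2 : f q.2 = g * (f p.2)⁻¹ := congrArg Prod.snd hq
      exact ⟨q.2 * p.2, by rw [map_mul, h2]; group⟩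
  have hdl : ∀ i : ι, (dl (i, (1 : H)) : L2 ι H) = push _ (injIdx (ι := ι) f hf) (dl (i, (1 : G))) := by
    intro i
    rw [push_dl]
    simp
  rw [vdim_of_candidates (Sol (mapF f '' C)) (Sol_closed _)
    (fun i => push _ (injIdx (ι := ι) f hf) ((Sol C).starProjection (dl (i, (1 : G)))))
    (fun i => hpush _ (Submodule.starProjection_apply_mem _ _)) ?_, vdim_eq_sum]
  · refine Finset.sum_congr rfl fun i _ => ?_
    -- norm of push
    have h1 : ∀ x : L2 ι G, ‖push _ (injIdx (ι := ι) f hf) x‖ ^ 2 = ‖x‖ ^ 2 := by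
      intro x
      have h2 : ⟪push _ (injIdx (ι := ι) f hf) x, push _ (injIdx (ι := ι) f hf) x⟫_ℂ = ⟪x, x⟫_ℂ := by
        conv_lhs => rw [push]
        rw [ContinuousLinearMap.adjoint_inner_left]
        congr 1
        ext p
        rw [pull_apply]
        exact push_apply _ (injIdx (ι := ι) f hf) x p
      rw [inner_self_eq_norm_sq_to_K, inner_self_eq_norm_sq_to_K] at h2
      exact_mod_cast h2
    exact h1 _
  · intro i z hz
    rw [hdl, ← map_sub, push, ContinuousLinearMap.adjoint_inner_left]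
    exact (Sol C).starProjection_inner_eq_zero _ _ (hpull z hz)

end induction

section tensor

variable {α β : Type*}

/-- the elementary tensor of two square-summable functions -/
def tens (u : Ell α) (v : Ell β) : Ell (α × β) :=
  ⟨fun p => u p.1 * v p.2, by
    refine memℓp_gen ?_
    have h := (summable_norm_sq u).mul_of_nonneg (summable_norm_sq v)
      (fun _ => by positivity) (fun _ => by positivity)
    refine h.congr fun p => ?_
    simp [mul_pow]⟩

@[simp] lemma tens_apply (u : Ell α) (v : Ell β) (p : α × β) : tens u v p = u p.1 * v p.2 := rfl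

/-- slice -/
def sliceL (z : Ell (α × β)) (a : α) : Ell β :=
  pull (fun b => (a, b)) (fun _ _ h => by simpa using h) z

/-- slice -/
def sliceR (z : Ell (α × β)) (b : β) : Ell α :=
  pull (fun a => (a, b)) (fun _ _ h => by simpa using h) z

@[simp] lemma sliceL_apply (z : Ell (α × β)) (a : α) (b : β) : sliceL z a b = z (a, b) := rfl
@[simp] lemma sliceR_apply (z : Ell (α × β)) (a : α) (b : β) : sliceR z b a = z (a, b) := rfl

lemma inner_tens_left (u : Ell α) (v : Ell β) (z : Ell (α × β)) :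
    ⟪tens u v, z⟫_ℂ = ∑' a, star (u a) * ⟪v, sliceL z a⟫_ℂ := by
  have h := hasSum_inner' (tens u v) z
  rw [← h.tsum_eq, h.summable.tsum_prod]
  refine tsum_congr fun a => ?_
  rw [← (hasSum_inner' v (sliceL z a)).tsum_eq, ← tsum_mul_left]
  refine tsum_congr fun b => ?_
  rw [tens_apply, star_mul', sliceL_apply]
  ring

lemma inner_tens_right (u : Ell α) (v : Ell β) (z : Ell (α × β)) :
    ⟪tens u v, z⟫_ℂ = ∑' b, star (v b) * ⟪u, sliceR z b⟫_ℂ := by
  have h := hasSum_inner' (tens u v) z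
  have h2 := (Equiv.prodComm β α).hasSum_iff.mpr h
  rw [← h2.tsum_eq, h2.summable.tsum_prod]
  refine tsum_congr fun b => ?_
  rw [← (hasSum_inner' u (sliceR z b)).tsum_eq, ← tsum_mul_left]
  refine tsum_congr fun a => ?_
  show star (tens u v (a, b)) * z (a, b) = _
  rw [tens_apply, star_mul', sliceR_apply]
  ring

lemma norm_tens_sq (u : Ell α) (v : Ell β) : ‖tens u v‖ ^ 2 = ‖u‖ ^ 2 * ‖v‖ ^ 2 := by
  have h1 : ⟪tens u v, tens u v⟫_ℂ = ⟪u, u⟫_ℂ * ⟪v, v⟫_ℂ := by
    rw [inner_tens_left, ← (hasSum_inner' u u).tsum_eq, ← tsum_mul_right]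
    refine tsum_congr fun a => ?_
    have : sliceL (tens u v) a = (u a) • v := by
      ext b
      rfl
    rw [this, inner_smul_right]
    ring
  rw [inner_self_eq_norm_sq_to_K, inner_self_eq_norm_sq_to_K, inner_self_eq_norm_sq_to_K] at h1
  exact_mod_cast h1

lemma tens_sub_left (u u' : Ell α) (v : Ell β) : tens (u - u') v = tens u v - tens u' v := by
  ext p
  show (u - u' : Ell α) p.1 * v p.2 = _
  rw [lp.coeFn_sub, lp.coeFn_sub, Pi.sub_apply, Pi.sub_apply, sub_mul]
  rfl

lemma tens_sub_right (u : Ell α) (v v' : Ell β) : tens u (v - v') = tens u v - tens u v' := by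
  ext p
  show u p.1 * (v - v' : Ell β) p.2 = _
  rw [lp.coeFn_sub, lp.coeFn_sub, Pi.sub_apply, Pi.sub_apply, mul_sub]
  rfl

lemma tens_dl (a : α) (b : β) : tens (dl a) (dl b) = dl (a, b) := by
  ext p
  obtain ⟨a', b'⟩ := p
  rw [tens_apply, dl_apply, dl_apply, dl_apply]
  by_cases h1 : a' = a <;> by_cases h2 : b' = b <;> simp [h1, h2]

lemma inner_pull_equiv (e : α ≃ β) (x : Ell β) (z : Ell α) :
    ⟪pull e e.injective x, z⟫_ℂ = ⟪x, pull e.symm e.symm.injective z⟫_ℂ := by
  have h1 := hasSum_inner' (pull e e.injective x) z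
  have h2 := hasSum_inner' x (pull e.symm e.symm.injective z)
  have h3 := e.hasSum_iff.mpr h2
  refine h1.unique ?_
  convert h3 using 2 with a
  simp

lemma norm_pull_equiv (e : α ≃ β) (x : Ell β) : ‖pull e e.injective x‖ = ‖x‖ := by
  have h := inner_pull_equiv e x (pull e e.injective x)
  have e2 : pull e.symm e.symm.injective (pull e e.injective x) = x := by
    ext b
    simp
  rw [e2, inner_self_eq_norm_sq_to_K, inner_self_eq_norm_sq_to_K] at h
  have h2 : ‖pull e e.injective x‖ ^ 2 = ‖x‖ ^ 2 := by exact_mod_cast h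
  exact (pow_left_inj₀ (norm_nonneg _) (norm_nonneg _) two_ne_zero).mp h2

end tensor

section product

variable {ι' : Type*}

/-- first-factor equation -/
def leftF (j : ι') (a : ι × G →₀ ℂ) : (ι × ι') × (G × H) →₀ ℂ :=
  ∑ p ∈ a.support, Finsupp.single ((p.1, j), (p.2, (1 : H))) (a p)

/-- second-factor equation -/
def rightF (i : ι) (b : ι' × H →₀ ℂ) : (ι × ι') × (G × H) →₀ ℂ :=
  ∑ q ∈ b.support, Finsupp.single ((i, q.1), ((1 : G), q.2)) (b q)

lemma ev_leftF (j : ι') (a : ι × G →₀ ℂ) (z : (ι × ι') × (G × H) → ℂ) (g : G) (h : H) :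
    ev (leftF j a) z (g, h) = ∑ p ∈ a.support, a p * z ((p.1, j), (g * p.2⁻¹, h)) := by
  unfold leftF
  rw [ev_finsetSum]
  refine Finset.sum_congr rfl fun p _ => ?_
  rw [ev_single]
  simp

lemma ev_rightF (i : ι) (b : ι' × H →₀ ℂ) (z : (ι × ι') × (G × H) → ℂ) (g : G) (h : H) :
    ev (rightF i b) z (g, h) = ∑ q ∈ b.support, b q * z ((i, q.1), (g, h * q.2⁻¹)) := by
  unfold rightF
  rw [ev_finsetSum]
  refine Finset.sum_congr rfl fun p _ => ?_
  rw [ev_single]
  simp

/-- the product system -/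
def prodC (C : Set (ι × G →₀ ℂ)) (C' : Set (ι' × H →₀ ℂ)) : Set ((ι × ι') × (G × H) →₀ ℂ) :=
  {c | (∃ j : ι', ∃ a ∈ C, c = leftF j a) ∨ (∃ i : ι, ∃ b ∈ C', c = rightF i b)}

theorem vdim_prod [Fintype ι] [Fintype ι'] (C : Set (ι × G →₀ ℂ)) (C' : Set (ι' × H →₀ ℂ)) :
    vdim (Sol (prodC C C') : Set (L2 (ι × ι') (G × H)))
      = vdim (Sol C : Set (L2 ι G)) * vdim (Sol C' : Set (L2 ι' H)) := by
  have c1 : CompleteSpace (Sol C) := (Sol_closed C).completeSpace_coe
  have c2 : CompleteSpace (Sol C') := (Sol_closed C').completeSpace_coe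
  let e : (ι × ι') × (G × H) ≃ (ι × G) × (ι' × H) := Equiv.prodProdProdComm ι ι' G H
  set u : ι → L2 ι G := fun i => (Sol C).starProjection (dl (i, (1 : G))) with hu
  set v : ι' → L2 ι' H := fun j => (Sol C').starProjection (dl (j, (1 : H))) with hv
  have hsR : ∀ z ∈ Sol (prodC C C'), ∀ q : ι' × H,
      sliceR (pull e.symm e.symm.injective z) q ∈ Sol C := by
    intro z hz q a ha g
    have h1 := hz _ (Or.inl ⟨q.1, a, ha, rfl⟩) (g, q.2)
    rw [ev_leftF] at h1
    rw [ev_def, ← h1]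
    rfl
  have hsL : ∀ z ∈ Sol (prodC C C'), ∀ p : ι × G,
      sliceL (pull e.symm e.symm.injective z) p ∈ Sol C' := by
    intro z hz p b hb h
    have h1 := hz _ (Or.inr ⟨p.1, b, hb, rfl⟩) (p.2, h)
    rw [ev_rightF] at h1
    rw [ev_def, ← h1]
    rfl
  rw [vdim_of_candidates (Sol (prodC C C')) (Sol_closed _)
    (fun k => pull e e.injective (tens (u k.1) (v k.2))) ?_ ?_, vdim_eq_sum, vdim_eq_sum,
    Finset.sum_mul_sum, Fintype.sum_prod_type]
  · refine Finset.sum_congr rfl fun i _ => Finset.sum_congr rfl fun j _ => ?_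
    rw [norm_pull_equiv, norm_tens_sq]
  · rintro ⟨i, j⟩ c hc ⟨g, h⟩
    rcases hc with ⟨j', a, ha, rfl⟩ | ⟨i', b, hb, rfl⟩
    · rw [ev_leftF]
      have h1 := (Submodule.starProjection_apply_mem (Sol C) (dl (i, (1 : G)))) a ha g
      rw [ev_def] at h1
      have h2 : ∑ p ∈ a.support, a p * (pull e e.injective (tens (u i) (v j)))
          ((p.1, j'), (g * p.2⁻¹, h)) = (∑ p ∈ a.support, a p * (u i) (p.1, g * p.2⁻¹))
          * (v j) (j', h) := by
        rw [Finset.sum_mul]
        refine Finset.sum_congr rfl fun p _ => ?_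
        rw [mul_assoc]
        rfl
      rw [h2, h1, zero_mul]
    · rw [ev_rightF]
      have h1 := (Submodule.starProjection_apply_mem (Sol C') (dl (j, (1 : H)))) b hb h
      rw [ev_def] at h1
      have h2 : ∑ q ∈ b.support, b q * (pull e e.injective (tens (u i) (v j)))
          ((i', q.1), (g, h * q.2⁻¹)) = (u i) (i', g)
          * (∑ q ∈ b.support, b q * (v j) (q.1, h * q.2⁻¹)) := by
        rw [Finset.mul_sum]
        refine Finset.sum_congr rfl fun q _ => ?_
        have : (pull e e.injective (tens (u i) (v j))) ((i', q.1), (g, h * q.2⁻¹))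
          = (u i) (i', g) * (v j) (q.1, h * q.2⁻¹) := rfl
        rw [this]
        ring
      rw [h2, h1, mul_zero]
  · rintro ⟨i, j⟩ z hz
    have h1 : (dl ((i, j), (1 : G × H)) : L2 (ι × ι') (G × H))
        = pull e e.injective (tens (dl (i, (1 : G))) (dl (j, (1 : H)))) := by
      rw [tens_dl]
      have : ((i, (1 : G)), (j, (1 : H))) = e ((i, j), (1 : G × H)) := rfl
      rw [this, pull_dl]
    rw [h1, ← map_sub]
    have h2 : tens (dl (i, (1 : G))) (dl (j, (1 : H))) - tens (u i) (v j)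
        = tens (dl (i, (1 : G)) - u i) (dl (j, (1 : H))) + tens (u i) (dl (j, (1 : H)) - v j) := by
      rw [tens_sub_left, tens_sub_right]
      abel
    rw [h2, map_add, inner_add_left, inner_pull_equiv, inner_pull_equiv, inner_tens_right,
      inner_tens_left]
    have h3 : ∀ q : ι' × H, ⟪dl (i, (1 : G)) - u i,
        sliceR (pull e.symm e.symm.injective z) q⟫_ℂ = 0 := fun q =>
      (Sol C).starProjection_inner_eq_zero _ _ (hsR z hz q)
    have h4 : ∀ p : ι × G, ⟪dl (j, (1 : H)) - v j,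
        sliceL (pull e.symm e.symm.injective z) p⟫_ℂ = 0 := fun p =>
      (Sol C').starProjection_inner_eq_zero _ _ (hsL z hz p)
    simp only [h3, h4, mul_zero, tsum_zero, add_zero]

end product

end Pool.Agent.VN
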