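import Pool.Agent.VN.Mat
import Pool.Agent.VN.Prod

set_option autoImplicit false
set_option linter.unusedSectionVars false

noncomputable section

open scoped InnerProductSpace ENNReal Topology
open Classical Filter ContinuousLinearMap

/-!
Kazhdan's inequality: the dimension of the kernel of a matrix is upper semicontinuous in the group
(in the space of marked groups).
-/

namespace Pool.Agent.VN

section Lists

variable {ι κ μ G H : Type*} [Group G] [Group H]

/-- the operator given by a list of elementary terms -/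
def opL (π : G →* H) (L : List (ℂ × κ × ι × G)) : L2 ι H →L[ℂ] L2 κ H :=
  (L.map fun t => t.1 • (elem t.2.1 (t.2.2.1, π t.2.2.2) : L2 ι H →L[ℂ] L2 κ H)).sum

lemma opL_nil (π : G →* H) : opL π ([] : List (ℂ × κ × ι × G)) = 0 := rfl

lemma opL_cons (π : G →* H) (t : ℂ × κ × ι × G) (L : List (ℂ × κ × ι × G)) :
    opL π (t :: L) = t.1 • elem t.2.1 (t.2.2.1, π t.2.2.2) + opL π L := by
  unfold opL
  rw [List.map_cons, List.sum_cons]

lemma opL_append (π : G →* H) (L L' : List (ℂ × κ × ι × G)) :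
    opL π (L ++ L') = opL π L + opL π L' := by
  unfold opL
  rw [List.map_append, List.sum_append]

/-- composition of lists -/
def compL (L : List (ℂ × κ × μ × G)) (L' : List (ℂ × μ × ι × G)) : List (ℂ × κ × ι × G) :=
  L.flatMap fun a => L'.map fun b =>
    (if a.2.2.1 = b.2.1 then a.1 * b.1 else 0, a.2.1, b.2.2.1, b.2.2.2 * a.2.2.2)

lemma elem_comp (j : κ) (p : μ × H) (j' : μ) (p' : ι × H) :
    (elem j p : L2 μ H →L[ℂ] L2 κ H) ∘L (elem j' p' : L2 ι H →L[ℂ] L2 μ H)
      = (if p.1 = j' then (1 : ℂ) else 0) • elem j (p'.1, p'.2 * p.2) := by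
  ext x q
  show (elem j p (elem j' p' x)) q = ((if p.1 = j' then (1 : ℂ) else 0)
    • (elem j (p'.1, p'.2 * p.2) x : L2 κ H)) q
  rw [lp.coeFn_smul, Pi.smul_apply, elem_apply, elem_apply, elem_apply, smul_eq_mul]
  by_cases h1 : q.1 = j <;> by_cases h2 : p.1 = j' <;> simp [h1, h2, mul_assoc]

lemma opL_comp_single (π : G →* H) (a : ℂ × κ × μ × G) (L' : List (ℂ × μ × ι × G)) :
    opL π (L'.map fun b =>
      (if a.2.2.1 = b.2.1 then a.1 * b.1 else 0, a.2.1, b.2.2.1, b.2.2.2 * a.2.2.2))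
      = (a.1 • (elem a.2.1 (a.2.2.1, π a.2.2.2) : L2 μ H →L[ℂ] L2 κ H)) ∘L opL π L' := by
  induction L' with
  | nil =>
    rw [List.map_nil, opL_nil, opL_nil]
    ext x
    simp
  | cons b L' ih =>
    rw [List.map_cons, opL_cons, ih, opL_cons, ContinuousLinearMap.comp_add]
    congr 1
    rw [ContinuousLinearMap.smul_comp, ContinuousLinearMap.comp_smul, elem_comp, smul_smul,
      smul_smul, map_mul]
    by_cases h : a.2.2.1 = b.2.1
    · simp [h]
    · simp [h]

lemma opL_comp (π : G →* H) (L : List (ℂ × κ × μ × G)) (L' : List (ℂ × μ × ι × G)) :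
    opL π (compL L L') = opL π L ∘L opL π L' := by
  induction L with
  | nil =>
    show opL π ([] : List (ℂ × κ × ι × G)) = opL π ([] : List (ℂ × κ × μ × G)) ∘L opL π L'
    rw [opL_nil, opL_nil, ContinuousLinearMap.zero_comp]
  | cons a L ih =>
    have e : compL (a :: L) L' = (L'.map fun b =>
      (if a.2.2.1 = b.2.1 then a.1 * b.1 else 0, a.2.1, b.2.2.1, b.2.2.2 * a.2.2.2))
        ++ compL L L' := by
      unfold compL
      rw [List.flatMap_cons]
    rw [e, opL_append, ih, opL_comp_single, opL_cons, ContinuousLinearMap.add_comp]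

/-- the adjoint list -/
def adjL (L : List (ℂ × κ × ι × G)) : List (ℂ × ι × κ × G) :=
  L.map fun t => (star t.1, t.2.2.1, t.2.1, t.2.2.2⁻¹)

lemma opL_adj (π : G →* H) (L : List (ℂ × κ × ι × G)) :
    opL π (adjL L) = ContinuousLinearMap.adjoint (opL π L) := by
  induction L with
  | nil =>
    show opL π ([] : List (ℂ × ι × κ × G)) = _
    rw [opL_nil, opL_nil, map_zero]
  | cons t L ih =>
    have e : adjL (t :: L) = (star t.1, t.2.2.1, t.2.1, t.2.2.2⁻¹) :: adjL L := rfl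
    rw [e, opL_cons, opL_cons, ih, map_add, LinearIsometryEquiv.map_smulₛₗ, adjoint_elem]
    congr 1
    simp

/-- scaling a list -/
def smulL (c : ℂ) (L : List (ℂ × κ × ι × G)) : List (ℂ × κ × ι × G) :=
  L.map fun t => (c * t.1, t.2)

lemma opL_smul (π : G →* H) (c : ℂ) (L : List (ℂ × κ × ι × G)) :
    opL π (smulL c L) = c • opL π L := by
  induction L with
  | nil =>
    show opL π ([] : List (ℂ × κ × ι × G)) = _
    rw [opL_nil, smul_zero]
  | cons t L ih =>
    have e : smulL c (t :: L) = (c * t.1, t.2) :: smulL c L := rfl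
    rw [e, opL_cons, opL_cons, ih, smul_add, smul_smul]

/-- the identity -/
def oneL (ι G : Type*) [Fintype ι] [Group G] : List (ℂ × ι × ι × G) :=
  (Finset.univ : Finset ι).toList.map fun i => (1, i, i, 1)

lemma opL_one [Fintype ι] (π : G →* H) : opL π (oneL ι G) = 1 := by
  unfold opL oneL
  rw [List.map_map]
  ext x q
  have h1 : ((Finset.univ : Finset ι).toList.map
      ((fun t : ℂ × ι × ι × G => t.1 • (elem t.2.1 (t.2.2.1, π t.2.2.2) : L2 ι H →L[ℂ] L2 ι H))
        ∘ fun i => ((1 : ℂ), i, i, (1 : G)))).sum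
      = ∑ i : ι, (elem i (i, (1 : H)) : L2 ι H →L[ℂ] L2 ι H) := by
    rw [← Finset.sum_map_toList]
    congr 1
    apply List.map_congr_left
    intro i _
    simp
  rw [h1, _root_.sum_apply, lp.coeFn_sum, Finset.sum_apply, Finset.sum_eq_single q.1]
  · rw [elem_apply, if_pos rfl]
    simp
  · intro i _ hi
    rw [elem_apply, if_neg hi.symm]
  · intro h
    exact absurd (Finset.mem_univ _) h

lemma opL_flatMap {σ : Type*} (π : G →* H) (l : List σ) (F : σ → List (ℂ × κ × ι × G)) :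
    opL π (l.flatMap F) = (l.map fun a => opL π (F a)).sum := by
  induction l with
  | nil => rfl
  | cons a l ih => rw [List.flatMap_cons, opL_append, ih, List.map_cons, List.sum_cons]

/-- the list of a family of forms -/
def famL [Fintype κ] (c : κ → (ι × G →₀ ℂ)) : List (ℂ × κ × ι × G) :=
  (Finset.univ : Finset κ).toList.flatMap fun j =>
    (c j).support.toList.map fun p => (c j p, j, p.1, p.2)

lemma opL_fam [Fintype κ] (π : G →* H) (c : κ → (ι × G →₀ ℂ)) :
    opL π (famL c) = mulR fun j => mapF π (c j) := by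
  have h1 : opL π (famL c) = ∑ j : κ, ∑ p ∈ (c j).support,
      (c j p) • (elem j (p.1, π p.2) : L2 ι H →L[ℂ] L2 κ H) := by
    unfold famL
    rw [opL_flatMap, ← Finset.sum_map_toList]
    congr 1
    apply List.map_congr_left
    intro j _
    unfold opL
    rw [List.map_map, ← Finset.sum_map_toList]
    rfl
  rw [h1]
  ext x q
  rw [mulR_apply, ev_mapF, _root_.sum_apply, lp.coeFn_sum, Finset.sum_apply,
    Finset.sum_eq_single q.1]
  · rw [_root_.sum_apply, lp.coeFn_sum, Finset.sum_apply]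
    refine Finset.sum_congr rfl fun p _ => ?_
    show ((c q.1 p) • (elem q.1 (p.1, π p.2) x : L2 κ H)) q = _
    rw [lp.coeFn_smul, Pi.smul_apply, elem_apply, if_pos rfl, smul_eq_mul]
  · intro j _ hj
    rw [_root_.sum_apply, lp.coeFn_sum, Finset.sum_apply]
    refine Finset.sum_eq_zero fun p _ => ?_
    show ((c j p) • (elem j (p.1, π p.2) x : L2 κ H)) q = _
    rw [lp.coeFn_smul, Pi.smul_apply, elem_apply, if_neg hj.symm, smul_zero]
  · intro h
    exact absurd (Finset.mem_univ _) h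

/-- the `ℓ¹` norm -/
def nL (L : List (ℂ × κ × ι × G)) : ℝ := (L.map fun t => ‖t.1‖).sum

lemma nL_nonneg (L : List (ℂ × κ × ι × G)) : 0 ≤ nL L := by
  unfold nL
  apply List.sum_nonneg
  intro x hx
  obtain ⟨t, _, rfl⟩ := List.mem_map.mp hx
  exact norm_nonneg _

lemma norm_pull_op_le {α β : Type*} (f : α → β) (hf : Function.Injective f) :
    ‖pull f hf‖ ≤ 1 := by
  refine ContinuousLinearMap.opNorm_le_bound _ zero_le_one fun x => ?_
  rw [one_mul]
  exact norm_pull_le f hf x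

lemma norm_elem_le (j : κ) (p : ι × H) : ‖(elem j p : L2 ι H →L[ℂ] L2 κ H)‖ ≤ 1 := by
  unfold elem
  refine le_trans (ContinuousLinearMap.opNorm_comp_le _ _) ?_
  have h2 : ‖push (fun g : H => (j, g)) (fun a b h => by simpa using h)‖ ≤ 1 := by
    unfold push
    rw [LinearIsometryEquiv.norm_map]
    exact norm_pull_op_le _ _
  have h3 : ‖pull (fun g : H => ((p.1, g * p.2⁻¹) : ι × H)) (fun a b h => by simpa using h)‖ ≤ 1 :=
    norm_pull_op_le _ _
  exact mul_le_one₀ h2 (norm_nonneg _) h3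

lemma norm_opL_le (π : G →* H) (L : List (ℂ × κ × ι × G)) : ‖opL π L‖ ≤ nL L := by
  induction L with
  | nil =>
    rw [opL_nil, norm_zero]
    exact nL_nonneg _
  | cons t L ih =>
    rw [opL_cons]
    have e : nL (t :: L) = ‖t.1‖ + nL L := by
      unfold nL
      rw [List.map_cons, List.sum_cons]
    rw [e]
    refine le_trans (norm_add_le _ _) (add_le_add ?_ ih)
    refine le_trans (norm_smul _ _).le ?_
    have := norm_elem_le (H := H) t.2.1 (t.2.2.1, π t.2.2.2)
    calc ‖t.1‖ * ‖(elem t.2.1 (t.2.2.1, π t.2.2.2) : L2 ι H →L[ℂ] L2 κ H)‖ ≤ ‖t.1‖ * 1 :=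
          mul_le_mul_of_nonneg_left this (norm_nonneg _)
      _ = ‖t.1‖ := mul_one _

lemma tr_elem [Fintype ι] (j i : ι) (g : H) :
    tr (elem j (i, g) : L2 ι H →L[ℂ] L2 ι H) = if j = i ∧ g = 1 then 1 else 0 := by
  unfold tr
  have h : ∀ k : ι, ⟪dl (k, (1 : H)), (elem j (i, g) (dl (k, (1 : H)) : L2 ι H) : L2 ι H)⟫_ℂ
      = if k = j then (if j = i ∧ g = 1 then 1 else 0) else 0 := by
    intro k
    rw [inner_dl_left, elem_apply, dl_apply]
    by_cases h1 : k = j
    · rw [if_pos h1, if_pos h1]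
      congr 1
      rw [eq_iff_iff]
      subst h1
      simp only [one_mul, Prod.mk.injEq, inv_eq_one]
      constructor
      · rintro ⟨h2, h3⟩
        exact ⟨h2.symm, h3⟩
      · rintro ⟨h2, h3⟩
        exact ⟨h2.symm, h3⟩
    · rw [if_neg h1, if_neg h1]
  simp only [h]
  simp

lemma tr_opL [Fintype ι] (π : G →* H) (L : List (ℂ × ι × ι × G)) :
    tr (opL π L) = (L.map fun t => if t.2.1 = t.2.2.1 ∧ π t.2.2.2 = 1 then t.1 else 0).sum := by
  induction L with
  | nil => rw [opL_nil, tr_zero]; rfl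
  | cons t L ih =>
    rw [opL_cons, tr_add, tr_smul, ih, tr_elem, List.map_cons, List.sum_cons]
    congr 1
    split_ifs <;> simp

end Lists

section Kernel

variable {ι κ G : Type*} [Group G]

/-- powers of `1 - T* T` dominate the projection on the kernel -/
lemma proj_le_pow {E F : Type*} [NormedAddCommGroup E] [InnerProductSpace ℂ E]
    [CompleteSpace E] [NormedAddCommGroup F] [InnerProductSpace ℂ F] [CompleteSpace F]
    (T : E →L[ℂ] F) (hT : ‖T‖ ≤ 1) (n : ℕ) (x : E) :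
    ‖(LinearMap.ker T.toLinearMap).starProjection x‖ ^ 2
      ≤ (⟪x, (((1 : E →L[ℂ] E) - (adjoint T) ∘L T) ^ n) x⟫_ℂ).re := by
  set B : E →L[ℂ] E := (1 : E →L[ℂ] E) - (adjoint T) ∘L T with hB
  set P := (LinearMap.ker T.toLinearMap).starProjection with hP
  have hBa : ∀ y, B y = y - adjoint T (T y) := fun y => by simp [hB]
  have hself : ∀ y z, ⟪B y, z⟫_ℂ = ⟪y, B z⟫_ℂ := by
    intro y z
    rw [hBa, hBa, inner_sub_left, inner_sub_right, adjoint_inner_left, adjoint_inner_right]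
  have hpow : ∀ (k : ℕ) (y z : E), ⟪(B ^ k) y, z⟫_ℂ = ⟪y, (B ^ k) z⟫_ℂ := by
    intro k
    induction k with
    | zero => intro y z; simp
    | succ k ih =>
      intro y z
      rw [pow_succ]
      show ⟪(B ^ k) (B y), z⟫_ℂ = ⟪y, (B ^ k) (B z)⟫_ℂ
      rw [ih, hself]
      have : B ((B ^ k) z) = (B ^ k) (B z) := by
        have h1 : (B * B ^ k) z = (B ^ k * B) z := by rw [← pow_succ, ← pow_succ']
        exact h1
      rw [this]
  have hPB : ∀ y, P (B y) = P y := by
    intro y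
    rw [hBa, map_sub, sub_eq_self, hP, Submodule.starProjection_apply_eq_zero_iff,
      Submodule.mem_orthogonal]
    intro w hw
    rw [adjoint_inner_right]
    have : T w = 0 := hw
    rw [this, inner_zero_left]
  have hPBk : ∀ (k : ℕ) (y : E), P ((B ^ k) y) = P y := by
    intro k
    induction k with
    | zero => intro y; simp
    | succ k ih =>
      intro y
      rw [pow_succ']
      show P (B ((B ^ k) y)) = P y
      rw [hPB, ih]
  have hPle : ∀ y, ‖P y‖ ^ 2 ≤ ‖y‖ ^ 2 := by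
    intro y
    have h := norm_sub_proj_sq (LinearMap.ker T.toLinearMap) y
    have : 0 ≤ ‖y - (LinearMap.ker T.toLinearMap).starProjection y‖ ^ 2 := by positivity
    rw [← hP] at *
    linarith
  rcases Nat.even_or_odd' n with ⟨k, hk | hk⟩
  · have e : ⟪x, (B ^ n) x⟫_ℂ = ⟪(B ^ k) x, (B ^ k) x⟫_ℂ := by
      rw [hk, two_mul, pow_add, hpow]
      rfl
    rw [e, inner_self_eq_norm_sq_to_K]
    have h1 := hPle ((B ^ k) x)
    rw [hPBk] at h1
    have h2 : ((((‖(B ^ k) x‖ : ℝ) : ℂ) ^ 2)).re = ‖(B ^ k) x‖ ^ 2 := by norm_cast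
    have h3 : ((RCLike.ofReal ‖(B ^ k) x‖ : ℂ) ^ 2).re = ‖(B ^ k) x‖ ^ 2 := h2
    rw [h3]
    exact h1
  · set y := (B ^ k) x with hy
    have e : ⟪x, (B ^ n) x⟫_ℂ = ⟪y, B y⟫_ℂ := by
      rw [hk, hy, hpow]
      have h4 : (B ^ (2 * k + 1)) x = (B ^ k) (B ((B ^ k) x)) := by
        have h5 : B ^ (2 * k + 1) = B ^ k * (B * B ^ k) := by
          rw [← pow_succ', ← pow_add]; congr 1; ring
        rw [h5]; rfl
      rw [h4]
    rw [e, hBa, inner_sub_right, adjoint_inner_right, inner_self_eq_norm_sq_to_K,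
      inner_self_eq_norm_sq_to_K]
    have h1 : P y = P x := hPBk k x
    have h2 := norm_sub_proj_sq (LinearMap.ker T.toLinearMap) y
    have h3 : T y = T (y - P y) := by
      rw [map_sub]
      have : T (P y) = 0 := (LinearMap.ker T.toLinearMap).starProjection_apply_mem y
      rw [this, sub_zero]
    have h4 : ‖T y‖ ^ 2 ≤ ‖y - P y‖ ^ 2 := by
      rw [h3]
      have h5 : ‖T (y - P y)‖ ≤ ‖y - P y‖ := by simpa using T.le_of_opNorm_le hT (y - P y)
      exact pow_le_pow_left₀ (norm_nonneg _) h5 2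
    rw [← hP, h1] at h2
    rw [h1] at h4
    have h6 : ((RCLike.ofReal ‖y‖ : ℂ) ^ 2 - (RCLike.ofReal ‖T y‖ : ℂ) ^ 2).re
        = ‖y‖ ^ 2 - ‖T y‖ ^ 2 := by
      have : ((((‖y‖ : ℝ) : ℂ) ^ 2) - (((‖T y‖ : ℝ) : ℂ) ^ 2)).re = ‖y‖ ^ 2 - ‖T y‖ ^ 2 := by
        norm_cast
      exact this
    rw [h6]
    linarith

lemma vdim_ker_le_tr [Fintype ι] (T : L2 ι G →L[ℂ] L2 κ G) (hT : ‖T‖ ≤ 1) (n : ℕ) :
    vdim ((LinearMap.ker T.toLinearMap : Submodule ℂ (L2 ι G)) : Set (L2 ι G))
      ≤ (tr (((1 : L2 ι G →L[ℂ] L2 ι G) - (adjoint T) ∘L T) ^ n)).re := by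
  rw [vdim_eq_sum]
  unfold tr
  rw [Complex.re_sum]
  exact Finset.sum_le_sum fun i _ => proj_le_pow T hT n _

lemma exists_tr_le [Fintype ι] (T : L2 ι G →L[ℂ] L2 κ G) (hT : ‖T‖ ≤ 1) {ε : ℝ} (hε : 0 < ε) :
    ∃ n : ℕ, (tr (((1 : L2 ι G →L[ℂ] L2 ι G) - (adjoint T) ∘L T) ^ n)).re
      ≤ vdim ((LinearMap.ker T.toLinearMap : Submodule ℂ (L2 ι G)) : Set (L2 ι G)) + ε := by
  by_contra hcon
  push Not at hcon
  have h1 := tr_avg_tendsto T hT
  have h2 := (Complex.continuous_re.tendsto _).comp h1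
  set v := vdim ((LinearMap.ker T.toLinearMap : Submodule ℂ (L2 ι G)) : Set (L2 ι G)) with hv
  have h3 : ∀ᶠ N : ℕ in atTop, v + ε ≤ (Complex.re ∘ fun N : ℕ => (N : ℂ)⁻¹ *
      ∑ n ∈ Finset.range N, tr (((1 : L2 ι G →L[ℂ] L2 ι G) - (adjoint T) ∘L T) ^ n)) N := by
    filter_upwards [eventually_gt_atTop 0] with N hN
    simp only [Function.comp_apply]
    have hN' : (0 : ℝ) < N := by exact_mod_cast hN
    have e : ((N : ℂ)⁻¹ * ∑ n ∈ Finset.range N,
        tr (((1 : L2 ι G →L[ℂ] L2 ι G) - (adjoint T) ∘L T) ^ n)).re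
        = (N : ℝ)⁻¹ * ∑ n ∈ Finset.range N,
          (tr (((1 : L2 ι G →L[ℂ] L2 ι G) - (adjoint T) ∘L T) ^ n)).re := by
      have h4 : ((N : ℂ)⁻¹) = (((N : ℝ)⁻¹ : ℝ) : ℂ) := by push_cast; rfl
      rw [h4, Complex.re_ofReal_mul, Complex.re_sum]
    rw [e]
    have h5 : (N : ℝ) * (v + ε) ≤ ∑ n ∈ Finset.range N,
        (tr (((1 : L2 ι G →L[ℂ] L2 ι G) - (adjoint T) ∘L T) ^ n)).re := by
      calc (N : ℝ) * (v + ε) = ∑ _n ∈ Finset.range N, (v + ε) := by
            rw [Finset.sum_const, Finset.card_range, nsmul_eq_mul]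
        _ ≤ _ := Finset.sum_le_sum fun n _ => (hcon n).le
    calc v + ε = (N : ℝ)⁻¹ * ((N : ℝ) * (v + ε)) := by field_simp
      _ ≤ _ := mul_le_mul_of_nonneg_left h5 (by positivity)
  have h4 := ge_of_tendsto h2 h3
  simp only [Complex.ofReal_re] at h4
  linarith

end Kernel

section Kazhdan

lemma mapF_eq' {ι G : Type*} [Group G] (a : ι × G →₀ ℂ) : mapF (MonoidHom.id G) a = a := by
  unfold mapF
  exact Finsupp.sum_single a

variable {ι : Type} [Fintype ι] {G : Type} [Group G]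

/-- Kazhdan's inequality. -/
theorem kazhdan {κ : Type} [Fintype κ] (c : κ → (ι × G →₀ ℂ)) {ε : ℝ} (hε : 0 < ε) :
    ∃ F : Finset G, (∀ g ∈ F, g ≠ 1) ∧ ∀ {H : Type} [Group H] (π : G →* H),
      (∀ g ∈ F, π g ≠ 1) →
      vdim (Sol (Set.range fun j => mapF π (c j)) : Set (L2 ι H))
        ≤ vdim (Sol (Set.range c) : Set (L2 ι G)) + ε := by
  set L := famL c with hL
  set r : ℝ := (nL L + 1)⁻¹ with hr
  have hn0 := nL_nonneg L
  have hr0 : 0 < r := by positivity
  set Lr := smulL (r : ℂ) L with hLr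
  have hnorm : ∀ {H : Type} [Group H] (π : G →* H), ‖opL π Lr‖ ≤ 1 := by
    intro H _ π
    rw [hLr, opL_smul, norm_smul, Complex.norm_real, Real.norm_of_nonneg hr0.le]
    have h1 := norm_opL_le π L
    calc r * ‖opL π L‖ ≤ r * (nL L + 1) := by
          apply mul_le_mul_of_nonneg_left _ hr0.le
          linarith
      _ = 1 := by rw [hr]; field_simp
  have hker : ∀ {H : Type} [Group H] (π : G →* H),
      LinearMap.ker (opL π Lr).toLinearMap = Sol (Set.range fun j => mapF π (c j)) := by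
    intro H _ π
    rw [← ker_mulR, ← opL_fam, hLr, opL_smul]
    ext x
    have hc : (r : ℂ) ≠ 0 := by exact_mod_cast hr0.ne'
    simp only [LinearMap.mem_ker, ContinuousLinearMap.coe_coe]
    have : ((r : ℂ) • opL π L) x = (r : ℂ) • opL π L x := rfl
    rw [this, smul_eq_zero_iff_right hc]
  set LB : List (ℂ × ι × ι × G) := oneL ι G ++ smulL (-1) (compL (adjL Lr) Lr) with hLB
  have hB : ∀ {H : Type} [Group H] (π : G →* H),
      opL π LB = 1 - (adjoint (opL π Lr)) ∘L (opL π Lr) := by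
    intro H _ π
    rw [hLB, opL_append, opL_one, opL_smul, opL_comp, opL_adj, neg_one_smul, sub_eq_add_neg]
  -- powers
  have hpow : ∀ n : ℕ, ∃ Ln : List (ℂ × ι × ι × G), ∀ {H : Type} [Group H] (π : G →* H),
      opL π Ln = (1 - (adjoint (opL π Lr)) ∘L (opL π Lr)) ^ n := by
    intro n
    induction n with
    | zero =>
      refine ⟨oneL ι G, fun {H} _ π => ?_⟩
      rw [opL_one, pow_zero]
    | succ n ih =>
      obtain ⟨Ln, hLn⟩ := ih
      refine ⟨compL Ln LB, fun {H} _ π => ?_⟩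
      rw [opL_comp, hLn, hB, pow_succ]
      rfl
  obtain ⟨n, hn⟩ := exists_tr_le (opL (MonoidHom.id G) Lr) (hnorm _) hε
  obtain ⟨Ln, hLn⟩ := hpow n
  have hid : LinearMap.ker (opL (MonoidHom.id G) Lr).toLinearMap = Sol (Set.range c) := by
    rw [hker]
    congr 2
    funext j
    rw [mapF_eq']
  rw [hid, ← hLn] at hn
  refine ⟨(Ln.map fun t => t.2.2.2).toFinset.filter fun g => g ≠ 1, ?_, ?_⟩
  · intro g hg
    exact (Finset.mem_filter.mp hg).2
  · intro H _ π hπ
    have h1 := vdim_ker_le_tr (opL π Lr) (hnorm π) n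
    rw [hker, ← hLn] at h1
    refine le_trans h1 (le_trans (le_of_eq ?_) hn)
    congr 1
    rw [tr_opL, tr_opL]
    congr 1
    apply List.map_congr_left
    intro t ht
    have h2 : (π t.2.2.2 = 1) ↔ (MonoidHom.id G t.2.2.2 = 1) := by
      constructor
      · intro h
        by_contra hne
        exact hπ t.2.2.2 (Finset.mem_filter.mpr
          ⟨List.mem_toFinset.mpr (List.mem_map.mpr ⟨t, ht, rfl⟩), hne⟩) h
      · intro h
        have h' : t.2.2.2 = 1 := h
        rw [h', map_one]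
    simp only [h2]

end Kazhdan

end Pool.Agent.VN
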