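import Pool.Agent.VN.Prod

set_option autoImplicit false
set_option linter.unusedSectionVars false

noncomputable section

open scoped InnerProductSpace ENNReal Topology
open Classical Filter ContinuousLinearMap

namespace Pool.Agent.VN

variable {G H : Type*} [Group G] [Group H]

/-- coefficients in a subring -/
def CoefIn {α : Type*} (k : Subring ℂ) (a : α →₀ ℂ) : Prop := ∀ p, a p ∈ k

lemma coefIn_single {α : Type*} (k : Subring ℂ) (p : α) (c : ℂ) (hc : c ∈ k) :
    CoefIn k (Finsupp.single p c) := by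
  intro q
  rw [Finsupp.single_apply]
  split_ifs
  · exact hc
  · exact k.zero_mem

lemma coefIn_sum {α σ : Type*} (k : Subring ℂ) (s : Finset σ) (f : σ → (α →₀ ℂ))
    (hf : ∀ i ∈ s, CoefIn k (f i)) : CoefIn k (∑ i ∈ s, f i) := by
  intro q
  rw [Finsupp.finsetSum_apply]
  exact k.sum_mem fun i hi => hf i hi q

lemma coefIn_mapF {ι : Type*} {k : Subring ℂ} (f : G →* H) {a : ι × G →₀ ℂ} (ha : CoefIn k a) :
    CoefIn k (mapF f a) :=
  coefIn_sum _ _ _ fun p _ => coefIn_single _ _ _ (ha p)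

lemma coefIn_leftF {ι ι' : Type*} {k : Subring ℂ} (j : ι') {a : ι × G →₀ ℂ} (ha : CoefIn k a) :
    CoefIn k (leftF (H := H) j a) :=
  coefIn_sum _ _ _ fun p _ => coefIn_single _ _ _ (ha p)

lemma coefIn_rightF {ι ι' : Type*} {k : Subring ℂ} (i : ι) {a : ι' × H →₀ ℂ} (ha : CoefIn k a) :
    CoefIn k (rightF (G := G) i a) :=
  coefIn_sum _ _ _ fun p _ => coefIn_single _ _ _ (ha p)

/-- The set of von Neumann dimensions of solution spaces of finite systems with coefficients in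
`k`. -/
def Dset (k : Subring ℂ) (G : Type*) [Group G] : Set ℝ :=
  {x | ∃ (ι : Type) (_ : Fintype ι) (C : Set (ι × G →₀ ℂ)), C.Finite ∧ (∀ a ∈ C, CoefIn k a) ∧
    vdim (Sol C : Set (L2 ι G)) = x}

lemma Dset_map (k : Subring ℂ) (f : G →* H) (hf : Function.Injective f) : Dset k G ⊆ Dset k H := by
  rintro x ⟨ι, hι, C, hC, hk, rfl⟩
  refine ⟨ι, hι, mapF f '' C, hC.image _, ?_, vdim_induced f hf C⟩
  rintro _ ⟨a, ha, rfl⟩
  exact coefIn_mapF f (hk a ha)

lemma Dset_mul (k : Subring ℂ) {x y : ℝ} (hx : x ∈ Dset k G) (hy : y ∈ Dset k H) :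
    x * y ∈ Dset k (G × H) := by
  obtain ⟨ι, hι, C, hC, hk, rfl⟩ := hx
  obtain ⟨ι', hι', C', hC', hk', rfl⟩ := hy
  refine ⟨ι × ι', inferInstance, prodC C C', ?_, ?_, vdim_prod C C'⟩
  · have h1 : (⋃ j : ι', (fun a => (leftF j a : (ι × ι') × (G × H) →₀ ℂ)) '' C).Finite :=
      Set.finite_iUnion fun j => hC.image _
    have h2 : (⋃ i : ι, (fun a => (rightF i a : (ι × ι') × (G × H) →₀ ℂ)) '' C').Finite :=
      Set.finite_iUnion fun j => hC'.image _
    refine (h1.union h2).subset ?_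
    rintro c (⟨j, a, ha, rfl⟩ | ⟨i, b, hb, rfl⟩)
    · exact Or.inl (Set.mem_iUnion.mpr ⟨j, a, ha, rfl⟩)
    · exact Or.inr (Set.mem_iUnion.mpr ⟨i, b, hb, rfl⟩)
  · rintro c (⟨j, a, ha, rfl⟩ | ⟨i, b, hb, rfl⟩)
    · exact coefIn_leftF j (hk a ha)
    · exact coefIn_rightF i (hk' b hb)

lemma Dset_nat (k : Subring ℂ) (n : ℕ) : (n : ℝ) ∈ Dset k G := by
  refine ⟨Fin n, inferInstance, ∅, Set.finite_empty, by simp, ?_⟩
  have : Sol (∅ : Set (Fin n × G →₀ ℂ)) = ⊤ := by
    rw [eq_top_iff]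
    intro x _ a ha
    exact absurd ha (Set.notMem_empty a)
  rw [this, vdim_top, Fintype.card_fin]

section reduce

variable {ι : Type*} [Fintype ι]

/-- the equation `x_i = 0` -/
def eqn (i : ι) : ι × G →₀ ℂ := Finsupp.single (i, 1) 1

/-- coordinate projection -/
def coordMap (i : ι) : L2 ι G →L[ℂ] L2 Unit G := mulR fun _ : Unit => eqn i

lemma Sol_union (C D : Set (ι × G →₀ ℂ)) : Sol (C ∪ D) = Sol C ⊓ Sol D := by
  ext x
  constructor
  · intro h
    exact ⟨fun a ha => h a (Or.inl ha), fun a ha => h a (Or.inr ha)⟩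
  · rintro ⟨h1, h2⟩ a (ha | ha)
    · exact h1 a ha
    · exact h2 a ha

lemma ker_coordMap (i : ι) :
    LinearMap.ker (coordMap (G := G) i).toLinearMap = Sol {eqn i} := by
  rw [coordMap, ker_mulR]
  congr 1
  ext a
  simp

lemma drop_le_one (K : Submodule ℂ (L2 ι G)) (hK : Invar K) (hKc : IsClosed (K : Set (L2 ι G)))
    (i : ι) : vdim (K : Set (L2 ι G)) - vdim ((K ⊓ Sol {eqn i} : Submodule ℂ (L2 ι G)) :
      Set (L2 ι G)) ≤ 1 := by
  have h := vdim_map (mulR_equivar fun _ : Unit => eqn (G := G) i) hK hKc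
  have h2 := vdim_le_card (K.map (mulR fun _ : Unit => eqn (G := G) i).toLinearMap)
  have h3 : LinearMap.ker (mulR fun _ : Unit => eqn (G := G) i).toLinearMap = Sol {eqn i} :=
    ker_coordMap i
  rw [h3] at h
  rw [Fintype.card_unit, Nat.cast_one] at h2
  linarith

lemma drop_mono (K L : Submodule ℂ (L2 ι G)) (hK : Invar K) (hKc : IsClosed (K : Set (L2 ι G)))
    (hL : Invar L) (hLc : IsClosed (L : Set (L2 ι G))) (hKL : K ≤ L) (i : ι) :
    vdim (K : Set (L2 ι G)) - vdim ((K ⊓ Sol {eqn i} : Submodule ℂ (L2 ι G)) : Set (L2 ι G))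
      ≤ vdim (L : Set (L2 ι G)) - vdim ((L ⊓ Sol {eqn i} : Submodule ℂ (L2 ι G)) :
        Set (L2 ι G)) := by
  have h := vdim_map (mulR_equivar fun _ : Unit => eqn (G := G) i) hK hKc
  have h' := vdim_map (mulR_equivar fun _ : Unit => eqn (G := G) i) hL hLc
  have h3 : LinearMap.ker (mulR fun _ : Unit => eqn (G := G) i).toLinearMap = Sol {eqn i} :=
    ker_coordMap i
  rw [h3] at h h'
  have h4 := vdim_mono (Submodule.map_mono
    (f := (mulR fun _ : Unit => eqn (G := G) i).toLinearMap) hKL)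
  linarith

lemma Sol_all (C : Set (ι × G →₀ ℂ)) (hC : ∀ i, eqn i ∈ C) : Sol C = ⊥ := by
  rw [Submodule.eq_bot_iff]
  intro x hx
  ext p
  obtain ⟨i, g⟩ := p
  have h := hx _ (hC i) g
  unfold eqn at h
  rw [ev_single] at h
  simpa using h

/-- If some system has a non-integral dimension, then adding equations `x_i = 0` we can reach a
dimension strictly between `0` and `1`. -/
lemma exists_small (C : Set (ι × G →₀ ℂ))
    (hC : ¬ ∃ d : ℤ, vdim (Sol C : Set (L2 ι G)) = d) :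
    ∃ I : Finset ι, 0 < vdim (Sol (C ∪ (fun i => eqn i) '' (I : Set ι)) : Set (L2 ι G)) ∧
      vdim (Sol (C ∪ (fun i => eqn i) '' (I : Set ι)) : Set (L2 ι G)) < 1 := by
  set f : Finset ι → ℝ := fun I =>
    vdim (Sol (C ∪ (fun i => eqn i) '' (I : Set ι)) : Set (L2 ι G)) with hf
  have hadd : ∀ (I : Finset ι) (i : ι), f (insert i I)
      = vdim ((Sol (C ∪ (fun i => eqn i) '' (I : Set ι)) ⊓ Sol {eqn i} : Submodule ℂ (L2 ι G)) :
        Set (L2 ι G)) := by
    intro I i
    rw [hf]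
    simp only [Finset.coe_insert, Set.image_insert_eq, Set.union_insert]
    rw [← Sol_union, Set.union_singleton]
  have hanti : ∀ I J : Finset ι, I ⊆ J →
      Sol (C ∪ (fun i => eqn i) '' (J : Set ι)) ≤ Sol (C ∪ (fun i => eqn (G := G) i) '' (I : Set ι)) := by
    intro I J hIJ x hx a ha
    apply hx
    rcases ha with ha | ⟨i, hi, rfl⟩
    · exact Or.inl ha
    · exact Or.inr ⟨i, hIJ hi, rfl⟩
  have hfuniv : f Finset.univ = 0 := by
    rw [hf]
    simp only
    rw [Sol_all _ (fun i => Or.inr ⟨i, by simp, rfl⟩), vdim_bot]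
  -- a maximal set with non-integral value
  obtain ⟨I, hI, hmax⟩ : ∃ I : Finset ι, (¬ ∃ d : ℤ, f I = d) ∧
      ∀ J : Finset ι, I ⊂ J → ∃ d : ℤ, f J = d := by
    have hne : (Finset.univ.filter fun I : Finset ι => ¬ ∃ d : ℤ, f I = d).Nonempty := by
      refine ⟨∅, ?_⟩
      rw [Finset.mem_filter]
      refine ⟨Finset.mem_univ _, ?_⟩
      rw [hf]
      simpa using hC
    obtain ⟨I, hI, hmax⟩ := Finset.exists_max_image _ Finset.card hne
    rw [Finset.mem_filter] at hI
    refine ⟨I, hI.2, fun J hJ => ?_⟩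
    by_contra hJ2
    have := hmax J (by rw [Finset.mem_filter]; exact ⟨Finset.mem_univ _, hJ2⟩)
    exact absurd (Finset.card_lt_card hJ) (by omega)
  refine ⟨I, ?_⟩
  have hpos : 0 ≤ f I := vdim_nonneg _
  have h0 : f I ≠ 0 := fun h => hI ⟨0, by rw [h]; simp⟩
  refine ⟨lt_of_le_of_ne hpos h0.symm, ?_⟩
  by_contra hge
  push Not at hge
  have hgt : 1 < f I := lt_of_le_of_ne hge fun h => hI ⟨1, by rw [← h]; simp⟩
  have hInv : ∀ J : Finset ι, Invar (Sol (C ∪ (fun i => eqn (G := G) i) '' (J : Set ι))) :=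
    fun J => Sol_invar _
  have hCl : ∀ J : Finset ι, IsClosed ((Sol (C ∪ (fun i => eqn (G := G) i) '' (J : Set ι)) :
      Submodule ℂ (L2 ι G)) : Set (L2 ι G)) := fun J => Sol_closed _
  -- every single further equation keeps the dimension positive
  have hstep : ∀ i ∉ I, 0 < f (insert i I) ∧ f I - f (insert i I) < 1 := by
    intro i hi
    have h1 : f I - f (insert i I) ≤ 1 := by
      rw [hadd]
      exact drop_le_one _ (hInv I) (hCl I) i
    obtain ⟨d, hd⟩ := hmax (insert i I) (Finset.ssubset_insert hi)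
    refine ⟨by linarith, lt_of_le_of_ne h1 fun h => hI ⟨d + 1, ?_⟩⟩
    push_cast
    rw [← hd]
    linarith
  have hIuniv : I ≠ Finset.univ := fun h => by rw [h, hfuniv] at hgt; linarith
  obtain ⟨i₀, hi₀⟩ : ∃ i, i ∉ I := by
    by_contra hcon
    push Not at hcon
    exact hIuniv (Finset.eq_univ_iff_forall.mpr hcon)
  -- a maximal proper superset with positive dimension
  obtain ⟨J, hIJ, hJpos, hJmax⟩ : ∃ J : Finset ι, I ⊂ J ∧ 0 < f J ∧
      ∀ J' : Finset ι, J ⊂ J' → ¬ 0 < f J' := by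
    have hne : (Finset.univ.filter fun J : Finset ι => I ⊂ J ∧ 0 < f J).Nonempty := by
      refine ⟨insert i₀ I, ?_⟩
      rw [Finset.mem_filter]
      exact ⟨Finset.mem_univ _, Finset.ssubset_insert hi₀, (hstep i₀ hi₀).1⟩
    obtain ⟨J, hJ, hmaxJ⟩ := Finset.exists_max_image _ Finset.card hne
    rw [Finset.mem_filter] at hJ
    refine ⟨J, hJ.2.1, hJ.2.2, fun J' hJ' hpos' => ?_⟩
    have := hmaxJ J' (by
      rw [Finset.mem_filter]
      exact ⟨Finset.mem_univ _, hJ.2.1.trans hJ', hpos'⟩)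
    exact absurd (Finset.card_lt_card hJ') (by omega)
  have hJuniv : J ≠ Finset.univ := fun h => by rw [h, hfuniv] at hJpos; linarith
  obtain ⟨i, hi⟩ : ∃ i, i ∉ J := by
    by_contra hcon
    push Not at hcon
    exact hJuniv (Finset.eq_univ_iff_forall.mpr hcon)
  have hiI : i ∉ I := fun h => hi (hIJ.1 h)
  have hz : f (insert i J) = 0 := by
    have h1 := hJmax (insert i J) (Finset.ssubset_insert hi)
    have h2 : 0 ≤ f (insert i J) := vdim_nonneg _
    exact le_antisymm (not_lt.mp h1) h2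
  have hdrop : f J - f (insert i J) ≤ f I - f (insert i I) := by
    rw [hadd, hadd]
    exact drop_mono _ _ (hInv J) (hCl J) (hInv I) (hCl I) (hanti I J hIJ.1) i
  obtain ⟨d, hd⟩ := hmax J hIJ
  have hd1 : (1 : ℝ) ≤ d := by
    have : (0 : ℝ) < d := by rw [← hd]; exact hJpos
    exact_mod_cast this
  have := (hstep i hiI).2
  linarith

end reduce

lemma Dset_small (k : Subring ℂ) {x : ℝ} (hx : x ∈ Dset k G) (hn : ¬ ∃ d : ℤ, x = d) :
    ∃ y ∈ Dset k G, 0 < y ∧ y < 1 := by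
  obtain ⟨ι, hι, C, hC, hk, rfl⟩ := hx
  obtain ⟨I, h0, h1⟩ := exists_small C hn
  refine ⟨_, ⟨ι, hι, C ∪ (fun i => eqn i) '' (I : Set ι), ?_, ?_, rfl⟩, h0, h1⟩
  · exact hC.union ((Finset.finite_toSet I).image _)
  · rintro a (ha | ⟨i, _, rfl⟩)
    · exact hk a ha
    · exact coefIn_single _ _ _ k.one_mem

/-- Dichotomy: over a group containing its own square, the dimensions are either all integral or
dense in the half line. -/
theorem Dset_dichotomy (k : Subring ℂ) (f : G × G →* G) (hf : Function.Injective f) :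
    (∀ x ∈ Dset k G, ∃ d : ℤ, x = d) ∨
      ∀ a b : ℝ, 0 ≤ a → a < b → ∃ x ∈ Dset k G, a < x ∧ x < b := by
  by_cases h : ∀ x ∈ Dset k G, ∃ d : ℤ, x = d
  · exact Or.inl h
  right
  push Not at h
  obtain ⟨x, hx, hn⟩ := h
  obtain ⟨y, hy, hy0, hy1⟩ := Dset_small k hx (by push Not; exact hn)
  have hmul : ∀ u ∈ Dset k G, ∀ v ∈ Dset k G, u * v ∈ Dset k G := fun u hu v hv =>
    Dset_map k f hf (Dset_mul k hu hv)
  have hpow : ∀ n : ℕ, y ^ (n + 1) ∈ Dset k G := by
    intro n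
    induction n with
    | zero => simpa using hy
    | succ n ih => rw [pow_succ]; exact hmul _ ih _ hy
  intro a b ha hab
  obtain ⟨n, hn'⟩ := exists_pow_lt_of_lt_one (show 0 < b - a by linarith) hy1
  set z := y ^ (n + 1) with hz
  have hz0 : 0 < z := by positivity
  have hzlt : z < b - a := by
    refine lt_of_le_of_lt ?_ hn'
    rw [hz, pow_succ]
    exact mul_le_of_le_one_right (by positivity) hy1.le
  refine ⟨((⌊a / z⌋₊ + 1 : ℕ) : ℝ) * z, hmul _ (Dset_nat k _) _ (hpow n), ?_, ?_⟩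
  · have := Nat.lt_floor_add_one (a / z)
    rw [div_lt_iff₀ hz0] at this
    push_cast
    exact this
  · have := Nat.floor_le (div_nonneg ha hz0.le)
    rw [le_div_iff₀ hz0] at this
    push_cast
    nlinarith

end Pool.Agent.VN
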