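import Pool.Agent.VN.Prod

set_option autoImplicit false
set_option linter.unusedSectionVars false

noncomputable section

open scoped InnerProductSpace ENNReal Topology
open Classical Filter ContinuousLinearMap

/-!
The dimension formula for free products. Let `G` be a group with homomorphisms `f i : A i →* G`
and sets `X i ⊆ G` (the elements whose normal form does not begin with a letter of `A i`)
as in the structure `Secs`. For linear systems `C i` over the groups `A i`, the dimension of the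
solution space over `G` of all the systems together is
`∑ i, dim (L i) - (n - 1) * dim S`, where `S` is the space of values at `1` of the solutions
and `L i` is the space of solutions of `C i` over `A i` with values in `S`.
-/

namespace Pool.Agent.VN

section Idem

variable {ι G : Type*} [Group G]

/-- An equivariant operator with values in `K` which is the identity on `K` has trace `vdim K`. -/
lemma tr_idem [Fintype ι] {K : Submodule ℂ (L2 ι G)} (hK : Invar K)
    (hKc : IsClosed (K : Set (L2 ι G))) {T : L2 ι G →L[ℂ] L2 ι G} (hT : Equivar T)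
    (h1 : ∀ x, T x ∈ K) (h2 : ∀ x ∈ K, T x = x) : tr T = (vdim (K : Set (L2 ι G)) : ℝ) := by
  have c1 : CompleteSpace K := hKc.completeSpace_coe
  have e1 : K.starProjection ∘L T = T := by
    ext1 x
    exact Submodule.starProjection_eq_self_iff.mpr (h1 x)
  have e2 : T ∘L K.starProjection = K.starProjection := by
    ext1 x
    exact h2 _ (Submodule.starProjection_apply_mem _ _)
  rw [← tr_proj, ← e2, ← tr_comm hT hK.proj, e1]

end Idem

section Tens

variable {α β : Type*}

/-- tensoring with a fixed vector, as an operator -/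
def tensL (v : Ell β) : Ell α →L[ℂ] Ell (α × β) :=
  LinearMap.mkContinuous
    { toFun := fun u => tens u v
      map_add' := fun u u' => by
        ext p
        show (u + u' : Ell α) p.1 * v p.2 = _
        rw [lp.coeFn_add, Pi.add_apply, add_mul]
        rfl
      map_smul' := fun c u => by
        ext p
        show (c • u : Ell α) p.1 * v p.2 = _
        rw [lp.coeFn_smul, Pi.smul_apply, smul_eq_mul, mul_assoc]
        rfl }
    ‖v‖ (fun u => by
      have h := norm_tens_sq u v
      have h2 : ‖tens u v‖ ^ 2 = (‖v‖ * ‖u‖) ^ 2 := by rw [h]; ring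
      exact le_of_eq ((pow_left_inj₀ (norm_nonneg _) (by positivity) two_ne_zero).mp h2))

@[simp] lemma tensL_apply (v : Ell β) (u : Ell α) (p : α × β) :
    tensL v u p = u p.1 * v p.2 := rfl

end Tens

/-- The sections of a free product: `X i` is the set of elements whose normal form does not
begin with a letter of the `i`-th factor. -/
structure Secs {I : Type*} {A : I → Type*} [∀ i, Group (A i)] {G : Type*} [Group G]
    (f : ∀ i, A i →* G) (X : I → Set G) : Prop where
  one : ∀ i, (1 : G) ∈ X i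
  bij : ∀ i, Function.Bijective (fun p : A i × X i => f i p.1 * (p.2 : G))
  other : ∀ i j, j ≠ i → ∀ x ∈ X i, ∀ b : A j, x * f j b ∈ X i
  same : ∀ i, ∀ x ∈ X i, x ≠ 1 → ∀ a : A i, x * f i a ∈ X i
  cnt : ∀ g : G, g ≠ 1 → ∃ i, g ∉ X i ∧ ∀ j, j ≠ i → g ∈ X j

section Core

variable {ι I : Type*} {A : I → Type*} [∀ i, Group (A i)] {G : Type*} [Group G]
  {f : ∀ i, A i →* G} {X : I → Set G}

lemma Secs.inj (hX : Secs f X) (i : I) : Function.Injective (f i) := by
  intro a b h
  have h1 := (hX.bij i).1 (a₁ := (a, ⟨1, hX.one i⟩)) (a₂ := (b, ⟨1, hX.one i⟩)) (by simp [h])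
  exact congrArg Prod.fst h1

/-- the decomposition of `G` -/
def Secs.dec (hX : Secs f X) (i : I) : G ≃ A i × X i := (Equiv.ofBijective _ (hX.bij i)).symm

lemma Secs.dec_mul (hX : Secs f X) (i : I) (a : A i) (x : X i) :
    hX.dec i (f i a * x) = (a, x) := by
  unfold Secs.dec
  rw [Equiv.symm_apply_eq]
  rfl

lemma Secs.dec_eq (hX : Secs f X) (i : I) (g : G) :
    f i (hX.dec i g).1 * ((hX.dec i g).2 : G) = g :=
  (Equiv.ofBijective _ (hX.bij i)).apply_symm_apply g

lemma Secs.dec_of_mem (hX : Secs f X) (i : I) {g : G} (hg : g ∈ X i) :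
    hX.dec i g = (1, ⟨g, hg⟩) := by
  have := hX.dec_mul i 1 ⟨g, hg⟩
  simpa using this

lemma Secs.dec_fst_ne (hX : Secs f X) (i : I) {g : G} (hg : g ∉ X i) : (hX.dec i g).1 ≠ 1 := by
  intro h
  apply hg
  have h1 := hX.dec_eq i g
  rw [h, map_one, one_mul] at h1
  rw [← h1]
  exact (hX.dec i g).2.2

/-- reindexing of the coordinates -/
def Secs.eqv (hX : Secs f X) (ι : Type*) (i : I) : ι × G ≃ A i × (ι × X i) where
  toFun p := ((hX.dec i p.2).1, (p.1, (hX.dec i p.2).2))
  invFun q := (q.2.1, f i q.1 * q.2.2)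
  left_inv p := by
    show (p.1, _) = p
    rw [hX.dec_eq]
  right_inv q := by
    show ((hX.dec i (f i q.1 * q.2.2)).1, (q.2.1, (hX.dec i (f i q.1 * q.2.2)).2)) = q
    rw [hX.dec_mul]

/-- restriction to the `i`-th factor -/
def Secs.res (hX : Secs f X) (ι : Type*) (i : I) : L2 ι G →L[ℂ] L2 ι (A i) :=
  pull _ (injIdx (ι := ι) (f i) (hX.inj i))

@[simp] lemma Secs.res_apply (hX : Secs f X) (i : I) (z : L2 ι G) (p : ι × A i) :
    hX.res ι i z p = z (p.1, f i p.2) := rfl

lemma Secs.res_lt (hX : Secs f X) (i : I) (b : A i) (z : L2 ι G) :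
    hX.res ι i (lt (f i b) z) = lt b (hX.res ι i z) := by
  ext p
  rw [lt_apply, hX.res_apply, hX.res_apply, lt_apply]
  simp

lemma Secs.res_mem (hX : Secs f X) (i : I) {C : Set (ι × A i →₀ ℂ)} {z : L2 ι G}
    (hz : z ∈ Sol (mapF (f i) '' C)) : hX.res ι i z ∈ Sol C := by
  intro a ha g
  have h1 := hz _ ⟨a, ha, rfl⟩ (f i g)
  rw [ev_mapF] at h1
  rw [ev_def, ← h1]
  refine Finset.sum_congr rfl fun p _ => ?_
  rw [hX.res_apply]
  simp

/-- the values at `g` -/
def valAt (g : G) : L2 ι G →ₗ[ℂ] (ι → ℂ) where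
  toFun z k := z (k, g)
  map_add' x y := by
    funext k
    show (x + y : L2 ι G) (k, g) = _
    rw [lp.coeFn_add]
    rfl
  map_smul' c x := by
    funext k
    show (c • x : L2 ι G) (k, g) = _
    rw [lp.coeFn_smul]
    rfl

@[simp] lemma valAt_apply (g : G) (z : L2 ι G) (k : ι) : valAt g z k = z (k, g) := rfl

/-- extension from the `i`-th factor by the sections `m v` -/
def Secs.ext (hX : Secs f X) [Fintype ι] (m : (ι → ℂ) →ₗ[ℂ] L2 ι G) (i : I) :
    L2 ι (A i) →L[ℂ] L2 ι G :=
  ∑ l : ι, (pull (hX.eqv ι i) (hX.eqv ι i).injective) ∘L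
    (tensL (pull (fun p : ι × X i => ((p.1, (p.2 : G)) : ι × G))
      (by
        rintro ⟨a, b⟩ ⟨c, d⟩ h
        simp only [Prod.mk.injEq] at h
        exact Prod.ext h.1 (Subtype.ext h.2)) (m (Pi.single l 1)))) ∘L
    (pull (fun a : A i => ((l, a) : ι × A i)) (fun _ _ h => by simpa using h))

lemma lin_expand [Fintype ι] {E : Type*} [AddCommGroup E] [Module ℂ E] (m : (ι → ℂ) →ₗ[ℂ] E)
    (v : ι → ℂ) : m v = ∑ l, v l • m (Pi.single l 1) := by
  conv_lhs => rw [← Finset.univ_sum_single v]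
  rw [map_sum]
  refine Finset.sum_congr rfl fun l _ => ?_
  rw [← map_smul]
  congr 1
  ext k
  by_cases h : k = l
  · subst h; simp
  · simp [Pi.single_eq_of_ne h]

lemma Secs.ext_apply (hX : Secs f X) [Fintype ι] (m : (ι → ℂ) →ₗ[ℂ] L2 ι G) (i : I)
    (ξ : L2 ι (A i)) (k : ι) (g : G) :
    hX.ext m i ξ (k, g) = m (valAt (hX.dec i g).1 ξ) (k, ((hX.dec i g).2 : G)) := by
  rw [lin_expand m]
  unfold Secs.ext
  rw [_root_.sum_apply, lp.coeFn_sum, Finset.sum_apply, lp.coeFn_sum, Finset.sum_apply]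
  refine Finset.sum_congr rfl fun l _ => ?_
  rw [lp.coeFn_smul, Pi.smul_apply, smul_eq_mul]
  rfl

lemma Secs.ext_mul (hX : Secs f X) [Fintype ι] (m : (ι → ℂ) →ₗ[ℂ] L2 ι G) (i : I)
    (ξ : L2 ι (A i)) (k : ι) (a : A i) {x : G} (hx : x ∈ X i) :
    hX.ext m i ξ (k, f i a * x) = m (valAt a ξ) (k, x) := by
  rw [hX.ext_apply, hX.dec_mul i a ⟨x, hx⟩]

lemma Secs.ext_lt (hX : Secs f X) [Fintype ι] (m : (ι → ℂ) →ₗ[ℂ] L2 ι G) (i : I) (b : A i)
    (ξ : L2 ι (A i)) : hX.ext m i (lt b ξ) = lt (f i b) (hX.ext m i ξ) := by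
  ext p
  obtain ⟨k, g⟩ := p
  obtain ⟨⟨a, x⟩, rfl⟩ := (hX.bij i).2 g
  show hX.ext m i (lt b ξ) (k, f i a * x) = hX.ext m i ξ (k, (f i b)⁻¹ * (f i a * x))
  rw [hX.ext_mul m i _ k a x.2]
  have e : (f i b)⁻¹ * (f i a * (x : G)) = f i (b⁻¹ * a) * x := by
    rw [map_mul, map_inv, mul_assoc]
  rw [e, hX.ext_mul m i _ k _ x.2]
  rfl

end Core

section Formula

variable {ι I : Type*} {A : I → Type*} [∀ i, Group (A i)] {G : Type*} [Group G]
  {f : ∀ i, A i →* G} {X : I → Set G}

/-- the scalar equations `v = π v` -/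
def scalF [Fintype ι] (B : Type*) [Group B] (π : (ι → ℂ) →ₗ[ℂ] (ι → ℂ)) (k : ι) : ι × B →₀ ℂ :=
  ∑ l : ι, Finsupp.single (l, (1 : B)) ((Pi.single l (1 : ℂ) : ι → ℂ) k - π (Pi.single l 1) k)

lemma ev_scalF [Fintype ι] {B : Type*} [Group B] (π : (ι → ℂ) →ₗ[ℂ] (ι → ℂ)) (k : ι)
    (ξ : L2 ι B) (b : B) : ev (scalF B π k) ξ b = valAt b ξ k - π (valAt b ξ) k := by
  unfold scalF
  rw [ev_finsetSum]
  rw [lin_expand π (valAt b ξ)]
  have h2 : valAt b ξ k = ∑ l, valAt b ξ l * (Pi.single l (1 : ℂ) : ι → ℂ) k := by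
    have := congrFun (lin_expand (LinearMap.id : (ι → ℂ) →ₗ[ℂ] (ι → ℂ)) (valAt b ξ)) k
    simpa using this
  rw [h2, Finset.sum_apply, ← Finset.sum_sub_distrib]
  refine Finset.sum_congr rfl fun l _ => ?_
  rw [ev_single]
  simp only [inv_one, mul_one, Pi.smul_apply, smul_eq_mul, valAt_apply]
  ring

lemma mem_Sol_scalF [Fintype ι] {B : Type*} [Group B] (π : (ι → ℂ) →ₗ[ℂ] (ι → ℂ)) (ξ : L2 ι B) :
    ξ ∈ Sol (Set.range (scalF B π)) ↔ ∀ b, π (valAt b ξ) = valAt b ξ := by
  rw [mem_Sol]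
  constructor
  · intro h b
    funext k
    have := h _ ⟨k, rfl⟩ b
    rw [ev_scalF, sub_eq_zero] at this
    exact this.symm
  · rintro h _ ⟨k, rfl⟩ b
    rw [ev_scalF, h b, sub_self]

/-- The dimension formula for free products. -/
theorem Secs.formula' (hX : Secs f X) [Fintype ι] [Fintype I] (C : ∀ i, Set (ι × A i →₀ ℂ)) :
    ∃ (d : ℕ) (π : (ι → ℂ) →ₗ[ℂ] (ι → ℂ)), (∀ v, π (π v) = π v) ∧
      (∑ l : ι, π (Pi.single l 1) l = (d : ℂ)) ∧
      ∑ i, vdim (Sol (C i ∪ Set.range (scalF (A i) π)) : Set (L2 ι (A i)))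
        = ((Fintype.card I : ℝ) - 1) * d
          + vdim (Sol (⋃ i, mapF (f i) '' C i) : Set (L2 ι G)) := by
  set K : Submodule ℂ (L2 ι G) := Sol (⋃ i, mapF (f i) '' C i) with hKdef
  have hKi : Invar K := Sol_invar _
  have hKc : IsClosed (K : Set (L2 ι G)) := Sol_closed _
  have c1 : CompleteSpace K := hKc.completeSpace_coe
  have hKle : ∀ i, K ≤ Sol (mapF (f i) '' C i) := by
    intro i x hx a ha g
    exact hx a (Set.mem_iUnion.mpr ⟨i, ha⟩) g
  -- the space of values
  set φ : K →ₗ[ℂ] (ι → ℂ) := (valAt (1 : G)).comp K.subtype with hφ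
  set S : Submodule ℂ (ι → ℂ) := LinearMap.range φ with hS
  have hSv : ∀ z ∈ K, ∀ g : G, valAt g z ∈ S := by
    intro z hz g
    refine ⟨⟨lt g⁻¹ z, hKi _ _ hz⟩, ?_⟩
    funext k
    show (lt g⁻¹ z) (k, 1) = z (k, g)
    rw [lt_apply]
    simp
  obtain ⟨m0, hm0⟩ := φ.rangeRestrict.exists_rightInverse_of_surjective
    (LinearMap.range_eq_top.mpr φ.surjective_rangeRestrict)
  obtain ⟨q, hq⟩ := S.subtype.exists_leftInverse_of_injective
    (LinearMap.ker_eq_bot.mpr S.injective_subtype)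
  set m : (ι → ℂ) →ₗ[ℂ] L2 ι G := K.subtype.comp (m0.comp q) with hm
  set π : (ι → ℂ) →ₗ[ℂ] (ι → ℂ) := (valAt (1 : G)).comp m with hπ
  have hmK : ∀ v, m v ∈ K := fun v => (m0 (q v)).2
  have hπq : ∀ v, π v = (q v : ι → ℂ) := by
    intro v
    have h1 := LinearMap.congr_fun hm0 (q v)
    have h2 := congrArg Subtype.val h1
    exact h2
  have hπS : ∀ v, π v ∈ S := fun v => by rw [hπq]; exact (q v).2
  have hπid : ∀ v ∈ S, π v = v := by
    intro v hv
    rw [hπq]
    have h1 := LinearMap.congr_fun hq ⟨v, hv⟩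
    exact congrArg Subtype.val h1
  have hproj : LinearMap.IsProj S π := ⟨hπS, hπid⟩
  have h1st : ∑ l : ι, π (Pi.single l 1) l = (Module.finrank ℂ S : ℂ) := by
    rw [← hproj.trace]
    rw [LinearMap.trace_eq_matrix_trace ℂ (Pi.basisFun ℂ ι) π]
    unfold Matrix.trace
    refine Finset.sum_congr rfl fun l _ => ?_
    simp
  refine ⟨Module.finrank ℂ S, π, fun v => hπid _ (hπS v), h1st, ?_⟩
  -- the operators
  set P := K.starProjection with hP
  have hPe : Equivar P := hKi.proj
  set e : ∀ i, L2 ι (A i) →L[ℂ] L2 ι (A i) := fun i => hX.res ι i ∘L (P ∘L hX.ext m i) with he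
  have hee : ∀ i, Equivar (e i) := by
    intro i b ξ
    simp only [he, ContinuousLinearMap.comp_apply]
    rw [hX.ext_lt, hPe, hX.res_lt]
  have hmem : ∀ i ξ, e i ξ ∈ Sol (C i ∪ Set.range (scalF (A i) π)) := by
    intro i ξ
    have hz : P (hX.ext m i ξ) ∈ K := Submodule.starProjection_apply_mem _ _
    rintro a (ha | ha) g
    · exact hX.res_mem i (hKle i hz) a ha g
    · have h2 : e i ξ ∈ Sol (Set.range (scalF (A i) π)) := by
        rw [mem_Sol_scalF]
        intro b
        apply hπid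
        exact hSv _ hz (f i b)
      exact h2 a ha g
  have hfix : ∀ i, ∀ ξ ∈ Sol (C i ∪ Set.range (scalF (A i) π)), e i ξ = ξ := by
    intro i ξ hξ
    have hξ1 : ξ ∈ Sol (C i) := fun a ha g => hξ a (Or.inl ha) g
    have hξ2 : ∀ b, π (valAt b ξ) = valAt b ξ := by
      rw [← mem_Sol_scalF]
      exact fun a ha g => hξ a (Or.inr ha) g
    have hK : hX.ext m i ξ ∈ K := by
      intro a ha g
      obtain ⟨j, c, hc, rfl⟩ := Set.mem_iUnion.mp ha
      obtain ⟨⟨a0, x⟩, rfl⟩ := (hX.bij i).2 g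
      simp only
      rw [ev_mapF]
      by_cases hcase : j ≠ i ∨ (x : G) ≠ 1
      · have hx' : ∀ b : A j, (x : G) * f j b ∈ X i := by
          intro b
          by_cases hji : j = i
          · subst hji
            rcases hcase with h | h
            · exact absurd rfl h
            · exact hX.same _ _ x.2 h b
          · exact hX.other i j hji _ x.2 b
        have h1 : ev (mapF (f j) c) (m (valAt a0 ξ)) x = 0 :=
          hmK _ _ (Set.mem_iUnion.mpr ⟨j, c, hc, rfl⟩) _
        rw [ev_mapF] at h1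
        rw [← h1]
        refine Finset.sum_congr rfl fun p _ => ?_
        have e1 : f i a0 * (x : G) * (f j p.2)⁻¹ = f i a0 * ((x : G) * f j p.2⁻¹) := by
          rw [map_inv, mul_assoc]
        rw [e1, hX.ext_mul m i ξ _ a0 (hx' _), map_inv]
      · push Not at hcase
        obtain ⟨rfl, hx1⟩ := hcase
        have h1 := hξ1 c hc a0
        rw [ev_def] at h1
        rw [← h1]
        refine Finset.sum_congr rfl fun p _ => ?_
        have e1 : f j a0 * (x : G) * (f j p.2)⁻¹ = f j (a0 * p.2⁻¹) * 1 := by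
          rw [hx1, mul_one, mul_one, map_mul, map_inv]
        rw [e1, hX.ext_mul m j ξ _ _ (hX.one j)]
        have h2 := congrFun (hξ2 (a0 * p.2⁻¹)) p.1
        have h3 : π (valAt (a0 * p.2⁻¹) ξ) p.1 = m (valAt (a0 * p.2⁻¹) ξ) (p.1, 1) := rfl
        rw [← h3, h2]
        rfl
    have h1 : e i ξ = hX.res ι i (hX.ext m i ξ) := by
      simp only [he, ContinuousLinearMap.comp_apply]
      rw [hP, Submodule.starProjection_eq_self_iff.mpr hK]
    rw [h1]
    ext p
    obtain ⟨k, a⟩ := p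
    rw [hX.res_apply]
    have h2 := hX.ext_mul m i ξ k a (hX.one i)
    rw [mul_one] at h2
    rw [h2]
    have h3 := congrFun (hξ2 a) k
    exact h3
  have htr : ∀ i, tr (e i)
      = (vdim (Sol (C i ∪ Set.range (scalF (A i) π)) : Set (L2 ι (A i))) : ℝ) := fun i =>
    tr_idem (Sol_invar _) (Sol_closed _) (hee i) (hmem i) (hfix i)
  -- the sum of the traces
  have hsum : ∀ l : ι, ∑ i, hX.ext m i (dl (l, (1 : A i)))
      = ((Fintype.card I : ℂ) - 1) • m (Pi.single l 1)
        + ∑ k, (π (Pi.single l 1) k) • dl (k, (1 : G)) := by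
    intro l
    ext p
    obtain ⟨k, g⟩ := p
    have hv : ∀ (i : I) (b : A i), valAt b (dl (l, (1 : A i)) : L2 ι (A i))
        = if b = 1 then Pi.single l (1 : ℂ) else 0 := by
      intro i b
      funext k
      rw [valAt_apply, dl_apply]
      by_cases hb : b = 1
      · subst hb
        rw [if_pos rfl]
        by_cases hk : k = l
        · subst hk; simp
        · rw [if_neg, Pi.single_eq_of_ne hk]
          intro h
          exact hk (congrArg Prod.fst h)
      · rw [if_neg hb, if_neg]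
        · rfl
        · intro h
          exact hb (congrArg Prod.snd h)
    have hin : ∀ i, g ∈ X i → hX.ext m i (dl (l, (1 : A i))) (k, g)
        = m (Pi.single l 1) (k, g) := by
      intro i hg
      rw [hX.ext_apply, hX.dec_of_mem i hg, hv, if_pos rfl]
    have hout : ∀ i, g ∉ X i → hX.ext m i (dl (l, (1 : A i))) (k, g) = 0 := by
      intro i hg
      rw [hX.ext_apply, hv, if_neg (hX.dec_fst_ne i hg), map_zero]
      rfl
    rw [lp.coeFn_sum, Finset.sum_apply, lp.coeFn_add, Pi.add_apply, lp.coeFn_smul, Pi.smul_apply,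
      lp.coeFn_sum, Finset.sum_apply, smul_eq_mul]
    have hR : ∑ k', ((π (Pi.single l 1) k') • (dl (k', (1 : G)) : L2 ι G)) (k, g)
        = if g = 1 then π (Pi.single l 1) k else 0 := by
      have : ∀ k', ((π (Pi.single l 1) k') • (dl (k', (1 : G)) : L2 ι G)) (k, g)
          = if k' = k then (if g = 1 then π (Pi.single l 1) k else 0) else 0 := by
        intro k'
        rw [lp.coeFn_smul, Pi.smul_apply, smul_eq_mul, dl_apply]
        by_cases hk : k' = k
        · subst hk
          rw [if_pos rfl]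
          by_cases hg : g = 1
          · subst hg; simp
          · rw [if_neg, if_neg hg, mul_zero]
            intro h
            exact hg (congrArg Prod.snd h)
        · rw [if_neg hk, if_neg, mul_zero]
          intro h
          exact hk (congrArg Prod.fst h).symm
      simp only [this]
      simp
    rw [hR]
    by_cases hg : g = 1
    · rw [if_pos hg]
      have h1 : ∀ i, hX.ext m i (dl (l, (1 : A i))) (k, g) = m (Pi.single l 1) (k, g) := by
        intro i
        apply hin
        rw [hg]; exact hX.one i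
      simp only [h1]
      rw [Finset.sum_const, Finset.card_univ, nsmul_eq_mul]
      have h2 : π (Pi.single l 1) k = m (Pi.single l 1) (k, g) := by rw [hg]; rfl
      rw [h2]
      ring
    · rw [if_neg hg, add_zero]
      obtain ⟨i0, hi0, hj⟩ := hX.cnt g hg
      rw [← Finset.add_sum_erase _ _ (Finset.mem_univ i0), hout i0 hi0, zero_add]
      have h1 : ∀ i ∈ Finset.univ.erase i0, hX.ext m i (dl (l, (1 : A i))) (k, g)
          = m (Pi.single l 1) (k, g) := by
        intro i hi
        exact hin i (hj i (Finset.ne_of_mem_erase hi))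
      rw [Finset.sum_congr rfl h1, Finset.sum_const, Finset.card_erase_of_mem (Finset.mem_univ _),
        Finset.card_univ, nsmul_eq_mul]
      have hpos : 1 ≤ Fintype.card I := Fintype.card_pos_iff.mpr ⟨i0⟩
      rw [Nat.cast_sub hpos, Nat.cast_one]
  have htrsum : ∑ i, tr (e i) = ∑ l, (P (∑ i, hX.ext m i (dl (l, (1 : A i))))) (l, 1) := by
    unfold tr
    rw [Finset.sum_comm]
    refine Finset.sum_congr rfl fun l _ => ?_
    rw [map_sum, lp.coeFn_sum, Finset.sum_apply]
    refine Finset.sum_congr rfl fun i _ => ?_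
    rw [inner_dl_left]
    show hX.res ι i (P (hX.ext m i (dl (l, 1)))) (l, 1) = _
    rw [hX.res_apply]
    simp
  have hPm : ∀ v, P (m v) = m v := fun v => Submodule.starProjection_eq_self_iff.mpr (hmK v)
  have hterm : ∀ l : ι, (P (∑ i, hX.ext m i (dl (l, (1 : A i))))) (l, 1)
      = ((Fintype.card I : ℂ) - 1) * π (Pi.single l 1) l
        + ∑ k, π (Pi.single l 1) k * (P (dl (k, (1 : G)))) (l, 1) := by
    intro l
    rw [hsum, map_add, map_smul, hPm, map_sum, lp.coeFn_add, Pi.add_apply, lp.coeFn_smul,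
      Pi.smul_apply, smul_eq_mul, lp.coeFn_sum, Finset.sum_apply]
    congr 1
    refine Finset.sum_congr rfl fun k _ => ?_
    rw [map_smul, lp.coeFn_smul, Pi.smul_apply, smul_eq_mul]
  have h2nd : ∑ l : ι, ∑ k, π (Pi.single l 1) k * (P (dl (k, (1 : G)))) (l, 1)
      = (vdim (K : Set (L2 ι G)) : ℝ) := by
    rw [← tr_proj, Finset.sum_comm]
    unfold tr
    refine Finset.sum_congr rfl fun k _ => ?_
    rw [inner_dl_left]
    have h1 : valAt (1 : G) (P (dl (k, (1 : G)))) ∈ S :=
      hSv _ (Submodule.starProjection_apply_mem _ _) 1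
    have h2 := congrFun (hπid _ h1) k
    rw [lin_expand π, Finset.sum_apply] at h2
    have h3 : (P (dl (k, (1 : G)))) (k, 1) = valAt (1 : G) (P (dl (k, (1 : G)))) k := rfl
    rw [← hP, h3, ← h2]
    refine Finset.sum_congr rfl fun l _ => ?_
    rw [Pi.smul_apply, smul_eq_mul, mul_comm]
    rfl
  have hfin : ((∑ i, vdim (Sol (C i ∪ Set.range (scalF (A i) π)) : Set (L2 ι (A i))) : ℝ) : ℂ)
      = (((Fintype.card I : ℝ) - 1) * (Module.finrank ℂ S : ℕ)
          + vdim (K : Set (L2 ι G)) : ℝ) := by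
    push_cast
    rw [← h2nd, ← h1st]
    have : ∑ i, ((vdim (Sol (C i ∪ Set.range (scalF (A i) π)) : Set (L2 ι (A i))) : ℝ) : ℂ)
        = ∑ i, tr (e i) := Finset.sum_congr rfl fun i _ => (htr i).symm
    rw [this, htrsum, Finset.sum_congr rfl fun l _ => hterm l, Finset.sum_add_distrib,
      Finset.mul_sum]
  exact_mod_cast hfin

theorem Secs.formula (hX : Secs f X) [Fintype ι] [Fintype I] (C : ∀ i, Set (ι × A i →₀ ℂ)) :
    ∃ (d : ℕ) (π : (ι → ℂ) →ₗ[ℂ] (ι → ℂ)),
      ∑ i, vdim (Sol (C i ∪ Set.range (scalF (A i) π)) : Set (L2 ι (A i)))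
        = ((Fintype.card I : ℝ) - 1) * d
          + vdim (Sol (⋃ i, mapF (f i) '' C i) : Set (L2 ι G)) := by
  obtain ⟨d, π, _, _, h⟩ := hX.formula' C
  exact ⟨d, π, h⟩

end Formula

end Pool.Agent.VN
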