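import Mathlib

set_option autoImplicit false

noncomputable section

open Classical

namespace Pool.Agent.VN

/-- For a matrix `A` over the rational group ring `ℚG`, the von Neumann dimension of the kernel of
right multiplication by `A` on `ℓ²(G)^m`: the sum over `i` of `1 - dist(δ_(i,1), kernel)²`. -/
def kerDimQ {G : Type*} [Group G] {m n : ℕ} (A : Matrix (Fin m) (Fin n) (G →₀ ℚ)) : ℝ :=
  ∑ i : Fin m, (1 - Metric.infDist
    (lp.single (E := fun _ : Fin m × G => ℂ) 2 (i, (1 : G)) (1 : ℂ))
    {x : lp (fun _ : Fin m × G => ℂ) 2 | ∀ (j : Fin n) (g : G),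
      ∑ k : Fin m, ∑ h ∈ (A k j).support, x (k, g * h⁻¹) * ((A k j h : ℚ) : ℂ) = 0} ^ 2)

/-- The matrix over `ℚG` whose entries are `0` or group elements. -/
def monoMat {G : Type*} {m n : ℕ} (B : Matrix (Fin m) (Fin n) (Option G)) :
    Matrix (Fin m) (Fin n) (G →₀ ℚ) := fun i j =>
  match B i j with
  | none => 0
  | some g => Finsupp.single g 1

/-- At most three entries of every row and of every column are group elements (the others being
`0`). -/
def ThreeSparse {G : Type*} {m n : ℕ} (B : Matrix (Fin m) (Fin n) (Option G)) : Prop :=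
  (∀ i, (Finset.univ.filter fun j => B i j ≠ none).card ≤ 3) ∧
    ∀ j, (Finset.univ.filter fun i => B i j ≠ none).card ≤ 3

end Pool.Agent.VN
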