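import Pool.Agent.VN.Sparse2
import Pool.Agent.VN.DefsQ

set_option autoImplicit false
set_option linter.unusedSectionVars false

noncomputable section

open scoped InnerProductSpace ENNReal Topology
open Classical Filter ContinuousLinearMap

namespace Pool.Agent.VN

variable {ι κ G : Type*} [Group G]

/-- columns of a rational matrix -/
def colQ {m n : ℕ} (A : Matrix (Fin m) (Fin n) (G →₀ ℚ)) (j : Fin n) : Fin m × G →₀ ℂ :=
  ∑ k : Fin m, ∑ h ∈ (A k j).support, Finsupp.single (k, h) ((A k j h : ℚ) : ℂ)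

lemma ev_colQ {m n : ℕ} (A : Matrix (Fin m) (Fin n) (G →₀ ℚ)) (j : Fin n)
    (x : Fin m × G → ℂ) (g : G) :
    ev (colQ A j) x g
      = ∑ k : Fin m, ∑ h ∈ (A k j).support, x (k, g * h⁻¹) * ((A k j h : ℚ) : ℂ) := by
  unfold colQ
  rw [ev_finsetSum]
  refine Finset.sum_congr rfl fun k _ => ?_
  rw [ev_finsetSum]
  refine Finset.sum_congr rfl fun h _ => ?_
  rw [ev_single, mul_comm]

lemma colQ_rat {m n : ℕ} (A : Matrix (Fin m) (Fin n) (G →₀ ℚ)) (j : Fin n) :
    ∀ p, ∃ q : ℚ, colQ A j p = q := by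
  intro p
  have h1 : ∀ (s : Finset G) (k : Fin m), ∃ q : ℚ,
      (∑ h ∈ s, Finsupp.single (k, h) ((A k j h : ℚ) : ℂ)) p = q := by
    intro s k
    rw [Finsupp.finsetSum_apply]
    refine ⟨∑ h ∈ s, if (k, h) = p then A k j h else 0, ?_⟩
    push_cast
    refine Finset.sum_congr rfl fun h _ => ?_
    rw [Finsupp.single_apply]
    split_ifs <;> simp
  choose q hq using fun k => h1 (A k j).support k
  refine ⟨∑ k, q k, ?_⟩
  unfold colQ
  rw [Finsupp.finsetSum_apply, Rat.cast_sum]
  exact Finset.sum_congr rfl fun k _ => hq k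

lemma kerDimQ_eq {m n : ℕ} (A : Matrix (Fin m) (Fin n) (G →₀ ℚ)) :
    kerDimQ A = vdim (Sol (Set.range (colQ A)) : Set (L2 (Fin m) G)) := by
  unfold kerDimQ vdim
  have h : {x : lp (fun _ : Fin m × G => ℂ) 2 | ∀ (j : Fin n) (g : G),
      ∑ k : Fin m, ∑ h ∈ (A k j).support, x (k, g * h⁻¹) * ((A k j h : ℚ) : ℂ) = 0}
      = (Sol (Set.range (colQ A)) : Set (L2 (Fin m) G)) := by
    ext x
    rw [SetLike.mem_coe, mem_Sol]
    constructor
    · rintro hx _ ⟨j, rfl⟩ g
      rw [ev_colQ]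
      exact hx j g
    · intro hx j g
      rw [← ev_colQ]
      exact hx _ ⟨j, rfl⟩ g
  rw [h]
  refine Finset.sum_congr rfl fun i _ => ?_
  congr 3
  unfold dl
  congr 1
  exact Subsingleton.elim _ _

/-- the subring of integers -/
def intRing : Subring ℂ := (Int.castRingHom ℂ).range

lemma mem_intRing {z : ℂ} : z ∈ intRing ↔ ∃ n : ℤ, (n : ℂ) = z := Iff.rfl

lemma ev_smul (c : ℂ) (a : ι × G →₀ ℂ) (x : ι × G → ℂ) (g : G) : ev (c • a) x g = c * ev a x g := by
  by_cases hc : c = 0
  · subst hc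
    rw [zero_smul, ev_zero, zero_mul]
  · rw [ev_def, ev_def, Finsupp.support_smul_eq hc, Finset.mul_sum]
    refine Finset.sum_congr rfl fun p _ => ?_
    rw [Finsupp.smul_apply, smul_eq_mul]
    ring

lemma exists_int_multiple {α : Type*} (a : α →₀ ℂ) (ha : ∀ p, ∃ q : ℚ, a p = q) :
    ∃ N : ℕ, N ≠ 0 ∧ ∀ p, ∃ z : ℤ, ((N : ℂ) • a) p = z := by
  choose q hq using ha
  refine ⟨∏ r ∈ a.support, (q r).den, Finset.prod_ne_zero_iff.mpr fun r _ => (q r).den_nz, ?_⟩
  intro p
  by_cases hp : p ∈ a.support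
  · refine ⟨(∏ r ∈ a.support.erase p, ((q r).den : ℤ)) * (q p).num, ?_⟩
    rw [Finsupp.smul_apply, smul_eq_mul, hq p, ← Finset.mul_prod_erase _ _ hp]
    push_cast
    have h1 : ((q p : ℚ) : ℂ) * ((q p).den : ℂ) = ((q p).num : ℂ) := by
      have := Rat.mul_den_eq_num (q p)
      exact_mod_cast this
    linear_combination (∏ r ∈ a.support.erase p, ((q r).den : ℂ)) * h1
  · refine ⟨0, ?_⟩
    rw [Finsupp.smul_apply, Finsupp.notMem_support_iff.mp hp]
    simp

lemma kerDimQ_mem_Dset {m n : ℕ} (A : Matrix (Fin m) (Fin n) (G →₀ ℚ)) :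
    kerDimQ A ∈ Dset intRing G := by
  choose N hN hz using fun j => exists_int_multiple (colQ A j) (colQ_rat A j)
  refine ⟨Fin m, inferInstance, Set.range fun j => (N j : ℂ) • colQ A j, Set.finite_range _, ?_, ?_⟩
  · rintro _ ⟨j, rfl⟩ p
    obtain ⟨z, hz'⟩ := hz j p
    exact ⟨z, hz'.symm⟩
  · rw [kerDimQ_eq]
    congr 2
    ext x
    rw [mem_Sol, mem_Sol]
    constructor
    · rintro h _ ⟨j, rfl⟩ g
      have := h _ ⟨j, rfl⟩ g
      rw [ev_smul] at this
      have hne : ((N j : ℕ) : ℂ) ≠ 0 := by exact_mod_cast hN j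
      exact (mul_eq_zero.mp this).resolve_left hne
    · rintro h _ ⟨j, rfl⟩ g
      show ev ((N j : ℂ) • colQ A j) x g = 0
      rw [ev_smul, h _ ⟨j, rfl⟩ g, mul_zero]

lemma vdim_reindex {ρ σ : Type*} [Fintype ρ] [Fintype σ] (e : ρ ≃ σ) (C : Set (ρ × G →₀ ℂ))
    (C' : Set (σ × G →₀ ℂ))
    (h : ∀ x : L2 σ G, x ∈ Sol C' ↔ mulR (fun r => Finsupp.single (e r, (1 : G)) (1 : ℂ)) x ∈ Sol C) :
    vdim (Sol C : Set (L2 ρ G)) = vdim (Sol C' : Set (L2 σ G)) := by
  apply vdim_eq_of_param (fun r => Finsupp.single (e r, (1 : G)) (1 : ℂ)) _ (Sol_invar _)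
    (Sol_closed _)
  · intro x _ h0
    ext q
    obtain ⟨s, g⟩ := q
    have h1 := mulR_apply (fun r => Finsupp.single (e r, (1 : G)) (1 : ℂ)) x (e.symm s, g)
    rw [h0, ev_single] at h1
    simpa using h1.symm
  · intro x hx
    exact (h x).mp hx
  · intro y hy
    refine ⟨mulR (fun s => Finsupp.single (e.symm s, (1 : G)) (1 : ℂ)) y, ?_, ?_⟩
    · rw [h]
      have : mulR (fun r => Finsupp.single (e r, (1 : G)) (1 : ℂ))
          (mulR (fun s => Finsupp.single (e.symm s, (1 : G)) (1 : ℂ)) y) = y := by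
        ext q
        rw [mulR_apply, ev_single, mulR_apply, ev_single]
        simp
      rw [this]
      exact hy
    · ext q
      rw [mulR_apply, ev_single, mulR_apply, ev_single]
      simp

lemma colQ_monoMat {m n : ℕ} (B : Matrix (Fin m) (Fin n) (Option G)) (j : Fin n) :
    colQ (monoMat B) j = ∑ i, optF i (B i j) := by
  unfold colQ
  refine Finset.sum_congr rfl fun i _ => ?_
  unfold monoMat optF
  rcases h : B i j with _ | g
  · simp
  · simp only
    rw [Finsupp.support_single _ one_ne_zero, Finset.sum_singleton]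
    simp

lemma ev_optF {ρ : Type*} (r : ρ) (o : Option G) (x : ρ × G → ℂ) (g : G) :
    ev (optF r o) x g = (match o with
      | none => 0
      | some h => x (r, g * h⁻¹)) := by
  rcases o with _ | h
  · simp [optF, ev_zero]
  · simp only [optF]
    rw [ev_single, one_mul]

theorem exists_threeSparse {x : ℝ} (hx : x ∈ Dset intRing G) :
    ∃ (m n : ℕ) (B : Matrix (Fin m) (Fin n) (Option G)), ThreeSparse B ∧
      kerDimQ (monoMat B) = x := by
  obtain ⟨ι, hι, C, hC, hk, rfl⟩ := hx
  obtain ⟨κ, hκ, N, t, ht⟩ := exists_sysF C hC (fun a ha p => by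
    obtain ⟨z, hz⟩ := hk a ha p
    exact ⟨z, hz.symm⟩)
  rw [← ht, ← sparse_vdim t]
  set eρ := Fintype.equivFin (Row ι κ N)
  set ec := Fintype.equivFin (Col ι κ N)
  set B : Matrix (Fin (Fintype.card (Row ι κ N))) (Fin (Fintype.card (Col ι κ N))) (Option G) :=
    Matrix.of fun i j => look (colL t (ec.symm j)) (eρ.symm i) with hB
  have hBa : ∀ i j, B i j = look (colL t (ec.symm j)) (eρ.symm i) := fun _ _ => rfl
  refine ⟨Fintype.card (Row ι κ N), Fintype.card (Col ι κ N), B, ⟨?_, ?_⟩, ?_⟩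
  · intro i
    refine le_trans (le_of_eq ?_) (row_count t (eρ.symm i))
    apply Finset.card_bij (fun j _ => ec.symm j)
    · intro j hj
      simpa [hBa] using hj
    · intro a _ b _ h
      exact ec.symm.injective h
    · intro c hc
      exact ⟨ec c, by simpa [hBa] using hc, by simp⟩
  · intro j
    refine le_trans (le_of_eq ?_) (col_count t (ec.symm j))
    apply Finset.card_bij (fun i _ => eρ.symm i)
    · intro j hj
      simpa [hBa] using hj
    · intro a _ b _ h
      exact eρ.symm.injective h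
    · intro c hc
      exact ⟨eρ c, by simpa [hBa] using hc, by simp⟩
  · rw [kerDimQ_eq]
    symm
    apply vdim_reindex eρ
    intro x
    rw [mem_Sol, mem_Sol]
    have key : ∀ (c : Col ι κ N) (g : G),
        ev (colQ (monoMat B) (ec c)) x g
        = ev (listF (colL t c)) (mulR (fun r => Finsupp.single (eρ r, (1 : G)) (1 : ℂ)) x) g := by
      intro c g
      rw [colQ_monoMat, ← look_sum _ (colL_nodup t c), ev_finsetSum, ev_finsetSum]
      rw [← Equiv.sum_comp eρ]
      refine Finset.sum_congr rfl fun r _ => ?_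
      rw [ev_optF, ev_optF, hBa, Equiv.symm_apply_apply, Equiv.symm_apply_apply]
      rcases look (colL t c) r with _ | h
      · rfl
      · simp only
        rw [mulR_apply, ev_single]
        simp
    constructor
    · rintro h _ ⟨c, rfl⟩ g
      rw [← key]
      exact h _ ⟨ec c, rfl⟩ g
    · rintro h _ ⟨j, rfl⟩ g
      obtain ⟨c, rfl⟩ := ec.surjective j
      rw [key]
      exact h _ ⟨c, rfl⟩ g

/-- square of the infinite direct power embeds in it -/
def powEmb (G : Type*) [Group G] : (ℕ → G) × (ℕ → G) →* (ℕ → G) where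
  toFun p n := if n % 2 = 0 then p.1 (n / 2) else p.2 (n / 2)
  map_one' := by
    funext n
    simp
  map_mul' p q := by
    funext n
    simp only [Prod.fst_mul, Prod.snd_mul, Pi.mul_apply]
    split_ifs <;> rfl

lemma powEmb_injective (G : Type*) [Group G] : Function.Injective (powEmb G) := by
  rintro ⟨a, b⟩ ⟨c, d⟩ h
  refine Prod.ext ?_ ?_
  · funext n
    have := congrFun h (2 * n)
    simpa [powEmb] using this
  · funext n
    have := congrFun h (2 * n + 1)
    have h2 : (2 * n + 1) / 2 = n := by omega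
    simpa [powEmb, h2, Nat.add_mod] using this

/-- the first-coordinate embedding -/
def oneEmb (G : Type*) [Group G] : G →* (ℕ → G) where
  toFun g _ := g
  map_one' := rfl
  map_mul' _ _ := rfl

lemma oneEmb_injective (G : Type*) [Group G] : Function.Injective (oneEmb G) := fun _ _ h =>
  congrFun h 0

end Pool.Agent.VN
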