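import Pool.Agent.VN.Defs

set_option autoImplicit false

noncomputable section

namespace Pool.Agent.VN

/-- The additive subgroup of `ℝ` generated by the von Neumann dimensions of the kernels of the
matrices over the complex group ring of `G`. -/
def dimGroup (G : Type) [Group G] : AddSubgroup ℝ :=
  AddSubgroup.closure {r | ∃ (m n : ℕ) (A : Matrix (Fin m) (Fin n) (G →₀ ℂ)), kerDim A = r}

end Pool.Agent.VN
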