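import Pool.Agent.VN.Lin
import Pool.Agent.VN.DefsG

set_option autoImplicit false
set_option linter.unusedSectionVars false

noncomputable section

open scoped InnerProductSpace ENNReal Topology
open Classical Filter ContinuousLinearMap

/-!
The values of the von Neumann dimensions of kernels of matrices over the complex group ring of a
free product.
-/

namespace Pool.Agent.VN

open Monoid

section ToMat

variable {ι G : Type} [Group G]

lemma ev_mapDomain {κ : Type*} (u : ι × G → κ × G) (a : ι × G →₀ ℂ) (x : κ × G → ℂ) (g : G) :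
    ev (Finsupp.mapDomain u a) x g = ∑ p ∈ a.support, a p * x ((u p).1, g * (u p).2⁻¹) := by
  unfold ev
  rw [Finsupp.sum_mapDomain_index]
  · rfl
  · intro p; simp
  · intro p c d; ring

/-- Every finite system is a matrix. -/
lemma exists_matrix [Fintype ι] (C : Set (ι × G →₀ ℂ)) (hC : C.Finite) :
    ∃ (m n : ℕ) (A : Matrix (Fin m) (Fin n) (G →₀ ℂ)),
      kerDim A = vdim (Sol C : Set (L2 ι G)) := by
  set e := Fintype.equivFin ι with he
  set s := hC.toFinset with hs
  set ec := s.equivFin with hec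
  set c : Fin s.card → (ι × G →₀ ℂ) := fun j => (ec.symm j).1 with hc
  have hcC : ∀ j, c j ∈ C := fun j => hC.mem_toFinset.mp (ec.symm j).2
  have hCc : ∀ a ∈ C, ∃ j, c j = a := by
    intro a ha
    refine ⟨ec ⟨a, hC.mem_toFinset.mpr ha⟩, ?_⟩
    simp [hc]
  set A : Matrix (Fin (Fintype.card ι)) (Fin s.card) (G →₀ ℂ) := Matrix.of fun k j =>
    (c j).comapDomain (fun g : G => ((e.symm k, g) : ι × G)) (fun _ _ _ _ h => by simpa using h)
    with hA
  have hAa : ∀ k j g, A k j g = c j (e.symm k, g) := fun k j g => rfl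
  set u : ι × G ≃ Fin (Fintype.card ι) × G := e.prodCongr (Equiv.refl G) with hu
  have hcol : ∀ j, colF A j = Finsupp.mapDomain u (c j) := by
    intro j
    ext q
    obtain ⟨k, g⟩ := q
    rw [colF_apply, hAa]
    have : ((k, g) : Fin (Fintype.card ι) × G) = u (e.symm k, g) := by simp [hu]
    rw [this, Finsupp.mapDomain_apply u.injective]
  refine ⟨_, _, A, ?_⟩
  rw [kerDim_eq]
  symm
  apply vdim_reindex e
  intro x
  have key : ∀ j g, ev (colF A j) x g
      = ev (c j) (mulR (fun r => Finsupp.single (e r, (1 : G)) (1 : ℂ)) x) g := by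
    intro j g
    rw [hcol, ev_mapDomain, ev_def]
    refine Finset.sum_congr rfl fun p _ => ?_
    rw [mulR_apply, ev_single]
    simp [hu]
  rw [mem_Sol, mem_Sol]
  constructor
  · intro h a ha g
    obtain ⟨j, rfl⟩ := hCc a ha
    rw [← key]
    exact h _ ⟨j, rfl⟩ g
  · rintro h _ ⟨j, rfl⟩ g
    rw [key]
    exact h _ (hcC j) g

end ToMat

section Emb

variable {I : Type} {A : I → Type} [∀ i, Group (A i)]

/-- the free product of some of the factors in the whole free product -/
def embJ (A : I → Type) [∀ i, Group (A i)] (J : Finset I) :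
    CoprodI (fun j : J => A j.1) →* CoprodI A :=
  CoprodI.lift fun j => (CoprodI.of : A j.1 →* CoprodI A)

lemma embJ_comp_of (J : Finset I) (j : J) :
    (embJ A J).comp (CoprodI.of (M := fun j : J => A j.1) (i := j))
      = (CoprodI.of : A j.1 →* CoprodI A) :=
  CoprodI.lift_comp_of _ _

lemma embJ_injective (J : Finset I) : Function.Injective (embJ A J) := by
  let r : CoprodI A →* CoprodI (fun j : J => A j.1) :=
    CoprodI.lift fun i => if h : i ∈ J then
      (CoprodI.of (M := fun j : J => A j.1) (i := ⟨i, h⟩) : A i →* _) else 1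
  have h : r.comp (embJ A J) = MonoidHom.id _ := by
    apply CoprodI.ext_hom
    intro j
    rw [MonoidHom.comp_assoc, embJ_comp_of]
    ext a
    simp only [MonoidHom.comp_apply, MonoidHom.id_apply]
    show r (CoprodI.of (M := A) a) = CoprodI.of (M := fun j : J => A j.1) (i := j) a
    simp only [r]
    rw [CoprodI.lift_of, dif_pos j.2]
  intro x y hxy
  have h1 := DFunLike.congr_fun h x
  have h2 := DFunLike.congr_fun h y
  simp only [MonoidHom.comp_apply, MonoidHom.id_apply] at h1 h2
  rw [← h1, ← h2, hxy]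

lemma lpr_surj (g : CoprodI A) :
    ∃ w, lpr (fun i => (CoprodI.of : A i →* CoprodI A)) w = g := by
  induction g using CoprodI.induction_left with
  | one => exact ⟨[], rfl⟩
  | mul a x ih =>
    obtain ⟨w, rfl⟩ := ih
    exact ⟨w ++ [⟨_, a⟩], lpr_append _ _ _⟩

end Emb

/-- The values of the dimensions of kernels over a free product. -/
theorem coprod_mem {I : Type} [Nonempty I] (A : I → Type) [∀ i, Group (A i)]
    (Λ : AddSubgroup ℝ) (h1 : (1 : ℝ) ∈ Λ)
    (h : ∀ (i : I) (m n : ℕ) (M : Matrix (Fin m) (Fin n) (A i →₀ ℂ)), kerDim M ∈ Λ)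
    {ι : Type} [Fintype ι] (C : Set (ι × CoprodI A →₀ ℂ)) (hC : C.Finite) :
    vdim (Sol C : Set (L2 ι (CoprodI A))) ∈ Λ := by
  obtain ⟨i0⟩ := ‹Nonempty I›
  obtain ⟨κ, hκ, J, D, hi0, hDf, hDe, hv⟩ :=
    linearise (fun i => (CoprodI.of : A i →* CoprodI A)) lpr_surj C hC i0
  rw [← hv]
  -- reduction to finitely many factors
  have hU : (⋃ i, mapF (CoprodI.of : A i →* CoprodI A) '' D i)
      = mapF (embJ A J) '' (⋃ j : J, mapF (CoprodI.of (M := fun j : J => A j.1) (i := j))
        '' D j.1) := by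
    ext c
    constructor
    · intro hc
      obtain ⟨i, a, ha, rfl⟩ := Set.mem_iUnion.mp hc
      by_cases hi : i ∈ J
      · refine ⟨mapF (CoprodI.of (M := fun j : J => A j.1) (i := ⟨i, hi⟩)) a,
          Set.mem_iUnion.mpr ⟨⟨i, hi⟩, a, ha, rfl⟩, ?_⟩
        rw [mapF_comp, embJ_comp_of]
      · rw [hDe i hi] at ha
        exact absurd ha (Set.notMem_empty _)
    · rintro ⟨b, hb, rfl⟩
      obtain ⟨j, a, ha, rfl⟩ := Set.mem_iUnion.mp hb
      rw [mapF_comp, embJ_comp_of]
      exact Set.mem_iUnion.mpr ⟨j.1, a, ha, rfl⟩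
  rw [hU, vdim_induced _ (embJ_injective J)]
  obtain ⟨d, π, hf⟩ := (secs_coprodI (fun j : J => A j.1)).formula (ι := κ) (fun j => D j.1)
  have hmem : ∀ j : J, vdim (Sol (D j.1 ∪ Set.range (scalF (A j.1) π)) : Set (L2 κ (A j.1))) ∈ Λ := by
    intro j
    obtain ⟨m, n, M, hM⟩ := exists_matrix (D j.1 ∪ Set.range (scalF (A j.1) π))
      ((hDf j.1).union (Set.finite_range _))
    rw [← hM]
    exact h _ _ _ _
  have hsum := Λ.sum_mem (t := Finset.univ) fun j _ => hmem j
  rw [hf] at hsum
  have hint : ((Fintype.card J : ℝ) - 1) * d ∈ Λ := by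
    have : ((Fintype.card J : ℝ) - 1) * d = (((Fintype.card J : ℤ) - 1) * d : ℤ) • (1 : ℝ) := by
      rw [zsmul_eq_mul]
      push_cast
      ring
    rw [this]
    exact Λ.zsmul_mem h1 _
  exact (Λ.add_mem_cancel_left hint).mp hsum

lemma vdim_mem_dimGroup {G ι : Type} [Group G] [Fintype ι] (C : Set (ι × G →₀ ℂ))
    (hC : C.Finite) : vdim (Sol C : Set (L2 ι G)) ∈ dimGroup G := by
  obtain ⟨m, n, M, hM⟩ := exists_matrix C hC
  exact AddSubgroup.subset_closure ⟨m, n, M, hM⟩

lemma one_mem_dimGroup (G : Type) [Group G] : (1 : ℝ) ∈ dimGroup G := by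
  have h := vdim_mem_dimGroup (G := G) (∅ : Set (Unit × G →₀ ℂ)) Set.finite_empty
  have e : Sol (∅ : Set (Unit × G →₀ ℂ)) = ⊤ := by
    rw [eq_top_iff]
    intro x _ a ha
    exact absurd ha (Set.notMem_empty a)
  rw [e, vdim_top] at h
  simpa using h

theorem dimGroup_coprodI {I : Type} [Nonempty I] (A : I → Type) [∀ i, Group (A i)] :
    dimGroup (CoprodI A) = ⨆ i, dimGroup (A i) := by
  apply le_antisymm
  · have h1 : (1 : ℝ) ∈ ⨆ i, dimGroup (A i) := by
      obtain ⟨i⟩ := ‹Nonempty I›
      exact (le_iSup (fun i => dimGroup (A i)) i) (one_mem_dimGroup (A i))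
    unfold dimGroup
    rw [AddSubgroup.closure_le]
    rintro _ ⟨m, n, M, rfl⟩
    rw [kerDim_eq]
    refine coprod_mem A _ h1 (fun i m n M => ?_) _ (Set.finite_range _)
    exact (le_iSup (fun i => dimGroup (A i)) i) (AddSubgroup.subset_closure ⟨m, n, M, rfl⟩)
  · refine iSup_le fun i => ?_
    conv_lhs => unfold dimGroup
    rw [AddSubgroup.closure_le]
    rintro _ ⟨m, n, M, rfl⟩
    rw [kerDim_eq, ← vdim_induced (CoprodI.of : A i →* CoprodI A) (CoprodI.of_injective i)]
    exact vdim_mem_dimGroup _ ((Set.finite_range _).image _)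

end Pool.Agent.VN
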