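import Pool.Agent.VN.DefsA

set_option autoImplicit false

noncomputable section

namespace Pool.Agent.VN

/-- The conclusion of the Atiyah conjecture for `G` with coefficients in the subring `k` of `ℂ`: the
von Neumann dimension of the kernel of every matrix over `kG` is an integer. -/
def AtiyahOver (k : Subring ℂ) (G : Type) [Group G] : Prop :=
  ∀ (m n : ℕ) (A : Matrix (Fin m) (Fin n) (G →₀ ℂ)), (∀ i j g, A i j g ∈ k) →
    ∃ z : ℤ, kerDim A = z

end Pool.Agent.VN
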