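import Pool.Agent.VN.Approx
import Pool.Agent.VN.DefsK

set_option autoImplicit false
set_option linter.unusedSectionVars false

noncomputable section

open Classical

namespace Pool.Agent.VN

lemma pushMat_coef {G H : Type} [Group G] [Group H] (k : Subring ℂ) (π : G →* H) {m n : ℕ}
    (A : Matrix (Fin m) (Fin n) (G →₀ ℂ)) (hA : ∀ i j g, A i j g ∈ k) :
    ∀ i j h, pushMat π A i j h ∈ k := by
  intro i j h
  show (Finsupp.mapDomain π (A i j)) h ∈ k
  unfold Finsupp.mapDomain Finsupp.sum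
  rw [Finsupp.finsetSum_apply]
  refine k.sum_mem fun g _ => ?_
  rw [Finsupp.single_apply]
  split_ifs
  · exact hA i j g
  · exact k.zero_mem

lemma int_of_approx {v : ℝ} (h : ∀ ε : ℝ, 0 < ε → ∃ z : ℤ, v ≤ z ∧ (z : ℝ) ≤ v + ε) :
    ∃ z : ℤ, v = z := by
  by_contra hcon
  push Not at hcon
  have h1 : v < ⌈v⌉ := lt_of_le_of_ne (Int.le_ceil v) (hcon ⌈v⌉)
  obtain ⟨z, hz1, hz2⟩ := h ((⌈v⌉ - v) / 2) (by linarith)
  have h2 : ⌈v⌉ ≤ z := Int.ceil_le.mpr hz1
  have h3 : ((⌈v⌉ : ℤ) : ℝ) ≤ z := by exact_mod_cast h2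
  linarith

/-- Residual closure of the Atiyah property along tree actions. -/
theorem atiyah_of_resTree (k : Subring ℂ) {G : Type} [Group G]
    (hres : ∀ F : Finset G, (∀ g ∈ F, g ≠ 1) → ∃ (H : Type) (_ : Group H) (π : G →* H),
      AtiyahOver k H ∧ TreeFree π.ker ∧ ∀ g ∈ F, π g ≠ 1) : AtiyahOver k G := by
  intro m n A hA
  apply int_of_approx
  intro ε hε
  obtain ⟨F, hF1, hF2⟩ := kazhdan (colF A) hε
  obtain ⟨H, _, π, hH, hfree, hπ⟩ := hres F hF1
  obtain ⟨z, hz⟩ := hH m n (pushMat π A) (pushMat_coef k π A hA)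
  refine ⟨z, ?_, ?_⟩
  · rw [← hz]
    exact kerDim_le_of_treeFree π hfree A
  · rw [← hz, kerDim_pushMat, kerDim_eq, ← Set.range_comp]
    exact hF2 π hπ

end Pool.Agent.VN
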