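import Pool.Agent.VN.ZExt2
import Pool.Agent.VN.ResTree

set_option autoImplicit false
set_option linter.unusedSectionVars false

noncomputable section

open scoped InnerProductSpace ENNReal Topology
open Classical Filter ContinuousLinearMap

/-!
Extensions with infinite cyclic quotient: closure of the Atiyah property and of the approximation
property.
-/

namespace Pool.Agent.VN

section Trees

/-- A connected graph with halves is a tree. -/
lemma isTree_of_halves {V : Type*} {T : SimpleGraph V} (hc : T.Connected) {Half : V → V → Set V}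
    (hH : Halves T Half) : T.IsTree := by
  refine ⟨hc, ?_⟩
  rw [SimpleGraph.isAcyclic_iff_forall_adj_isBridge]
  intro u v huv
  rw [SimpleGraph.isBridge_iff]
  intro hreach
  have key : ∀ {x y : V} (w : (T \ SimpleGraph.fromEdgeSet {s(u, v)}).Walk x y),
      x ∈ Half u v → y ∈ Half u v := by
    intro x y w
    induction w with
    | nil => exact id
    | cons h w ih =>
      intro hx
      apply ih
      rw [SimpleGraph.sdiff_adj, SimpleGraph.fromEdgeSet_adj] at h
      obtain ⟨h1, h2⟩ := h
      refine (hH.other u v huv _ _ h1 ?_).mp hx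
      intro he
      exact h2 ⟨he, h1.ne⟩
  obtain ⟨w⟩ := hreach
  exact hH.snd u v huv (key w (hH.fst u v huv))

/-- the line -/
def lineG : SimpleGraph ℤ := SimpleGraph.fromRel fun a b => b = a + 1

lemma lineG_adj {a b : ℤ} : lineG.Adj a b ↔ b = a + 1 ∨ a = b + 1 := by
  unfold lineG
  rw [SimpleGraph.fromRel_adj]
  constructor
  · rintro ⟨_, h⟩
    exact h
  · intro h
    refine ⟨?_, h⟩
    omega

lemma lineG_isTree : lineG.IsTree := by
  refine isTree_of_halves (Half := fun u v => if v = u + 1 then {w | w ≤ u} else {w | u ≤ w}) ?_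
    ⟨?_, ?_, ?_⟩
  · have h1 : ∀ n : ℕ, ∀ a : ℤ, lineG.Reachable a (a + n) := by
      intro n
      induction n with
      | zero =>
        intro a
        simp
      | succ n ih =>
        intro a
        refine (ih a).trans ?_
        apply SimpleGraph.Adj.reachable
        rw [lineG_adj]
        left
        push_cast
        ring
    have h2 : lineG.Preconnected := by
      intro a b
      rcases le_total a b with h | h
      · have := h1 (b - a).toNat a
        rwa [Int.toNat_of_nonneg (by omega), add_sub_cancel] at this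
      · have := h1 (a - b).toNat b
        rw [Int.toNat_of_nonneg (by omega), add_sub_cancel] at this
        exact this.symm
    exact ⟨h2⟩
  · intro u v _
    split_ifs
    · exact le_refl u
    · exact le_refl u
  · intro u v h
    rw [lineG_adj] at h
    split_ifs with h1
    · show ¬ v ≤ u
      omega
    · show ¬ u ≤ v
      omega
  · intro u v h u' v' h' hne
    rw [lineG_adj] at h h'
    rw [Ne, Sym2.eq_iff] at hne
    push Not at hne
    obtain ⟨h2, h3⟩ := hne
    split_ifs with h1
    · show u' ≤ u ↔ v' ≤ u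
      constructor
      · intro h4
        by_contra h5
        exact h2 (by omega) (by omega)
      · intro h4
        by_contra h5
        exact h3 (by omega) (by omega)
    · show u ≤ u' ↔ u ≤ v'
      constructor
      · intro h4
        by_contra h5
        exact h2 (by omega) (by omega)
      · intro h4
        by_contra h5
        exact h3 (by omega) (by omega)

/-- action of `H × ℤ` on the line -/
@[instance_reducible] def actZ (H : Type) [Group H] : MulAction (H × Multiplicative ℤ) ℤ where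
  smul p a := Multiplicative.toAdd p.2 + a
  one_smul a := by
    show Multiplicative.toAdd (1 : Multiplicative ℤ) + a = a
    simp
  mul_smul p q a := by
    show Multiplicative.toAdd (p.2 * q.2) + a
      = Multiplicative.toAdd p.2 + (Multiplicative.toAdd q.2 + a)
    rw [toAdd_mul, add_assoc]

lemma treeFree_fst (H : Type) [Group H] :
    TreeFree (MonoidHom.fst H (Multiplicative ℤ)).ker := by
  refine ⟨ℤ, actZ H, lineG, lineG_isTree, ?_, ?_⟩
  · intro p u v h
    rw [lineG_adj] at h ⊢
    have e1 : ((actZ H).toSMul.smul p u) = Multiplicative.toAdd p.2 + u := rfl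
    have e2 : ((actZ H).toSMul.smul p v) = Multiplicative.toAdd p.2 + v := rfl
    show (actZ H).toSMul.smul p v = (actZ H).toSMul.smul p u + 1
      ∨ (actZ H).toSMul.smul p u = (actZ H).toSMul.smul p v + 1
    rw [e1, e2]
    omega
  · rintro ⟨h, n⟩ hp hne
    have hh : h = 1 := hp
    subst hh
    have hn : Multiplicative.toAdd n ≠ 0 := by
      intro h0
      apply hne
      have : n = 1 := by
        rw [← ofAdd_toAdd n, h0]
        rfl
      rw [this]
      rfl
    refine ⟨fun a => ?_, fun u v _ => ?_⟩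
    · show Multiplicative.toAdd n + a ≠ a
      omega
    · show ¬ (Multiplicative.toAdd n + u = v ∧ Multiplicative.toAdd n + v = u)
      omega

end Trees

section Int

/-- integrality from convexity and linear growth -/
lemma int_of_convex (d : ℕ → ℝ) (v K : ℝ) (hint : ∀ M, ∃ z : ℤ, d M = z)
    (hconv : ∀ M, 2 * d (M + 1) ≤ d (M + 2) + d M) (hup : ∀ M : ℕ, d M ≤ (M + 1) * v)
    (hlo : ∀ M : ℕ, (M + 1) * v - K ≤ d M) : ∃ z : ℤ, v = z := by
  -- increments are at most `v`
  have hmono : ∀ M0 j : ℕ, d (M0 + 1) - d M0 ≤ d (M0 + j + 1) - d (M0 + j) := by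
    intro M0 j
    induction j with
    | zero => simp
    | succ j ih =>
      have := hconv (M0 + j)
      have e1 : M0 + (j + 1) + 1 = M0 + j + 2 := by ring
      have e2 : M0 + (j + 1) = M0 + j + 1 := by ring
      rw [e1, e2]
      linarith
  have hsum : ∀ M0 j : ℕ, d M0 + j * (d (M0 + 1) - d M0) ≤ d (M0 + j) := by
    intro M0 j
    induction j with
    | zero => simp
    | succ j ih =>
      have := hmono M0 j
      have e2 : M0 + (j + 1) = M0 + j + 1 := by ring
      rw [e2]
      push_cast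
      linarith
  have hinc : ∀ M0 : ℕ, d (M0 + 1) - d M0 ≤ v := by
    intro M0
    by_contra hcon
    push Not at hcon
    set δ := d (M0 + 1) - d M0 - v with hδ
    have hδ0 : 0 < δ := by linarith
    obtain ⟨j, hj⟩ := exists_nat_gt (((M0 + 1) * v - d M0) / δ)
    rw [div_lt_iff₀ hδ0] at hj
    have h1 := hsum M0 j
    have h2 := hup (M0 + j)
    push_cast at h2
    have h3 : d (M0 + 1) - d M0 = v + δ := by linarith
    rw [h3] at h1
    nlinarith
  choose z hz using hint
  by_contra hcon
  push Not at hcon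
  have hfl : (⌊v⌋ : ℝ) < v := lt_of_le_of_ne (Int.floor_le v) (hcon ⌊v⌋).symm
  have hinc2 : ∀ M : ℕ, d (M + 1) - d M ≤ ⌊v⌋ := by
    intro M
    have h1 := hinc M
    rw [hz, hz] at h1 ⊢
    have h2 : z (M + 1) - z M ≤ ⌊v⌋ := Int.le_floor.mpr (by push_cast; exact h1)
    exact_mod_cast h2
  have hd : ∀ M : ℕ, d M ≤ d 0 + M * ⌊v⌋ := by
    intro M
    induction M with
    | zero => simp
    | succ M ih =>
      have := hinc2 M
      push_cast
      linarith
  obtain ⟨j, hj⟩ := exists_nat_gt ((d 0 + K - v) / (v - ⌊v⌋))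
  rw [div_lt_iff₀ (by linarith)] at hj
  have h1 := hd j
  have h2 := hlo j
  nlinarith

end Int

section Forms

/-- Every finite system is a matrix; the coefficients are the same. -/
lemma exists_matrixK {ι G : Type} [Group G] [Fintype ι] (k : Subring ℂ) (C : Set (ι × G →₀ ℂ))
    (hC : C.Finite) (hk : ∀ c ∈ C, ∀ p, c p ∈ k) :
    ∃ (m n : ℕ) (A : Matrix (Fin m) (Fin n) (G →₀ ℂ)), (∀ i j g, A i j g ∈ k) ∧
      kerDim A = vdim (Sol C : Set (L2 ι G)) := by
  set e := Fintype.equivFin ι with he
  set s := hC.toFinset with hs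
  set ec := s.equivFin with hec
  set c : Fin s.card → (ι × G →₀ ℂ) := fun j => (ec.symm j).1 with hc
  have hcC : ∀ j, c j ∈ C := fun j => hC.mem_toFinset.mp (ec.symm j).2
  have hCc : ∀ a ∈ C, ∃ j, c j = a := by
    intro a ha
    refine ⟨ec ⟨a, hC.mem_toFinset.mpr ha⟩, ?_⟩
    simp [hc]
  set A : Matrix (Fin (Fintype.card ι)) (Fin s.card) (G →₀ ℂ) := Matrix.of fun k j =>
    (c j).comapDomain (fun g : G => ((e.symm k, g) : ι × G)) (fun _ _ _ _ h => by simpa using h)
    with hA
  have hAa : ∀ k j g, A k j g = c j (e.symm k, g) := fun k j g => rfl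
  set u : ι × G ≃ Fin (Fintype.card ι) × G := e.prodCongr (Equiv.refl G) with hu
  have hcol : ∀ j, colF A j = Finsupp.mapDomain u (c j) := by
    intro j
    ext q
    obtain ⟨k, g⟩ := q
    rw [colF_apply, hAa]
    have : ((k, g) : Fin (Fintype.card ι) × G) = u (e.symm k, g) := by simp [hu]
    rw [this, Finsupp.mapDomain_apply u.injective]
  refine ⟨_, _, A, fun i j g => ?_, ?_⟩
  · rw [hAa]
    exact hk _ (hcC j) _
  rw [kerDim_eq]
  symm
  apply vdim_reindex e
  intro x
  have key : ∀ j g, ev (colF A j) x g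
      = ev (c j) (mulR (fun r => Finsupp.single (e r, (1 : G)) (1 : ℂ)) x) g := by
    intro j g
    rw [hcol, ev_mapDomain, ev_def]
    refine Finset.sum_congr rfl fun p _ => ?_
    rw [mulR_apply, ev_single]
    simp [hu]
  rw [mem_Sol, mem_Sol]
  constructor
  · intro h a ha g
    obtain ⟨j, rfl⟩ := hCc a ha
    rw [← key]
    exact h _ ⟨j, rfl⟩ g
  · rintro h _ ⟨j, rfl⟩ g
    rw [key]
    exact h _ (hcC j) g

lemma AtiyahOver.forms {k : Subring ℂ} {G : Type} [Group G] (hG : AtiyahOver k G) {ι : Type}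
    [Fintype ι] (C : Set (ι × G →₀ ℂ)) (hC : C.Finite) (hk : ∀ c ∈ C, ∀ p, c p ∈ k) :
    ∃ z : ℤ, vdim (Sol C : Set (L2 ι G)) = z := by
  obtain ⟨m, n, A, hA, h⟩ := exists_matrixK k C hC hk
  rw [← h]
  exact hG m n A hA

lemma colF_coef {k : Subring ℂ} {G : Type} [Group G] {m n : ℕ}
    {A : Matrix (Fin m) (Fin n) (G →₀ ℂ)} (hA : ∀ i j g, A i j g ∈ k) :
    ∀ c ∈ Set.range (colF A), ∀ p, c p ∈ k := by
  rintro _ ⟨j, rfl⟩ ⟨i, g⟩
  rw [colF_apply]
  exact hA i j g

/-- the Atiyah property passes to subgroups -/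
lemma AtiyahOver.of_injective {k : Subring ℂ} {G H : Type} [Group G] [Group H]
    (hH : AtiyahOver k H) (f : G →* H) (hf : Function.Injective f) : AtiyahOver k G := by
  intro m n A hA
  obtain ⟨z, hz⟩ := hH m n (pushMat f A) (pushMat_coef k f A hA)
  refine ⟨z, ?_⟩
  rw [← hz, kerDim_pushMat, kerDim_eq, vdim_induced f hf]

lemma exists_bound {G : Type} [Group G] (φ : G → ℤ) {ι : Type} {C : Set (ι × G →₀ ℂ)}
    (hC : C.Finite) : ∃ m : ℕ, ∀ c ∈ C, ∀ p ∈ c.support, |φ p.2| ≤ m := by
  obtain ⟨b, hb⟩ := (hC.toFinset.biUnion fun c => c.support.image fun p => |φ p.2|).bddAbove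
  refine ⟨b.toNat, fun c hc p hp => ?_⟩
  have h1 : |φ p.2| ≤ b := by
    apply hb
    rw [Finset.mem_coe, Finset.mem_biUnion]
    exact ⟨c, hC.mem_toFinset.mpr hc, Finset.mem_image.mpr ⟨p, hp, rfl⟩⟩
  exact h1.trans (Int.self_le_toNat b)

lemma mapF_id_image {κ G : Type} [Group G] (D : Set (κ × G →₀ ℂ)) :
    mapF (MonoidHom.id G) '' D = D := by
  have : mapF (ι := κ) (MonoidHom.id G) = id := by
    funext a
    exact mapF_eq' a
  rw [this, Set.image_id]

/-- closure under extensions with infinite cyclic quotient -/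
theorem AtiyahOver.of_kerZ {k : Subring ℂ} {G : Type} [Group G] (φ : G → ℤ)
    (hφ : ∀ a b, φ (a * b) = φ a + φ b) (t : G) (ht : φ t = 1)
    (hN : AtiyahOver k (kerZ φ hφ)) : AtiyahOver k G := by
  intro m n A hA
  set C := Set.range (colF A) with hC
  have hCf : C.Finite := Set.finite_range _
  obtain ⟨b, hb⟩ := exists_bound φ hCf
  rw [kerDim_eq]
  apply int_of_convex (fun M => c0 φ M C) _ (4 * b * Fintype.card (Fin m))
  · intro M
    have h1 := c0_eq φ hφ (MonoidHom.id G) t ht b M C hb φ (fun _ => rfl)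
    rw [mapF_id_image] at h1
    rw [h1]
    have h2 : (MonoidHom.id G).comp (kerZ φ hφ).subtype = (kerZ φ hφ).subtype := rfl
    rw [h2, vdim_induced _ (Subgroup.subtype_injective _)]
    exact hN.forms _ (DN_finite φ hφ t ht b M hCf) (DN_coef φ hφ k t ht b M (colF_coef hA))
  · intro M
    exact c0_convex φ M C
  · intro M
    exact c0_le φ hφ M C
  · intro M
    exact le_c0 φ hφ hb

/-- the same for an arbitrary homomorphism to `ℤ` -/
theorem AtiyahOver.of_kerZ' {k : Subring ℂ} {G : Type} [Group G] (φ : G → ℤ)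
    (hφ : ∀ a b, φ (a * b) = φ a + φ b) (hN : AtiyahOver k (kerZ φ hφ)) : AtiyahOver k G := by
  by_cases h0 : ∀ g, φ g = 0
  · refine hN.of_injective
      { toFun := fun g => (⟨g, h0 g⟩ : kerZ φ hφ), map_one' := rfl, map_mul' := fun _ _ => rfl } ?_
    intro a b hab
    exact congrArg Subtype.val hab
  push Not at h0
  obtain ⟨g0, hg0⟩ := h0
  have hex : ∃ n : ℕ, 0 < n ∧ ∃ g, φ g = n := by
    rcases lt_or_gt_of_ne hg0 with h | h
    · refine ⟨(-φ g0).toNat, by omega, g0⁻¹, ?_⟩
      rw [phi_inv φ hφ, Int.toNat_of_nonneg (by omega)]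
    · exact ⟨(φ g0).toNat, by omega, g0, by rw [Int.toNat_of_nonneg (by omega)]⟩
  set d := Nat.find hex with hd
  obtain ⟨hd0, t, ht⟩ := Nat.find_spec hex
  have hmin : ∀ n : ℕ, 0 < n → (∃ g, φ g = n) → d ≤ n := fun n h1 h2 => Nat.find_min' hex ⟨h1, h2⟩
  have hdvd : ∀ g, (d : ℤ) ∣ φ g := by
    intro g
    have h1 : φ (g * t ^ (-(φ g / d))) = φ g % d := by
      rw [hφ, phi_zpow φ hφ, ht, Int.emod_def]
      ring
    have h2 : 0 ≤ φ g % d := Int.emod_nonneg _ (by omega)
    have h3 : φ g % d < d := Int.emod_lt_of_pos _ (by omega)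
    by_contra hcon
    have h4 : φ g % d ≠ 0 := fun h => hcon (Int.dvd_of_emod_eq_zero h)
    have h5 := hmin (φ g % d).toNat (by omega) ⟨_, by rw [h1, Int.toNat_of_nonneg h2]⟩
    omega
  set ψ : G → ℤ := fun g => φ g / d with hψ
  have hψm : ∀ a b, ψ (a * b) = ψ a + ψ b := by
    intro a b
    simp only [hψ]
    rw [hφ, Int.add_ediv_of_dvd_left (hdvd a)]
  have hψt : ψ t = 1 := by
    simp only [hψ]
    rw [ht]
    exact Int.ediv_self (by omega)
  refine AtiyahOver.of_kerZ ψ hψm t hψt ?_
  refine hN.of_injective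
    { toFun := fun g => (⟨g.1, by
        have h1 : φ g.1 / d = 0 := g.2
        have h2 := Int.ediv_mul_cancel (hdvd g.1)
        rw [h1, zero_mul] at h2
        exact h2.symm⟩ : kerZ φ hφ), map_one' := rfl, map_mul' := fun _ _ => rfl } ?_
  intro a b hab
  have := congrArg Subtype.val hab
  exact Subtype.ext this

end Forms

section Approx

/-- Approximation passes from the kernel of a homomorphism onto `ℤ` to the whole group. -/
theorem approx_of_kerZ {G : Type} [Group G] (φ : G → ℤ) (hφ : ∀ a b, φ (a * b) = φ a + φ b) (t : G)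
    (ht : φ t = 1) {I : Type} {l : Filter I} {H : I → Type} [∀ i, Group (H i)]
    (π : ∀ i, G →* H i) (hπ : ∀ g : G, g ≠ 1 → ∀ᶠ i in l, π i g ≠ 1)
    (hN : ∀ (m n : ℕ) (A : Matrix (Fin m) (Fin n) (kerZ φ hφ →₀ ℂ)),
      Tendsto (fun i => kerDim (pushMat ((π i).comp (kerZ φ hφ).subtype) A)) l (𝓝 (kerDim A)))
    {m n : ℕ} (A : Matrix (Fin m) (Fin n) (G →₀ ℂ)) :
    Tendsto (fun i => kerDim (pushMat (π i) A)) l (𝓝 (kerDim A)) := by
  set C := Set.range (colF A) with hC
  have hCf : C.Finite := Set.finite_range _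
  obtain ⟨b, hb⟩ := exists_bound φ hCf
  set ρ : ∀ i, G →* H i × Multiplicative ℤ := fun i => (π i).prod
    { toFun := fun g => Multiplicative.ofAdd (φ g)
      map_one' := by rw [phi_one φ hφ]; rfl
      map_mul' := fun x y => by rw [hφ, ofAdd_add] } with hρ
  have hle : ∀ i, kerDim (pushMat (ρ i) A) ≤ kerDim (pushMat (π i) A) := by
    intro i
    have h1 := kerDim_le_of_treeFree (MonoidHom.fst (H i) (Multiplicative ℤ)) (treeFree_fst (H i))
      (pushMat (ρ i) A)
    have h2 : pushMat (MonoidHom.fst (H i) (Multiplicative ℤ)) (pushMat (ρ i) A)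
        = pushMat (π i) A := by
      funext a c
      show Finsupp.mapDomain _ (Finsupp.mapDomain _ (A a c)) = Finsupp.mapDomain _ (A a c)
      rw [← Finsupp.mapDomain_comp]
      rfl
    rw [h2] at h1
    exact h1
  rw [Metric.tendsto_nhds]
  intro ε hε
  -- the window
  obtain ⟨M, hM⟩ := exists_nat_gt (4 * b * (Fintype.card (Fin m) : ℝ) / (ε / 4))
  rw [div_lt_iff₀ (by linarith)] at hM
  obtain ⟨m', n', B, hB1, hB2⟩ := exists_matrixH (DN φ hφ t ht b M C)
    (DN_finite φ hφ t ht b M hCf)
  have hG : c0 φ M C = kerDim B := by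
    have h1 := c0_eq φ hφ (MonoidHom.id G) t ht b M C hb φ (fun _ => rfl)
    rw [mapF_id_image] at h1
    have h2 : (MonoidHom.id G).comp (kerZ φ hφ).subtype = (kerZ φ hφ).subtype := rfl
    rw [h1, h2, vdim_induced _ (Subgroup.subtype_injective _), hB1]
  have hH : ∀ i, c0 (fun p : H i × Multiplicative ℤ => Multiplicative.toAdd p.2) M
      (mapF (ρ i) '' C) = kerDim (pushMat ((π i).comp (kerZ φ hφ).subtype) B) := by
    intro i
    have h1 := c0_eq φ hφ (ρ i) t ht b M C hb (fun p => Multiplicative.toAdd p.2) (fun _ => rfl)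
    rw [h1, hB2]
    have h2 : (ρ i).comp (kerZ φ hφ).subtype = (MonoidHom.inl (H i) (Multiplicative ℤ)).comp
        ((π i).comp (kerZ φ hφ).subtype) := by
      ext g
      · rfl
      · have : φ g.1 = 0 := g.2
        show Multiplicative.ofAdd (φ g.1) = 1
        rw [this]
        rfl
    rw [h2]
    have h3 : mapF ((MonoidHom.inl (H i) (Multiplicative ℤ)).comp
        ((π i).comp (kerZ φ hφ).subtype)) '' DN φ hφ t ht b M C
        = mapF (MonoidHom.inl (H i) (Multiplicative ℤ)) ''
          (mapF ((π i).comp (kerZ φ hφ).subtype) '' DN φ hφ t ht b M C) := by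
      rw [Set.image_image]
      apply Set.image_congr
      intro a _
      exact (mapF_comp _ _ a).symm
    rw [h3, vdim_induced]
    intro x y hxy
    exact congrArg Prod.fst hxy
  have h1 := hN m' n' B
  rw [Metric.tendsto_nhds] at h1
  have hM0 : (0 : ℝ) < M + 1 := by positivity
  filter_upwards [h1 ((M + 1) * (ε / 4)) (by positivity), eventually_le_add π hπ A (half_pos hε)]
    with i hi1 hi2
  rw [Real.dist_eq, abs_lt] at hi1
  rw [Real.dist_eq, abs_lt]
  have h2 := c0_le (H := H i × Multiplicative ℤ) (fun p => Multiplicative.toAdd p.2)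
    (fun _ _ => rfl) M (mapF (ρ i) '' C)
  rw [hH, ← kerDim_pushMat] at h2
  have h3 := le_c0 φ hφ (M := M) hb
  rw [hG, ← kerDim_eq] at h3
  have h4 := hle i
  have h5 : (M + 1) * (kerDim A - ε) < (M + 1) * kerDim (pushMat (π i) A) := by
    have h6 : (M + 1) * kerDim (pushMat (ρ i) A) ≤ (M + 1) * kerDim (pushMat (π i) A) :=
      mul_le_mul_of_nonneg_left h4 hM0.le
    nlinarith
  have h6 := lt_of_mul_lt_mul_left h5 hM0.le
  constructor <;> linarith

end Approx

end Pool.Agent.VN
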