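import Pool.Agent.VN.Defs

set_option autoImplicit false

noncomputable section

namespace Pool.Agent.VN

/-- The image of a matrix over `ℂG` under the ring homomorphism `ℂG → ℂH` induced by a group
homomorphism `π : G → H`. -/
def pushMat {G H : Type*} [Group G] [Group H] (π : G →* H) {m n : ℕ}
    (A : Matrix (Fin m) (Fin n) (G →₀ ℂ)) : Matrix (Fin m) (Fin n) (H →₀ ℂ) :=
  fun i j => Finsupp.mapDomain π (A i j)

/-- The subgroup `R` acts freely on the graph `T`: no element of `R` other than `1` fixes a vertex
or exchanges two adjacent vertices. -/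
def FreeOn {G V : Type*} [Group G] [MulAction G V] (T : SimpleGraph V) (R : Subgroup G) : Prop :=
  ∀ g ∈ R, g ≠ 1 → (∀ v : V, g • v ≠ v) ∧ ∀ u v : V, T.Adj u v → ¬ (g • u = v ∧ g • v = u)

/-- There is a tree on which `G` acts by graph automorphisms and the subgroup `R` acts freely. -/
def TreeFree {G : Type} [Group G] (R : Subgroup G) : Prop :=
  ∃ (V : Type) (_ : MulAction G V) (T : SimpleGraph V), T.IsTree ∧
    (∀ (g : G) (u v : V), T.Adj u v → T.Adj (g • u) (g • v)) ∧ FreeOn T R

end Pool.Agent.VN
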