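import Pool.Agent.VN.TreeLin
import Pool.Agent.VN.Kaz
import Pool.Agent.VN.FreeFinal
import Pool.Agent.VN.DefsA

set_option autoImplicit false
set_option linter.unusedSectionVars false

noncomputable section

open scoped InnerProductSpace ENNReal Topology
open Classical Filter ContinuousLinearMap

/-!
Functoriality of the dictionary between matrices and linear systems, and approximation for groups
acting on trees.
-/

namespace Pool.Agent.VN

section Functorial

lemma colF_eq {G : Type*} [Group G] {m n : ℕ} (A : Matrix (Fin m) (Fin n) (G →₀ ℂ)) (j : Fin n) :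
    colF A j = ∑ k : Fin m, Finsupp.mapDomain (fun h : G => ((k, h) : Fin m × G)) (A k j) := rfl

lemma colF_pushMat {G H : Type*} [Group G] [Group H] (π : G →* H) {m n : ℕ}
    (A : Matrix (Fin m) (Fin n) (G →₀ ℂ)) (j : Fin n) :
    colF (pushMat π A) j = mapF π (colF A j) := by
  rw [mapF_eq, colF_eq, colF_eq, Finsupp.mapDomain_finsetSum]
  refine Finset.sum_congr rfl fun k _ => ?_
  rw [← Finsupp.mapDomain_comp]
  show Finsupp.mapDomain (fun h : H => ((k, h) : Fin m × H)) (Finsupp.mapDomain π (A k j)) = _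
  rw [← Finsupp.mapDomain_comp]
  rfl

lemma kerDim_pushMat {G H : Type*} [Group G] [Group H] (π : G →* H) {m n : ℕ}
    (A : Matrix (Fin m) (Fin n) (G →₀ ℂ)) :
    kerDim (pushMat π A) = vdim (Sol (mapF π '' Set.range (colF A)) : Set (L2 (Fin m) H)) := by
  have h : colF (pushMat π A) = mapF π ∘ colF A := funext fun j => colF_pushMat π A j
  rw [kerDim_eq, ← Set.range_comp, h]

variable {ι G : Type} [Group G]

/-- Every finite system is a matrix, functorially in the group. -/
lemma exists_matrixH [Fintype ι] (C : Set (ι × G →₀ ℂ)) (hC : C.Finite) :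
    ∃ (m n : ℕ) (A : Matrix (Fin m) (Fin n) (G →₀ ℂ)),
      kerDim A = vdim (Sol C : Set (L2 ι G)) ∧ ∀ (H : Type) [Group H] (π : G →* H),
      kerDim (pushMat π A) = vdim (Sol (mapF π '' C) : Set (L2 ι H)) := by
  set e := Fintype.equivFin ι with he
  set s := hC.toFinset with hs
  set ec := s.equivFin with hec
  set c : Fin s.card → (ι × G →₀ ℂ) := fun j => (ec.symm j).1 with hc
  have hcC : ∀ j, c j ∈ C := fun j => hC.mem_toFinset.mp (ec.symm j).2
  have hCc : ∀ a ∈ C, ∃ j, c j = a := by
    intro a ha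
    refine ⟨ec ⟨a, hC.mem_toFinset.mpr ha⟩, ?_⟩
    simp [hc]
  set A : Matrix (Fin (Fintype.card ι)) (Fin s.card) (G →₀ ℂ) := Matrix.of fun k j =>
    (c j).comapDomain (fun g : G => ((e.symm k, g) : ι × G)) (fun _ _ _ _ h => by simpa using h)
    with hA
  have hAa : ∀ k j g, A k j g = c j (e.symm k, g) := fun k j g => rfl
  have hcol : ∀ j, colF A j
      = Finsupp.mapDomain (fun p : ι × G => ((e p.1, p.2) : Fin (Fintype.card ι) × G)) (c j) := by
    intro j
    set u : ι × G ≃ Fin (Fintype.card ι) × G := e.prodCongr (Equiv.refl G) with hu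
    have hu' : (fun p : ι × G => ((e p.1, p.2) : Fin (Fintype.card ι) × G)) = u := rfl
    rw [hu']
    ext q
    obtain ⟨k, g⟩ := q
    rw [colF_apply, hAa]
    have : ((k, g) : Fin (Fintype.card ι) × G) = u (e.symm k, g) := by simp [hu]
    rw [this, Finsupp.mapDomain_apply u.injective]
  have hmain : ∀ (H : Type) [Group H] (π : G →* H),
      vdim (Sol (mapF π '' Set.range (colF A)) : Set (L2 (Fin (Fintype.card ι)) H))
        = vdim (Sol (mapF π '' C) : Set (L2 ι H)) := by
    intro H _ π
    symm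
    apply vdim_reindex e
    intro x
    have key : ∀ j g, ev (mapF π (colF A j)) x g
        = ev (mapF π (c j)) (mulR (fun r => Finsupp.single (e r, (1 : H)) (1 : ℂ)) x) g := by
      intro j g
      rw [hcol, mapF_eq, ← Finsupp.mapDomain_comp, mapF_eq]
      have e1 : ((fun p : Fin (Fintype.card ι) × G => ((p.1, π p.2) : Fin (Fintype.card ι) × H)) ∘
          fun p : ι × G => ((e p.1, p.2) : Fin (Fintype.card ι) × G))
          = (fun p : ι × H => ((e p.1, p.2) : Fin (Fintype.card ι) × H)) ∘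
            fun p : ι × G => ((p.1, π p.2) : ι × H) := rfl
      rw [e1, Finsupp.mapDomain_comp]
      unfold ev
      rw [Finsupp.sum_mapDomain_index (by intro p; simp) (by intro p c d; ring)]
      refine Finsupp.sum_congr fun p _ => ?_
      rw [mulR_apply, ev_single]
      simp
    rw [mem_Sol, mem_Sol]
    constructor
    · rintro h _ ⟨a, ha, rfl⟩ g
      obtain ⟨j, rfl⟩ := hCc a ha
      rw [← key]
      exact h _ ⟨_, ⟨j, rfl⟩, rfl⟩ g
    · rintro h _ ⟨_, ⟨j, rfl⟩, rfl⟩ g
      rw [key]
      exact h _ ⟨_, hcC j, rfl⟩ g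
  refine ⟨_, _, A, ?_, fun H _ π => ?_⟩
  · rw [kerDim_eq]
    have h1 := hmain G (MonoidHom.id G)
    have h3 : ∀ {κ : Type} (D : Set (κ × G →₀ ℂ)), mapF (MonoidHom.id G) '' D = D := by
      intro κ D
      have : mapF (ι := κ) (MonoidHom.id G) = id := by
        funext a
        exact mapF_eq' a
      rw [this, Set.image_id]
    rw [h3, h3] at h1
    exact h1
  · rw [kerDim_pushMat]
    exact hmain H π

end Functorial

section Free

variable {G V : Type} [Group G] [MulAction G V]

theorem kerDim_le_of_freeOn {T : SimpleGraph V} (hT : T.IsTree)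
    (hact : ∀ (g : G) u v, T.Adj u v → T.Adj (g • u) (g • v)) {H : Type} [Group H] (π : G →* H)
    (hfree : FreeOn T π.ker) {m n : ℕ} (A : Matrix (Fin m) (Fin n) (G →₀ ℂ)) :
    kerDim A ≤ kerDim (pushMat π A) := by
  rw [kerDim_eq, kerDim_pushMat]
  apply tree_mono_Sol π hT hact
  · intro g v hv hg
    by_contra hne
    exact (hfree g hg hne).1 v hv
  · intro g u v huv h1 h2 hg
    by_contra hne
    exact (hfree g hg hne).2 u v huv ⟨h1, h2⟩
  · exact Set.finite_range _

/-- the upper bound in the approximation theorem holds for all groups -/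
theorem eventually_le_add {G : Type} [Group G] {I : Type} {l : Filter I} {H : I → Type}
    [∀ i, Group (H i)] (π : ∀ i, G →* H i) (hπ : ∀ g : G, g ≠ 1 → ∀ᶠ i in l, π i g ≠ 1)
    {m n : ℕ} (A : Matrix (Fin m) (Fin n) (G →₀ ℂ)) {ε : ℝ} (hε : 0 < ε) :
    ∀ᶠ i in l, kerDim (pushMat (π i) A) ≤ kerDim A + ε := by
  obtain ⟨F, hF1, hF2⟩ := kazhdan (colF A) hε
  have h1 : ∀ᶠ i in l, ∀ g ∈ F, π i g ≠ 1 := by
    rw [Filter.eventually_all_finset]
    exact fun g hg => hπ g (hF1 g hg)
  filter_upwards [h1] with i hi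
  rw [kerDim_pushMat, kerDim_eq, ← Set.range_comp]
  exact hF2 (π i) hi

theorem kerDim_le_of_treeFree {G H : Type} [Group G] [Group H] (π : G →* H)
    (hfree : TreeFree π.ker) {m n : ℕ} (A : Matrix (Fin m) (Fin n) (G →₀ ℂ)) :
    kerDim A ≤ kerDim (pushMat π A) := by
  obtain ⟨V, _, T, hT, hact, hf⟩ := hfree
  exact kerDim_le_of_freeOn hT hact π hf A

/-- Approximation for kernels acting freely on trees. -/
theorem tendsto_of_treeFree {G : Type} [Group G] {I : Type} {l : Filter I}
    {H : I → Type} [∀ i, Group (H i)] (π : ∀ i, G →* H i)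
    (hπ : ∀ g : G, g ≠ 1 → ∀ᶠ i in l, π i g ≠ 1) (hfree : ∀ᶠ i in l, TreeFree (π i).ker)
    {m n : ℕ} (A : Matrix (Fin m) (Fin n) (G →₀ ℂ)) :
    Tendsto (fun i => kerDim (pushMat (π i) A)) l (𝓝 (kerDim A)) := by
  rw [Metric.tendsto_nhds]
  intro ε hε
  filter_upwards [hfree, eventually_le_add π hπ A (half_pos hε)] with i h1 h2
  have h3 := kerDim_le_of_treeFree (π i) h1 A
  rw [Real.dist_eq, abs_lt]
  constructor <;> linarith

end Free

end Pool.Agent.VN
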