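import Pool.Agent.VN.Prod

set_option autoImplicit false
set_option linter.unusedSectionVars false

noncomputable section

open scoped InnerProductSpace ENNReal Topology
open Classical Filter ContinuousLinearMap

/-!
Induction of closed invariant subspaces along injective homomorphisms, and relative dimension
formulas for intersections.
-/

namespace Pool.Agent.VN

section Ind

variable {ι B G : Type*} [Group B] [Group G]

/-- restriction along an injective homomorphism -/
def resF (f : B →* G) (hf : Function.Injective f) : L2 ι G →L[ℂ] L2 ι B :=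
  pull _ (injIdx (ι := ι) f hf)

@[simp] lemma resF_apply (f : B →* G) (hf : Function.Injective f) (z : L2 ι G) (p : ι × B) :
    resF f hf z p = z (p.1, f p.2) := rfl

lemma resF_lt (f : B →* G) (hf : Function.Injective f) (b : B) (z : L2 ι G) :
    resF f hf (lt (f b) z) = lt b (resF f hf z) := by
  ext p
  rw [lt_apply, resF_apply, resF_apply, lt_apply]
  simp

/-- the induced subspace -/
def Ind (f : B →* G) (hf : Function.Injective f) (M : Submodule ℂ (L2 ι B)) :
    Submodule ℂ (L2 ι G) where
  carrier := {z | ∀ g : G, resF f hf (lt g z) ∈ M}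
  add_mem' := by
    intro x y hx hy g
    rw [map_add, map_add]
    exact M.add_mem (hx g) (hy g)
  zero_mem' := by
    intro g
    rw [map_zero, map_zero]
    exact M.zero_mem
  smul_mem' := by
    intro c x hx g
    rw [map_smul, map_smul]
    exact M.smul_mem c (hx g)

lemma mem_Ind {f : B →* G} {hf : Function.Injective f} {M : Submodule ℂ (L2 ι B)} {z : L2 ι G} :
    z ∈ Ind f hf M ↔ ∀ g : G, resF f hf (lt g z) ∈ M := Iff.rfl

lemma Ind_invar (f : B →* G) (hf : Function.Injective f) (M : Submodule ℂ (L2 ι B)) :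
    Invar (Ind f hf M) := by
  intro s x hx g
  rw [lt_lt]
  exact hx _

lemma Ind_closed (f : B →* G) (hf : Function.Injective f) {M : Submodule ℂ (L2 ι B)}
    (hM : IsClosed (M : Set (L2 ι B))) : IsClosed (Ind f hf M : Set (L2 ι G)) := by
  have : (Ind f hf M : Set (L2 ι G)) = ⋂ g : G, (fun z => resF f hf (lt g z)) ⁻¹' M := by
    ext z
    simp only [Set.mem_iInter, Set.mem_preimage, SetLike.mem_coe, mem_Ind]
  rw [this]
  exact isClosed_iInter fun g =>
    hM.preimage ((resF f hf).continuous.comp (lt g).continuous)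

lemma resF_mem (f : B →* G) (hf : Function.Injective f) {M : Submodule ℂ (L2 ι B)} {z : L2 ι G}
    (hz : z ∈ Ind f hf M) : resF f hf z ∈ M := by
  have := hz 1
  rwa [lt_one] at this

theorem vdim_Ind [Fintype ι] (f : B →* G) (hf : Function.Injective f) {M : Submodule ℂ (L2 ι B)}
    (hMi : Invar M) (hM : IsClosed (M : Set (L2 ι B))) :
    vdim (Ind f hf M : Set (L2 ι G)) = vdim (M : Set (L2 ι B)) := by
  have c1 : CompleteSpace M := hM.completeSpace_coe
  have hpush : ∀ x ∈ M, push _ (injIdx (ι := ι) f hf) x ∈ Ind f hf M := by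
    intro x hx g
    by_cases hg : ∃ b, f b = g
    · obtain ⟨b, rfl⟩ := hg
      rw [resF_lt]
      apply hMi
      have : resF f hf (push _ (injIdx (ι := ι) f hf) x) = x := by
        ext p
        rw [resF_apply]
        exact push_apply _ (injIdx (ι := ι) f hf) x p
      rw [this]
      exact hx
    · have : resF f hf (lt g (push _ (injIdx (ι := ι) f hf) x)) = 0 := by
        ext p
        rw [resF_apply, lt_apply, push_apply_of_notMem]
        · rfl
        · intro q hq
          apply hg
          have h2 : f q.2 = g⁻¹ * f p.2 := congrArg Prod.snd hq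
          exact ⟨p.2 * q.2⁻¹, by rw [map_mul, map_inv, h2]; group⟩
      rw [this]
      exact M.zero_mem
  have hdl : ∀ i : ι, (dl (i, (1 : G)) : L2 ι G)
      = push _ (injIdx (ι := ι) f hf) (dl (i, (1 : B))) := by
    intro i
    rw [push_dl]
    simp
  rw [vdim_of_candidates (Ind f hf M) (Ind_closed f hf hM)
    (fun i => push _ (injIdx (ι := ι) f hf) (M.starProjection (dl (i, (1 : B)))))
    (fun i => hpush _ (Submodule.starProjection_apply_mem _ _)) ?_, vdim_eq_sum]
  · refine Finset.sum_congr rfl fun i _ => ?_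
    have h1 : ∀ x : L2 ι B, ‖push _ (injIdx (ι := ι) f hf) x‖ ^ 2 = ‖x‖ ^ 2 := by
      intro x
      have h2 : ⟪push _ (injIdx (ι := ι) f hf) x, push _ (injIdx (ι := ι) f hf) x⟫_ℂ
          = ⟪x, x⟫_ℂ := by
        conv_lhs => rw [push]
        rw [ContinuousLinearMap.adjoint_inner_left]
        congr 1
        ext p
        rw [pull_apply]
        exact push_apply _ (injIdx (ι := ι) f hf) x p
      rw [inner_self_eq_norm_sq_to_K, inner_self_eq_norm_sq_to_K] at h2
      exact_mod_cast h2
    exact h1 _
  · intro i z hz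
    rw [hdl, ← map_sub, push, ContinuousLinearMap.adjoint_inner_left]
    exact M.starProjection_inner_eq_zero _ _ (resF_mem f hf hz)

/-- solution spaces are induced -/
lemma Sol_mapF (f : B →* G) (hf : Function.Injective f) (C : Set (ι × B →₀ ℂ)) :
    Sol (mapF f '' C) = Ind f hf (Sol C) := by
  ext z
  constructor
  · intro hz g a ha b
    have h1 := hz _ ⟨a, ha, rfl⟩ (g⁻¹ * f b)
    rw [ev_mapF] at h1
    rw [ev_def, ← h1]
    refine Finset.sum_congr rfl fun p _ => ?_
    rw [resF_apply, lt_apply]
    simp [mul_assoc]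
  · rintro hz _ ⟨a, ha, rfl⟩ g
    have h1 := hz g⁻¹ a ha 1
    rw [ev_def] at h1
    rw [ev_mapF, ← h1]
    refine Finset.sum_congr rfl fun p _ => ?_
    rw [resF_apply, lt_apply]
    simp

/-- induction in stages, with an additional intersection -/
lemma Ind_inf_Ind {N : Type*} [Group N] (ν : N →* B) (hν : Function.Injective ν) (f : B →* G)
    (hf : Function.Injective f) (hfν : Function.Injective (f.comp ν))
    (M : Submodule ℂ (L2 ι B)) (S : Submodule ℂ (L2 ι N)) :
    Ind f hf (M ⊓ Ind ν hν S) = Ind f hf M ⊓ Ind (f.comp ν) hfν S := by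
  ext z
  constructor
  · intro hz
    refine ⟨fun g => (hz g).1, fun g => ?_⟩
    have h1 := (hz g).2 1
    rw [lt_one] at h1
    exact h1
  · rintro ⟨h1, h2⟩ g
    refine ⟨h1 g, fun b => ?_⟩
    have h3 := h2 (f b * g)
    rw [← lt_lt] at h3
    have e : resF ν hν (lt b (resF f hf (lt g z)))
        = resF (f.comp ν) hfν (lt (f b) (lt g z)) := by
      rw [← resF_lt]
      rfl
    rw [e]
    exact h3

end Ind

section Rel

variable {ι G : Type*} [Group G] [Fintype ι]

lemma vdim_compl {P R : Submodule ℂ (L2 ι G)} (hP : Invar P) (hPc : IsClosed (P : Set (L2 ι G)))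
    (hR : Invar R) (hRc : IsClosed (R : Set (L2 ι G))) (h : P ≤ R) :
    vdim ((R ⊓ Pᗮ : Submodule ℂ (L2 ι G)) : Set (L2 ι G))
      = vdim (R : Set (L2 ι G)) - vdim (P : Set (L2 ι G)) := by
  have c1 : CompleteSpace P := hPc.completeSpace_coe
  have c2 : CompleteSpace R := hRc.completeSpace_coe
  have h1 := vdim_map hP.proj hR hRc
  have h2 : LinearMap.ker (P.starProjection).toLinearMap = Pᗮ := by
    ext x
    show P.starProjection x = 0 ↔ _
    rw [Submodule.starProjection_apply_eq_zero_iff]
  have h3 : R.map (P.starProjection).toLinearMap = P := by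
    apply le_antisymm
    · rintro _ ⟨x, _, rfl⟩
      exact Submodule.starProjection_apply_mem _ _
    · intro x hx
      exact ⟨x, h hx, Submodule.starProjection_eq_self_iff.mpr hx⟩
  rw [h2, h3] at h1
  linarith

/-- relative form of the intersection inequality -/
theorem vdim_inter_rel {P Q R : Submodule ℂ (L2 ι G)} (hP : Invar P)
    (hPc : IsClosed (P : Set (L2 ι G))) (hQ : Invar Q) (hQc : IsClosed (Q : Set (L2 ι G)))
    (hR : Invar R) (hRc : IsClosed (R : Set (L2 ι G))) (hPR : P ≤ R) (hQR : Q ≤ R) :
    vdim (P : Set (L2 ι G)) + vdim (Q : Set (L2 ι G))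
      ≤ vdim (R : Set (L2 ι G)) + vdim ((P ⊓ Q : Submodule ℂ (L2 ι G)) : Set (L2 ι G)) := by
  have c1 : CompleteSpace Q := hQc.completeSpace_coe
  have h1 := vdim_map (hQ.orthogonal.proj) hP hPc
  have h2 : LinearMap.ker (Qᗮ.starProjection).toLinearMap = Q := by
    ext x
    show Qᗮ.starProjection x = 0 ↔ x ∈ Q
    rw [Submodule.starProjection_apply_eq_zero_iff, Submodule.orthogonal_orthogonal]
  rw [h2] at h1
  have h3 : P.map (Qᗮ.starProjection).toLinearMap ≤ R ⊓ Qᗮ := by
    rintro _ ⟨x, hx, rfl⟩
    refine ⟨?_, Submodule.starProjection_apply_mem _ _⟩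
    show Qᗮ.starProjection x ∈ R
    rw [Submodule.starProjection_orthogonal']
    exact R.sub_mem (hPR hx) (hQR (Submodule.starProjection_apply_mem _ _))
  have h4 := vdim_mono h3
  rw [vdim_compl hQ hQc hR hRc hQR] at h4
  linarith

/-- Equality holds if the complements are independent. -/
theorem vdim_inter_eq {P Q R : Submodule ℂ (L2 ι G)} (hP : Invar P)
    (hPc : IsClosed (P : Set (L2 ι G))) (hQ : Invar Q) (hQc : IsClosed (Q : Set (L2 ι G)))
    (hR : Invar R) (hRc : IsClosed (R : Set (L2 ι G))) (hPR : P ≤ R) (hQR : Q ≤ R)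
    (hind : ∀ y ∈ R, y ∈ Pᗮ → y ∈ Qᗮ → y = 0) :
    vdim (P : Set (L2 ι G)) + vdim (Q : Set (L2 ι G))
      = vdim (R : Set (L2 ι G)) + vdim ((P ⊓ Q : Submodule ℂ (L2 ι G)) : Set (L2 ι G)) := by
  have c1 : CompleteSpace Q := hQc.completeSpace_coe
  have h1 := vdim_map (hQ.orthogonal.proj) hP hPc
  have h2 : LinearMap.ker (Qᗮ.starProjection).toLinearMap = Q := by
    ext x
    show Qᗮ.starProjection x = 0 ↔ x ∈ Q
    rw [Submodule.starProjection_apply_eq_zero_iff, Submodule.orthogonal_orthogonal]
  rw [h2] at h1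
  set W := P.map (Qᗮ.starProjection).toLinearMap with hW
  have h3 : W ≤ R ⊓ Qᗮ := by
    rintro _ ⟨x, hx, rfl⟩
    refine ⟨?_, Submodule.starProjection_apply_mem _ _⟩
    show Qᗮ.starProjection x ∈ R
    rw [Submodule.starProjection_orthogonal']
    exact R.sub_mem (hPR hx) (hQR (Submodule.starProjection_apply_mem _ _))
  have hcl : IsClosed ((R ⊓ Qᗮ : Submodule ℂ (L2 ι G)) : Set (L2 ι G)) :=
    hRc.inter (Submodule.isClosed_orthogonal Q)
  have h5 : W.topologicalClosure = R ⊓ Qᗮ := by
    apply le_antisymm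
    · exact Submodule.topologicalClosure_minimal _ h3 hcl
    · have c3 : CompleteSpace W.topologicalClosure :=
        (Submodule.isClosed_topologicalClosure _).completeSpace_coe
      intro y hy
      set w := W.topologicalClosure.starProjection y with hw
      have hwm : w ∈ W.topologicalClosure := Submodule.starProjection_apply_mem _ _
      have hwR : w ∈ R ⊓ Qᗮ := Submodule.topologicalClosure_minimal _ h3 hcl hwm
      have hd : y - w ∈ R ⊓ Qᗮ := Submodule.sub_mem _ hy hwR
      have h6 : y - w = 0 := by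
        apply hind _ hd.1 _ hd.2
        rw [Submodule.mem_orthogonal]
        intro x hx
        have h7 : ⟪Qᗮ.starProjection x, y - w⟫_ℂ = 0 := by
          have h8 : Qᗮ.starProjection x ∈ W.topologicalClosure :=
            Submodule.le_topologicalClosure _ ⟨x, hx, rfl⟩
          have h9 := W.topologicalClosure.starProjection_inner_eq_zero y _ h8
          rw [← hw] at h9
          rw [← inner_conj_symm, h9, map_zero]
        have h10 : ⟪x, y - w⟫_ℂ = ⟪Qᗮ.starProjection x, y - w⟫_ℂ := by
          rw [Submodule.inner_starProjection_left_eq_right,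
            Submodule.starProjection_eq_self_iff.mpr hd.2]
        rw [h10, h7]
      rw [sub_eq_zero] at h6
      rw [h6]
      exact hwm
  have h6 : vdim (W : Set (L2 ι G)) = vdim (R : Set (L2 ι G)) - vdim (Q : Set (L2 ι G)) := by
    rw [← vdim_compl hQ hQc hR hRc hQR, ← h5, Submodule.topologicalClosure_coe, vdim_closure]
  linarith

end Rel

end Pool.Agent.VN
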