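import Pool.Agent.VN.Lin

set_option autoImplicit false
set_option linter.unusedSectionVars false

noncomputable section

open scoped InnerProductSpace ENNReal Topology
open Classical Filter ContinuousLinearMap

/-!
Functorial linearisation: the new system works simultaneously for all homomorphic images.
-/

namespace Pool.Agent.VN

section Lin2

variable {ι I : Type} {A : I → Type} [∀ i, Group (A i)] {G : Type} [Group G]
  (f : ∀ i, A i →* G)

lemma lpr_comp {H : Type} [Group H] (π : G →* H) (w : List (Σ i, A i)) :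
    lpr (fun i => π.comp (f i)) w = π (lpr f w) := by
  induction w with
  | nil => exact (map_one π).symm
  | cons s w ih =>
    have e1 : lpr (fun i => π.comp (f i)) (s :: w)
        = lpr (fun i => π.comp (f i)) w * π (f s.1 s.2) := rfl
    have e2 : lpr f (s :: w) = lpr f w * f s.1 s.2 := rfl
    rw [e1, e2, ih, map_mul]

lemma coefIn_mapF' {B H ι : Type} [Group B] [Group H] {k : Subring ℂ} (f : B →* H)
    {a : ι × B →₀ ℂ} (ha : CoefIn k a) : CoefIn k (mapF f a) :=
  coefIn_mapF f ha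

theorem lineariseH [Fintype ι] (k : Subring ℂ) (hgen : ∀ g : G, ∃ w, lpr f w = g)
    (C : Set (ι × G →₀ ℂ)) (hC : C.Finite) (hk : ∀ c ∈ C, CoefIn k c) (i0 : I) :
    ∃ (κ : Type) (_ : Fintype κ) (J : Finset I) (D : ∀ i, Set (κ × A i →₀ ℂ)),
      i0 ∈ J ∧ (∀ i, (D i).Finite) ∧ (∀ i, i ∉ J → D i = ∅) ∧ (∀ i, ∀ c ∈ D i, CoefIn k c) ∧
      ∀ {H : Type} [Group H] (π : G →* H),
        vdim (Sol (⋃ i, mapF (π.comp (f i)) '' D i) : Set (L2 κ H))
          = vdim (Sol (mapF π '' C) : Set (L2 ι H)) := by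
  obtain ⟨W, hW0, hW1, hW2⟩ := exists_words f hgen
    (hC.toFinset.biUnion fun c => c.support.image Prod.snd)
  have hwd : ∀ g : G, ∃ w : W, (∃ c ∈ C, ∃ k, (k, g) ∈ c.support) → lpr f w.1 = g := by
    intro g
    by_cases h : ∃ c ∈ C, ∃ k, (k, g) ∈ c.support
    · obtain ⟨c, hc, k, hk⟩ := h
      obtain ⟨w, hw, he⟩ := hW2 g (by
        rw [Finset.mem_biUnion]
        exact ⟨c, hC.mem_toFinset.mpr hc, Finset.mem_image.mpr ⟨(k, g), hk, rfl⟩⟩)
      exact ⟨⟨w, hw⟩, fun _ => he⟩
    · exact ⟨⟨[], hW0⟩, fun h' => absurd h' h⟩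
  choose wo hwo using hwd
  -- the scalar equations
  set sc : (ι × G →₀ ℂ) → ((ι × W) × A i0 →₀ ℂ) := fun c =>
    ∑ p ∈ c.support, Finsupp.single (((p.1, wo p.2) : ι × W), (1 : A i0)) (c p) with hsc
  set D : ∀ i, Set ((ι × W) × A i →₀ ℂ) := fun i =>
    relS ι W hW1 i ∪ (if h : i0 = i then h ▸ (sc '' C) else ∅) with hD
  have hD0 : D i0 = relS ι W hW1 i0 ∪ sc '' C := by
    simp only [hD]
    rw [dif_pos trivial]
  have hDfin : ∀ i, (D i).Finite := by
    intro i
    by_cases h : i0 = i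
    · subst h
      rw [hD0]
      exact (relS_finite W hW1 _).union (hC.image _)
    · simp only [hD]
      rw [dif_neg h, Set.union_empty]
      exact relS_finite W hW1 _
  have hrelk : ∀ i, ∀ c ∈ relS ι W hW1 i, CoefIn k c := by
    rintro i _ ⟨l, w, a, h, rfl⟩ p
    rw [Finsupp.sub_apply]
    exact k.sub_mem (coefIn_single k _ _ k.one_mem p) (coefIn_single k _ _ k.one_mem p)
  refine ⟨ι × W, inferInstance, insert i0 (W.biUnion fun w => (w.map Sigma.fst).toFinset), D,
    Finset.mem_insert_self _ _, hDfin, ?_, ?_, ?_⟩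
  · intro i hi
    rw [Finset.mem_insert, not_or] at hi
    obtain ⟨hi1, hi2⟩ := hi
    simp only [hD]
    rw [dif_neg (fun h => hi1 h.symm), Set.union_empty]
    ext c
    simp only [Set.mem_empty_iff_false, iff_false]
    rintro ⟨k, w, a, h, -⟩
    apply hi2
    rw [Finset.mem_biUnion]
    exact ⟨_, h, by simp⟩
  · intro i c hc
    by_cases h : i0 = i
    · subst h
      rw [hD0] at hc
      rcases hc with hc | ⟨c, hc, rfl⟩
      · exact hrelk _ _ hc
      · exact coefIn_sum _ _ _ fun p _ => coefIn_single _ _ _ (hk c hc p)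
    · simp only [hD] at hc
      rw [dif_neg h, Set.union_empty] at hc
      exact hrelk _ _ hc
  -- a homomorphic image
  intro H _ π
  -- the change of variables
  set Φ : ι × W → (ι × H →₀ ℂ) := fun q => Finsupp.single (q.1, π (lpr f q.2.1)) 1 with hΦ
  have hΦa : ∀ (x : L2 ι H) (k : ι) (w : W) (g : H),
      (mulR Φ x) ((k, w), g) = x (k, g * (π (lpr f w.1))⁻¹) := by
    intro x k w g
    rw [mulR_apply, ev_single, one_mul]
  -- evaluation of the new equations
  have hrel : ∀ (i : I) (k : ι) (w : List (Σ i, A i)) (a : A i)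
      (h : (⟨i, a⟩ : Σ i, A i) :: w ∈ W) (y : L2 (ι × W) H) (g : H),
      ev (mapF (π.comp (f i)) (Finsupp.single (((k, ⟨_, h⟩) : ι × W), (1 : A i)) (1 : ℂ)
        - Finsupp.single (((k, ⟨w, hW1 _ _ h⟩) : ι × W), a) 1)) y g
      = y ((k, ⟨_, h⟩), g) - y ((k, ⟨w, hW1 _ _ h⟩), g * (π (f i a))⁻¹) := by
    intro i k w a h y g
    rw [mapF_sub, ev_sub, mapF_single, mapF_single, ev_single, ev_single]
    simp
  have hscal : ∀ (c : ι × G →₀ ℂ) (y : L2 (ι × W) H) (g : H),
      ev (mapF (π.comp (f i0)) (sc c)) y g = ∑ p ∈ c.support, c p * y ((p.1, wo p.2), g) := by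
    intro c y g
    have h1 : mapF (π.comp (f i0)) (sc c)
        = ∑ p ∈ c.support, Finsupp.single (((p.1, wo p.2) : ι × W), (1 : H)) (c p) := by
      rw [mapF_eq, hsc, Finsupp.mapDomain_finsetSum]
      refine Finset.sum_congr rfl fun p _ => ?_
      rw [Finsupp.mapDomain_single]
      simp
    rw [h1, ev_finsetSum]
    refine Finset.sum_congr rfl fun p _ => ?_
    rw [ev_single]
    simp
  have hwo' : ∀ c ∈ C, ∀ p ∈ c.support, lpr f (wo p.2).1 = p.2 := by
    intro c hc p hp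
    exact hwo p.2 ⟨c, hc, p.1, hp⟩
  have hcons : ∀ (i : I) (a : A i) (w : List (Σ i, A i)),
      π (lpr f ((⟨i, a⟩ : Σ i, A i) :: w)) = π (lpr f w) * π (f i a) := by
    intro i a w
    have e : lpr f ((⟨i, a⟩ : Σ i, A i) :: w) = lpr f w * f i a := rfl
    rw [e, map_mul]
  apply vdim_eq_of_param Φ (Sol (mapF π '' C)) (Sol_invar _) (Sol_closed _)
  · intro x _ h0
    ext q
    obtain ⟨k, g⟩ := q
    have h1 := hΦa x k ⟨[], hW0⟩ g
    rw [h0] at h1
    have h2 : π (lpr f ([] : List (Σ i, A i))) = 1 := map_one π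
    rw [h2] at h1
    simpa using h1.symm
  · intro x hx a ha g
    obtain ⟨i, c, hc, rfl⟩ := Set.mem_iUnion.mp ha
    have hcr : (c ∈ relS ι W hW1 i) ∨ ∃ h : i0 = i, c ∈ (h ▸ (sc '' C) : Set _) := by
      simp only [hD] at hc
      rcases hc with hc | hc
      · exact Or.inl hc
      · by_cases h : i0 = i
        · rw [dif_pos h] at hc
          exact Or.inr ⟨h, hc⟩
        · rw [dif_neg h] at hc
          exact absurd hc (Set.notMem_empty _)
    rcases hcr with hc | ⟨h, hc⟩
    · obtain ⟨k, w, a, h, rfl⟩ := hc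
      rw [hrel, hΦa, hΦa, sub_eq_zero]
      simp only
      rw [hcons, mul_inv_rev, mul_assoc]
    · subst h
      obtain ⟨c', hc', rfl⟩ := hc
      rw [hscal]
      have h1 := hx _ ⟨c', hc', rfl⟩ g
      rw [ev_mapF] at h1
      rw [← h1]
      refine Finset.sum_congr rfl fun p hp => ?_
      rw [hΦa, hwo' c' hc' p hp]
  · intro y hy
    set x : L2 ι H := mulR (fun k => Finsupp.single (((k, ⟨[], hW0⟩) : ι × W), (1 : H)) 1) y
      with hx
    have hxa : ∀ k g, x (k, g) = y ((k, ⟨[], hW0⟩), g) := by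
      intro k g
      rw [hx, mulR_apply, ev_single]
      simp
    have hyx : ∀ (w : List (Σ i, A i)) (hw : w ∈ W) (k : ι) (g : H),
        y ((k, ⟨w, hw⟩), g) = x (k, g * (π (lpr f w))⁻¹) := by
      intro w
      induction w with
      | nil =>
        intro hw k g
        rw [hxa]
        have h2 : π (lpr f ([] : List (Σ i, A i))) = 1 := map_one π
        rw [h2, inv_one, mul_one]
      | cons s w ih =>
        intro hw k g
        obtain ⟨i, a⟩ := s
        have h1 := hy (mapF (π.comp (f i)) (Finsupp.single (((k, ⟨_, hw⟩) : ι × W), (1 : A i))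
          (1 : ℂ) - Finsupp.single (((k, ⟨w, hW1 _ _ hw⟩) : ι × W), a) 1))
          (Set.mem_iUnion.mpr ⟨i, _, Or.inl ⟨k, w, a, hw, rfl⟩, rfl⟩) g
        rw [hrel, sub_eq_zero] at h1
        rw [h1, ih (hW1 _ _ hw), hcons, mul_inv_rev, mul_assoc]
    refine ⟨x, ?_, ?_⟩
    · rintro _ ⟨c, hc, rfl⟩ g
      have h1 := hy (mapF (π.comp (f i0)) (sc c)) (Set.mem_iUnion.mpr ⟨i0, _, by
        rw [hD0]
        exact Or.inr ⟨c, hc, rfl⟩, rfl⟩) g
      rw [hscal] at h1
      rw [ev_mapF, ← h1]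
      refine Finset.sum_congr rfl fun p hp => ?_
      rw [hyx (wo p.2).1 (wo p.2).2, hwo' c hc p hp]
    · ext q
      obtain ⟨⟨k, w, hw⟩, g⟩ := q
      rw [hΦa, hyx w hw]

end Lin2

end Pool.Agent.VN
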