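import Pool.Agent.VN.Haar
import Pool.Agent.VN.Fc

set_option autoImplicit false
set_option linter.unusedSectionVars false

noncomputable section

open scoped InnerProductSpace ENNReal Topology
open Classical Filter ContinuousLinearMap MeasureTheory

namespace Pool.Agent.VN

variable {ι κ μ G : Type*} [Group G] [Fintype ι] (F : HaarFam ι G)

lemma norm_tr_le (T : L2 ι G →L[ℂ] L2 ι G) : ‖tr T‖ ≤ Fintype.card ι * ‖T‖ := by
  unfold tr
  refine le_trans (norm_sum_le _ _) ?_
  have : ∀ i ∈ (Finset.univ : Finset ι), ‖⟪dl (i, (1 : G)), T (dl (i, 1))⟫_ℂ‖ ≤ ‖T‖ := by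
    intro i _
    refine le_trans (norm_inner_le_norm _ _) ?_
    rw [norm_dl, one_mul]
    have := T.le_opNorm (dl (i, 1))
    rwa [norm_dl, mul_one] at this
  refine le_trans (Finset.sum_le_sum this) ?_
  simp

theorem tr_fc (f : ℝ → ℝ) (hf : Continuous f) :
    (2 * Real.pi : ℂ) * tr (fc F.S f)
      = (Fintype.card ι : ℂ) * ((∫ θ in (0 : ℝ)..(2 * Real.pi), f (Real.cos θ) : ℝ) : ℂ) := by
  rw [← sub_eq_zero, ← norm_le_zero_iff]
  refine le_of_forall_pos_le_add fun ε hε => ?_
  set C : ℝ := 4 * Real.pi * (Fintype.card ι + 1) with hC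
  have hCpos : 0 < C := by have := Real.pi_pos; positivity
  obtain ⟨q, hq⟩ := exists_polynomial_near_of_continuousOn (-1) 1 f hf.continuousOn (ε / C)
    (by positivity)
  set Q : L2 ι G →L[ℂ] L2 ι G := fc F.S (fun t => q.eval t) with hQ
  have h1 : (2 * Real.pi : ℂ) * tr Q
      = (Fintype.card ι : ℂ) * ((∫ θ in (0 : ℝ)..(2 * Real.pi), q.eval (Real.cos θ) : ℝ) : ℂ) := by
    rw [hQ, fc_poly F.S_sa q]
    exact F.tr_poly q
  have hn : ‖fc F.S f - Q‖ ≤ ε / C := by
    rw [hQ, ← fc_sub hf q.continuous]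
    refine norm_fc_le F.norm_S_le (by positivity) fun x hx => ?_
    rw [abs_sub_comm]
    exact (hq x hx).le
  have h2 : ‖tr (fc F.S f) - tr Q‖ ≤ Fintype.card ι * (ε / C) := by
    rw [← tr_sub]
    exact le_trans (norm_tr_le _) (by gcongr)
  have h3 : ‖(∫ θ in (0 : ℝ)..(2 * Real.pi), f (Real.cos θ))
      - ∫ θ in (0 : ℝ)..(2 * Real.pi), q.eval (Real.cos θ)‖ ≤ ε / C * (2 * Real.pi) := by
    have e1 : IntervalIntegrable (fun θ => f (Real.cos θ)) MeasureTheory.volume 0 (2 * Real.pi) :=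
      (hf.comp Real.continuous_cos).intervalIntegrable _ _
    have e2 : IntervalIntegrable (fun θ => q.eval (Real.cos θ)) MeasureTheory.volume 0
        (2 * Real.pi) := (q.continuous.comp Real.continuous_cos).intervalIntegrable _ _
    rw [← intervalIntegral.integral_sub e1 e2]
    have := intervalIntegral.norm_integral_le_of_norm_le_const (a := (0 : ℝ)) (b := 2 * Real.pi)
      (C := ε / C) (f := fun θ => f (Real.cos θ) - q.eval (Real.cos θ)) (fun θ _ => by
        rw [Real.norm_eq_abs, abs_sub_comm]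
        exact (hq _ ⟨Real.neg_one_le_cos θ, Real.cos_le_one θ⟩).le)
    rwa [sub_zero, abs_of_nonneg (by have := Real.pi_pos; positivity)] at this
  have h4 : (2 * Real.pi : ℂ) * tr (fc F.S f)
      - (Fintype.card ι : ℂ) * ((∫ θ in (0 : ℝ)..(2 * Real.pi), f (Real.cos θ) : ℝ) : ℂ)
      = (2 * Real.pi : ℂ) * (tr (fc F.S f) - tr Q)
        - (Fintype.card ι : ℂ) * (((∫ θ in (0 : ℝ)..(2 * Real.pi), f (Real.cos θ))
          - ∫ θ in (0 : ℝ)..(2 * Real.pi), q.eval (Real.cos θ) : ℝ) : ℂ) := by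
    push_cast
    linear_combination h1
  rw [h4]
  refine le_trans (norm_sub_le _ _) ?_
  have h5 : ‖(2 * Real.pi : ℂ)‖ = 2 * Real.pi := by
    rw [norm_mul, Complex.norm_real, Real.norm_of_nonneg Real.pi_pos.le]
    norm_num
  rw [norm_mul, h5, norm_mul, Complex.norm_real, Complex.norm_natCast]
  have hpi := Real.pi_pos
  calc 2 * Real.pi * ‖tr (fc F.S f) - tr Q‖
        + (Fintype.card ι : ℝ) * ‖(∫ θ in (0 : ℝ)..(2 * Real.pi), f (Real.cos θ))
          - ∫ θ in (0 : ℝ)..(2 * Real.pi), q.eval (Real.cos θ)‖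
      ≤ 2 * Real.pi * (Fintype.card ι * (ε / C)) + (Fintype.card ι : ℝ) * (ε / C * (2 * Real.pi)) := by
        gcongr
    _ = (4 * Real.pi * Fintype.card ι) * (ε / C) := by ring
    _ ≤ C * (ε / C) := by
        gcongr
        rw [hC]
        nlinarith
    _ = 0 + ε := by field_simp; ring

lemma fc_eqv (f : ℝ → ℝ) : Equivar (fc F.S f) := fun s x =>
  fc_comm (S := F.S) (B := lt s) (fun x => F.S_eqv s x) f x

/-- Lower bound for the integral of the bump function. -/
lemma integral_bump_ge {t₀ M : ℝ} (hM : 0 < M) :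
    2 * Real.arccos (t₀ + 1 / M)
      ≤ ∫ θ in (0 : ℝ)..(2 * Real.pi), bump t₀ M (Real.cos θ) := by
  set a := Real.arccos (t₀ + 1 / M) with ha
  have ha0 : 0 ≤ a := Real.arccos_nonneg _
  have hapi : a ≤ Real.pi := Real.arccos_le_pi _
  have hpi := Real.pi_pos
  have hcont : Continuous fun θ => bump t₀ M (Real.cos θ) := by
    have h1 := bump_cont t₀ M
    have h2 := cutoff_cont t₀
    unfold bump
    exact (h1.comp Real.continuous_cos).mul (h2.comp Real.continuous_cos)
  have hint : ∀ u v : ℝ, IntervalIntegrable (fun θ => bump t₀ M (Real.cos θ))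
      MeasureTheory.volume u v := fun u v => hcont.intervalIntegrable u v
  have hone : ∀ θ, 0 ≤ θ → θ ≤ a → bump t₀ M (Real.cos θ) = 1 ∨ a = 0 := by
    intro θ h0 h1
    by_cases hz : a = 0
    · exact Or.inr hz
    left
    apply bump_eq_one hM
    have h2 : t₀ + 1 / M ≤ 1 := by
      by_contra hgt
      push Not at hgt
      exact hz (by rw [ha]; exact Real.arccos_of_one_le hgt.le)
    have h3 : Real.cos a ≤ Real.cos θ := Real.cos_le_cos_of_nonneg_of_le_pi h0 hapi h1
    rcases le_total (-1) (t₀ + 1 / M) with h4 | h4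
    · rw [ha, Real.cos_arccos h4 h2] at h3
      exact h3
    · exact le_trans h4 (Real.neg_one_le_cos θ)
  have e1 : ∫ θ in (0 : ℝ)..a, bump t₀ M (Real.cos θ) = a := by
    by_cases hz : a = 0
    · rw [hz]; simp
    have : ∫ θ in (0 : ℝ)..a, bump t₀ M (Real.cos θ) = ∫ θ in (0 : ℝ)..a, (1 : ℝ) := by
      apply intervalIntegral.integral_congr
      intro θ hθ
      rw [Set.uIcc_of_le ha0] at hθ
      exact (hone θ hθ.1 hθ.2).resolve_right hz
    rw [this]; simp
  have e2 : ∫ θ in (2 * Real.pi - a)..(2 * Real.pi), bump t₀ M (Real.cos θ) = a := by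
    by_cases hz : a = 0
    · rw [hz]; simp
    have : ∫ θ in (2 * Real.pi - a)..(2 * Real.pi), bump t₀ M (Real.cos θ)
        = ∫ θ in (2 * Real.pi - a)..(2 * Real.pi), (1 : ℝ) := by
      apply intervalIntegral.integral_congr
      intro θ hθ
      rw [Set.uIcc_of_le (by linarith)] at hθ
      have h5 : Real.cos θ = Real.cos (2 * Real.pi - θ) := by
        rw [Real.cos_two_pi_sub]
      show bump t₀ M (Real.cos θ) = 1
      rw [h5]
      exact (hone (2 * Real.pi - θ) (by linarith [hθ.2]) (by linarith [hθ.1])).resolve_right hz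
    rw [this]; simp
  have e3 : 0 ≤ ∫ θ in a..(2 * Real.pi - a), bump t₀ M (Real.cos θ) :=
    intervalIntegral.integral_nonneg (by linarith) fun θ _ => bump_nonneg hM _
  rw [← intervalIntegral.integral_add_adjacent_intervals (hint 0 a) (hint a (2 * Real.pi)),
    ← intervalIntegral.integral_add_adjacent_intervals (hint a (2 * Real.pi - a))
      (hint (2 * Real.pi - a) (2 * Real.pi)), e1, e2]
  linarith

/-- Lower bound for the dimension of the spectral subspace. -/
lemma vdim_cut_ge {t₀ M : ℝ} (hM : 0 < M) :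
    (Fintype.card ι : ℝ) * (Real.arccos (t₀ + 1 / M) / Real.pi)
      ≤ vdim (((LinearMap.ker (fc F.S (cutoff t₀)).toLinearMap)ᗮ : Submodule ℂ (L2 ι G)) :
        Set (L2 ι G)) := by
  set N := fc F.S (cutoff t₀) with hN
  set E : Submodule ℂ (L2 ι G) := (LinearMap.ker N.toLinearMap)ᗮ with hE
  set Ψ := fc F.S (bump t₀ M) with hΨ
  have hc := cutoff_cont t₀
  have hb := bump_cont t₀ M
  have hΨadj : ContinuousLinearMap.adjoint Ψ = Ψ := fc_adj _
  have hΨN : Ψ = fc F.S (fun t => M / max 1 (M * cutoff t₀ t)) * N := by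
    rw [hΨ, hN, ← fc_mul hb hc]
    rfl
  have hΨE : ∀ x, E.starProjection (Ψ x) = Ψ x := by
    intro x
    rw [Submodule.starProjection_eq_self_iff, hE, Submodule.mem_orthogonal']
    intro y hy
    have hy' : N y = 0 := hy
    rw [← hΨadj, ContinuousLinearMap.adjoint_inner_left]
    have : Ψ y = 0 := by
      rw [hΨN]
      show (fc F.S (fun t => M / max 1 (M * cutoff t₀ t))) (N y) = 0
      rw [hy', map_zero]
    rw [this, inner_zero_right]
  have hΨE' : ∀ x, Ψ (E.starProjection x) = Ψ x := by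
    intro x
    apply ext_inner_right ℂ
    intro y
    rw [← ContinuousLinearMap.adjoint_inner_right, hΨadj,
      Submodule.inner_starProjection_left_eq_right, hΨE, ← ContinuousLinearMap.adjoint_inner_right,
      hΨadj]
  have hnorm : ‖Ψ‖ ≤ 1 := norm_fc_le F.norm_S_le zero_le_one fun x _ => by
    rw [abs_of_nonneg (bump_nonneg hM x)]
    exact bump_le_one x
  have hle : ∀ x, (⟪x, Ψ x⟫_ℂ).re ≤ ‖E.starProjection x‖ ^ 2 := by
    intro x
    have h1 : ⟪x, Ψ x⟫_ℂ = ⟪E.starProjection x, Ψ (E.starProjection x)⟫_ℂ := by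
      rw [hΨE', ← hΨE x, ← Submodule.inner_starProjection_left_eq_right, hΨE x]
    rw [h1]
    have h2 : ‖⟪E.starProjection x, Ψ (E.starProjection x)⟫_ℂ‖
        ≤ ‖E.starProjection x‖ * ‖Ψ (E.starProjection x)‖ := norm_inner_le_norm _ _
    have h3 : ‖Ψ (E.starProjection x)‖ ≤ ‖E.starProjection x‖ := by
      simpa using Ψ.le_of_opNorm_le hnorm (E.starProjection x)
    have h4 : (⟪E.starProjection x, Ψ (E.starProjection x)⟫_ℂ).re
        ≤ ‖⟪E.starProjection x, Ψ (E.starProjection x)⟫_ℂ‖ := Complex.re_le_norm _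
    have h5 := mul_le_mul_of_nonneg_left h3 (norm_nonneg (E.starProjection x))
    nlinarith
  have htr : (tr Ψ).re ≤ vdim (E : Set (L2 ι G)) := by
    rw [vdim_eq_sum]
    unfold tr
    rw [Complex.re_sum]
    exact Finset.sum_le_sum fun i _ => hle _
  have hcont : Continuous (bump t₀ M) := by
    unfold bump
    exact hb.mul hc
  have h1 := tr_fc F (bump t₀ M) hcont
  have h2 : 2 * Real.pi * (tr Ψ).re
      = (Fintype.card ι : ℝ) * ∫ θ in (0 : ℝ)..(2 * Real.pi), bump t₀ M (Real.cos θ) := by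
    have := congrArg Complex.re h1
    rw [← hΨ] at this
    have e1 : ((2 * Real.pi : ℂ) * tr Ψ).re = 2 * Real.pi * (tr Ψ).re := by
      have : (2 * Real.pi : ℂ) = ((2 * Real.pi : ℝ) : ℂ) := by push_cast; ring
      rw [this, Complex.re_ofReal_mul]
    have e2 : ((Fintype.card ι : ℂ)
        * ((∫ θ in (0 : ℝ)..(2 * Real.pi), bump t₀ M (Real.cos θ) : ℝ) : ℂ)).re
        = (Fintype.card ι : ℝ) * ∫ θ in (0 : ℝ)..(2 * Real.pi), bump t₀ M (Real.cos θ) := by
      norm_cast
    rw [e1, e2] at this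
    exact this
  have h3 := integral_bump_ge (t₀ := t₀) hM
  have hpi := Real.pi_pos
  have h4 : (Fintype.card ι : ℝ) * (Real.arccos (t₀ + 1 / M) / Real.pi) ≤ (tr Ψ).re := by
    have h5 : (tr Ψ).re = (Fintype.card ι : ℝ) *
        ((∫ θ in (0 : ℝ)..(2 * Real.pi), bump t₀ M (Real.cos θ)) / (2 * Real.pi)) := by
      field_simp
      linarith
    rw [h5]
    apply mul_le_mul_of_nonneg_left _ (Nat.cast_nonneg _)
    rw [div_le_div_iff₀ hpi (by positivity)]
    nlinarith
  linarith

theorem haar_bound (V : Submodule ℂ (L2 ι G)) (hV : Invar V) (hVc : IsClosed (V : Set (L2 ι G)))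
    (c : ℝ) (h : ∀ v ∈ V, (⟪v, F.W 1 v⟫_ℂ).re ≤ -c * ‖v‖ ^ 2) :
    vdim (V : Set (L2 ι G)) ≤ Fintype.card ι * (Real.arccos c / Real.pi) := by
  -- inner product with the real part
  have hS : ∀ v ∈ V, (⟪v, F.S v⟫_ℂ).re ≤ -c * ‖v‖ ^ 2 := by
    intro v hv
    have h1 : F.S v = (1 / 2 : ℂ) • (F.W 1 v + F.W (-1) v) := rfl
    have h2 : ⟪v, F.W (-1) v⟫_ℂ = star ⟪v, F.W 1 v⟫_ℂ := by
      have := F.adj 1
      rw [← this, ContinuousLinearMap.adjoint_inner_right]
      exact (inner_conj_symm _ _).symm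
    have hz : ∀ z : ℂ, ((1 / 2 : ℂ) * (z + star z)).re = z.re := by
      intro z
      have : z + star z = ((2 * z.re : ℝ) : ℂ) := by
        apply Complex.ext
        · simp; ring
        · simp
      rw [this]
      have h2 : (1 / 2 : ℂ) = ((1 / 2 : ℝ) : ℂ) := by push_cast; ring
      rw [h2, ← Complex.ofReal_mul, Complex.ofReal_re]
      ring
    have h3 : (⟪v, F.S v⟫_ℂ).re = (⟪v, F.W 1 v⟫_ℂ).re := by
      rw [h1, inner_smul_right, inner_add_right, h2]
      exact hz _
    rw [h3]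
    exact h v hv
  have key : ∀ t₀ : ℝ, -c < t₀ → ∀ M : ℝ, 0 < M →
      vdim (V : Set (L2 ι G)) ≤ Fintype.card ι * (1 - Real.arccos (t₀ + 1 / M) / Real.pi) := by
    intro t₀ ht₀ M hM
    set N := fc F.S (cutoff t₀) with hN
    set E : Submodule ℂ (L2 ι G) := (LinearMap.ker N.toLinearMap)ᗮ with hE
    have hNadj : ContinuousLinearMap.adjoint N = N := fc_adj _
    have hEr : E = (LinearMap.range N.toLinearMap).topologicalClosure := by
      rw [hE, ← Submodule.orthogonal_orthogonal_eq_closure]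
      congr 1
      ext y
      rw [Submodule.mem_orthogonal']
      constructor
      · rintro hy _ ⟨x, rfl⟩
        have hy' : N y = 0 := hy
        show ⟪y, N x⟫_ℂ = 0
        rw [← ContinuousLinearMap.adjoint_inner_left, hNadj, hy', inner_zero_left]
      · intro hy
        show N y = 0
        apply ext_inner_right ℂ
        intro x
        rw [← ContinuousLinearMap.adjoint_inner_right, hNadj, inner_zero_left]
        exact hy _ ⟨x, rfl⟩
    have hEge : ∀ v ∈ E, t₀ * ‖v‖ ^ 2 ≤ (⟪v, F.S v⟫_ℂ).re := by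
      intro v hv
      rw [hEr] at hv
      have hcl : IsClosed {v : L2 ι G | t₀ * ‖v‖ ^ 2 ≤ (⟪v, F.S v⟫_ℂ).re} := by
        apply isClosed_le
        · fun_prop
        · exact Complex.continuous_re.comp (continuous_id.inner F.S.continuous)
      have hsub : ((LinearMap.range N.toLinearMap : Submodule ℂ (L2 ι G)) : Set (L2 ι G))
          ⊆ {v : L2 ι G | t₀ * ‖v‖ ^ 2 ≤ (⟪v, F.S v⟫_ℂ).re} := by
        rintro _ ⟨w, rfl⟩
        exact fc_range_ge F.S_sa F.norm_S_le t₀ w
      exact closure_minimal hsub hcl hv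
    have hbot : V ⊓ E = ⊥ := by
      rw [Submodule.eq_bot_iff]
      rintro v ⟨hv1, hv2⟩
      have h1 := hS v hv1
      have h2 := hEge v hv2
      by_contra hne
      have : 0 < ‖v‖ ^ 2 := by
        have := norm_pos_iff.mpr hne
        positivity
      nlinarith
    have hEinv : Invar E := (Invar.ker (fc_eqv F _)).orthogonal
    have hEcl : IsClosed (E : Set (L2 ι G)) := Submodule.isClosed_orthogonal _
    have h1 := vdim_inter hV hVc hEinv hEcl
    rw [hbot, vdim_bot, add_zero] at h1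
    have h2 := vdim_cut_ge F (t₀ := t₀) hM
    rw [← hN, ← hE] at h2
    linarith
  -- let the parameters tend to their limits
  have key2 : ∀ n : ℕ, vdim (V : Set (L2 ι G)) ≤ Fintype.card ι *
      (1 - Real.arccos ((-c + 1 / ((n : ℝ) + 1)) + 1 / ((n : ℝ) + 1)) / Real.pi) := fun n =>
    key _ (by have : (0 : ℝ) < 1 / ((n : ℝ) + 1) := by positivity
              linarith) _ (by positivity)
  have hlim : Tendsto (fun n : ℕ => (Fintype.card ι : ℝ) *
      (1 - Real.arccos ((-c + 1 / ((n : ℝ) + 1)) + 1 / ((n : ℝ) + 1)) / Real.pi)) atTop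
      (𝓝 ((Fintype.card ι : ℝ) * (1 - Real.arccos ((-c + 0) + 0) / Real.pi))) := by
    have h0 : Tendsto (fun n : ℕ => 1 / ((n : ℝ) + 1)) atTop (𝓝 0) :=
      tendsto_one_div_add_atTop_nhds_zero_nat
    have h1 : Tendsto (fun n : ℕ => (-c + 1 / ((n : ℝ) + 1)) + 1 / ((n : ℝ) + 1)) atTop
        (𝓝 ((-c + 0) + 0)) := (tendsto_const_nhds.add h0).add h0
    have h2 := (Real.continuous_arccos.tendsto _).comp h1
    exact tendsto_const_nhds.mul (tendsto_const_nhds.sub (h2.div_const _))
  have h3 := ge_of_tendsto' hlim key2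
  rw [add_zero, add_zero, Real.arccos_neg] at h3
  have hpi := Real.pi_pos
  have h4 : (1 - (Real.pi - Real.arccos c) / Real.pi) = Real.arccos c / Real.pi := by
    field_simp
    ring
  rw [h4] at h3
  exact h3

end Pool.Agent.VN
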