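import Mathlib

set_option autoImplicit false

noncomputable section

open scoped InnerProductSpace ENNReal Topology
open Classical

namespace Pool.Agent.VN

/-- Square-summable functions on a type. -/
abbrev Ell (α : Type*) := lp (fun _ : α => ℂ) 2

/-- The Hilbert space `ℓ²(ι × G)`, that is `ℓ²(G)^ι`. -/
abbrev L2 (ι G : Type*) := Ell (ι × G)

section Ell

variable {α β γ : Type*}

/-- basis vector -/
def dl (a : α) : Ell α := lp.single 2 a (1 : ℂ)

lemma dl_apply (a b : α) : (dl a : Ell α) b = if b = a then 1 else 0 := by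
  unfold dl
  rw [lp.single_apply]
  by_cases h : b = a
  · subst h; simp
  · simp [h]

@[simp] lemma dl_self (a : α) : (dl a : Ell α) a = 1 := by simp [dl_apply]

lemma norm_dl (a : α) : ‖(dl a : Ell α)‖ = 1 := by
  unfold dl
  rw [lp.norm_single (by norm_num)]
  simp

lemma inner_dl_left (a : α) (x : Ell α) : ⟪dl a, x⟫_ℂ = x a := by
  unfold dl
  rw [lp.inner_single_left]
  simp

lemma inner_dl_right (a : α) (x : Ell α) : ⟪x, dl a⟫_ℂ = star (x a) := by
  unfold dl
  rw [lp.inner_single_right]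
  simp

lemma norm_sq_eq_tsum (x : Ell α) : ‖x‖ ^ 2 = ∑' a, ‖x a‖ ^ 2 := by
  have := lp.norm_rpow_eq_tsum (p := 2) (by norm_num) x
  simpa using this

lemma summable_norm_sq (x : Ell α) : Summable fun a => ‖x a‖ ^ 2 := by
  have := (lp.memℓp x).summable (by norm_num)
  simpa using this

lemma sum_norm_sq_le (x : Ell α) (s : Finset α) : ∑ a ∈ s, ‖x a‖ ^ 2 ≤ ‖x‖ ^ 2 := by
  rw [norm_sq_eq_tsum]
  exact (summable_norm_sq x).sum_le_tsum s (fun _ _ => by positivity)

/-- pulling back along an injection -/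
def pull (j : α → β) (hj : Function.Injective j) : Ell β →L[ℂ] Ell α :=
  LinearMap.mkContinuous
    { toFun := fun x => ⟨fun a => x (j a), by
        refine memℓp_gen' (C := ‖x‖ ^ 2) ?_
        intro s
        have h := sum_norm_sq_le x (s.map ⟨j, hj⟩)
        rw [Finset.sum_map] at h
        simpa using h⟩
      map_add' := fun x y => by ext a; rfl
      map_smul' := fun c x => by ext a; rfl }
    1 (by
      intro x
      rw [one_mul]
      refine lp.norm_le_of_forall_sum_le (by norm_num) (norm_nonneg _) ?_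
      intro s
      have h := sum_norm_sq_le x (s.map ⟨j, hj⟩)
      rw [Finset.sum_map] at h
      simpa using h)

@[simp] lemma pull_apply (j : α → β) (hj : Function.Injective j) (x : Ell β) (a : α) :
    (pull j hj x) a = x (j a) := rfl

lemma norm_pull_le (j : α → β) (hj : Function.Injective j) (x : Ell β) :
    ‖pull j hj x‖ ≤ ‖x‖ := by
  have := (pull j hj).le_of_opNorm_le (LinearMap.mkContinuous_norm_le _ zero_le_one _) x
  simpa using this

/-- extension by zero along an injection -/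
def push (j : α → β) (hj : Function.Injective j) : Ell α →L[ℂ] Ell β :=
  ContinuousLinearMap.adjoint (pull j hj)

lemma pull_dl (j : α → β) (hj : Function.Injective j) (a : α) :
    pull j hj (dl (j a)) = dl a := by
  ext b
  rw [pull_apply, dl_apply, dl_apply]
  by_cases h : b = a
  · subst h; simp
  · rw [if_neg h, if_neg (fun h' => h (hj h'))]

lemma push_apply (j : α → β) (hj : Function.Injective j) (x : Ell α) (a : α) :
    (push j hj x) (j a) = x a := by
  rw [← inner_dl_left, push, ContinuousLinearMap.adjoint_inner_right, pull_dl, inner_dl_left]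

lemma push_apply_of_notMem (j : α → β) (hj : Function.Injective j) (x : Ell α) (b : β)
    (hb : ∀ a, j a ≠ b) : (push j hj x) b = 0 := by
  rw [← inner_dl_left, push, ContinuousLinearMap.adjoint_inner_right]
  have : pull j hj (dl b) = 0 := by
    ext a
    rw [pull_apply, dl_apply, if_neg (hb a)]
    rfl
  rw [this, inner_zero_left]

lemma push_dl (j : α → β) (hj : Function.Injective j) (a : α) :
    push j hj (dl a) = dl (j a) := by
  ext b
  by_cases h : ∃ a', j a' = b
  · obtain ⟨a', rfl⟩ := h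
    rw [push_apply, dl_apply, dl_apply]
    by_cases h : a' = a
    · subst h; simp
    · rw [if_neg h, if_neg (fun h' => h (hj h'))]
  · push Not at h
    rw [push_apply_of_notMem _ _ _ _ h, dl_apply, if_neg (fun h' => h a h'.symm)]

lemma ell_ext_inner {x y : Ell α} (h : ∀ a, x a = y a) : x = y := by
  ext a; exact h a

lemma hasSum_inner' (x y : Ell α) : HasSum (fun a => star (x a) * y a) ⟪x, y⟫_ℂ := by
  have h := lp.hasSum_inner (𝕜 := ℂ) x y
  have e : (fun a => ⟪x a, y a⟫_ℂ) = fun a => star (x a) * y a := by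
    funext a
    rw [RCLike.inner_apply, mul_comm]
    rfl
  rw [e] at h
  exact h

end Ell

section Equivariance

variable {ι κ μ G : Type*} [Group G]

/-- left translation by `s` -/
def lt (s : G) : L2 ι G →L[ℂ] L2 ι G :=
  pull (fun p : ι × G => (p.1, s⁻¹ * p.2)) (by
    rintro ⟨a, b⟩ ⟨c, d⟩ h
    simp only [Prod.mk.injEq, mul_right_inj] at h
    ext
    · exact h.1
    · exact h.2)

@[simp] lemma lt_apply (s : G) (x : L2 ι G) (p : ι × G) : (lt s x) p = x (p.1, s⁻¹ * p.2) := rfl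

lemma lt_dl (s : G) (i : ι) (g : G) : lt s (dl (i, g)) = dl (i, s * g) := by
  ext p
  rw [lt_apply, dl_apply, dl_apply]
  congr 1
  rw [eq_iff_iff]
  constructor
  · intro h
    obtain ⟨p1, p2⟩ := p
    simp only [Prod.mk.injEq] at h ⊢
    exact ⟨h.1, by rw [← h.2]; group⟩
  · intro h
    subst h
    simp

lemma lt_lt (s t : G) (x : L2 ι G) : lt s (lt t x) = lt (s * t) x := by
  ext p
  simp [mul_assoc]

lemma lt_one (x : L2 ι G) : lt 1 x = x := by
  ext p
  simp

lemma inner_lt (s : G) (x y : L2 ι G) : ⟪lt s x, lt s y⟫_ℂ = ⟪x, y⟫_ℂ := by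
  have h1 := hasSum_inner' x y
  have h2 := hasSum_inner' (lt s x) (lt s y)
  let e : ι × G ≃ ι × G := (Equiv.refl ι).prodCongr (Equiv.mulLeft s⁻¹)
  have h3 := (e.hasSum_iff).mpr h1
  exact h2.unique h3

lemma inner_lt_left (s : G) (x y : L2 ι G) : ⟪lt s x, y⟫_ℂ = ⟪x, lt s⁻¹ y⟫_ℂ := by
  rw [← inner_lt s x (lt s⁻¹ y), lt_lt, mul_inv_cancel, lt_one]

lemma norm_lt (s : G) (x : L2 ι G) : ‖lt s x‖ = ‖x‖ := by
  have h := inner_lt s x x
  rw [inner_self_eq_norm_sq_to_K, inner_self_eq_norm_sq_to_K] at h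
  have h2 : ‖lt s x‖ ^ 2 = ‖x‖ ^ 2 := by exact_mod_cast h
  exact (pow_left_inj₀ (norm_nonneg _) (norm_nonneg _) two_ne_zero).mp h2

/-- An operator commuting with all left translations. -/
def Equivar (T : L2 ι G →L[ℂ] L2 κ G) : Prop := ∀ (s : G) (x : L2 ι G), T (lt s x) = lt s (T x)

lemma Equivar.comp {T : L2 κ G →L[ℂ] L2 μ G} {S : L2 ι G →L[ℂ] L2 κ G} (hT : Equivar T)
    (hS : Equivar S) : Equivar (T ∘L S) := fun s x => by
  simp only [ContinuousLinearMap.comp_apply]
  rw [hS, hT]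

lemma Equivar.id : Equivar (ContinuousLinearMap.id ℂ (L2 ι G)) := fun _ _ => rfl

lemma Equivar.one : Equivar (1 : L2 ι G →L[ℂ] L2 ι G) := fun _ _ => rfl

lemma Equivar.zero : Equivar (0 : L2 ι G →L[ℂ] L2 κ G) := fun s x => by
  simp

lemma Equivar.add {T S : L2 ι G →L[ℂ] L2 κ G} (hT : Equivar T) (hS : Equivar S) :
    Equivar (T + S) := fun s x => by
  simp only [_root_.add_apply, map_add]
  rw [hT, hS]

lemma Equivar.sub {T S : L2 ι G →L[ℂ] L2 κ G} (hT : Equivar T) (hS : Equivar S) :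
    Equivar (T - S) := fun s x => by
  simp only [_root_.sub_apply, map_sub]
  rw [hT, hS]

lemma Equivar.smul {T : L2 ι G →L[ℂ] L2 κ G} (c : ℂ) (hT : Equivar T) :
    Equivar (c • T) := fun s x => by
  simp only [_root_.smul_apply, map_smul]
  rw [hT]

lemma Equivar.sum {σ : Type*} (s : Finset σ) {T : σ → (L2 ι G →L[ℂ] L2 κ G)}
    (hT : ∀ a ∈ s, Equivar (T a)) : Equivar (∑ a ∈ s, T a) := by
  induction s using Finset.induction_on with
  | empty => simpa using Equivar.zero
  | insert a s ha ih =>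
    rw [Finset.sum_insert ha]
    exact (hT a (Finset.mem_insert_self a s)).add
      (ih fun b hb => hT b (Finset.mem_insert_of_mem hb))

lemma Equivar.pow {T : L2 ι G →L[ℂ] L2 ι G} (hT : Equivar T) (n : ℕ) : Equivar (T ^ n) := by
  induction n with
  | zero => simpa using Equivar.one
  | succ n ih => rw [pow_succ]; exact ih.comp hT

lemma Equivar.adjoint {T : L2 ι G →L[ℂ] L2 κ G} (hT : Equivar T) :
    Equivar (ContinuousLinearMap.adjoint T) := fun s x => by
  apply ext_inner_right ℂ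
  intro y
  rw [ContinuousLinearMap.adjoint_inner_left, inner_lt_left, inner_lt_left,
    ContinuousLinearMap.adjoint_inner_left, hT]

/-- closed subspace data: invariance under left translations -/
def Invar (K : Submodule ℂ (L2 ι G)) : Prop := ∀ (s : G) (x : L2 ι G), x ∈ K → lt s x ∈ K

lemma Invar.proj {K : Submodule ℂ (L2 ι G)} [K.HasOrthogonalProjection] (hK : Invar K) :
    Equivar K.starProjection := fun s x => by
  apply Submodule.eq_starProjection_of_mem_of_inner_eq_zero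
  · exact hK s _ (K.starProjection_apply_mem x)
  · intro w hw
    have : lt s x - lt s (K.starProjection x) = lt s (x - K.starProjection x) := by
      rw [map_sub]
    rw [this, inner_lt_left]
    exact K.starProjection_inner_eq_zero _ _ (hK _ _ hw)

lemma Invar.orthogonal {K : Submodule ℂ (L2 ι G)} (hK : Invar K) : Invar Kᗮ := fun s x hx => by
  rw [Submodule.mem_orthogonal'] at hx ⊢
  intro w hw
  rw [inner_lt_left]
  exact hx _ (hK _ _ hw)

lemma Invar.inf {K L : Submodule ℂ (L2 ι G)} (hK : Invar K) (hL : Invar L) :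
    Invar (K ⊓ L) := fun s x hx => ⟨hK s x hx.1, hL s x hx.2⟩

lemma Invar.ker {T : L2 ι G →L[ℂ] L2 κ G} (hT : Equivar T) :
    Invar (LinearMap.ker T.toLinearMap) := fun s x hx => by
  simp only [LinearMap.mem_ker, ContinuousLinearMap.coe_coe] at hx ⊢
  rw [hT, hx, map_zero]

lemma Invar.range {T : L2 ι G →L[ℂ] L2 κ G} (hT : Equivar T) :
    Invar (LinearMap.range T.toLinearMap) := by
  rintro s _ ⟨y, rfl⟩
  exact ⟨lt s y, hT s y⟩

lemma Invar.map {T : L2 ι G →L[ℂ] L2 κ G} (hT : Equivar T) {K : Submodule ℂ (L2 ι G)}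
    (hK : Invar K) : Invar (K.map T.toLinearMap) := by
  rintro s _ ⟨y, hy, rfl⟩
  exact ⟨lt s y, hK s y hy, hT s y⟩

lemma Invar.closure {K : Submodule ℂ (L2 ι G)} (hK : Invar K) :
    Invar K.topologicalClosure := fun s x hx => by
  have h1 : Continuous (lt s : L2 ι G → L2 ι G) := (lt s).continuous
  have h2 : Set.MapsTo (lt s : L2 ι G → L2 ι G) (K : Set (L2 ι G)) (K : Set (L2 ι G)) :=
    fun y hy => hK s y hy
  exact h2.closure h1 hx

/-- the (unnormalised) trace -/
def tr [Fintype ι] (T : L2 ι G →L[ℂ] L2 ι G) : ℂ := ∑ i : ι, ⟪dl (i, (1 : G)), T (dl (i, 1))⟫_ℂ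

lemma tr_add [Fintype ι] (S T : L2 ι G →L[ℂ] L2 ι G) : tr (S + T) = tr S + tr T := by
  simp [tr, Finset.sum_add_distrib]

lemma tr_sub [Fintype ι] (S T : L2 ι G →L[ℂ] L2 ι G) : tr (S - T) = tr S - tr T := by
  simp [tr, Finset.sum_sub_distrib]

lemma tr_smul [Fintype ι] (c : ℂ) (T : L2 ι G →L[ℂ] L2 ι G) : tr (c • T) = c * tr T := by
  simp [tr, Finset.mul_sum]

lemma tr_zero [Fintype ι] : tr (0 : L2 ι G →L[ℂ] L2 ι G) = 0 := by
  simp [tr]

lemma tr_one [Fintype ι] : tr (1 : L2 ι G →L[ℂ] L2 ι G) = Fintype.card ι := by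
  have : ∀ i : ι, ⟪dl (i, (1 : G)), (dl (i, (1 : G)) : L2 ι G)⟫_ℂ = 1 := fun i => by
    rw [inner_dl_left, dl_self]
  unfold tr
  simp only [one_apply_eq_self, this]
  simp

lemma apply_coord {T : L2 κ G →L[ℂ] L2 ι G} (hT : Equivar T) (i : ι) (j : κ) (g : G) :
    (ContinuousLinearMap.adjoint T (dl (i, 1))) (j, g) = star ((T (dl (j, 1))) (i, g⁻¹)) := by
  rw [← inner_dl_left, ContinuousLinearMap.adjoint_inner_right, inner_dl_right]
  have : (dl (j, g) : L2 κ G) = lt g (dl (j, 1)) := by rw [lt_dl, mul_one]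
  rw [this, hT, lt_apply, mul_one]

lemma hasSum_tr_aux {S : L2 ι G →L[ℂ] L2 κ G} {T : L2 κ G →L[ℂ] L2 ι G} (hT : Equivar T)
    (i : ι) :
    HasSum (fun p : κ × G => (T (dl (p.1, 1))) (i, p.2⁻¹) * (S (dl (i, 1))) p)
      ⟪dl (i, (1 : G)), (T ∘L S) (dl (i, 1))⟫_ℂ := by
  have h1 : ⟪dl (i, (1 : G)), (T ∘L S) (dl (i, 1))⟫_ℂ
      = ⟪ContinuousLinearMap.adjoint T (dl (i, 1)), S (dl (i, 1))⟫_ℂ := by
    rw [ContinuousLinearMap.adjoint_inner_left]
    rfl
  rw [h1]
  have h2 := hasSum_inner' (ContinuousLinearMap.adjoint T (dl (i, 1))) (S (dl (i, 1)))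
  convert h2 using 2 with p
  obtain ⟨j, g⟩ := p
  rw [apply_coord hT, star_star]

theorem tr_comm [Fintype ι] [Fintype κ] {S : L2 ι G →L[ℂ] L2 κ G} {T : L2 κ G →L[ℂ] L2 ι G}
    (hS : Equivar S) (hT : Equivar T) : tr (T ∘L S) = tr (S ∘L T) := by
  have key : ∀ (i : ι), ⟪dl (i, (1 : G)), (T ∘L S) (dl (i, 1))⟫_ℂ
      = ∑ j : κ, ∑' g : G, (T (dl (j, 1))) (i, g⁻¹) * (S (dl (i, 1))) (j, g) := by
    intro i
    have h := hasSum_tr_aux (S := S) hT i
    rw [← h.tsum_eq, h.summable.tsum_prod, tsum_fintype]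
  have key2 : ∀ (j : κ), ⟪dl (j, (1 : G)), (S ∘L T) (dl (j, 1))⟫_ℂ
      = ∑ i : ι, ∑' g : G, (S (dl (i, 1))) (j, g⁻¹) * (T (dl (j, 1))) (i, g) := by
    intro j
    have h := hasSum_tr_aux (S := T) hS j
    rw [← h.tsum_eq, h.summable.tsum_prod, tsum_fintype]
  unfold tr
  rw [Finset.sum_congr rfl fun i _ => key i, Finset.sum_congr rfl fun j _ => key2 j,
    Finset.sum_comm]
  refine Finset.sum_congr rfl fun j _ => Finset.sum_congr rfl fun i _ => ?_
  rw [← (Equiv.inv G).tsum_eq]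
  refine tsum_congr fun g => ?_
  simp only [Equiv.inv_apply, inv_inv]
  ring

end Equivariance

end Pool.Agent.VN
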