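import Pool.Agent.VN.FreeProd

set_option autoImplicit false
set_option linter.unusedSectionVars false

noncomputable section

open Classical

/-!
The sections of `Monoid.CoprodI`: the set `X i` of the elements whose reduced word does not begin
with a letter of the `i`-th factor.
-/

namespace Pool.Agent.VN

open Monoid Monoid.CoprodI

variable {I : Type*} {A : I → Type*} [∀ i, Group (A i)]

/-- the reduced word of an element -/
def wd (g : CoprodI A) : Word A := g • Word.empty

lemma wd_one : wd (1 : CoprodI A) = Word.empty := one_smul (CoprodI A) Word.empty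

lemma wd_mul (g h : CoprodI A) : wd (g * h) = g • wd h := mul_smul g h Word.empty

lemma wd_prod (w : Word A) : wd w.prod = w := Word.equiv.apply_symm_apply w

lemma prod_wd (g : CoprodI A) : (wd g).prod = g := Word.equiv.symm_apply_apply g

lemma wd_inj {g h : CoprodI A} (e : wd g = wd h) : g = h := Word.equiv.injective e

lemma wd_of {i : I} (a : A i) : wd (of a) = of a • Word.empty := rfl

lemma fst_empty (i : I) : (Word.empty : Word A).fstIdx ≠ some i := by
  simp [Word.fstIdx]

lemma fst_smul {i : I} (a : A i) (w : Word A) (h : w.fstIdx ≠ some i) (ha : a ≠ 1) :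
    (of a • w).fstIdx = some i := by
  rw [← Word.cons_eq_smul (h1 := h) (h2 := ha), Word.fstIdx_cons]

lemma fst_of_ne {i j : I} (b : A j) (h : j ≠ i) : (wd (of b : CoprodI A)).fstIdx ≠ some i := by
  by_cases hb : b = 1
  · subst hb
    rw [map_one, wd_one]
    exact fst_empty i
  · rw [wd_of, fst_smul b _ (fst_empty j) hb]
    intro e
    exact h (Option.some.inj e)

/-- right multiplication by a letter does not change the index of the first letter of a word,
except for words of length one -/
lemma fst_mul_of : ∀ (w : Word A) (j : I) (b : A j) (i : I), w.fstIdx ≠ some i →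
    (w ≠ Word.empty ∨ j ≠ i) → (wd (w.prod * of b)).fstIdx ≠ some i := by
  intro w
  induction w using Word.consRecOn with
  | empty =>
    intro j b i _ h
    have hji : j ≠ i := h.resolve_left fun h => h rfl
    rw [Word.prod_empty, one_mul]
    exact fst_of_ne b hji
  | cons i0 a w h1 h2 ih =>
    intro j b i hi _
    rw [Word.fstIdx_cons] at hi
    have hi' : i0 ≠ i := fun e => hi (by rw [e])
    rw [Word.prod_cons, mul_assoc]
    by_cases hc : w ≠ Word.empty ∨ j ≠ i0
    · rw [wd_mul, fst_smul a _ (ih j b i0 h1 hc) h2]
      exact hi
    · push Not at hc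
      obtain ⟨rfl, rfl⟩ := hc
      rw [Word.prod_empty, one_mul, ← map_mul]
      exact fst_of_ne _ hi'

/-- the elements whose reduced word does not begin with a letter of the `i`-th factor -/
def XX (A : I → Type*) [∀ i, Group (A i)] (i : I) : Set (CoprodI A) :=
  {g | (wd g).fstIdx ≠ some i}

lemma wd_ne_empty {g : CoprodI A} (h : g ≠ 1) : wd g ≠ Word.empty := by
  intro e
  apply h
  apply wd_inj
  rw [e, wd_one]

theorem secs_coprodI (A : I → Type*) [∀ i, Group (A i)] :
    Secs (fun i => (of : A i →* CoprodI A)) (XX A) where
  one i := by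
    show (wd (1 : CoprodI A)).fstIdx ≠ some i
    rw [wd_one]
    exact fst_empty i
  bij i := by
    constructor
    · rintro ⟨a, x⟩ ⟨a', x'⟩ h
      have h' : (of a : CoprodI A) * x = of a' * x' := h
      have h1 : (of a : CoprodI A) • wd (x : CoprodI A) = of a' • wd (x' : CoprodI A) := by
        rw [← wd_mul, ← wd_mul, h']
      have h2 : Word.rcons (⟨a, wd (x : CoprodI A), x.2⟩ : Word.Pair A i)
          = Word.rcons (⟨a', wd (x' : CoprodI A), x'.2⟩ : Word.Pair A i) := by
        rw [Word.rcons_eq_smul, Word.rcons_eq_smul]
        exact h1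
      have h3 := Word.rcons_inj h2
      have h4 : a = a' := congrArg Word.Pair.head h3
      have h5 : wd (x : CoprodI A) = wd (x' : CoprodI A) := congrArg Word.Pair.tail h3
      exact Prod.ext h4 (Subtype.ext (wd_inj h5))
    · intro g
      set p := Word.equivPair i (wd g) with hp
      have hx : p.tail.prod ∈ XX A i := by
        show (wd p.tail.prod).fstIdx ≠ some i
        rw [wd_prod]
        exact p.fstIdx_ne
      refine ⟨(p.head, ⟨p.tail.prod, hx⟩), ?_⟩
      show (of p.head : CoprodI A) * p.tail.prod = g
      rw [← Word.prod_smul, hp, Word.equivPair_head_smul_equivPair_tail, prod_wd]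
  other i j hji x hx b := by
    show (wd (x * of b)).fstIdx ≠ some i
    have h := fst_mul_of (wd x) j b i hx (Or.inr hji)
    rwa [prod_wd] at h
  same i x hx hx1 a := by
    show (wd (x * of a)).fstIdx ≠ some i
    have h := fst_mul_of (wd x) i a i hx (Or.inl (wd_ne_empty hx1))
    rwa [prod_wd] at h
  cnt g hg := by
    have h1 := wd_ne_empty hg
    rcases h : (wd g).fstIdx with _ | i
    · exfalso
      apply h1
      have h2 : (wd g).toList = [] := by
        unfold Word.fstIdx at h
        rw [Option.map_eq_none_iff, List.head?_eq_none_iff] at h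
        exact h
      exact Word.ext h2
    · refine ⟨i, ?_, ?_⟩
      · intro hX
        exact hX h
      · intro j hj
        show (wd g).fstIdx ≠ some j
        rw [h]
        intro e
        exact hj (Option.some.inj e).symm

end Pool.Agent.VN
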