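import Mathlib

set_option autoImplicit false

noncomputable section

open Classical

namespace Pool.Agent.VN

/-- For a matrix `A` over the group algebra `ℂG`, the kernel of right multiplication by `A` on row
vectors with entries in `ℓ²(G)`: the `x` with `∑ₖ xₖ Aₖⱼ = 0` for all `j`. -/
def l2Ker {G : Type*} [Group G] {m n : ℕ} (A : Matrix (Fin m) (Fin n) (G →₀ ℂ)) :
    Set (lp (fun _ : Fin m × G => ℂ) 2) :=
  {x | ∀ (j : Fin n) (g : G), ∑ k : Fin m, ∑ h ∈ (A k j).support, x (k, g * h⁻¹) * A k j h = 0}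

/-- The von Neumann dimension of that kernel: the sum over `i` of `1 - dist(δ_(i,1), kernel)²`,
that is, the trace of the orthogonal projection onto the kernel. -/
def kerDim {G : Type*} [Group G] {m n : ℕ} (A : Matrix (Fin m) (Fin n) (G →₀ ℂ)) : ℝ :=
  ∑ i : Fin m, (1 - Metric.infDist
    (lp.single (E := fun _ : Fin m × G => ℂ) 2 (i, (1 : G)) (1 : ℂ)) (l2Ker A) ^ 2)

end Pool.Agent.VN
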