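import Mathlib

set_option autoImplicit false

noncomputable section

namespace Pool.Agent.VN

/-- The trigonometric polynomial `θ ↦ ∑ₙ p(n) e^{inθ}`, that is the Laurent polynomial with
coefficients `p` at the point `e^{iθ}` of the unit circle. -/
def trig (p : ℤ →₀ ℂ) (θ : ℝ) : ℂ := p.sum fun n c => c * Complex.exp (Complex.I * n * θ)

/-- The element `∑ₖ pₖ(u) gₖ` of the group algebra `ℂG`, for Laurent polynomials `pₖ` and group
elements `u`, `gₖ`. -/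
def polyElt {G : Type*} [Group G] {K : Type*} [Fintype K] (u : G) (g : K → G)
    (p : K → (ℤ →₀ ℂ)) : G →₀ ℂ :=
  ∑ k, (p k).sum fun n c => Finsupp.single (u ^ n * g k) c

/-- The proportion of the angles `θ ∈ (0, 2π]` at which
`|p_{k₀}(e^{iθ})|² ≤ ∑_{k ≠ k₀} |pₖ(e^{iθ})|² / lamₖ`. -/
def badAngle {K : Type*} [Fintype K] [DecidableEq K] (k₀ : K) (lam : K → ℝ)
    (p : K → (ℤ →₀ ℂ)) : ℝ :=
  MeasureTheory.volume.real {θ : ℝ | θ ∈ Set.Ioc 0 (2 * Real.pi) ∧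
    ‖trig (p k₀) θ‖ ^ 2 ≤ ∑ k ∈ Finset.univ.erase k₀, ‖trig (p k) θ‖ ^ 2 / lam k} / (2 * Real.pi)

end Pool.Agent.VN
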