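import Pool.Agent.VN.Basic

set_option autoImplicit false

noncomputable section

open scoped InnerProductSpace ENNReal Topology
open Classical Filter

namespace Pool.Agent.VN

set_option linter.unusedSectionVars false

variable {ι κ μ G : Type*} [Group G]

/-- The von Neumann dimension of a (closed, translation invariant) subspace of `ℓ²(G)^ι`. -/
def vdim [Fintype ι] (K : Set (L2 ι G)) : ℝ :=
  ∑ i : ι, (1 - Metric.infDist (dl (i, (1 : G))) K ^ 2)

section proj

variable {E : Type*} [NormedAddCommGroup E] [InnerProductSpace ℂ E]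

lemma infDist_eq_norm (K : Submodule ℂ E) [K.HasOrthogonalProjection] (x : E) :
    Metric.infDist x (K : Set E) = ‖x - K.starProjection x‖ := by
  rw [Submodule.starProjection_minimal, Metric.infDist_eq_iInf]
  simp only [dist_eq_norm]
  rfl

lemma norm_sub_proj_sq (K : Submodule ℂ E) [K.HasOrthogonalProjection] (x : E) :
    ‖x - K.starProjection x‖ ^ 2 = ‖x‖ ^ 2 - ‖K.starProjection x‖ ^ 2 := by
  have h := K.starProjection_inner_eq_zero x _ (K.starProjection_apply_mem x)
  have h2 : ‖x‖ ^ 2 = ‖(x - K.starProjection x) + K.starProjection x‖ ^ 2 := by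
    rw [sub_add_cancel]
  rw [h2, @norm_add_sq ℂ, h]
  simp

lemma inner_proj (K : Submodule ℂ E) [K.HasOrthogonalProjection] (x : E) :
    ⟪x, K.starProjection x⟫_ℂ = (‖K.starProjection x‖ ^ 2 : ℝ) := by
  have h := K.starProjection_inner_eq_zero x _ (K.starProjection_apply_mem x)
  rw [inner_sub_left, sub_eq_zero] at h
  rw [h, inner_self_eq_norm_sq_to_K]
  norm_cast

end proj

lemma vdim_eq_sum [Fintype ι] (K : Submodule ℂ (L2 ι G)) [K.HasOrthogonalProjection] :
    vdim (K : Set (L2 ι G)) = ∑ i : ι, ‖K.starProjection (dl (i, (1 : G)))‖ ^ 2 := by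
  unfold vdim
  refine Finset.sum_congr rfl fun i _ => ?_
  rw [infDist_eq_norm, norm_sub_proj_sq, norm_dl]
  ring

lemma tr_proj [Fintype ι] (K : Submodule ℂ (L2 ι G)) [K.HasOrthogonalProjection] :
    tr K.starProjection = (vdim (K : Set (L2 ι G)) : ℝ) := by
  rw [vdim_eq_sum]
  unfold tr
  push_cast
  refine Finset.sum_congr rfl fun i _ => ?_
  rw [inner_proj]
  norm_cast

lemma vdim_closure [Fintype ι] (K : Set (L2 ι G)) : vdim (closure K) = vdim K := by
  unfold vdim
  simp only [Metric.infDist_closure]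

lemma vdim_nonneg [Fintype ι] (K : Submodule ℂ (L2 ι G)) : 0 ≤ vdim (K : Set (L2 ι G)) := by
  rw [← vdim_closure, ← Submodule.topologicalClosure_coe, vdim_eq_sum]
  positivity

lemma vdim_mono [Fintype ι] {K L : Submodule ℂ (L2 ι G)} (h : K ≤ L) :
    vdim (K : Set (L2 ι G)) ≤ vdim (L : Set (L2 ι G)) := by
  unfold vdim
  refine Finset.sum_le_sum fun i _ => ?_
  have h1 : Metric.infDist (dl (i, (1 : G))) (L : Set (L2 ι G))
      ≤ Metric.infDist (dl (i, (1 : G))) (K : Set (L2 ι G)) :=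
    Metric.infDist_le_infDist_of_subset h ⟨0, K.zero_mem⟩
  have h2 : 0 ≤ Metric.infDist (dl (i, (1 : G))) (L : Set (L2 ι G)) := Metric.infDist_nonneg
  have := pow_le_pow_left₀ h2 h1 2
  linarith

lemma vdim_top [Fintype ι] : vdim ((⊤ : Submodule ℂ (L2 ι G)) : Set (L2 ι G)) = Fintype.card ι := by
  unfold vdim
  simp [Metric.infDist_zero_of_mem]

lemma vdim_bot [Fintype ι] : vdim ((⊥ : Submodule ℂ (L2 ι G)) : Set (L2 ι G)) = 0 := by
  unfold vdim
  simp [norm_dl]

lemma vdim_orthogonal [Fintype ι] (K : Submodule ℂ (L2 ι G)) [K.HasOrthogonalProjection] :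
    vdim (Kᗮ : Set (L2 ι G)) = Fintype.card ι - vdim (K : Set (L2 ι G)) := by
  have h1 : tr (Kᗮ.starProjection) = tr (1 - K.starProjection) := by
    rw [Submodule.starProjection_orthogonal']
  rw [tr_proj, tr_sub, tr_one, tr_proj] at h1
  exact_mod_cast h1

/-- orthogonal sums -/
lemma vdim_add_of_proj [Fintype ι] (K L M : Submodule ℂ (L2 ι G)) [K.HasOrthogonalProjection]
    [L.HasOrthogonalProjection] [M.HasOrthogonalProjection]
    (h : M.starProjection = K.starProjection + L.starProjection) :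
    vdim (M : Set (L2 ι G)) = vdim (K : Set (L2 ι G)) + vdim (L : Set (L2 ι G)) := by
  have h1 : tr (M.starProjection) = tr (K.starProjection + L.starProjection) := by rw [h]
  rw [tr_add, tr_proj, tr_proj, tr_proj] at h1
  exact_mod_cast h1

section RankNullity

open ContinuousLinearMap

lemma norm_one_sub_le {E F : Type*} [NormedAddCommGroup E] [InnerProductSpace ℂ E]
    [CompleteSpace E] [NormedAddCommGroup F] [InnerProductSpace ℂ F] [CompleteSpace F]
    (T : E →L[ℂ] F) (hT : ‖T‖ ≤ 1) : ‖(1 : E →L[ℂ] E) - (adjoint T) ∘L T‖ ≤ 1 := by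
  refine ContinuousLinearMap.opNorm_le_bound _ zero_le_one fun x => ?_
  rw [one_mul]
  have h1 : ‖T x‖ ≤ ‖x‖ := by simpa using T.le_of_opNorm_le hT x
  have h2 : ‖(adjoint T) (T x)‖ ≤ ‖T x‖ := by
    have : ‖adjoint T‖ ≤ 1 := by
      rw [LinearIsometryEquiv.norm_map]; exact hT
    simpa using (adjoint T).le_of_opNorm_le this (T x)
  have h3 : ‖((1 : E →L[ℂ] E) - (adjoint T) ∘L T) x‖ ^ 2 ≤ ‖x‖ ^ 2 := by
    have e : ((1 : E →L[ℂ] E) - (adjoint T) ∘L T) x = x - (adjoint T) (T x) := by
      simp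
    rw [e, @norm_sub_sq ℂ, adjoint_inner_right, inner_self_eq_norm_sq_to_K]
    have h4 : RCLike.re ((‖T x‖ : ℂ) ^ 2) = ‖T x‖ ^ 2 := by norm_cast
    have h5 : ‖(adjoint T) (T x)‖ ^ 2 ≤ ‖T x‖ ^ 2 := pow_le_pow_left₀ (norm_nonneg _) h2 2
    have h6 : RCLike.re (((‖T x‖ : ℝ) : ℂ) ^ 2) = ‖T x‖ ^ 2 := by norm_cast
    have h7 : 0 ≤ ‖T x‖ ^ 2 := by positivity
    simp only [Complex.coe_algebraMap] at *
    rw [h6]
    linarith
  exact (pow_le_pow_iff_left₀ (norm_nonneg _) (norm_nonneg _) two_ne_zero).mp h3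

/-- Cesaro averages of powers converge strongly to the projection on the kernel. -/
lemma tendsto_avg {E F : Type*} [NormedAddCommGroup E] [InnerProductSpace ℂ E]
    [CompleteSpace E] [NormedAddCommGroup F] [InnerProductSpace ℂ F] [CompleteSpace F]
    (T : E →L[ℂ] F) (hT : ‖T‖ ≤ 1) (x : E) :
    Tendsto (fun N : ℕ => (N : ℂ)⁻¹ • ∑ n ∈ Finset.range N,
        (((1 : E →L[ℂ] E) - (adjoint T) ∘L T) ^ n) x) atTop
      (𝓝 ((LinearMap.ker T.toLinearMap).starProjection x)) := by
  set C : E →L[ℂ] E := (1 : E →L[ℂ] E) - (adjoint T) ∘L T with hC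
  have h := C.tendsto_birkhoffAverage_orthogonalProjection (norm_one_sub_le T hT) x
  have hker : C.eqLocus (1 : E →L[ℂ] E) = LinearMap.ker T.toLinearMap := by
    ext y
    have e1 : y ∈ C.eqLocus (1 : E →L[ℂ] E) ↔ C y = y := by
      rfl
    rw [e1]
    have e2 : C y = y - (adjoint T) (T y) := by simp [hC]
    rw [e2, sub_eq_self]
    constructor
    · intro h0
      have : ⟪(adjoint T) (T y), y⟫_ℂ = 0 := by rw [h0, inner_zero_left]
      rw [adjoint_inner_left, inner_self_eq_zero] at this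
      exact this
    · intro h0
      have : T y = 0 := h0
      rw [this, map_zero]
  have e3 : ∀ N : ℕ, birkhoffAverage ℂ C _root_.id N x
      = (N : ℂ)⁻¹ • ∑ n ∈ Finset.range N, (C ^ n) x := by
    intro N
    unfold birkhoffAverage birkhoffSum
    congr 1
    refine Finset.sum_congr rfl fun n _ => ?_
    rw [FunLike.coe_pow_eq_iterate]
    rfl
  simp only [e3] at h
  convert h using 2
  rw [Submodule.starProjection_apply]
  have : ∀ (U V : Submodule ℂ E) [U.HasOrthogonalProjection] [V.HasOrthogonalProjection],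
      U = V → ((U.orthogonalProjectionOnto x : U) : E) = ((V.orthogonalProjectionOnto x : V) : E) := by
    intro U V _ _ h
    subst h
    rfl
  exact this _ _ hker.symm

lemma pow_identity (T : L2 ι G →L[ℂ] L2 κ G) (n : ℕ) :
    ((1 : L2 ι G →L[ℂ] L2 ι G) - (adjoint T) ∘L T) ^ n
      = 1 - (adjoint T) ∘L ((∑ k ∈ Finset.range n, (1 - T ∘L (adjoint T)) ^ k) ∘L T) := by
  have comm : ∀ k : ℕ, (((1 : L2 κ G →L[ℂ] L2 κ G) - T ∘L (adjoint T)) ^ k) ∘L T
      = T ∘L (((1 : L2 ι G →L[ℂ] L2 ι G) - (adjoint T) ∘L T) ^ k) := by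
    intro k
    induction k with
    | zero => ext; simp
    | succ k ih =>
      have e1 : ((1 : L2 κ G →L[ℂ] L2 κ G) - T ∘L (adjoint T)) ∘L T
          = T ∘L ((1 : L2 ι G →L[ℂ] L2 ι G) - (adjoint T) ∘L T) := by
        ext x
        simp
      calc (((1 : L2 κ G →L[ℂ] L2 κ G) - T ∘L (adjoint T)) ^ (k + 1)) ∘L T
          = (((1 : L2 κ G →L[ℂ] L2 κ G) - T ∘L (adjoint T)) ^ k) ∘L
            (((1 : L2 κ G →L[ℂ] L2 κ G) - T ∘L (adjoint T)) ∘L T) := by
              rw [pow_succ]; rfl
        _ = ((((1 : L2 κ G →L[ℂ] L2 κ G) - T ∘L (adjoint T)) ^ k) ∘L T) ∘L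
            ((1 : L2 ι G →L[ℂ] L2 ι G) - (adjoint T) ∘L T) := by rw [e1]; rfl
        _ = T ∘L (((1 : L2 ι G →L[ℂ] L2 ι G) - (adjoint T) ∘L T) ^ (k + 1)) := by
              rw [ih, pow_succ]; rfl
  induction n with
  | zero => simp
  | succ n ih =>
    rw [Finset.sum_range_succ, ContinuousLinearMap.add_comp, comm, ContinuousLinearMap.comp_add]
    have e2 : (adjoint T) ∘L (T ∘L (((1 : L2 ι G →L[ℂ] L2 ι G) - (adjoint T) ∘L T) ^ n))
        = ((adjoint T) ∘L T) * (((1 : L2 ι G →L[ℂ] L2 ι G) - (adjoint T) ∘L T) ^ n) := rfl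
    rw [e2, ← sub_sub, ← ih, pow_succ', sub_mul, one_mul]

lemma equivar_avg {T : L2 ι G →L[ℂ] L2 κ G} (hT : Equivar T) :
    Equivar ((1 : L2 κ G →L[ℂ] L2 κ G) - T ∘L (adjoint T)) :=
  Equivar.one.sub (hT.comp hT.adjoint)

lemma tr_pow_identity [Fintype ι] [Fintype κ] {T : L2 ι G →L[ℂ] L2 κ G} (hT : Equivar T) (n : ℕ) :
    (Fintype.card ι : ℂ) - tr (((1 : L2 ι G →L[ℂ] L2 ι G) - (adjoint T) ∘L T) ^ n)
      = Fintype.card κ - tr (((1 : L2 κ G →L[ℂ] L2 κ G) - T ∘L (adjoint T)) ^ n) := by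
  set S := ∑ k ∈ Finset.range n, ((1 : L2 κ G →L[ℂ] L2 κ G) - T ∘L (adjoint T)) ^ k with hS
  have hSe : Equivar S := Equivar.sum _ fun k _ => (equivar_avg hT).pow k
  have h1 := pow_identity T n
  have h2 := pow_identity (adjoint T) n
  rw [adjoint_adjoint] at h2
  rw [h1, tr_sub, tr_one, ← hS, tr_comm (hSe.comp hT) hT.adjoint]
  have h3 : tr (((1 : L2 κ G →L[ℂ] L2 κ G) - T ∘L (adjoint T)) ^ n)
      = Fintype.card κ - tr ((S ∘L T) ∘L (adjoint T)) := by
    have h4 : ((1 : L2 κ G →L[ℂ] L2 κ G) - T ∘L (adjoint T)) ^ n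
        = 1 - (S ∘L T) ∘L (adjoint T) := by
      have h5 : (S ∘L T) ∘L (adjoint T) = S * (T ∘L (adjoint T)) := rfl
      rw [h5, hS]
      have h6 := (Commute.refl ((1 : L2 κ G →L[ℂ] L2 κ G) - T ∘L (adjoint T))).geom_sum₂_mul
      clear h6
      have h7 : ∀ (C : L2 κ G →L[ℂ] L2 κ G) (n : ℕ),
          (∑ k ∈ Finset.range n, C ^ k) * (1 - C) = 1 - C ^ n := by
        intro C n
        exact geom_sum_mul_neg C n
      have h8 := h7 ((1 : L2 κ G →L[ℂ] L2 κ G) - T ∘L (adjoint T)) n
      rw [sub_sub_cancel] at h8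
      rw [h8, sub_sub_cancel]
    rw [h4, tr_sub, tr_one]
  rw [h3]
  ring

lemma tr_avg_tendsto [Fintype ι] (T : L2 ι G →L[ℂ] L2 κ G) (hT : ‖T‖ ≤ 1) :
    Tendsto (fun N : ℕ => (N : ℂ)⁻¹ * ∑ n ∈ Finset.range N,
        tr (((1 : L2 ι G →L[ℂ] L2 ι G) - (adjoint T) ∘L T) ^ n)) atTop
      (𝓝 (vdim ((LinearMap.ker T.toLinearMap : Submodule ℂ (L2 ι G)) : Set (L2 ι G)) : ℝ)) := by
  rw [← tr_proj]
  unfold tr
  have h : ∀ i : ι, Tendsto (fun N : ℕ => ⟪dl (i, (1 : G)), (N : ℂ)⁻¹ • ∑ n ∈ Finset.range N,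
        (((1 : L2 ι G →L[ℂ] L2 ι G) - (adjoint T) ∘L T) ^ n) (dl (i, 1))⟫_ℂ) atTop
      (𝓝 ⟪dl (i, (1 : G)), (LinearMap.ker T.toLinearMap).starProjection (dl (i, 1))⟫_ℂ) := fun i =>
    (tendsto_const_nhds).inner (tendsto_avg T hT (dl (i, 1)))
  have h2 := tendsto_finsetSum (Finset.univ) fun i _ => h i
  convert h2 using 2 with N
  simp only [inner_smul_right, inner_sum]
  rw [← Finset.mul_sum, Finset.sum_comm]

theorem rank_nullity_aux [Fintype ι] [Fintype κ] {T : L2 ι G →L[ℂ] L2 κ G} (hT : Equivar T)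
    (hn : ‖T‖ ≤ 1) :
    (Fintype.card ι : ℝ) - vdim ((LinearMap.ker T.toLinearMap : Submodule ℂ (L2 ι G)) : Set (L2 ι G))
      = Fintype.card κ - vdim ((LinearMap.ker (adjoint T).toLinearMap : Submodule ℂ (L2 κ G)) :
        Set (L2 κ G)) := by
  have h1 := tr_avg_tendsto T hn
  have h2 := tr_avg_tendsto (adjoint T) (by rw [LinearIsometryEquiv.norm_map]; exact hn)
  rw [adjoint_adjoint] at h2
  have h3 : Tendsto (fun N : ℕ => (N : ℂ)⁻¹ * ∑ n ∈ Finset.range N,
        tr (((1 : L2 ι G →L[ℂ] L2 ι G) - (adjoint T) ∘L T) ^ n)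
        - (N : ℂ)⁻¹ * ∑ n ∈ Finset.range N,
        tr (((1 : L2 κ G →L[ℂ] L2 κ G) - T ∘L (adjoint T)) ^ n)) atTop
        (𝓝 ((Fintype.card ι : ℂ) - Fintype.card κ)) := by
    refine tendsto_const_nhds.congr' ?_
    filter_upwards [eventually_gt_atTop 0] with N hN
    rw [← mul_sub, ← Finset.sum_sub_distrib]
    have : ∀ n ∈ Finset.range N, tr (((1 : L2 ι G →L[ℂ] L2 ι G) - (adjoint T) ∘L T) ^ n)
        - tr (((1 : L2 κ G →L[ℂ] L2 κ G) - T ∘L (adjoint T)) ^ n)
        = (Fintype.card ι : ℂ) - Fintype.card κ := by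
      intro n _
      have := tr_pow_identity hT n
      linear_combination -this
    rw [Finset.sum_congr rfl this, Finset.sum_const, Finset.card_range, nsmul_eq_mul]
    have hN' : (N : ℂ) ≠ 0 := by exact_mod_cast hN.ne'
    field_simp
  have h4 := tendsto_nhds_unique h3 (h1.sub h2)
  have h5 : ((Fintype.card ι : ℝ) - Fintype.card κ : ℝ) =
      vdim ((LinearMap.ker T.toLinearMap : Submodule ℂ (L2 ι G)) : Set (L2 ι G))
      - vdim ((LinearMap.ker (adjoint T).toLinearMap : Submodule ℂ (L2 κ G)) : Set (L2 κ G)) := by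
    exact_mod_cast h4
  linarith

theorem rank_nullity [Fintype ι] [Fintype κ] {T : L2 ι G →L[ℂ] L2 κ G} (hT : Equivar T) :
    (Fintype.card ι : ℝ) - vdim ((LinearMap.ker T.toLinearMap : Submodule ℂ (L2 ι G)) : Set (L2 ι G))
      = Fintype.card κ - vdim ((LinearMap.ker (adjoint T).toLinearMap : Submodule ℂ (L2 κ G)) :
        Set (L2 κ G)) := by
  set c : ℝ := (‖T‖ + 1)⁻¹ with hc
  have hc0 : 0 < c := by positivity
  have hc1 : (c : ℂ) ≠ 0 := by exact_mod_cast hc0.ne'
  have hn : ‖(c : ℂ) • T‖ ≤ 1 := by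
    rw [norm_smul, Complex.norm_real, Real.norm_of_nonneg hc0.le, hc, inv_mul_le_iff₀ (by positivity)]
    linarith
  have h := rank_nullity_aux (hT.smul (c : ℂ)) hn
  have e1 : LinearMap.ker ((c : ℂ) • T).toLinearMap = LinearMap.ker T.toLinearMap := by
    ext x
    have : ((c : ℂ) • T) x = (c : ℂ) • T x := rfl
    simp only [LinearMap.mem_ker, ContinuousLinearMap.coe_coe]
    rw [this, smul_eq_zero_iff_right hc1]
  have e2 : LinearMap.ker (adjoint ((c : ℂ) • T)).toLinearMap
      = LinearMap.ker (adjoint T).toLinearMap := by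
    ext x
    have h3 : adjoint ((c : ℂ) • T) = (star (c : ℂ)) • adjoint T := by
      rw [LinearIsometryEquiv.map_smulₛₗ]; rfl
    have : (adjoint ((c : ℂ) • T)) x = (star (c : ℂ)) • (adjoint T) x := by
      rw [h3]; rfl
    have hc2 : (star (c : ℂ)) ≠ 0 := star_ne_zero.mpr hc1
    simp only [LinearMap.mem_ker, ContinuousLinearMap.coe_coe]
    rw [this, smul_eq_zero_iff_right hc2]
  rw [e1, e2] at h
  exact h

theorem vdim_map [Fintype ι] [Fintype κ] {T : L2 ι G →L[ℂ] L2 κ G} (hT : Equivar T)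
    {K : Submodule ℂ (L2 ι G)} (hK : Invar K) (hKc : IsClosed (K : Set (L2 ι G))) :
    vdim ((K.map T.toLinearMap : Submodule ℂ (L2 κ G)) : Set (L2 κ G))
      + vdim ((K ⊓ LinearMap.ker T.toLinearMap : Submodule ℂ (L2 ι G)) : Set (L2 ι G))
      = vdim (K : Set (L2 ι G)) := by
  have c1 : CompleteSpace K := hKc.completeSpace_coe
  set L : Submodule ℂ (L2 ι G) := K ⊓ LinearMap.ker T.toLinearMap with hL
  have hLc : IsClosed (L : Set (L2 ι G)) := by
    have : IsClosed ((LinearMap.ker T.toLinearMap : Submodule ℂ (L2 ι G)) : Set (L2 ι G)) :=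
      T.isClosed_ker
    exact hKc.inter this
  have c2 : CompleteSpace L := hLc.completeSpace_coe
  set S : L2 ι G →L[ℂ] L2 κ G := T ∘L K.starProjection with hS
  have hSe : Equivar S := hT.comp hK.proj
  have h1 := rank_nullity hSe
  -- kernel of S
  have h2 : (LinearMap.ker S.toLinearMap).starProjection
      = Kᗮ.starProjection + L.starProjection := by
    ext1 x
    apply Submodule.eq_starProjection_of_mem_of_inner_eq_zero
    · have h3 : K.starProjection (Kᗮ.starProjection x) = 0 := by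
        rw [Submodule.starProjection_apply_eq_zero_iff]
        exact Submodule.starProjection_apply_mem _ _
      have h4 : L.starProjection x ∈ L := Submodule.starProjection_apply_mem _ _
      have h5 : K.starProjection (L.starProjection x) = L.starProjection x :=
        Submodule.starProjection_eq_self_iff.mpr h4.1
      simp only [LinearMap.mem_ker, ContinuousLinearMap.coe_coe, hS,
        ContinuousLinearMap.comp_apply, _root_.add_apply, map_add, h3, h5, map_zero, zero_add]
      exact h4.2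
    · intro w hw
      have hw1 : K.starProjection w ∈ L := by
        refine ⟨Submodule.starProjection_apply_mem _ _, ?_⟩
        simpa [hS] using hw
      have h4 : L.starProjection x ∈ L := Submodule.starProjection_apply_mem _ _
      have h6 : x - (Kᗮ.starProjection + L.starProjection) x
          = K.starProjection x - L.starProjection x := by
        rw [Submodule.starProjection_orthogonal']
        simp only [_root_.add_apply, _root_.sub_apply, one_apply_eq_self]
        abel
      have h7 : K.starProjection (K.starProjection x - L.starProjection x)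
          = K.starProjection x - L.starProjection x :=
        Submodule.starProjection_eq_self_iff.mpr
          (K.sub_mem (Submodule.starProjection_apply_mem _ _) h4.1)
      rw [h6, ← h7, Submodule.inner_starProjection_left_eq_right, inner_sub_left,
        Submodule.inner_starProjection_left_eq_right,
        Submodule.starProjection_eq_self_iff.mpr hw1.1, ← inner_sub_left]
      exact L.starProjection_inner_eq_zero _ _ hw1
  have h3 := vdim_add_of_proj Kᗮ L _ h2
  rw [vdim_orthogonal] at h3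
  -- kernel of the adjoint
  have h4 : LinearMap.ker (adjoint S).toLinearMap = (K.map T.toLinearMap)ᗮ := by
    ext y
    rw [Submodule.mem_orthogonal']
    constructor
    · rintro hy _ ⟨x, hx, rfl⟩
      have hy' : (adjoint S) y = 0 := hy
      have : ⟪(adjoint S) y, x⟫_ℂ = 0 := by rw [hy', inner_zero_left]
      rw [adjoint_inner_left] at this
      have e : S x = T x := by
        rw [hS, ContinuousLinearMap.comp_apply, Submodule.starProjection_eq_self_iff.mpr hx]
      rw [e] at this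
      exact this
    · intro hy
      show (adjoint S) y = 0
      apply ext_inner_right ℂ
      intro x
      rw [adjoint_inner_left, inner_zero_left]
      exact hy _ ⟨K.starProjection x, Submodule.starProjection_apply_mem _ _, rfl⟩
  have h5 : vdim (((K.map T.toLinearMap)ᗮ : Submodule ℂ (L2 κ G)) : Set (L2 κ G))
      = Fintype.card κ - vdim ((K.map T.toLinearMap : Submodule ℂ (L2 κ G)) : Set (L2 κ G)) := by
    have c3 : CompleteSpace (K.map T.toLinearMap).topologicalClosure :=
      (Submodule.isClosed_topologicalClosure _).completeSpace_coe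
    have := vdim_orthogonal (K.map T.toLinearMap).topologicalClosure
    rw [Submodule.orthogonal_closure, Submodule.topologicalClosure_coe, vdim_closure] at this
    exact this
  rw [h4, h5, h3] at h1
  linarith

theorem vdim_le_card [Fintype ι] (K : Submodule ℂ (L2 ι G)) :
    vdim (K : Set (L2 ι G)) ≤ Fintype.card ι := by
  rw [← vdim_top (ι := ι) (G := G)]
  exact vdim_mono le_top

theorem vdim_inter [Fintype ι] {K L : Submodule ℂ (L2 ι G)} (hK : Invar K)
    (hKc : IsClosed (K : Set (L2 ι G))) (hL : Invar L) (hLc : IsClosed (L : Set (L2 ι G))) :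
    vdim (K : Set (L2 ι G)) + vdim (L : Set (L2 ι G))
      ≤ Fintype.card ι + vdim ((K ⊓ L : Submodule ℂ (L2 ι G)) : Set (L2 ι G)) := by
  have c1 : CompleteSpace L := hLc.completeSpace_coe
  have h1 := vdim_map (hL.orthogonal.proj) hK hKc
  have h2 : LinearMap.ker (Lᗮ.starProjection).toLinearMap = L := by
    ext x
    show Lᗮ.starProjection x = 0 ↔ x ∈ L
    rw [Submodule.starProjection_apply_eq_zero_iff, Submodule.orthogonal_orthogonal]
  rw [h2] at h1
  have h3 : K.map (Lᗮ.starProjection).toLinearMap ≤ Lᗮ := by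
    rintro _ ⟨x, _, rfl⟩
    exact Submodule.starProjection_apply_mem _ _
  have h4 := vdim_mono h3
  rw [vdim_orthogonal] at h4
  linarith

theorem eq_bot_of_vdim_eq_zero [Fintype ι] {K : Submodule ℂ (L2 ι G)} (hK : Invar K)
    (hKc : IsClosed (K : Set (L2 ι G))) (h : vdim (K : Set (L2 ι G)) = 0) : K = ⊥ := by
  have c1 : CompleteSpace K := hKc.completeSpace_coe
  rw [vdim_eq_sum, Finset.sum_eq_zero_iff_of_nonneg (fun i _ => by positivity)] at h
  have h1 : ∀ i : ι, K.starProjection (dl (i, (1 : G))) = 0 := fun i => by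
    have := h i (Finset.mem_univ i)
    simpa using this
  rw [Submodule.eq_bot_iff]
  intro x hx
  ext p
  obtain ⟨i, g⟩ := p
  have h2 : ⟪dl (i, g), x⟫_ℂ = 0 := by
    rw [← Submodule.starProjection_eq_self_iff.mpr hx,
      ← Submodule.inner_starProjection_left_eq_right]
    have : (dl (i, g) : L2 ι G) = lt g (dl (i, 1)) := by rw [lt_dl, mul_one]
    rw [this, hK.proj, h1, map_zero, inner_zero_left]
  rw [inner_dl_left] at h2
  simpa using h2

end RankNullity

end Pool.Agent.VN
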