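import Pool.Agent.VN.Mul

set_option autoImplicit false
set_option linter.unusedSectionVars false

noncomputable section

open scoped InnerProductSpace ENNReal Topology
open Classical Filter

namespace Pool.Agent.VN

variable {ι κ μ G : Type*} [Group G]

section subst

variable (l : ι) (k : {i : ι // i ≠ l}) (u : G) (γ : ℂ)

/-- the change of variables `x_l = γ x_k u` -/
def subMap : ι → ({i : ι // i ≠ l} × G →₀ ℂ) := fun i =>
  if h : i ≠ l then Finsupp.single (⟨i, h⟩, 1) 1 else Finsupp.single (k, u) γ

/-- a monomial after the change of variables -/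
def subTerm (p : ι × G) : {i : ι // i ≠ l} × G := if h : p.1 ≠ l then (⟨p.1, h⟩, p.2) else (k, u * p.2)

/-- a linear form after the change of variables -/
def subForm (a : ι × G →₀ ℂ) : {i : ι // i ≠ l} × G →₀ ℂ :=
  ∑ p ∈ a.support, Finsupp.single (subTerm l k u p) ((if p.1 ≠ l then 1 else γ) * a p)

lemma subForm_support (a : ι × G →₀ ℂ) :
    (subForm l k u γ a).support.card ≤ a.support.card := by
  refine le_trans (Finset.card_le_card (t := a.support.image (subTerm l k u)) ?_)
    Finset.card_image_le
  intro q hq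
  by_contra hne
  rw [Finsupp.mem_support_iff] at hq
  apply hq
  unfold subForm
  rw [Finsupp.finsetSum_apply]
  refine Finset.sum_eq_zero fun p hp => ?_
  rw [Finsupp.single_apply, if_neg]
  intro h
  exact hne (Finset.mem_image.mpr ⟨p, hp, h⟩)

lemma ev_subForm (a : ι × G →₀ ℂ) (y : L2 {i : ι // i ≠ l} G) (x : ι × G → ℂ)
    (hx : ∀ q : ι × G, x q = ev (subMap l k u γ q.1) y q.2) (g : G) :
    ev (subForm l k u γ a) y g = ev a x g := by
  unfold subForm
  rw [ev_finsetSum, ev_def]
  refine Finset.sum_congr rfl fun p _ => ?_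
  rw [ev_single, hx]
  unfold subMap subTerm
  by_cases h : p.1 ≠ l
  · rw [dif_pos h, if_pos h, dif_pos h, ev_single]
    simp
  · rw [dif_neg h, if_neg h, dif_neg h, ev_single]
    simp only [mul_inv_rev]
    rw [mul_assoc g]
    ring

lemma vdim_subst [Fintype ι] (C : Set (ι × G →₀ ℂ))
    (hC : ∀ x ∈ Sol C, ∀ g : G, x (l, g) = γ * x (k.1, g * u⁻¹)) :
    vdim (Sol C : Set (L2 ι G))
      = vdim (Sol (subForm l k u γ '' C) : Set (L2 {i : ι // i ≠ l} G)) := by
  have key : ∀ y : L2 {i : ι // i ≠ l} G, ∀ a g,
      ev (subForm l k u γ a) y g = ev a (mulR (subMap l k u γ) y) g := by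
    intro y a g
    exact ev_subForm l k u γ a y _ (fun q => by rw [mulR_apply]) g
  apply vdim_eq_of_param (subMap l k u γ) _ (Sol_invar _) (Sol_closed _)
  · intro y _ h
    ext q
    obtain ⟨i, g⟩ := q
    have h1 := mulR_apply (subMap l k u γ) y (i.1, g)
    rw [h] at h1
    unfold subMap at h1
    rw [dif_pos i.2, ev_single] at h1
    simpa using h1.symm
  · intro y hy a ha g
    rw [← key]
    exact hy _ ⟨a, ha, rfl⟩ g
  · intro x hx
    set y : L2 {i : ι // i ≠ l} G := pull (fun q : {i : ι // i ≠ l} × G => ((q.1.1, q.2) : ι × G))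
      (by
        rintro ⟨⟨a, ha⟩, b⟩ ⟨⟨c, hc⟩, d⟩ h
        simpa using h) x with hy
    have hxy : mulR (subMap l k u γ) y = x := by
      ext q
      rw [mulR_apply]
      obtain ⟨i, g⟩ := q
      unfold subMap
      by_cases h : i ≠ l
      · rw [dif_pos h, ev_single, one_mul, inv_one, mul_one]
        rfl
      · rw [dif_neg h, ev_single]
        push Not at h
        subst h
        rw [hC x hx g]
        rfl
    refine ⟨y, ?_, hxy⟩
    rintro _ ⟨a, ha, rfl⟩ g
    rw [key, hxy]
    exact hx a ha g

end subst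

lemma ev_pair (a : ι × G →₀ ℂ) (p q : ι × G) (hpq : p ≠ q) (h : a.support = {p, q})
    (x : ι × G → ℂ) (g : G) :
    ev a x g = a p * x (p.1, g * p.2⁻¹) + a q * x (q.1, g * q.2⁻¹) := by
  unfold ev Finsupp.sum
  rw [h, Finset.sum_pair hpq]

lemma support_pair (a : ι × G →₀ ℂ) (h : a.support.card ≤ 2) (p q : ι × G) (hp : a p ≠ 0)
    (hq : a q ≠ 0) (hpq : p ≠ q) : a.support = {p, q} := by
  symm
  apply Finset.eq_of_subset_of_card_le
  · intro r hr
    simp only [Finset.mem_insert, Finset.mem_singleton] at hr
    rcases hr with rfl | rfl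
    · exact Finsupp.mem_support_iff.mpr hp
    · exact Finsupp.mem_support_iff.mpr hq
  · rw [Finset.card_pair hpq]; exact h

lemma torsionfree_pow (htf : ∀ g : G, ∀ n : ℕ, 0 < n → g ^ n = 1 → g = 1) {u : G} (hu : u ≠ 1) :
    ∀ n : ℕ, 0 < n → u ^ n ≠ 1 := fun n hn h => hu (htf u n hn h)

/-- equation with two terms solved for the first -/
lemma solve_pair {p q : ι × G} (c d : ℂ) (hc : c ≠ 0) (x : ι × G → ℂ)
    (h : ∀ g, c * x (p.1, g * p.2⁻¹) + d * x (q.1, g * q.2⁻¹) = 0) (g : G) :
    x (p.1, g) = (-(d / c)) * x (q.1, g * (p.2 * q.2⁻¹)) := by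
  have h1 := h (g * p.2)
  rw [mul_inv_cancel_right, mul_assoc g] at h1
  field_simp
  linear_combination h1

theorem two_sparse_aux (htf : ∀ g : G, ∀ n : ℕ, 0 < n → g ^ n = 1 → g = 1) :
    ∀ (N : ℕ) (ι : Type) [Fintype ι], Fintype.card ι = N → ∀ C : Set (ι × G →₀ ℂ),
      (∀ a ∈ C, a.support.card ≤ 2) → ∃ d : ℕ, vdim (Sol C : Set (L2 ι G)) = d := by
  intro N
  induction N with
  | zero =>
    intro ι _ hN C _
    refine ⟨0, ?_⟩
    have h1 := vdim_le_card (Sol C)
    have h2 := vdim_nonneg (Sol C)
    rw [hN] at h1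
    push_cast at h1 ⊢
    linarith
  | succ N ih =>
    intro ι _ hN C hC
    by_cases hex : ∃ a ∈ C, ∃ p q : ι × G, a p ≠ 0 ∧ a q ≠ 0 ∧ p.1 ≠ q.1
    · obtain ⟨a, ha, p, q, hp, hq, hpq⟩ := hex
      have hpq' : p ≠ q := fun h => hpq (congrArg Prod.fst h)
      have hsupp := support_pair a (hC a ha) p q hp hq hpq'
      have hsub := vdim_subst p.1 ⟨q.1, hpq.symm⟩ (q.2 * p.2⁻¹) (-(a q / a p)) C (by
        intro x hx g
        have h1 := solve_pair (a p) (a q) hp x (fun g => by
          rw [← ev_pair a p q hpq' hsupp]; exact hx a ha g) g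
        rw [h1]
        simp)
      rw [hsub]
      apply ih
      · have := Fintype.card_subtype_compl (fun i : ι => i = p.1)
        simp only [Fintype.card_subtype_eq] at this
        rw [hN] at this
        simpa using this
      · rintro _ ⟨b, hb, rfl⟩
        exact le_trans (subForm_support _ _ _ _ b) (hC b hb)
    · push Not at hex
      refine ⟨_, vdim_coord {k : ι | ∃ a ∈ C, ∃ h : G, a (k, h) ≠ 0} (Sol C) ?_⟩
      intro x
      constructor
      · rintro hx k ⟨a, ha, h, hne⟩
        by_cases hcard : ∃ q : ι × G, a q ≠ 0 ∧ q ≠ (k, h)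
        · obtain ⟨q, hq, hqne⟩ := hcard
          have hq1 : k = q.1 := hex a ha (k, h) q hne hq
          have hsupp := support_pair a (hC a ha) (k, h) q hne hq hqne.symm
          have h1 := solve_pair (p := (k, h)) (q := q) (a (k, h)) (a q) hne x (fun g => by
            rw [← ev_pair a (k, h) q hqne.symm hsupp]; exact hx a ha g)
          apply no_eigen x k (h * q.2⁻¹) (torsionfree_pow htf ?_) (-(a q / a (k, h)))
          · intro g
            have := h1 g
            rw [← hq1] at this
            exact this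
          · intro h2
            apply hqne
            have h3 : h = q.2 := by rwa [mul_inv_eq_one] at h2
            rw [h3]
            exact Prod.ext hq1.symm rfl
        · push Not at hcard
          intro g
          have hsupp : a.support = {(k, h)} := by
            ext q
            rw [Finsupp.mem_support_iff, Finset.mem_singleton]
            constructor
            · intro hq; exact hcard q hq
            · rintro rfl; exact hne
          have h1 := hx a ha (g * h)
          unfold ev Finsupp.sum at h1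
          rw [hsupp, Finset.sum_singleton] at h1
          simpa [hne] using h1
      · intro hx a ha g
        rw [ev_def]
        refine Finset.sum_eq_zero fun p hp => ?_
        rw [hx p.1 ⟨a, ha, p.2, Finsupp.mem_support_iff.mp hp⟩, mul_zero]

end Pool.Agent.VN
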