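import Pool.Agent.VN.Angle
import Pool.Agent.VN.TwoSparse

set_option autoImplicit false
set_option linter.unusedSectionVars false

noncomputable section

open scoped InnerProductSpace ENNReal Topology
open Classical Filter ContinuousLinearMap MeasureTheory

namespace Pool.Agent.VN

variable {ι κ μ G : Type*} [Group G]

/-- right translation -/
def rt (u : G) : L2 ι G →L[ℂ] L2 ι G :=
  pull (fun p : ι × G => (p.1, p.2 * u⁻¹)) (by
    rintro ⟨a, b⟩ ⟨c, d⟩ h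
    simp only [Prod.mk.injEq, mul_left_inj] at h
    ext
    · exact h.1
    · exact h.2)

@[simp] lemma rt_apply (u : G) (x : L2 ι G) (p : ι × G) : (rt u x) p = x (p.1, p.2 * u⁻¹) := rfl

lemma rt_rt (u v : G) (x : L2 ι G) : rt u (rt v x) = rt (v * u) x := by
  ext p
  simp [mul_assoc]

lemma rt_one (x : L2 ι G) : rt 1 x = x := by
  ext p
  simp

lemma inner_rt (s : G) (x y : L2 ι G) : ⟪rt s x, rt s y⟫_ℂ = ⟪x, y⟫_ℂ := by
  have h1 := hasSum_inner' x y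
  have h2 := hasSum_inner' (rt s x) (rt s y)
  let e : ι × G ≃ ι × G := (Equiv.refl ι).prodCongr (Equiv.mulRight s⁻¹)
  have h3 := (e.hasSum_iff).mpr h1
  exact h2.unique h3

lemma inner_rt_left (s : G) (x y : L2 ι G) : ⟪rt s x, y⟫_ℂ = ⟪x, rt s⁻¹ y⟫_ℂ := by
  rw [← inner_rt s x (rt s⁻¹ y), rt_rt, inv_mul_cancel, rt_one]

lemma norm_rt (s : G) (x : L2 ι G) : ‖rt s x‖ = ‖x‖ := by
  have h := inner_rt s x x
  rw [inner_self_eq_norm_sq_to_K, inner_self_eq_norm_sq_to_K] at h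
  have h2 : ‖rt s x‖ ^ 2 = ‖x‖ ^ 2 := by exact_mod_cast h
  exact (pow_left_inj₀ (norm_nonneg _) (norm_nonneg _) two_ne_zero).mp h2

lemma adjoint_rt (s : G) : ContinuousLinearMap.adjoint (rt s : L2 ι G →L[ℂ] L2 ι G) = rt s⁻¹ := by
  ext1 x
  apply ext_inner_right ℂ
  intro y
  rw [ContinuousLinearMap.adjoint_inner_left, inner_rt_left, inv_inv]

lemma rt_equivar (u : G) : Equivar (rt u : L2 ι G →L[ℂ] L2 ι G) := fun s x => by
  ext p
  simp [mul_assoc]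

/-- the Haar family of an element of infinite order and a phase -/
def haarOf [Fintype ι] (u : G) (hu : ∀ n : ℕ, 0 < n → u ^ n ≠ 1) (ζ : ℂ) (hζ : ‖ζ‖ = 1) :
    HaarFam ι G where
  W n := (ζ ^ n) • rt (u ^ n)
  zero := by
    ext1 x
    show (ζ ^ (0 : ℤ)) • rt (u ^ (0 : ℤ)) x = x
    rw [zpow_zero, zpow_zero, one_smul, rt_one]
  add m n := by
    have hζ0 : ζ ≠ 0 := by
      intro h
      rw [h, norm_zero] at hζ
      exact zero_ne_one hζ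
    ext1 x
    show (ζ ^ (m + n)) • rt (u ^ (m + n)) x = (ζ ^ m) • rt (u ^ m) ((ζ ^ n) • rt (u ^ n) x)
    rw [map_smul, rt_rt, smul_smul, ← zpow_add₀ hζ0, ← zpow_add, add_comm n m]
  adj n := by
    have hζ0 : ζ ≠ 0 := by
      intro h
      rw [h, norm_zero] at hζ
      exact zero_ne_one hζ
    have hconj : (starRingEnd ℂ) ζ = ζ⁻¹ := by
      rw [eq_comm, inv_eq_of_mul_eq_one_left]
      rw [← Complex.normSq_eq_conj_mul_self, Complex.normSq_eq_norm_sq, hζ]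
      simp
    rw [LinearIsometryEquiv.map_smulₛₗ, adjoint_rt, map_zpow₀, hconj, zpow_neg, zpow_neg, inv_zpow]
  tr0 n hn := by
    rw [tr_smul]
    unfold tr
    rw [Finset.sum_eq_zero, mul_zero]
    intro i _
    rw [inner_dl_left, rt_apply, dl_apply, if_neg]
    intro h
    have h1 : (1 : G) * (u ^ n)⁻¹ = 1 := congrArg Prod.snd h
    rw [one_mul, inv_eq_one] at h1
    rcases Int.lt_or_gt_of_ne hn with h2 | h2
    · apply hu (-n).toNat (by omega)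
      have h3 : u ^ ((-n).toNat : ℤ) = 1 := by
        rw [Int.toNat_of_nonneg (by omega), zpow_neg, h1, inv_one]
      exact_mod_cast h3
    · apply hu n.toNat (by omega)
      have h3 : u ^ (n.toNat : ℤ) = 1 := by
        rw [Int.toNat_of_nonneg (by omega), h1]
      exact_mod_cast h3
  eqv n := (rt_equivar _).smul _

/-- right multiplication by an element of the group algebra -/
def rtA (a : G →₀ ℂ) : L2 ι G →L[ℂ] L2 ι G := ∑ h ∈ a.support, a h • rt h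

lemma rtA_apply (a : G →₀ ℂ) (x : L2 ι G) (i : ι) (g : G) :
    (rtA a x) (i, g) = ∑ h ∈ a.support, a h * x (i, g * h⁻¹) := by
  unfold rtA
  rw [_root_.sum_apply, lp.coeFn_sum, Finset.sum_apply]
  rfl

lemma mem_l2Ker_one (a : G →₀ ℂ) (x : L2 (Fin 1) G) :
    x ∈ l2Ker (Matrix.of fun (_ _ : Fin 1) => a) ↔ rtA a x = 0 := by
  constructor
  · intro h
    ext p
    obtain ⟨i, g⟩ := p
    rw [rtA_apply]
    have h1 := h 0 g
    rw [Fin.sum_univ_one] at h1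
    have hi : i = 0 := Subsingleton.elim _ _
    subst hi
    refine Eq.trans ?_ h1
    refine Finset.sum_congr rfl fun h _ => ?_
    rw [mul_comm]
    rfl
  · intro h j g
    rw [Fin.sum_univ_one]
    have h1 := rtA_apply a x 0 g
    rw [h] at h1
    have h2 : (0 : L2 (Fin 1) G) (0, g) = 0 := rfl
    rw [h2] at h1
    rw [h1]
    refine Finset.sum_congr rfl fun h _ => ?_
    rw [mul_comm]
    rfl

theorem two_coeff_aux (htf : ∀ g : G, ∀ n : ℕ, 0 < n → g ^ n = 1 → g = 1) (a : G →₀ ℂ)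
    (g₁ g₂ : G) (hne : g₁ ≠ g₂) (h1 : a g₁ ≠ 0) (h2 : a g₂ ≠ 0) :
    kerDim (Matrix.of fun (_ _ : Fin 1) => a)
      ≤ Real.arccos ((‖a g₁‖ ^ 2 + ‖a g₂‖ ^ 2
        - (∑ g ∈ a.support \ {g₁, g₂}, ‖a g‖) ^ 2) / (2 * ‖a g₁‖ * ‖a g₂‖)) / Real.pi := by
  set ρ := ∑ g ∈ a.support \ {g₁, g₂}, ‖a g‖ with hρ
  have hρ0 : 0 ≤ ρ := Finset.sum_nonneg fun _ _ => norm_nonneg _
  set V := Sol (Set.range (colF (Matrix.of fun (_ _ : Fin 1) => a))) with hV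
  rw [kerDim_eq]
  have p1 : 0 < ‖a g₁‖ := norm_pos_iff.mpr h1
  have p2 : 0 < ‖a g₂‖ := norm_pos_iff.mpr h2
  set ζ : ℂ := (star (a g₁) * a g₂) / (‖a g₁‖ * ‖a g₂‖ : ℝ) with hζdef
  have hζ : ‖ζ‖ = 1 := by
    rw [hζdef, norm_div, norm_mul, norm_star, Complex.norm_real, Real.norm_of_nonneg (by positivity)]
    exact div_self (by positivity)
  set u : G := g₂ * g₁⁻¹ with hu
  have hu1 : u ≠ 1 := by
    intro h
    rw [hu, mul_inv_eq_one] at h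
    exact hne h.symm
  have hb := haar_bound (haarOf (ι := Fin 1) u (torsionfree_pow htf hu1) ζ hζ) V
    (Sol_invar _) (Sol_closed _) ((‖a g₁‖ ^ 2 + ‖a g₂‖ ^ 2 - ρ ^ 2) / (2 * ‖a g₁‖ * ‖a g₂‖))
  rw [Fintype.card_fin, Nat.cast_one, one_mul] at hb
  apply hb
  intro v hv
  have hv0 : rtA a v = 0 := by
    rw [← mem_l2Ker_one, l2Ker_eq]
    exact hv
  have hsplit : rtA a v = (a g₁ • rt g₁ v + a g₂ • rt g₂ v)
      + ∑ h ∈ a.support \ {g₁, g₂}, a h • rt h v := by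
    have e : rtA a v = ∑ h ∈ a.support, a h • rt h v := by
      unfold rtA
      rw [_root_.sum_apply]
      rfl
    have hsub : ({g₁, g₂} : Finset G) ⊆ a.support := by
      intro g hg
      simp only [Finset.mem_insert, Finset.mem_singleton] at hg
      rcases hg with rfl | rfl
      · exact Finsupp.mem_support_iff.mpr h1
      · exact Finsupp.mem_support_iff.mpr h2
    rw [e, ← Finset.sum_sdiff hsub, Finset.sum_pair hne, add_comm]
  have hnorm : ‖a g₁ • rt g₁ v + a g₂ • rt g₂ v‖ ≤ ρ * ‖v‖ := by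
    have e : a g₁ • rt g₁ v + a g₂ • rt g₂ v = -∑ h ∈ a.support \ {g₁, g₂}, a h • rt h v := by
      rw [hsplit] at hv0
      exact eq_neg_of_add_eq_zero_left hv0
    rw [e, norm_neg]
    refine le_trans (norm_sum_le _ _) ?_
    rw [hρ, Finset.sum_mul]
    refine Finset.sum_le_sum fun g _ => ?_
    rw [norm_smul, norm_rt]
  have hsq : ‖a g₁ • rt g₁ v + a g₂ • rt g₂ v‖ ^ 2 = ‖a g₁‖ ^ 2 * ‖v‖ ^ 2 + ‖a g₂‖ ^ 2 * ‖v‖ ^ 2
      + 2 * (‖a g₁‖ * ‖a g₂‖) * (⟪v, ζ • rt u v⟫_ℂ).re := by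
    rw [@norm_add_sq ℂ, norm_smul, norm_smul, norm_rt, norm_rt, inner_smul_left, inner_smul_right,
      inner_rt_left, rt_rt, ← hu, inner_smul_right]
    have e : (starRingEnd ℂ) (a g₁) * (a g₂ * ⟪v, rt u v⟫_ℂ)
        = ((‖a g₁‖ * ‖a g₂‖ : ℝ) : ℂ) * (ζ * ⟪v, rt u v⟫_ℂ) := by
      rw [hζdef]
      have hne0 : ((‖a g₁‖ * ‖a g₂‖ : ℝ) : ℂ) ≠ 0 := by
        exact_mod_cast (mul_pos p1 p2).ne'
      field_simp
      rw [mul_comm]
      rfl
    rw [e]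
    have e2 : RCLike.re (((‖a g₁‖ * ‖a g₂‖ : ℝ) : ℂ) * (ζ * ⟪v, rt u v⟫_ℂ))
        = (‖a g₁‖ * ‖a g₂‖) * (ζ * ⟪v, rt u v⟫_ℂ).re := by
      exact Complex.re_ofReal_mul _ _
    rw [e2]
    ring
  have hW : (haarOf (ι := Fin 1) u (torsionfree_pow htf hu1) ζ hζ).W 1 v = ζ • rt u v := by
    show (ζ ^ (1 : ℤ)) • rt (u ^ (1 : ℤ)) v = _
    rw [zpow_one, zpow_one]
  rw [hW]
  have h3 : ‖a g₁ • rt g₁ v + a g₂ • rt g₂ v‖ ^ 2 ≤ (ρ * ‖v‖) ^ 2 :=
    pow_le_pow_left₀ (norm_nonneg _) hnorm 2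
  rw [hsq] at h3
  have h4 : 0 < 2 * ‖a g₁‖ * ‖a g₂‖ := by positivity
  rw [← sub_nonneg]
  have h5 : -((‖a g₁‖ ^ 2 + ‖a g₂‖ ^ 2 - ρ ^ 2) / (2 * ‖a g₁‖ * ‖a g₂‖)) * ‖v‖ ^ 2
      - (⟪v, ζ • rt u v⟫_ℂ).re
      = ((ρ * ‖v‖) ^ 2 - (‖a g₁‖ ^ 2 * ‖v‖ ^ 2 + ‖a g₂‖ ^ 2 * ‖v‖ ^ 2
      + 2 * (‖a g₁‖ * ‖a g₂‖) * (⟪v, ζ • rt u v⟫_ℂ).re)) / (2 * ‖a g₁‖ * ‖a g₂‖) := by
    field_simp
    ring
  rw [h5]
  exact div_nonneg (by linarith) h4.le

end Pool.Agent.VN
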