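import Pool.Agent.VN.Final
import Pool.Agent.VN.TwoCoeff

set_option autoImplicit false
set_option linter.unusedSectionVars false

noncomputable section

open scoped InnerProductSpace ENNReal Topology
open Classical Filter ContinuousLinearMap

namespace Pool.Agent.VN

variable {ι G : Type*} [Group G]

section coset

variable (H : Subgroup G)

/-- right coset representatives -/
def rep (q : G ⧸ H) : G := (Quotient.out q)⁻¹

/-- decomposition of the group into right cosets of a subgroup -/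
def psi (p : (G ⧸ H) × H) : G := (p.2 : G) * rep H p.1

lemma psi_bij : Function.Bijective (psi H) := by
  constructor
  · rintro ⟨q, h⟩ ⟨q', h'⟩ e
    unfold psi rep at e
    simp only at e
    have e1 : (Quotient.out q) * (h : G)⁻¹ = (Quotient.out q') * (h' : G)⁻¹ := by
      have := congrArg (fun x : G => x⁻¹) e
      simpa using this
    have e2 : q = q' := by
      have h1 : ((Quotient.out q * (h : G)⁻¹ : G) : G ⧸ H) = q := by
        rw [QuotientGroup.mk_mul_of_mem _ (H.inv_mem h.2)]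
        exact Quotient.out_eq' q
      have h2 : ((Quotient.out q' * (h' : G)⁻¹ : G) : G ⧸ H) = q' := by
        rw [QuotientGroup.mk_mul_of_mem _ (H.inv_mem h'.2)]
        exact Quotient.out_eq' q'
      rw [← h1, ← h2, e1]
    subst e2
    have e3 := mul_left_cancel e1
    have e4 : (h : G) = h' := inv_injective e3
    exact Prod.ext rfl (Subtype.ext e4)
  · intro g
    obtain ⟨k, hk⟩ := QuotientGroup.mk_out_eq_mul H g⁻¹
    refine ⟨((g⁻¹ : G), k), ?_⟩
    unfold psi rep
    simp only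
    have e : Quotient.out ((g⁻¹ : G) : G ⧸ H) = g⁻¹ * k := hk
    rw [e]
    group

/-- the bijection -/
def psiE : (G ⧸ H) × H ≃ G := Equiv.ofBijective (psi H) (psi_bij H)

/-- the bijection of index sets -/
def idxE : ι × G ≃ (ι × (G ⧸ H)) × H :=
  ((Equiv.refl ι).prodCongr (psiE H).symm).trans (Equiv.prodAssoc ι (G ⧸ H) H).symm

lemma idxE_apply (i : ι) (g : G) :
    idxE H (i, g) = ((i, ((psiE H).symm g).1), ((psiE H).symm g).2) := rfl

lemma psiE_symm (q : G ⧸ H) (h : H) : (psiE H).symm ((h : G) * rep H q) = (q, h) := by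
  rw [Equiv.symm_apply_eq]
  rfl

/-- the equation over the subgroup attached to an equation and a coset -/
def cosF (a : ι × G →₀ ℂ) (q : G ⧸ H) : (ι × (G ⧸ H)) × H →₀ ℂ :=
  ∑ p ∈ a.support, Finsupp.single
    ((p.1, ((psiE H).symm (rep H q * p.2⁻¹)).1), (((psiE H).symm (rep H q * p.2⁻¹)).2)⁻¹) (a p)

lemma ev_cosF (a : ι × G →₀ ℂ) (q : G ⧸ H) (y : (ι × (G ⧸ H)) × H → ℂ) (h : H) :
    ev (cosF H a q) y h = ev a (fun p : ι × G => y (idxE H p)) ((h : G) * rep H q) := by
  unfold cosF
  rw [ev_finsetSum, ev_def]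
  refine Finset.sum_congr rfl fun p _ => ?_
  rw [ev_single, inv_inv]
  congr 2
  rw [idxE_apply]
  set r := (psiE H).symm (rep H q * p.2⁻¹) with hr
  have h1 : (r.2 : G) * rep H r.1 = rep H q * p.2⁻¹ := by
    have : psiE H r = rep H q * p.2⁻¹ := by rw [hr, Equiv.apply_symm_apply]
    exact this
  have h2 : (h : G) * rep H q * p.2⁻¹ = ((h * r.2 : H) : G) * rep H r.1 := by
    rw [mul_assoc, ← h1, Subgroup.coe_mul, mul_assoc]
  rw [h2, psiE_symm]

theorem vdim_finIndex [Fintype ι] [Fintype (G ⧸ H)] (C : Set (ι × G →₀ ℂ)) :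
    vdim (Sol {c | ∃ a ∈ C, ∃ q : G ⧸ H, c = cosF H a q} : Set (L2 (ι × (G ⧸ H)) H))
      = Fintype.card (G ⧸ H) * vdim (Sol C : Set (L2 ι G)) := by
  have c1 : CompleteSpace (Sol C) := (Sol_closed C).completeSpace_coe
  set E := idxE (ι := ι) H with hE
  have hmem : ∀ y : L2 (ι × (G ⧸ H)) H,
      y ∈ Sol {c | ∃ a ∈ C, ∃ q : G ⧸ H, c = cosF H a q} ↔ pull E E.injective y ∈ Sol C := by
    intro y
    constructor
    · intro hy a ha g
      obtain ⟨⟨q, h⟩, rfl⟩ := (psi_bij H).2 g
      have := hy _ ⟨a, ha, q, rfl⟩ h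
      rw [ev_cosF] at this
      exact this
    · rintro hy _ ⟨a, ha, q, rfl⟩ h
      rw [ev_cosF]
      exact hy a ha _
  have hsymm : ∀ x : L2 ι G, pull E E.injective (pull E.symm E.symm.injective x) = x := by
    intro x
    ext p
    simp
  rw [vdim_of_candidates _ (Sol_closed _)
    (fun k => pull E.symm E.symm.injective ((Sol C).starProjection (dl (k.1, rep H k.2)))) ?_ ?_,
    vdim_eq_sum, Fintype.sum_prod_type, Finset.mul_sum]
  · refine Finset.sum_congr rfl fun i _ => ?_
    have h1 : ∀ q : G ⧸ H, ‖pull E.symm E.symm.injective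
        ((Sol C).starProjection (dl (i, rep H q)))‖ ^ 2
        = ‖(Sol C).starProjection (dl (i, (1 : G)))‖ ^ 2 := by
      intro q
      have e1 : (dl (i, rep H q) : L2 ι G) = lt (rep H q) (dl (i, 1)) := by rw [lt_dl, mul_one]
      rw [norm_pull_equiv, e1, (Sol_invar C).proj, norm_lt]
    rw [Finset.sum_congr rfl fun q _ => h1 q, Finset.sum_const, Finset.card_univ, nsmul_eq_mul]
  · intro k
    rw [hmem, hsymm]
    exact Submodule.starProjection_apply_mem _ _
  · rintro ⟨i, q⟩ z hz
    have e1 : (dl ((i, q), (1 : H)) : L2 (ι × (G ⧸ H)) H)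
        = pull E.symm E.symm.injective (dl (i, rep H q)) := by
      have e2 : E.symm ((i, q), (1 : H)) = (i, rep H q) := by
        rw [Equiv.symm_apply_eq, hE, idxE_apply]
        have := psiE_symm H q 1
        rw [Subgroup.coe_one, one_mul] at this
        rw [this]
      rw [← e2, pull_dl]
    rw [e1, ← map_sub, inner_pull_equiv]
    exact (Sol C).starProjection_inner_eq_zero _ _ ((hmem z).mp hz)

end coset

lemma coefIn_cosF {k : Subring ℂ} (H : Subgroup G) {a : ι × G →₀ ℂ} (ha : CoefIn k a)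
    (q : G ⧸ H) : CoefIn k (cosF H a q) :=
  coefIn_sum _ _ _ fun p _ => coefIn_single _ _ _ (ha p)

/-- over an overgroup of finite index `n` of a group satisfying the Atiyah conjecture the
dimensions lie in `(1/n)ℤ` -/
theorem finIndex_int {G : Type} [Group G] (H : Subgroup G) [H.FiniteIndex]
    (hH : ∀ (m n : ℕ) (A : Matrix (Fin m) (Fin n) (H →₀ ℚ)), ∃ d : ℤ, kerDimQ A = d)
    {x : ℝ} (hx : x ∈ Dset intRing G) : ∃ d : ℤ, H.index * x = d := by
  obtain ⟨ι, hι, C, hC, hk, rfl⟩ := hx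
  have hfin : Fintype (G ⧸ H) := Fintype.ofFinite _
  have h1 := vdim_finIndex H C
  have h2 : (Fintype.card (G ⧸ H) : ℝ) * vdim (Sol C : Set (L2 ι G)) ∈ Dset intRing H := by
    refine ⟨ι × (G ⧸ H), inferInstance, _, ?_, ?_, h1⟩
    · have : {c | ∃ a ∈ C, ∃ q : G ⧸ H, c = cosF H a q}
          = ⋃ q : G ⧸ H, (fun a => cosF H a q) '' C := by
        ext c
        simp only [Set.mem_iUnion, Set.mem_image]
        constructor
        · rintro ⟨a, ha, q, rfl⟩; exact ⟨q, a, ha, rfl⟩
        · rintro ⟨q, a, ha, rfl⟩; exact ⟨a, ha, q, rfl⟩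
      rw [this]
      exact Set.finite_iUnion fun q => hC.image _
    · rintro _ ⟨a, ha, q, rfl⟩
      exact coefIn_cosF H (hk a ha) q
  obtain ⟨m, n, B, _, hB⟩ := exists_threeSparse h2
  obtain ⟨d, hd⟩ := hH m n (monoMat B)
  refine ⟨d, ?_⟩
  rw [← hd, hB, Subgroup.index_eq_card, Nat.card_eq_fintype_card]

end Pool.Agent.VN
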