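import Pool.Agent.VN.FinIndex

set_option autoImplicit false
set_option linter.unusedSectionVars false

noncomputable section

open scoped InnerProductSpace ENNReal Topology
open Classical Filter ContinuousLinearMap

namespace Pool.Agent.VN

/-- complexification of an element -/
def toC {G : Type*} (a : G →₀ ℚ) : G →₀ ℂ := a.mapRange (fun q : ℚ => (q : ℂ)) (by simp)

lemma toC_apply {G : Type*} (a : G →₀ ℚ) (g : G) : toC a g = ((a g : ℚ) : ℂ) := rfl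

lemma toC_support {G : Type*} (a : G →₀ ℚ) : (toC a).support = a.support := by
  ext g
  rw [Finsupp.mem_support_iff, Finsupp.mem_support_iff, toC_apply]
  simp

lemma kerDimQ_one {G : Type*} [Group G] (a : G →₀ ℚ) :
    kerDimQ (Matrix.of fun (_ _ : Fin 1) => a) = kerDim (Matrix.of fun (_ _ : Fin 1) => toC a) := by
  unfold kerDimQ kerDim l2Ker
  have h : {x : lp (fun _ : Fin 1 × G => ℂ) 2 | ∀ (j : Fin 1) (g : G),
      ∑ k : Fin 1, ∑ h ∈ ((Matrix.of fun (_ _ : Fin 1) => a) k j).support,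
        x (k, g * h⁻¹) * (((Matrix.of fun (_ _ : Fin 1) => a) k j h : ℚ) : ℂ) = 0}
      = {x : lp (fun _ : Fin 1 × G => ℂ) 2 | ∀ (j : Fin 1) (g : G),
      ∑ k : Fin 1, ∑ h ∈ ((Matrix.of fun (_ _ : Fin 1) => toC a) k j).support,
        x (k, g * h⁻¹) * (Matrix.of fun (_ _ : Fin 1) => toC a) k j h = 0} := by
    ext x
    simp only [Matrix.of_apply, toC_support]
    rfl
  rw [h]

theorem arccos_lt_of {κ : ℝ} {n : ℕ} (hn : 0 < n) (h : Real.cos (Real.pi / n) < κ) :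
    Real.arccos κ < Real.pi / n := by
  have hpi := Real.pi_pos
  have hn' : (0 : ℝ) < n := by exact_mod_cast hn
  by_contra hge
  push Not at hge
  rcases le_or_gt κ 1 with h1 | h1
  · have h2 : Real.cos (Real.arccos κ) ≤ Real.cos (Real.pi / n) :=
      Real.cos_le_cos_of_nonneg_of_le_pi (by positivity) (Real.arccos_le_pi κ) hge
    rw [Real.cos_arccos (by linarith [Real.neg_one_le_cos (Real.pi / n)]) h1] at h2
    linarith
  · rw [Real.arccos_of_one_le h1.le] at hge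
    have : 0 < Real.pi / n := by positivity
    linarith

theorem finIndex_inj {G : Type} [Group G] (htf : ∀ g : G, ∀ n : ℕ, 0 < n → g ^ n = 1 → g = 1)
    (H : Subgroup G) [H.FiniteIndex]
    (hH : ∀ (m n : ℕ) (A : Matrix (Fin m) (Fin n) (H →₀ ℚ)), ∃ d : ℤ, kerDimQ A = d)
    (a : G →₀ ℚ) (g₁ g₂ : G) (hne : g₁ ≠ g₂) (h₁ : a g₁ ≠ 0) (h₂ : a g₂ ≠ 0)
    (hang : 2 * Real.cos (Real.pi / H.index) * (|(a g₁ : ℝ)| * |(a g₂ : ℝ)|)
      < |(a g₁ : ℝ)| ^ 2 + |(a g₂ : ℝ)| ^ 2 - (∑ g ∈ a.support \ {g₁, g₂}, |(a g : ℝ)|) ^ 2)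
    (x : lp (fun _ : G => ℂ) 2)
    (hx : ∀ g : G, ∑ h ∈ a.support, x (g * h⁻¹) * ((a h : ℚ) : ℂ) = 0) : x = 0 := by
  have hn : 0 < H.index := Nat.pos_of_ne_zero Subgroup.FiniteIndex.index_ne_zero
  have hn' : (0 : ℝ) < H.index := by exact_mod_cast hn
  have hpi := Real.pi_pos
  have hnorm : ∀ g : G, ‖toC a g‖ = |(a g : ℝ)| := by
    intro g
    rw [toC_apply]
    have : ((a g : ℚ) : ℂ) = (((a g : ℚ) : ℝ) : ℂ) := by push_cast; rfl
    rw [this, Complex.norm_real, Real.norm_eq_abs]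
  have hb := two_coeff_aux htf (toC a) g₁ g₂ hne (by rw [toC_apply]; exact_mod_cast h₁)
    (by rw [toC_apply]; exact_mod_cast h₂)
  rw [← kerDimQ_one, toC_support] at hb
  simp only [hnorm] at hb
  have p1 : 0 < |(a g₁ : ℝ)| := abs_pos.mpr (by exact_mod_cast h₁)
  have p2 : 0 < |(a g₂ : ℝ)| := abs_pos.mpr (by exact_mod_cast h₂)
  have hκ : Real.cos (Real.pi / H.index) < (|(a g₁ : ℝ)| ^ 2 + |(a g₂ : ℝ)| ^ 2
      - (∑ g ∈ a.support \ {g₁, g₂}, |(a g : ℝ)|) ^ 2) / (2 * |(a g₁ : ℝ)| * |(a g₂ : ℝ)|) := by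
    rw [lt_div_iff₀ (by positivity)]
    linarith
  have hlt := arccos_lt_of hn hκ
  have hdim : kerDimQ (Matrix.of fun (_ _ : Fin 1) => a) < 1 / H.index := by
    refine lt_of_le_of_lt hb ?_
    rw [div_lt_iff₀ hpi]
    calc _ < Real.pi / H.index := hlt
      _ = 1 / H.index * Real.pi := by ring
  obtain ⟨d, hd⟩ := finIndex_int H hH (kerDimQ_mem_Dset (Matrix.of fun (_ _ : Fin 1) => a))
  have h0 : 0 ≤ kerDimQ (Matrix.of fun (_ _ : Fin 1) => a) := by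
    rw [kerDimQ_eq]
    exact vdim_nonneg _
  have hd0 : d = 0 := by
    have e1 : (d : ℝ) < 1 := by
      rw [← hd]
      rw [lt_div_iff₀ hn'] at hdim
      linarith
    have e2 : (0 : ℝ) ≤ d := by
      rw [← hd]
      positivity
    have e3 : d < 1 := by exact_mod_cast e1
    have e4 : 0 ≤ d := by exact_mod_cast e2
    omega
  have hz : kerDimQ (Matrix.of fun (_ _ : Fin 1) => a) = 0 := by
    rw [hd0, Int.cast_zero] at hd
    exact (mul_eq_zero.mp hd).resolve_left hn'.ne'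
  rw [kerDimQ_eq] at hz
  have hbot := eq_bot_of_vdim_eq_zero (Sol_invar _) (Sol_closed _) hz
  have hinj : Function.Injective (fun p : Fin 1 × G => p.2) := by
    rintro ⟨i, g⟩ ⟨j, h⟩ e
    exact Prod.ext (Subsingleton.elim _ _) e
  have hmem : pull _ hinj x ∈ Sol (Set.range (colQ (Matrix.of fun (_ _ : Fin 1) => a))) := by
    rintro _ ⟨j, rfl⟩ g
    rw [ev_colQ, Fin.sum_univ_one]
    exact hx g
  rw [hbot, Submodule.mem_bot] at hmem
  ext g
  have h5 : (pull _ hinj x) (0, g) = 0 := by rw [hmem]; rfl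
  exact h5

/-- among three distinct elements, two with dominating coefficients -/
lemma exists_two_of_three {G : Type*} (s : Finset G) (hs : s.card = 3) (f : G → ℝ) :
    ∃ g₁ g₂ g₃ : G, g₁ ≠ g₂ ∧ g₁ ∈ s ∧ g₂ ∈ s ∧ g₃ ∈ s ∧ s \ {g₁, g₂} = {g₃} ∧ f g₃ ≤ f g₁ ∧
      f g₃ ≤ f g₂ := by
  obtain ⟨g₃, hg₃, hmin⟩ := Finset.exists_min_image s f (by
    rw [← Finset.card_pos, hs]; norm_num)
  have h2 : (s.erase g₃).card = 2 := by rw [Finset.card_erase_of_mem hg₃, hs]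
  obtain ⟨g₁, g₂, hne, he⟩ := Finset.card_eq_two.mp h2
  have m1 : g₁ ∈ s.erase g₃ := by rw [he]; simp
  have m2 : g₂ ∈ s.erase g₃ := by rw [he]; simp
  refine ⟨g₁, g₂, g₃, hne, Finset.mem_of_mem_erase m1, Finset.mem_of_mem_erase m2, hg₃, ?_,
    hmin _ (Finset.mem_of_mem_erase m1), hmin _ (Finset.mem_of_mem_erase m2)⟩
  rw [← he]
  ext g
  simp only [Finset.mem_sdiff, Finset.mem_erase, Finset.mem_singleton]
  constructor
  · rintro ⟨h1, h2⟩
    by_contra h3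
    exact h2 ⟨h3, h1⟩
  · rintro rfl
    exact ⟨hg₃, fun h => h.1 rfl⟩

theorem three_term_bound {G : Type} [Group G]
    (htf : ∀ g : G, ∀ n : ℕ, 0 < n → g ^ n = 1 → g = 1) (a : G →₀ ℂ) (ha : a.support.card = 3) :
    kerDim (Matrix.of fun (_ _ : Fin 1) => a) ≤ 1 / 3 := by
  obtain ⟨g₁, g₂, g₃, hne, m1, m2, m3, hs, h1, h2⟩ := exists_two_of_three a.support ha fun g => ‖a g‖
  have hb := two_coeff_aux htf a g₁ g₂ hne (Finsupp.mem_support_iff.mp m1)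
    (Finsupp.mem_support_iff.mp m2)
  rw [hs, Finset.sum_singleton] at hb
  refine le_trans hb ?_
  have hpi := Real.pi_pos
  have p1 : 0 < ‖a g₁‖ := norm_pos_iff.mpr (Finsupp.mem_support_iff.mp m1)
  have p2 : 0 < ‖a g₂‖ := norm_pos_iff.mpr (Finsupp.mem_support_iff.mp m2)
  have p3 : 0 ≤ ‖a g₃‖ := norm_nonneg _
  have hκ : (1 / 2 : ℝ) ≤ (‖a g₁‖ ^ 2 + ‖a g₂‖ ^ 2 - ‖a g₃‖ ^ 2) / (2 * ‖a g₁‖ * ‖a g₂‖) := by
    rw [le_div_iff₀ (by positivity)]
    nlinarith [sq_nonneg (‖a g₁‖ - ‖a g₂‖), mul_le_mul h1 h2 p3 p1.le]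
  have h3 : Real.arccos ((‖a g₁‖ ^ 2 + ‖a g₂‖ ^ 2 - ‖a g₃‖ ^ 2) / (2 * ‖a g₁‖ * ‖a g₂‖))
      ≤ Real.arccos (1 / 2) := Real.arccos_le_arccos hκ
  have h4 : Real.arccos (1 / 2) = Real.pi / 3 := by
    rw [← Real.cos_pi_div_three, Real.arccos_cos (by positivity) (by linarith)]
  rw [h4] at h3
  rw [div_le_iff₀ hpi]
  linarith

theorem three_term_inj {G : Type} [Group G]
    (htf : ∀ g : G, ∀ n : ℕ, 0 < n → g ^ n = 1 → g = 1) (H : Subgroup G) [H.FiniteIndex]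
    (hidx : H.index = 2)
    (hH : ∀ (m n : ℕ) (A : Matrix (Fin m) (Fin n) (H →₀ ℚ)), ∃ d : ℤ, kerDimQ A = d)
    (a : G →₀ ℚ) (ha : a.support.card = 3) (x : lp (fun _ : G => ℂ) 2)
    (hx : ∀ g : G, ∑ h ∈ a.support, x (g * h⁻¹) * ((a h : ℚ) : ℂ) = 0) : x = 0 := by
  obtain ⟨g₁, g₂, g₃, hne, m1, m2, m3, hs, h1, h2⟩ :=
    exists_two_of_three a.support ha fun g => |(a g : ℝ)|
  refine finIndex_inj htf H hH a g₁ g₂ hne (Finsupp.mem_support_iff.mp m1)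
    (Finsupp.mem_support_iff.mp m2) ?_ x hx
  rw [hs, Finset.sum_singleton, hidx]
  have hcos : Real.cos (Real.pi / ((2 : ℕ) : ℝ)) = 0 := by
    push_cast
    exact Real.cos_pi_div_two
  rw [hcos]
  have p1 : 0 < |(a g₁ : ℝ)| :=
    abs_pos.mpr (by exact_mod_cast Finsupp.mem_support_iff.mp m1)
  have p3 : 0 ≤ |(a g₃ : ℝ)| := abs_nonneg _
  nlinarith [pow_le_pow_left₀ p3 h2 2]

end Pool.Agent.VN
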