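import Pool.Agent.VN.Mat

set_option autoImplicit false
set_option linter.unusedSectionVars false

noncomputable section

open scoped InnerProductSpace ENNReal Topology
open Classical Filter ContinuousLinearMap MeasureTheory

namespace Pool.Agent.VN

variable {ι κ μ G : Type*} [Group G]

/-- A Haar unitary group: the powers of an equivariant unitary all of whose nontrivial powers have
trace zero. -/
structure HaarFam (ι G : Type*) [Group G] [Fintype ι] where
  W : ℤ → (L2 ι G →L[ℂ] L2 ι G)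
  zero : W 0 = 1
  add : ∀ m n, W (m + n) = W m * W n
  adj : ∀ n, ContinuousLinearMap.adjoint (W n) = W (-n)
  tr0 : ∀ n, n ≠ 0 → tr (W n) = 0
  eqv : ∀ n, Equivar (W n)

variable [Fintype ι] (F : HaarFam ι G)

namespace HaarFam

/-- real part -/
def S : L2 ι G →L[ℂ] L2 ι G := (1 / 2 : ℂ) • (F.W 1 + F.W (-1))

lemma S_adj : ContinuousLinearMap.adjoint F.S = F.S := by
  unfold S
  rw [LinearIsometryEquiv.map_smulₛₗ, map_add, F.adj, F.adj, neg_neg, add_comm]
  congr 1
  apply Complex.ext <;> simp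

lemma S_sa : IsSelfAdjoint F.S := F.S_adj

lemma norm_W_apply (n : ℤ) (x : L2 ι G) : ‖F.W n x‖ = ‖x‖ := by
  have h : ⟪F.W n x, F.W n x⟫_ℂ = ⟪x, x⟫_ℂ := by
    rw [← adjoint_inner_left, F.adj]
    have : (F.W (-n)) (F.W n x) = x := by
      have h1 := F.add (-n) n
      rw [neg_add_cancel, F.zero] at h1
      have h2 : (F.W (-n) * F.W n) x = x := by rw [← h1]; rfl
      exact h2
    rw [this]
  rw [inner_self_eq_norm_sq_to_K, inner_self_eq_norm_sq_to_K] at h
  have h2 : ‖F.W n x‖ ^ 2 = ‖x‖ ^ 2 := by exact_mod_cast h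
  exact (pow_left_inj₀ (norm_nonneg _) (norm_nonneg _) two_ne_zero).mp h2

lemma norm_S_le : ‖F.S‖ ≤ 1 := by
  refine opNorm_le_bound _ zero_le_one fun x => ?_
  have h1 : F.S x = (1 / 2 : ℂ) • (F.W 1 x + F.W (-1) x) := rfl
  rw [h1, norm_smul, one_mul]
  have h2 := norm_add_le (F.W 1 x) (F.W (-1) x)
  rw [F.norm_W_apply, F.norm_W_apply] at h2
  have h3 : ‖(1 / 2 : ℂ)‖ = 1 / 2 := by norm_num
  rw [h3]
  linarith

lemma S_eqv : Equivar F.S := ((F.eqv 1).add (F.eqv (-1))).smul _

/-- hom to operators -/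
def hom1 : Multiplicative ℤ →* (L2 ι G →L[ℂ] L2 ι G) where
  toFun n := F.W n.toAdd
  map_one' := F.zero
  map_mul' _ _ := F.add _ _

/-- hom to functions -/
def hom2 : Multiplicative ℤ →* (ℝ → ℂ) where
  toFun n := fun θ => Complex.exp (Complex.I * (n.toAdd : ℤ) * θ)
  map_one' := by funext θ; simp
  map_mul' m n := by
    funext θ
    simp only [toAdd_mul, Pi.mul_apply]
    rw [← Complex.exp_add]
    congr 1
    push_cast
    ring

lemma tr_finsupp_sum (c : ℤ →₀ ℂ) :
    tr (c.sum fun a b => b • F.W a) = c.sum fun a b => b * tr (F.W a) := by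
  unfold Finsupp.sum
  generalize c.support = s
  induction s using Finset.induction_on with
  | empty => simp [tr_zero]
  | insert a s ha ih => rw [Finset.sum_insert ha, Finset.sum_insert ha, tr_add, tr_smul, ih]

lemma integral_exp (n : ℤ) : ∫ θ in (0 : ℝ)..(2 * Real.pi), Complex.exp (Complex.I * n * θ)
    = if n = 0 then 2 * Real.pi else 0 := by
  by_cases h : n = 0
  · subst h
    simp
  · rw [if_neg h]
    have hc : (Complex.I * n) ≠ 0 := mul_ne_zero Complex.I_ne_zero (by exact_mod_cast h)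
    rw [integral_exp_mul_complex hc]
    have : Complex.exp (Complex.I * n * ((2 * Real.pi : ℝ) : ℂ)) = 1 := by
      rw [Complex.exp_eq_one_iff]
      exact ⟨n, by push_cast; ring⟩
    rw [this]
    simp

lemma key_lin (x : AddMonoidAlgebra ℂ ℤ) :
    (2 * Real.pi : ℂ) * tr (AddMonoidAlgebra.lift ℂ _ ℤ F.hom1 x)
      = (Fintype.card ι : ℂ) * ∫ θ in (0 : ℝ)..(2 * Real.pi),
        (AddMonoidAlgebra.lift ℂ _ ℤ hom2 x) θ := by
  rw [AddMonoidAlgebra.lift_apply]
  have h1 : (x.coeff.sum fun a b => b • F.hom1 (Multiplicative.ofAdd a))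
      = x.coeff.sum fun a b => b • F.W a := rfl
  rw [h1, F.tr_finsupp_sum]
  have h2 : ∀ θ : ℝ, (AddMonoidAlgebra.lift ℂ _ ℤ hom2 x) θ
      = ∑ a ∈ x.coeff.support, x.coeff a * Complex.exp (Complex.I * a * θ) := by
    intro θ
    rw [AddMonoidAlgebra.lift_apply, Finsupp.sum, Finset.sum_apply]
    refine Finset.sum_congr rfl fun a _ => ?_
    rfl
  simp only [h2]
  rw [intervalIntegral.integral_finsetSum]
  · rw [Finsupp.sum, Finset.mul_sum, Finset.mul_sum]
    refine Finset.sum_congr rfl fun a _ => ?_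
    rw [intervalIntegral.integral_const_mul, integral_exp]
    by_cases h : a = 0
    · subst h
      rw [F.zero, tr_one, if_pos rfl]
      push_cast
      ring
    · rw [F.tr0 a h, if_neg h]
      push_cast
      ring
  · intro a _
    apply Continuous.intervalIntegrable
    fun_prop

/-- the element `(z + z⁻¹)/2` of the group algebra of the integers -/
def half : AddMonoidAlgebra ℂ ℤ :=
  AddMonoidAlgebra.single 1 (1 / 2 : ℂ) + AddMonoidAlgebra.single (-1) (1 / 2 : ℂ)

lemma hom1_half : AddMonoidAlgebra.lift ℂ _ ℤ F.hom1 half = F.S := by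
  unfold half S
  rw [map_add, AddMonoidAlgebra.lift_single, AddMonoidAlgebra.lift_single, smul_add]
  rfl

lemma hom2_half : AddMonoidAlgebra.lift ℂ _ ℤ hom2 half = fun θ : ℝ => (Real.cos θ : ℂ) := by
  unfold half
  rw [map_add, AddMonoidAlgebra.lift_single, AddMonoidAlgebra.lift_single]
  funext θ
  show (1 / 2 : ℂ) * Complex.exp (Complex.I * ((1 : ℤ) : ℂ) * θ)
    + (1 / 2 : ℂ) * Complex.exp (Complex.I * ((-1 : ℤ) : ℂ) * θ) = _
  rw [Complex.ofReal_cos, Complex.cos]
  push_cast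
  rw [mul_one, mul_comm Complex.I (θ : ℂ)]
  have : Complex.I * -1 * (θ : ℂ) = -(θ : ℂ) * Complex.I := by ring
  rw [this]
  ring

lemma tr_poly (q : Polynomial ℝ) :
    (2 * Real.pi : ℂ) * tr (Polynomial.aeval F.S q)
      = (Fintype.card ι : ℂ) * ((∫ θ in (0 : ℝ)..(2 * Real.pi), q.eval (Real.cos θ) : ℝ) : ℂ) := by
  have h1 : Polynomial.aeval F.S q
      = AddMonoidAlgebra.lift ℂ _ ℤ F.hom1 (Polynomial.aeval half q) := by
    rw [← F.hom1_half]
    exact Polynomial.aeval_algHom_apply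
      ((AddMonoidAlgebra.lift ℂ _ ℤ F.hom1).restrictScalars ℝ) half q
  have h2 : ∀ θ : ℝ, (AddMonoidAlgebra.lift ℂ _ ℤ hom2 (Polynomial.aeval half q)) θ
      = ((q.eval (Real.cos θ) : ℝ) : ℂ) := by
    intro θ
    have e1 : AddMonoidAlgebra.lift ℂ _ ℤ hom2 (Polynomial.aeval half q)
        = Polynomial.aeval (AddMonoidAlgebra.lift ℂ _ ℤ hom2 half) q :=
      (Polynomial.aeval_algHom_apply
        ((AddMonoidAlgebra.lift ℂ _ ℤ hom2).restrictScalars ℝ) half q).symm
    rw [e1, hom2_half]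
    have e2 := Polynomial.aeval_algHom_apply (Pi.evalAlgHom ℝ (fun _ : ℝ => ℂ) θ)
      (fun θ : ℝ => (Real.cos θ : ℂ)) q
    simp only [Pi.evalAlgHom_apply] at e2
    rw [← e2]
    have e3 := Polynomial.aeval_algHom_apply (Complex.ofRealAm) (Real.cos θ) q
    simp only [Complex.ofRealAm_coe] at e3
    rw [e3]
    simp
  rw [h1, F.key_lin]
  simp only [h2]
  rw [intervalIntegral.integral_ofReal]

end HaarFam

end Pool.Agent.VN
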