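import Pool.Agent.VN.Mul
import Pool.Agent.VN.Defs

set_option autoImplicit false
set_option linter.unusedSectionVars false

noncomputable section

open scoped InnerProductSpace ENNReal Topology
open Classical Filter

namespace Pool.Agent.VN

variable {ι κ μ G : Type*} [Group G]

/-- the columns of a matrix as linear forms -/
def colF {m n : ℕ} (A : Matrix (Fin m) (Fin n) (G →₀ ℂ)) (j : Fin n) : Fin m × G →₀ ℂ :=
  ∑ k : Fin m, ∑ h ∈ (A k j).support, Finsupp.single (k, h) (A k j h)

lemma ev_colF {m n : ℕ} (A : Matrix (Fin m) (Fin n) (G →₀ ℂ)) (j : Fin n)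
    (x : Fin m × G → ℂ) (g : G) :
    ev (colF A j) x g = ∑ k : Fin m, ∑ h ∈ (A k j).support, x (k, g * h⁻¹) * A k j h := by
  unfold colF
  rw [ev_finsetSum]
  refine Finset.sum_congr rfl fun k _ => ?_
  rw [ev_finsetSum]
  refine Finset.sum_congr rfl fun h _ => ?_
  rw [ev_single, mul_comm]

lemma colF_apply {m n : ℕ} (A : Matrix (Fin m) (Fin n) (G →₀ ℂ)) (j : Fin n) (k : Fin m) (h : G) :
    colF A j (k, h) = A k j h := by
  unfold colF
  rw [Finsupp.finsetSum_apply, Finset.sum_eq_single k]
  · rw [Finsupp.finsetSum_apply]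
    by_cases hh : A k j h = 0
    · rw [hh]
      refine Finset.sum_eq_zero fun h' hh' => ?_
      rw [Finsupp.single_apply, if_neg]
      intro heq
      have : h' = h := congrArg Prod.snd heq
      subst this
      exact (Finsupp.mem_support_iff.mp hh') hh
    · rw [Finset.sum_eq_single h]
      · simp
      · intro h' _ hne
        rw [Finsupp.single_apply, if_neg]
        intro heq
        exact hne (congrArg Prod.snd heq)
      · intro hnot
        exact absurd (Finsupp.mem_support_iff.mpr hh) hnot
  · intro k' _ hne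
    rw [Finsupp.finsetSum_apply]
    refine Finset.sum_eq_zero fun h' _ => ?_
    rw [Finsupp.single_apply, if_neg]
    intro heq
    exact hne (congrArg Prod.fst heq)
  · intro hnot
    exact absurd (Finset.mem_univ _) hnot

lemma colF_support {m n : ℕ} (A : Matrix (Fin m) (Fin n) (G →₀ ℂ)) (j : Fin n) :
    (colF A j).support = Finset.univ.biUnion fun k => (A k j).support.image fun h => (k, h) := by
  ext p
  obtain ⟨k, h⟩ := p
  rw [Finsupp.mem_support_iff, colF_apply]
  simp only [Finset.mem_biUnion, Finset.mem_univ, true_and, Finset.mem_image, Prod.mk.injEq,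
    Finsupp.mem_support_iff]
  constructor
  · intro hne
    exact ⟨k, h, hne, rfl, rfl⟩
  · rintro ⟨k', h', hne, rfl, rfl⟩
    exact hne

lemma colF_card {m n : ℕ} (A : Matrix (Fin m) (Fin n) (G →₀ ℂ)) (j : Fin n) :
    (colF A j).support.card ≤ ∑ k : Fin m, (A k j).support.card := by
  rw [colF_support]
  exact le_trans Finset.card_biUnion_le (Finset.sum_le_sum fun k _ => Finset.card_image_le)

lemma l2Ker_eq {m n : ℕ} (A : Matrix (Fin m) (Fin n) (G →₀ ℂ)) :
    l2Ker A = (Sol (Set.range (colF A)) : Set (L2 (Fin m) G)) := by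
  ext x
  rw [SetLike.mem_coe, mem_Sol]
  constructor
  · rintro hx _ ⟨j, rfl⟩ g
    rw [ev_colF]
    exact hx j g
  · intro hx j g
    rw [← ev_colF]
    exact hx _ ⟨j, rfl⟩ g

lemma kerDim_eq {m n : ℕ} (A : Matrix (Fin m) (Fin n) (G →₀ ℂ)) :
    kerDim A = vdim (Sol (Set.range (colF A)) : Set (L2 (Fin m) G)) := by
  unfold kerDim vdim
  rw [l2Ker_eq]
  refine Finset.sum_congr rfl fun i _ => ?_
  congr 3
  unfold dl
  congr 1
  exact Subsingleton.elim _ _

/-- adjoint matrix -/
def starF [Fintype κ] (A : κ → (ι × G →₀ ℂ)) (i : ι) : κ × G →₀ ℂ :=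
  ∑ j : κ, ∑ p ∈ (A j).support.filter (fun p => p.1 = i),
    Finsupp.single (j, p.2⁻¹) (star (A j p))

lemma adjoint_elem (j : κ) (p : ι × G) :
    ContinuousLinearMap.adjoint (elem j p : L2 ι G →L[ℂ] L2 κ G) = elem p.1 (j, p.2⁻¹) := by
  ext y q
  obtain ⟨i, g⟩ := q
  rw [elem_apply, ← inner_dl_left, ContinuousLinearMap.adjoint_inner_right]
  by_cases h : i = p.1
  · have : elem j p (dl (i, g) : L2 ι G) = dl (j, g * p.2) := by
      ext q
      rw [elem_apply, dl_apply, dl_apply]
      by_cases hq : q.1 = j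
      · rw [if_pos hq]
        congr 1
        rw [eq_iff_iff]
        constructor
        · intro h2
          simp only [Prod.mk.injEq] at h2
          refine Prod.ext hq ?_
          show q.2 = g * p.2
          rw [← h2.2]; group
        · intro h2
          rw [h2, h]
          simp
      · rw [if_neg hq, if_neg]
        intro h2
        exact hq (congrArg Prod.fst h2)
    rw [this, inner_dl_left, if_pos h]
    simp
  · have : elem j p (dl (i, g) : L2 ι G) = 0 := by
      ext q
      rw [elem_apply, dl_apply]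
      by_cases hq : q.1 = j
      · rw [if_pos hq, if_neg]
        · rfl
        · intro h2
          exact h (congrArg Prod.fst h2).symm
      · rw [if_neg hq]; rfl
    rw [this, inner_zero_left, if_neg h]

lemma adjoint_mulR [Fintype ι] [Fintype κ] (A : κ → (ι × G →₀ ℂ)) :
    ContinuousLinearMap.adjoint (mulR A) = mulR (starF A) := by
  ext y q
  obtain ⟨i, g⟩ := q
  rw [mulR_apply]
  unfold starF
  rw [ev_finsetSum]
  unfold mulR
  rw [map_sum, _root_.sum_apply, lp.coeFn_sum, Finset.sum_apply]
  refine Finset.sum_congr rfl fun j _ => ?_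
  rw [ev_finsetSum, map_sum, _root_.sum_apply, lp.coeFn_sum, Finset.sum_apply, Finset.sum_filter]
  refine Finset.sum_congr rfl fun p _ => ?_
  rw [LinearIsometryEquiv.map_smulₛₗ, adjoint_elem, ev_single]
  show ((star (A j p)) • (elem p.1 (j, p.2⁻¹) y : L2 ι G)) (i, g) = _
  rw [lp.coeFn_smul, Pi.smul_apply, elem_apply, smul_eq_mul]
  by_cases h : i = p.1
  · rw [if_pos h, if_pos h.symm]
  · rw [if_neg h, if_neg (fun h' => h h'.symm), mul_zero]

lemma starF_card [Fintype κ] (A : κ → (ι × G →₀ ℂ)) (i : ι) :
    (starF A i).support.card ≤ ∑ j : κ, ((A j).support.filter (fun p => p.1 = i)).card := by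
  have h1 : (starF A i).support ⊆ Finset.univ.biUnion fun j =>
      ((A j).support.filter (fun p => p.1 = i)).image fun p => (j, p.2⁻¹) := by
    intro q hq
    by_contra hne
    rw [Finsupp.mem_support_iff] at hq
    apply hq
    unfold starF
    rw [Finsupp.finsetSum_apply]
    refine Finset.sum_eq_zero fun j _ => ?_
    rw [Finsupp.finsetSum_apply]
    refine Finset.sum_eq_zero fun p hp => ?_
    rw [Finsupp.single_apply, if_neg]
    intro h
    apply hne
    rw [Finset.mem_biUnion]
    exact ⟨j, Finset.mem_univ _, Finset.mem_image.mpr ⟨p, hp, h⟩⟩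
  refine le_trans (Finset.card_le_card h1) (le_trans Finset.card_biUnion_le ?_)
  exact Finset.sum_le_sum fun j _ => Finset.card_image_le

theorem vdim_star [Fintype ι] [Fintype κ] (A : κ → (ι × G →₀ ℂ)) :
    (Fintype.card ι : ℝ) - vdim (Sol (Set.range A) : Set (L2 ι G))
      = Fintype.card κ - vdim (Sol (Set.range (starF A)) : Set (L2 κ G)) := by
  have h := rank_nullity (mulR_equivar A)
  rw [adjoint_mulR, ker_mulR, ker_mulR] at h
  exact h

lemma starF_colF_card {m n : ℕ} (A : Matrix (Fin m) (Fin n) (G →₀ ℂ)) (i : Fin m) :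
    (starF (colF A) i).support.card ≤ ∑ j : Fin n, (A i j).support.card := by
  refine le_trans (starF_card _ _) (Finset.sum_le_sum fun j _ => ?_)
  have : (colF A j).support.filter (fun p => p.1 = i) ⊆ (A i j).support.image fun h => (i, h) := by
    intro p hp
    rw [Finset.mem_filter, Finsupp.mem_support_iff] at hp
    obtain ⟨k, h⟩ := p
    obtain ⟨h1, h2⟩ := hp
    have h2' : k = i := h2
    subst h2'
    rw [colF_apply] at h1
    exact Finset.mem_image.mpr ⟨h, Finsupp.mem_support_iff.mpr h1, rfl⟩
  have e := le_trans (Finset.card_le_card this) Finset.card_image_le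
  convert e using 2
  ext p
  simp only [Finset.mem_filter]

end Pool.Agent.VN
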