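import Pool.Agent.VN.CoprodWord
import Pool.Agent.VN.Final

set_option autoImplicit false
set_option linter.unusedSectionVars false

noncomputable section

open scoped InnerProductSpace ENNReal Topology
open Classical Filter ContinuousLinearMap

/-!
Linearisation: every finite linear system over a group generated by subgroups `A i` has the same
dimension as a finite system all of whose equations are equations over one of the `A i`.
-/

namespace Pool.Agent.VN

section Lin

variable {ι I : Type} {A : I → Type} [∀ i, Group (A i)] {G : Type} [Group G]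
  (f : ∀ i, A i →* G)

/-- product of the letters, last letter first -/
def lpr : List (Σ i, A i) → G
  | [] => 1
  | s :: w => lpr w * f s.1 s.2

lemma lpr_append (w : List (Σ i, A i)) (s : Σ i, A i) : lpr f (w ++ [s]) = f s.1 s.2 * lpr f w := by
  induction w with
  | nil => simp [lpr]
  | cons t w ih => rw [List.cons_append, lpr, lpr, ih, mul_assoc]

/-- a finite set of words closed under tails with given products -/
lemma exists_words (hgen : ∀ g : G, ∃ w, lpr f w = g) (F : Finset G) :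
    ∃ W : Finset (List (Σ i, A i)), [] ∈ W ∧ (∀ s w, s :: w ∈ W → w ∈ W) ∧
      ∀ g ∈ F, ∃ w ∈ W, lpr f w = g := by
  choose wrd hw using hgen
  refine ⟨insert [] (F.biUnion fun g => (wrd g).tails.toFinset), Finset.mem_insert_self _ _,
    ?_, ?_⟩
  · intro s w h
    rw [Finset.mem_insert] at h ⊢
    rcases h with h | h
    · exact absurd h (by simp)
    · right
      rw [Finset.mem_biUnion] at h ⊢
      obtain ⟨g, hg, h⟩ := h
      refine ⟨g, hg, ?_⟩
      rw [List.mem_toFinset, List.mem_tails] at h ⊢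
      exact (List.suffix_cons s w).trans h
  · intro g hg
    refine ⟨wrd g, ?_, hw g⟩
    rw [Finset.mem_insert]
    right
    rw [Finset.mem_biUnion]
    refine ⟨g, hg, ?_⟩
    rw [List.mem_toFinset, List.mem_tails]

/-- the relations between the new variables -/
def relS (ι : Type) (W : Finset (List (Σ i, A i))) (hW : ∀ s w, s :: w ∈ W → w ∈ W) (i : I) :
    Set ((ι × W) × A i →₀ ℂ) :=
  {c | ∃ (k : ι) (w : List (Σ i, A i)) (a : A i) (h : (⟨i, a⟩ : Σ i, A i) :: w ∈ W),
    c = Finsupp.single (((k, ⟨_, h⟩) : ι × W), (1 : A i)) 1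
      - Finsupp.single (((k, ⟨w, hW _ _ h⟩) : ι × W), a) 1}

lemma relS_finite [Fintype ι] (W : Finset (List (Σ i, A i)))
    (hW : ∀ s w, s :: w ∈ W → w ∈ W) (i : I) : (relS ι W hW i).Finite := by
  have : relS ι W hW i ⊆ ⋃ p : ι × W, {c | ∃ (w : List (Σ i, A i)) (a : A i)
      (h : (⟨i, a⟩ : Σ i, A i) :: w ∈ W), p.2.1 = (⟨i, a⟩ : Σ i, A i) :: w ∧
      c = Finsupp.single (((p.1, ⟨_, h⟩) : ι × W), (1 : A i)) 1
      - Finsupp.single (((p.1, ⟨w, hW _ _ h⟩) : ι × W), a) 1} := by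
    rintro c ⟨k, w, a, h, rfl⟩
    exact Set.mem_iUnion.mpr ⟨(k, ⟨_, h⟩), w, a, h, rfl, rfl⟩
  refine (Set.finite_iUnion fun p => ?_).subset this
  apply Set.Subsingleton.finite
  rintro _ ⟨w, a, h, h1, rfl⟩ _ ⟨w', a', h', h1', rfl⟩
  rw [h1] at h1'
  obtain ⟨h2, rfl⟩ := List.cons.inj h1'
  obtain ⟨_, h3⟩ := Sigma.mk.inj h2
  obtain rfl := eq_of_heq h3
  rfl

lemma ev_sub (a b : ι × G →₀ ℂ) (x : ι × G → ℂ) (g : G) :
    ev (a - b) x g = ev a x g - ev b x g := by
  have h := ev_add (a - b) b x g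
  rw [sub_add_cancel] at h
  rw [h]; ring

lemma mapF_eq {B H : Type*} [Group B] [Group H] {ι : Type*} (f : B →* H) (a : ι × B →₀ ℂ) :
    mapF f a = Finsupp.mapDomain (fun p : ι × B => ((p.1, f p.2) : ι × H)) a := rfl

lemma mapF_sub {B H : Type*} [Group B] [Group H] {ι : Type*} (f : B →* H) (a b : ι × B →₀ ℂ) :
    mapF f (a - b) = mapF f a - mapF f b := by
  rw [mapF_eq, mapF_eq, mapF_eq, sub_eq_add_neg, Finsupp.mapDomain_add, sub_eq_add_neg]
  congr 1
  have h : Finsupp.mapDomain (fun p : ι × B => ((p.1, f p.2) : ι × H)) (-b)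
      + Finsupp.mapDomain (fun p : ι × B => ((p.1, f p.2) : ι × H)) b = 0 := by
    rw [← Finsupp.mapDomain_add, neg_add_cancel, Finsupp.mapDomain_zero]
  exact eq_neg_of_add_eq_zero_left h

lemma mapF_single {B H : Type*} [Group B] [Group H] {ι : Type*} (f : B →* H) (p : ι × B) (c : ℂ) :
    mapF f (Finsupp.single p c) = Finsupp.single (p.1, f p.2) c := by
  rw [mapF_eq, Finsupp.mapDomain_single]

lemma mapF_comp {B H L : Type*} [Group B] [Group H] [Group L] {ι : Type*} (f : B →* H)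
    (g : H →* L) (a : ι × B →₀ ℂ) : mapF g (mapF f a) = mapF (g.comp f) a := by
  rw [mapF_eq, mapF_eq, mapF_eq, ← Finsupp.mapDomain_comp]
  rfl

theorem linearise [Fintype ι] (hgen : ∀ g : G, ∃ w, lpr f w = g) (C : Set (ι × G →₀ ℂ))
    (hC : C.Finite) (i0 : I) :
    ∃ (κ : Type) (_ : Fintype κ) (J : Finset I) (D : ∀ i, Set (κ × A i →₀ ℂ)),
      i0 ∈ J ∧ (∀ i, (D i).Finite) ∧ (∀ i, i ∉ J → D i = ∅) ∧
      vdim (Sol (⋃ i, mapF (f i) '' D i) : Set (L2 κ G)) = vdim (Sol C : Set (L2 ι G)) := by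
  obtain ⟨W, hW0, hW1, hW2⟩ := exists_words f hgen
    (hC.toFinset.biUnion fun c => c.support.image Prod.snd)
  have hwd : ∀ g : G, ∃ w : W, (∃ c ∈ C, ∃ k, (k, g) ∈ c.support) → lpr f w.1 = g := by
    intro g
    by_cases h : ∃ c ∈ C, ∃ k, (k, g) ∈ c.support
    · obtain ⟨c, hc, k, hk⟩ := h
      obtain ⟨w, hw, he⟩ := hW2 g (by
        rw [Finset.mem_biUnion]
        exact ⟨c, hC.mem_toFinset.mpr hc, Finset.mem_image.mpr ⟨(k, g), hk, rfl⟩⟩)
      exact ⟨⟨w, hw⟩, fun _ => he⟩
    · exact ⟨⟨[], hW0⟩, fun h' => absurd h' h⟩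
  choose wo hwo using hwd
  -- the scalar equations
  set sc : (ι × G →₀ ℂ) → ((ι × W) × A i0 →₀ ℂ) := fun c =>
    ∑ p ∈ c.support, Finsupp.single (((p.1, wo p.2) : ι × W), (1 : A i0)) (c p) with hsc
  set D : ∀ i, Set ((ι × W) × A i →₀ ℂ) := fun i =>
    relS ι W hW1 i ∪ (if h : i0 = i then h ▸ (sc '' C) else ∅) with hD
  have hD0 : D i0 = relS ι W hW1 i0 ∪ sc '' C := by
    simp only [hD]
    rw [dif_pos trivial]
  have hDfin : ∀ i, (D i).Finite := by
    intro i
    by_cases h : i0 = i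
    · subst h
      rw [hD0]
      exact (relS_finite W hW1 _).union (hC.image _)
    · simp only [hD]
      rw [dif_neg h, Set.union_empty]
      exact relS_finite W hW1 _
  refine ⟨ι × W, inferInstance, insert i0 (W.biUnion fun w => (w.map Sigma.fst).toFinset), D,
    Finset.mem_insert_self _ _, hDfin, ?_, ?_⟩
  · intro i hi
    rw [Finset.mem_insert, not_or] at hi
    obtain ⟨hi1, hi2⟩ := hi
    simp only [hD]
    rw [dif_neg (fun h => hi1 h.symm), Set.union_empty]
    ext c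
    simp only [Set.mem_empty_iff_false, iff_false]
    rintro ⟨k, w, a, h, -⟩
    apply hi2
    rw [Finset.mem_biUnion]
    exact ⟨_, h, by simp⟩
  -- the change of variables
  set Φ : ι × W → (ι × G →₀ ℂ) := fun q => Finsupp.single (q.1, lpr f q.2.1) 1 with hΦ
  have hΦa : ∀ (x : L2 ι G) (k : ι) (w : W) (g : G),
      (mulR Φ x) ((k, w), g) = x (k, g * (lpr f w.1)⁻¹) := by
    intro x k w g
    rw [mulR_apply, ev_single, one_mul]
  -- evaluation of the new equations
  have hrel : ∀ (i : I) (k : ι) (w : List (Σ i, A i)) (a : A i)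
      (h : (⟨i, a⟩ : Σ i, A i) :: w ∈ W) (y : L2 (ι × W) G) (g : G),
      ev (mapF (f i) (Finsupp.single (((k, ⟨_, h⟩) : ι × W), (1 : A i)) (1 : ℂ)
        - Finsupp.single (((k, ⟨w, hW1 _ _ h⟩) : ι × W), a) 1)) y g
      = y ((k, ⟨_, h⟩), g) - y ((k, ⟨w, hW1 _ _ h⟩), g * (f i a)⁻¹) := by
    intro i k w a h y g
    rw [mapF_sub, ev_sub, mapF_single, mapF_single, ev_single, ev_single]
    simp
  have hscal : ∀ (c : ι × G →₀ ℂ) (y : L2 (ι × W) G) (g : G),
      ev (mapF (f i0) (sc c)) y g = ∑ p ∈ c.support, c p * y ((p.1, wo p.2), g) := by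
    intro c y g
    have h1 : mapF (f i0) (sc c)
        = ∑ p ∈ c.support, Finsupp.single (((p.1, wo p.2) : ι × W), (1 : G)) (c p) := by
      rw [mapF_eq, hsc, Finsupp.mapDomain_finsetSum]
      refine Finset.sum_congr rfl fun p _ => ?_
      rw [Finsupp.mapDomain_single]
      simp
    rw [h1, ev_finsetSum]
    refine Finset.sum_congr rfl fun p _ => ?_
    rw [ev_single]
    simp
  have hwo' : ∀ c ∈ C, ∀ p ∈ c.support, lpr f (wo p.2).1 = p.2 := by
    intro c hc p hp
    exact hwo p.2 ⟨c, hc, p.1, hp⟩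
  apply vdim_eq_of_param Φ (Sol C) (Sol_invar _) (Sol_closed _)
  · intro x _ h0
    ext q
    obtain ⟨k, g⟩ := q
    have h1 := hΦa x k ⟨[], hW0⟩ g
    rw [h0] at h1
    have h2 : lpr f ([] : List (Σ i, A i)) = 1 := rfl
    rw [h2] at h1
    simpa using h1.symm
  · intro x hx a ha g
    obtain ⟨i, c, hc, rfl⟩ := Set.mem_iUnion.mp ha
    have hcr : (c ∈ relS ι W hW1 i) ∨ ∃ h : i0 = i, c ∈ (h ▸ (sc '' C) : Set _) := by
      simp only [hD] at hc
      rcases hc with hc | hc
      · exact Or.inl hc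
      · by_cases h : i0 = i
        · rw [dif_pos h] at hc
          exact Or.inr ⟨h, hc⟩
        · rw [dif_neg h] at hc
          exact absurd hc (Set.notMem_empty _)
    rcases hcr with hc | ⟨h, hc⟩
    · obtain ⟨k, w, a, h, rfl⟩ := hc
      rw [hrel, hΦa, hΦa, sub_eq_zero]
      have e : lpr f ((⟨i, a⟩ : Σ i, A i) :: w) = lpr f w * f i a := rfl
      simp only
      rw [e, mul_inv_rev, mul_assoc]
    · subst h
      obtain ⟨c', hc', rfl⟩ := hc
      rw [hscal]
      have h1 := hx c' hc' g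
      rw [ev_def] at h1
      rw [← h1]
      refine Finset.sum_congr rfl fun p hp => ?_
      rw [hΦa, hwo' c' hc' p hp]
  · intro y hy
    set x : L2 ι G := mulR (fun k => Finsupp.single (((k, ⟨[], hW0⟩) : ι × W), (1 : G)) 1) y
      with hx
    have hxa : ∀ k g, x (k, g) = y ((k, ⟨[], hW0⟩), g) := by
      intro k g
      rw [hx, mulR_apply, ev_single]
      simp
    have hyx : ∀ (w : List (Σ i, A i)) (hw : w ∈ W) (k : ι) (g : G),
        y ((k, ⟨w, hw⟩), g) = x (k, g * (lpr f w)⁻¹) := by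
      intro w
      induction w with
      | nil =>
        intro hw k g
        rw [hxa]
        have h2 : lpr f ([] : List (Σ i, A i)) = 1 := rfl
        rw [h2, inv_one, mul_one]
      | cons s w ih =>
        intro hw k g
        obtain ⟨i, a⟩ := s
        have h1 := hy (mapF (f i) (Finsupp.single (((k, ⟨_, hw⟩) : ι × W), (1 : A i)) (1 : ℂ)
          - Finsupp.single (((k, ⟨w, hW1 _ _ hw⟩) : ι × W), a) 1))
          (Set.mem_iUnion.mpr ⟨i, _, Or.inl ⟨k, w, a, hw, rfl⟩, rfl⟩) g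
        rw [hrel, sub_eq_zero] at h1
        rw [h1, ih (hW1 _ _ hw)]
        have e : lpr f ((⟨i, a⟩ : Σ i, A i) :: w) = lpr f w * f i a := rfl
        rw [e, mul_inv_rev, mul_assoc]
    refine ⟨x, ?_, ?_⟩
    · intro c hc g
      have h1 := hy (mapF (f i0) (sc c)) (Set.mem_iUnion.mpr ⟨i0, _, by
        rw [hD0]
        exact Or.inr ⟨c, hc, rfl⟩, rfl⟩) g
      rw [hscal] at h1
      rw [ev_def, ← h1]
      refine Finset.sum_congr rfl fun p hp => ?_
      rw [hyx (wo p.2).1 (wo p.2).2, hwo' c hc p hp]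
    · ext q
      obtain ⟨⟨k, w, hw⟩, g⟩ := q
      rw [hΦa, hyx w hw]

end Lin

end Pool.Agent.VN
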