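import Pool.Agent.VN.Ind

set_option autoImplicit false
set_option linter.unusedSectionVars false

noncomputable section

open scoped InnerProductSpace ENNReal Topology
open Classical Filter ContinuousLinearMap

/-!
Local closed subspaces: subspaces of `ℓ²(J × G)` which are the orthogonal sum of subspaces over the
fibres of a location map, and their transport along homomorphisms which are injective on the fibres.
-/

namespace Pool.Agent.VN

section Cut

variable {α : Type*}

/-- truncation to a set -/
def cut (Y : Set α) : Ell α →L[ℂ] Ell α :=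
  (push (fun p : Y => p.1) Subtype.val_injective) ∘L
    (pull (fun p : Y => p.1) Subtype.val_injective)

lemma cut_of_mem {Y : Set α} (z : Ell α) {p : α} (hp : p ∈ Y) : cut Y z p = z p := by
  unfold cut
  rw [ContinuousLinearMap.comp_apply]
  exact push_apply (fun p : Y => p.1) _ _ ⟨p, hp⟩

lemma cut_of_notMem {Y : Set α} (z : Ell α) {p : α} (hp : p ∉ Y) : cut Y z p = 0 := by
  unfold cut
  rw [ContinuousLinearMap.comp_apply]
  apply push_apply_of_notMem
  rintro ⟨q, hq⟩ h
  subst h
  exact hp hq

lemma cut_apply (Y : Set α) (z : Ell α) (p : α) : cut Y z p = if p ∈ Y then z p else 0 := by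
  by_cases h : p ∈ Y
  · rw [if_pos h, cut_of_mem z h]
  · rw [if_neg h, cut_of_notMem z h]

lemma cut_cut (Y Z : Set α) (z : Ell α) : cut Y (cut Z z) = cut (Y ∩ Z) z := by
  ext p
  rw [cut_apply, cut_apply, cut_apply]
  by_cases h1 : p ∈ Y <;> by_cases h2 : p ∈ Z <;> simp [h1, h2]

lemma inner_cut (Y : Set α) (x y : Ell α) : ⟪cut Y x, y⟫_ℂ = ⟪x, cut Y y⟫_ℂ := by
  unfold cut
  rw [ContinuousLinearMap.comp_apply, ContinuousLinearMap.comp_apply]
  conv_lhs => rw [push]
  conv_rhs => rw [push]
  rw [ContinuousLinearMap.adjoint_inner_left, ContinuousLinearMap.adjoint_inner_right]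

lemma norm_cut_sq (Y : Set α) (x : Ell α) : ((‖cut Y x‖ : ℂ)) ^ 2 = ⟪cut Y x, x⟫_ℂ := by
  have h : cut Y (cut Y x) = cut Y x := by rw [cut_cut, Set.inter_self]
  have h2 := inner_cut Y (cut Y x) x
  rw [h] at h2
  rw [h2, inner_self_eq_norm_sq_to_K]
  rfl

end Cut

section Local

variable {J W : Type*} {G : Type*} [Group G]

/-- the location map `p : J × G → W` is compatible with left translation -/
def PInv (p : J × G → W) : Prop :=
  ∀ (k : G) (q q' : J × G), p q = p q' → p (q.1, k * q.2) = p (q'.1, k * q'.2)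

/-- cutting to a fibre -/
abbrev cutF (p : J × G → W) (w : W) : L2 J G →L[ℂ] L2 J G := cut (p ⁻¹' {w})

/-- a local subspace -/
def Loc (p : J × G → W) (L : Submodule ℂ (L2 J G)) : Prop :=
  ∀ x ∈ L, ∀ w, cutF p w x ∈ L

lemma cutF_apply (p : J × G → W) (w : W) (x : L2 J G) (q : J × G) :
    cutF p w x q = if p q = w then x q else 0 := cut_apply _ _ _

lemma cutF_cutF (p : J × G → W) (w w' : W) (x : L2 J G) :
    cutF p w (cutF p w' x) = if w = w' then cutF p w x else 0 := by
  ext q
  rw [cutF_apply, cutF_apply]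
  by_cases h : w = w'
  · subst h
    rw [if_pos rfl, cutF_apply]
    by_cases h1 : p q = w <;> simp [h1]
  · rw [if_neg h]
    by_cases h1 : p q = w
    · rw [if_pos h1, if_neg (fun h2 => h (h1.symm.trans h2))]
      rfl
    · rw [if_neg h1]
      rfl

/-- an element all of whose pieces lie in a closed subspace lies in it -/
lemma mem_of_pieces {p : J × G → W} {L : Submodule ℂ (L2 J G)} (hL : IsClosed (L : Set (L2 J G)))
    (hloc : Loc p L) {x : L2 J G} (hx : ∀ w, cutF p w x ∈ L) : x ∈ L := by
  have c1 : CompleteSpace L := hL.completeSpace_coe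
  set y := x - L.starProjection x with hy
  have hyL : ∀ z ∈ L, ⟪z, y⟫_ℂ = 0 := by
    intro z hz
    have := L.starProjection_inner_eq_zero x z hz
    rw [← inner_conj_symm, this, map_zero]
  have h0 : y = 0 := by
    ext q
    have h1 : cutF p (p q) y ∈ L := by
      rw [hy, map_sub]
      exact L.sub_mem (hx _) (hloc _ (Submodule.starProjection_apply_mem _ _) _)
    have h2 := norm_cut_sq (p ⁻¹' {p q}) y
    rw [hyL _ h1] at h2
    have h3 : cutF p (p q) y = 0 := by
      rw [← norm_eq_zero]
      have h4 : ((‖cutF p (p q) y‖ : ℂ)) = 0 := by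
        exact pow_eq_zero_iff two_ne_zero |>.mp h2
      exact_mod_cast h4
    have h4 := cutF_apply p (p q) y q
    rw [if_pos rfl, h3] at h4
    exact h4.symm
  rw [hy, sub_eq_zero] at h0
  rw [h0]
  exact Submodule.starProjection_apply_mem _ _

lemma Loc.proj {p : J × G → W} {L : Submodule ℂ (L2 J G)} [L.HasOrthogonalProjection]
    (hloc : Loc p L) (w : W) (x : L2 J G) :
    L.starProjection (cutF p w x) = cutF p w (L.starProjection x) := by
  apply Submodule.eq_starProjection_of_mem_of_inner_eq_zero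
  · exact hloc _ (Submodule.starProjection_apply_mem _ _) _
  · intro z hz
    rw [← map_sub, inner_cut]
    exact L.starProjection_inner_eq_zero _ _ (hloc z hz w)

variable {H : Type*} [Group H]

lemma lt_cutF {p : J × G → W} (hp : PInv p) (k : G) (q : J × G) (x : L2 J G) :
    lt k (cutF p (p q) x) = cutF p (p (q.1, k * q.2)) (lt k x) := by
  ext r
  rw [lt_apply, cutF_apply, cutF_apply, lt_apply]
  have : p (r.1, k⁻¹ * r.2) = p q ↔ p r = p (q.1, k * q.2) := by
    constructor
    · intro h
      have h1 := hp k _ _ h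
      simpa using h1
    · intro h
      have h1 := hp k⁻¹ _ _ h
      simpa using h1
  by_cases h : p (r.1, k⁻¹ * r.2) = p q
  · rw [if_pos h, if_pos (this.mp h)]
  · rw [if_neg h, if_neg (fun h' => h (this.mpr h'))]

/-- the homomorphism is injective on the fibres of `p` -/
def InjF (p : J × G → W) (π : G →* H) : Prop :=
  ∀ (j : J) (g g' : G), p (j, g) = p (j, g') → π g = π g' → g = g'

lemma InjF.inj {p : J × G → W} {π : G →* H} (h : InjF p π) (w : W) :
    Function.Injective (fun q : (p ⁻¹' {w}) => ((q.1.1, π q.1.2) : J × H)) := by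
  rintro ⟨⟨j, g⟩, hq⟩ ⟨⟨j', g'⟩, hq'⟩ heq
  simp only [Prod.mk.injEq] at heq
  obtain ⟨h1, h2⟩ := heq
  subst h1
  have hq1 : p (j, g) = w := hq
  have hq2 : p (j, g') = w := hq'
  have := h j g g' (hq1.trans hq2.symm) h2
  subst this
  rfl

/-- pulling back a function on `J × H` to a fibre -/
def liftF {p : J × G → W} {π : G →* H} (h : InjF p π) (w : W) : L2 J H →L[ℂ] L2 J G :=
  (push (fun q : (p ⁻¹' {w}) => q.1) Subtype.val_injective) ∘L (pull _ (h.inj w))

/-- pushing a function on a fibre to `J × H` -/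
def dropF {p : J × G → W} {π : G →* H} (h : InjF p π) (w : W) : L2 J G →L[ℂ] L2 J H :=
  (push _ (h.inj w)) ∘L (pull (fun q : (p ⁻¹' {w}) => q.1) Subtype.val_injective)

lemma liftF_apply {p : J × G → W} {π : G →* H} (h : InjF p π) (w : W) (x : L2 J H) (q : J × G) :
    liftF h w x q = if p q = w then x (q.1, π q.2) else 0 := by
  unfold liftF
  rw [ContinuousLinearMap.comp_apply]
  by_cases hq : p q = w
  · rw [if_pos hq]
    exact push_apply (fun q : (p ⁻¹' {w}) => q.1) _ _ ⟨q, hq⟩
  · rw [if_neg hq]
    apply push_apply_of_notMem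
    rintro ⟨r, hr⟩ h'
    subst h'
    exact hq hr

lemma dropF_apply {p : J × G → W} {π : G →* H} (h : InjF p π) (w : W) (x : L2 J G) {q : J × G}
    (hq : p q = w) : dropF h w x (q.1, π q.2) = x q := by
  unfold dropF
  rw [ContinuousLinearMap.comp_apply]
  exact push_apply _ (h.inj w) _ (⟨q, hq⟩ : (p ⁻¹' {w}))

lemma dropF_apply_zero {p : J × G → W} {π : G →* H} (h : InjF p π) (w : W) (x : L2 J G) {r : J × H}
    (hr : ∀ q : J × G, p q = w → (q.1, π q.2) ≠ r) : dropF h w x r = 0 := by
  unfold dropF
  rw [ContinuousLinearMap.comp_apply]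
  apply push_apply_of_notMem
  rintro ⟨q, hq⟩ h'
  exact hr q hq h'

lemma inner_dropF {p : J × G → W} {π : G →* H} (h : InjF p π) (w : W) (x : L2 J G) (z : L2 J H) :
    ⟪dropF h w x, z⟫_ℂ = ⟪x, liftF h w z⟫_ℂ := by
  unfold dropF liftF
  rw [ContinuousLinearMap.comp_apply, ContinuousLinearMap.comp_apply]
  conv_lhs => rw [push]
  conv_rhs => rw [push]
  rw [ContinuousLinearMap.adjoint_inner_left, ContinuousLinearMap.adjoint_inner_right]

lemma liftF_dropF {p : J × G → W} {π : G →* H} (h : InjF p π) (w : W) (x : L2 J G) :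
    liftF h w (dropF h w x) = cutF p w x := by
  ext q
  rw [liftF_apply, cutF_apply]
  by_cases hq : p q = w
  · rw [if_pos hq, if_pos hq, dropF_apply h w x hq]
  · rw [if_neg hq, if_neg hq]

/-- the transported subspace -/
def LH {p : J × G → W} {π : G →* H} (h : InjF p π) (L : Submodule ℂ (L2 J G)) :
    Submodule ℂ (L2 J H) where
  carrier := {x | ∀ (k : H) (w : W), liftF h w (lt k x) ∈ L}
  add_mem' := by
    intro x y hx hy k w
    rw [map_add, map_add]
    exact L.add_mem (hx k w) (hy k w)
  zero_mem' := by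
    intro k w
    rw [map_zero, map_zero]
    exact L.zero_mem
  smul_mem' := by
    intro c x hx k w
    rw [map_smul, map_smul]
    exact L.smul_mem c (hx k w)

lemma mem_LH {p : J × G → W} {π : G →* H} {h : InjF p π} {L : Submodule ℂ (L2 J G)}
    {x : L2 J H} : x ∈ LH h L ↔ ∀ (k : H) (w : W), liftF h w (lt k x) ∈ L := Iff.rfl

lemma LH_invar {p : J × G → W} {π : G →* H} (h : InjF p π) (L : Submodule ℂ (L2 J G)) :
    Invar (LH h L) := by
  intro s x hx k w
  rw [lt_lt]
  exact hx _ _

lemma LH_closed {p : J × G → W} {π : G →* H} (h : InjF p π) {L : Submodule ℂ (L2 J G)}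
    (hL : IsClosed (L : Set (L2 J G))) : IsClosed (LH h L : Set (L2 J H)) := by
  have : (LH h L : Set (L2 J H)) = ⋂ k : H, ⋂ w : W, (fun z => liftF h w (lt k z)) ⁻¹' L := by
    ext z
    simp only [Set.mem_iInter, Set.mem_preimage, SetLike.mem_coe, mem_LH]
  rw [this]
  exact isClosed_iInter fun k => isClosed_iInter fun w =>
    hL.preimage ((liftF h w).continuous.comp (lt k).continuous)

lemma LH_mono {p : J × G → W} {π : G →* H} (h : InjF p π) {L L' : Submodule ℂ (L2 J G)}
    (hLL : L ≤ L') : LH h L ≤ LH h L' := fun _ hx k w => hLL (hx k w)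

lemma dropF_mem {p : J × G → W} (hp : PInv p) {π : G →* H} (h : InjF p π)
    {L : Submodule ℂ (L2 J G)} (hLi : Invar L) (hloc : Loc p L) (w : W) {u : L2 J G}
    (hu : u ∈ L) : dropF h w u ∈ LH h L := by
  intro k w'
  by_cases hex : ∃ q q' : J × G, p q = w' ∧ p q' = w ∧ q.1 = q'.1 ∧ π q'.2 = k⁻¹ * π q.2
  · obtain ⟨q0, q0', h1, h2, h3, h4⟩ := hex
    have hk : π (q0.2 * q0'.2⁻¹) = k := by
      rw [map_mul, map_inv, h4]
      group
    have key : liftF h w' (lt k (dropF h w u)) = cutF p w' (lt (q0.2 * q0'.2⁻¹) u) := by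
      ext q
      rw [liftF_apply, cutF_apply]
      by_cases hq : p q = w'
      · rw [if_pos hq, if_pos hq, lt_apply, lt_apply]
        have e1 : p (q.1, (q0.2 * q0'.2⁻¹)⁻¹ * q.2) = w := by
          rw [hp (q0.2 * q0'.2⁻¹)⁻¹ q q0 (hq.trans h1.symm), ← h2]
          congr 1
          ext
          · exact h3
          · simp
        have e2 := dropF_apply h w u e1
        simp only at e2
        rw [← e2, map_mul, map_inv, hk]
      · rw [if_neg hq, if_neg hq]
    rw [key]
    exact hloc _ (hLi _ _ hu) _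
  · have key : liftF h w' (lt k (dropF h w u)) = 0 := by
      ext q
      rw [liftF_apply]
      by_cases hq : p q = w'
      · rw [if_pos hq, lt_apply]
        apply dropF_apply_zero
        intro q' hq' he
        apply hex
        exact ⟨q, q', hq, hq', (congrArg Prod.fst he).symm, congrArg Prod.snd he⟩
      · rw [if_neg hq]
        rfl
    rw [key]
    exact L.zero_mem

theorem vdim_LH [Fintype J] {p : J × G → W} (hp : PInv p) {π : G →* H} (h : InjF p π)
    {L : Submodule ℂ (L2 J G)} (hLi : Invar L) (hL : IsClosed (L : Set (L2 J G)))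
    (hloc : Loc p L) : vdim (LH h L : Set (L2 J H)) = vdim (L : Set (L2 J G)) := by
  have c1 : CompleteSpace L := hL.completeSpace_coe
  have hcut : ∀ j : J, cutF p (p (j, 1)) (dl (j, (1 : G)) : L2 J G) = dl (j, 1) := by
    intro j
    ext q
    rw [cutF_apply, dl_apply]
    by_cases hq : q = (j, 1)
    · subst hq; simp
    · simp [hq]
  have hdrop : ∀ j : J, (dl (j, (1 : H)) : L2 J H)
      = dropF h (p (j, 1)) (dl (j, (1 : G))) := by
    intro j
    ext r
    by_cases hr : ∃ q : J × G, p q = p (j, 1) ∧ (q.1, π q.2) = r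
    · obtain ⟨q, hq, rfl⟩ := hr
      rw [dropF_apply h _ _ hq, dl_apply, dl_apply]
      by_cases h1 : q = (j, 1)
      · subst h1; simp
      · rw [if_neg h1, if_neg]
        intro h2
        apply h1
        obtain ⟨q1, q2⟩ := q
        simp only [Prod.mk.injEq] at h2
        obtain ⟨rfl, h3⟩ := h2
        have := h q1 q2 1 hq (by rw [h3, map_one])
        rw [this]
    · push Not at hr
      rw [dropF_apply_zero h _ _ hr, dl_apply, if_neg]
      intro h1
      have := hr (j, 1) rfl
      rw [map_one] at this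
      exact this h1.symm
  rw [vdim_of_candidates (LH h L) (LH_closed h hL)
    (fun j => dropF h (p (j, 1)) (L.starProjection (dl (j, (1 : G)))))
    (fun j => dropF_mem hp h hLi hloc _ (Submodule.starProjection_apply_mem _ _)) ?_, vdim_eq_sum]
  · refine Finset.sum_congr rfl fun j _ => ?_
    have h1 : cutF p (p (j, 1)) (L.starProjection (dl (j, (1 : G))))
        = L.starProjection (dl (j, (1 : G))) := by
      rw [← hloc.proj, hcut]
    have h2 : ⟪dropF h (p (j, 1)) (L.starProjection (dl (j, (1 : G)))),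
        dropF h (p (j, 1)) (L.starProjection (dl (j, (1 : G))))⟫_ℂ
        = ⟪L.starProjection (dl (j, (1 : G))), L.starProjection (dl (j, (1 : G)))⟫_ℂ := by
      rw [inner_dropF, liftF_dropF, h1]
    rw [inner_self_eq_norm_sq_to_K, inner_self_eq_norm_sq_to_K] at h2
    exact_mod_cast h2
  · intro j z hz
    rw [hdrop, ← map_sub, inner_dropF]
    have h1 := hz 1 (p (j, 1))
    rw [lt_one] at h1
    exact L.starProjection_inner_eq_zero _ _ h1

end Local

end Pool.Agent.VN
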