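import Pool.Agent.VN.FinIndex2
import Pool.Agent.VN.DefsT

set_option autoImplicit false
set_option linter.unusedSectionVars false

noncomputable section

open scoped InnerProductSpace ENNReal Topology
open Classical Filter ContinuousLinearMap MeasureTheory

namespace Pool.Agent.VN

variable {ι κ μ G : Type*} [Group G] [Fintype ι] (F : HaarFam ι G)

/-- the operator attached to an element of the group algebra of the integers -/
def HaarFam.op (b : AddMonoidAlgebra ℂ ℤ) : L2 ι G →L[ℂ] L2 ι G :=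
  AddMonoidAlgebra.lift ℂ _ ℤ F.hom1 b

/-- the function attached to an element of the group algebra of the integers -/
def fn (b : AddMonoidAlgebra ℂ ℤ) : ℝ → ℂ := AddMonoidAlgebra.lift ℂ _ ℤ HaarFam.hom2 b

lemma fn_eq (b : AddMonoidAlgebra ℂ ℤ) (θ : ℝ) :
    fn b θ = ∑ a ∈ b.coeff.support, b.coeff a * Complex.exp (Complex.I * a * θ) := by
  unfold fn
  rw [AddMonoidAlgebra.lift_apply, Finsupp.sum, Finset.sum_apply]
  rfl

lemma fn_continuous (b : AddMonoidAlgebra ℂ ℤ) : Continuous (fn b) := by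
  have : fn b = fun θ : ℝ => ∑ a ∈ b.coeff.support, b.coeff a * Complex.exp (Complex.I * a * θ) :=
    funext fun θ => fn_eq b θ
  rw [this]
  fun_prop

lemma op_poly (b : AddMonoidAlgebra ℂ ℤ) (β : ℝ → ℝ) (hβ : ∀ θ, fn b θ = β θ)
    (q : Polynomial ℝ) :
    (2 * Real.pi : ℂ) * tr (Polynomial.aeval (F.op b) q)
      = (Fintype.card ι : ℂ) * ((∫ θ in (0 : ℝ)..(2 * Real.pi), q.eval (β θ) : ℝ) : ℂ) := by
  have h1 : Polynomial.aeval (F.op b) q
      = AddMonoidAlgebra.lift ℂ _ ℤ F.hom1 (Polynomial.aeval b q) :=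
    Polynomial.aeval_algHom_apply
      ((AddMonoidAlgebra.lift ℂ _ ℤ F.hom1).restrictScalars ℝ) b q
  have h2 : ∀ θ : ℝ, (AddMonoidAlgebra.lift ℂ _ ℤ HaarFam.hom2 (Polynomial.aeval b q)) θ
      = ((q.eval (β θ) : ℝ) : ℂ) := by
    intro θ
    have e1 : AddMonoidAlgebra.lift ℂ _ ℤ HaarFam.hom2 (Polynomial.aeval b q)
        = Polynomial.aeval (fn b) q :=
      (Polynomial.aeval_algHom_apply
        ((AddMonoidAlgebra.lift ℂ _ ℤ HaarFam.hom2).restrictScalars ℝ) b q).symm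
    rw [e1]
    have e2 := Polynomial.aeval_algHom_apply (Pi.evalAlgHom ℝ (fun _ : ℝ => ℂ) θ) (fn b) q
    simp only [Pi.evalAlgHom_apply] at e2
    rw [← e2, hβ]
    have e3 := Polynomial.aeval_algHom_apply (Complex.ofRealAm) (β θ) q
    simp only [Complex.ofRealAm_coe] at e3
    rw [e3]
    simp
  rw [h1, F.key_lin]
  simp only [h2]
  rw [intervalIntegral.integral_ofReal]

theorem tr_fc_op (b : AddMonoidAlgebra ℂ ℤ) (β : ℝ → ℝ) (hβ : ∀ θ, fn b θ = β θ)
    (hβc : Continuous β) (hβ1 : ∀ θ, β θ ∈ Set.Icc (-1 : ℝ) 1) (hsa : IsSelfAdjoint (F.op b))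
    (hn1 : ‖F.op b‖ ≤ 1) (f : ℝ → ℝ) (hf : Continuous f) :
    (2 * Real.pi : ℂ) * tr (fc (F.op b) f)
      = (Fintype.card ι : ℂ) * ((∫ θ in (0 : ℝ)..(2 * Real.pi), f (β θ) : ℝ) : ℂ) := by
  rw [← sub_eq_zero, ← norm_le_zero_iff]
  refine le_of_forall_pos_le_add fun ε hε => ?_
  set C : ℝ := 4 * Real.pi * (Fintype.card ι + 1) with hC
  have hCpos : 0 < C := by have := Real.pi_pos; positivity
  obtain ⟨q, hq⟩ := exists_polynomial_near_of_continuousOn (-1) 1 f hf.continuousOn (ε / C)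
    (by positivity)
  set Q : L2 ι G →L[ℂ] L2 ι G := fc (F.op b) (fun t => q.eval t) with hQ
  have h1 : (2 * Real.pi : ℂ) * tr Q
      = (Fintype.card ι : ℂ) * ((∫ θ in (0 : ℝ)..(2 * Real.pi), q.eval (β θ) : ℝ) : ℂ) := by
    rw [hQ, fc_poly hsa q]
    exact op_poly F b β hβ q
  have hn : ‖fc (F.op b) f - Q‖ ≤ ε / C := by
    rw [hQ, ← fc_sub hf q.continuous]
    refine norm_fc_le hn1 (by positivity) fun x hx => ?_
    rw [abs_sub_comm]
    exact (hq x hx).le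
  have h2 : ‖tr (fc (F.op b) f) - tr Q‖ ≤ Fintype.card ι * (ε / C) := by
    rw [← tr_sub]
    exact le_trans (norm_tr_le _) (by gcongr)
  have h3 : ‖(∫ θ in (0 : ℝ)..(2 * Real.pi), f (β θ))
      - ∫ θ in (0 : ℝ)..(2 * Real.pi), q.eval (β θ)‖ ≤ ε / C * (2 * Real.pi) := by
    have e1 : IntervalIntegrable (fun θ => f (β θ)) MeasureTheory.volume 0 (2 * Real.pi) :=
      (hf.comp hβc).intervalIntegrable _ _
    have e2 : IntervalIntegrable (fun θ => q.eval (β θ)) MeasureTheory.volume 0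
        (2 * Real.pi) := (q.continuous.comp hβc).intervalIntegrable _ _
    rw [← intervalIntegral.integral_sub e1 e2]
    have := intervalIntegral.norm_integral_le_of_norm_le_const (a := (0 : ℝ)) (b := 2 * Real.pi)
      (C := ε / C) (f := fun θ => f (β θ) - q.eval (β θ)) (fun θ _ => by
        rw [Real.norm_eq_abs, abs_sub_comm]
        exact (hq _ (hβ1 θ)).le)
    rwa [sub_zero, abs_of_nonneg (by have := Real.pi_pos; positivity)] at this
  have h4 : (2 * Real.pi : ℂ) * tr (fc (F.op b) f)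
      - (Fintype.card ι : ℂ) * ((∫ θ in (0 : ℝ)..(2 * Real.pi), f (β θ) : ℝ) : ℂ)
      = (2 * Real.pi : ℂ) * (tr (fc (F.op b) f) - tr Q)
        - (Fintype.card ι : ℂ) * (((∫ θ in (0 : ℝ)..(2 * Real.pi), f (β θ))
          - ∫ θ in (0 : ℝ)..(2 * Real.pi), q.eval (β θ) : ℝ) : ℂ) := by
    push_cast
    linear_combination h1
  rw [h4]
  refine le_trans (norm_sub_le _ _) ?_
  have h5 : ‖(2 * Real.pi : ℂ)‖ = 2 * Real.pi := by
    rw [norm_mul, Complex.norm_real, Real.norm_of_nonneg Real.pi_pos.le]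
    norm_num
  rw [norm_mul, h5, norm_mul, Complex.norm_real, Complex.norm_natCast]
  have hpi := Real.pi_pos
  calc 2 * Real.pi * ‖tr (fc (F.op b) f) - tr Q‖
        + (Fintype.card ι : ℝ) * ‖(∫ θ in (0 : ℝ)..(2 * Real.pi), f (β θ))
          - ∫ θ in (0 : ℝ)..(2 * Real.pi), q.eval (β θ)‖
      ≤ 2 * Real.pi * (Fintype.card ι * (ε / C)) + (Fintype.card ι : ℝ) * (ε / C * (2 * Real.pi)) := by
        gcongr
    _ = (4 * Real.pi * Fintype.card ι) * (ε / C) := by ring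
    _ ≤ C * (ε / C) := by
        gcongr
        rw [hC]
        nlinarith
    _ = 0 + ε := by field_simp; ring

lemma op_eqv (b : AddMonoidAlgebra ℂ ℤ) : Equivar (F.op b) := by
  unfold HaarFam.op
  rw [AddMonoidAlgebra.lift_apply]
  exact Equivar.sum _ fun n _ => (F.eqv n).smul _

lemma fc_op_eqv (b : AddMonoidAlgebra ℂ ℤ) (f : ℝ → ℝ) : Equivar (fc (F.op b) f) := fun s x =>
  fc_comm (S := F.op b) (B := lt s) (fun x => op_eqv F b s x) f x

lemma bump_continuous (t₀ M : ℝ) : Continuous (bump t₀ M) := by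
  have h1 := bump_cont t₀ M
  have h2 := cutoff_cont t₀
  unfold bump
  exact h1.mul h2

/-- Lower bound for the integral of the bump function. -/
lemma integral_bump_ge' {t₀ M : ℝ} (hM : 0 < M) (β : ℝ → ℝ) (hβc : Continuous β) :
    (volume.real {θ | θ ∈ Set.Ioc 0 (2 * Real.pi) ∧ t₀ + 1 / M ≤ β θ})
      ≤ ∫ θ in (0 : ℝ)..(2 * Real.pi), bump t₀ M (β θ) := by
  have hpi := Real.pi_pos
  have hmeas : MeasurableSet {θ | t₀ + 1 / M ≤ β θ} :=
    measurableSet_le measurable_const hβc.measurable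
  have hcont : Continuous fun θ => bump t₀ M (β θ) := (bump_continuous t₀ M).comp hβc
  rw [intervalIntegral.integral_of_le (by positivity)]
  have h1 : volume.real {θ | θ ∈ Set.Ioc 0 (2 * Real.pi) ∧ t₀ + 1 / M ≤ β θ}
      = ∫ θ in Set.Ioc 0 (2 * Real.pi), Set.indicator {θ | t₀ + 1 / M ≤ β θ} (fun _ => (1 : ℝ)) θ := by
    rw [setIntegral_indicator hmeas, setIntegral_const, smul_eq_mul, mul_one]
    rfl
  rw [h1]
  apply setIntegral_mono_on
  · have h2 : IntegrableOn (fun _ : ℝ => (1 : ℝ)) (Set.Ioc 0 (2 * Real.pi)) volume :=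
      integrableOn_const measure_Ioc_lt_top.ne
    exact h2.indicator hmeas
  · exact hcont.integrableOn_Ioc
  · exact measurableSet_Ioc
  · intro θ _
    by_cases h : θ ∈ {θ | t₀ + 1 / M ≤ β θ}
    · rw [Set.indicator_of_mem h, bump_eq_one hM h]
    · rw [Set.indicator_of_notMem h]
      exact bump_nonneg hM _

/-- Lower bound for the dimension of the spectral subspace. -/
lemma vdim_cut_ge' (b : AddMonoidAlgebra ℂ ℤ) (β : ℝ → ℝ) (hβ : ∀ θ, fn b θ = β θ)
    (hβc : Continuous β) (hβ1 : ∀ θ, β θ ∈ Set.Icc (-1 : ℝ) 1) (hsa : IsSelfAdjoint (F.op b))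
    (hn1 : ‖F.op b‖ ≤ 1) {t₀ M : ℝ} (hM : 0 < M) :
    (Fintype.card ι : ℝ) * (volume.real {θ | θ ∈ Set.Ioc 0 (2 * Real.pi) ∧ t₀ + 1 / M ≤ β θ}
        / (2 * Real.pi))
      ≤ vdim (((LinearMap.ker (fc (F.op b) (cutoff t₀)).toLinearMap)ᗮ : Submodule ℂ (L2 ι G)) :
        Set (L2 ι G)) := by
  set N := fc (F.op b) (cutoff t₀) with hN
  set E : Submodule ℂ (L2 ι G) := (LinearMap.ker N.toLinearMap)ᗮ with hE
  set Ψ := fc (F.op b) (bump t₀ M) with hΨ
  have hc := cutoff_cont t₀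
  have hb := bump_cont t₀ M
  have hΨadj : ContinuousLinearMap.adjoint Ψ = Ψ := fc_adj _
  have hΨN : Ψ = fc (F.op b) (fun t => M / max 1 (M * cutoff t₀ t)) * N := by
    rw [hΨ, hN, ← fc_mul hb hc]
    rfl
  have hΨE : ∀ x, E.starProjection (Ψ x) = Ψ x := by
    intro x
    rw [Submodule.starProjection_eq_self_iff, hE, Submodule.mem_orthogonal']
    intro y hy
    have hy' : N y = 0 := hy
    rw [← hΨadj, ContinuousLinearMap.adjoint_inner_left]
    have : Ψ y = 0 := by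
      rw [hΨN]
      show (fc (F.op b) (fun t => M / max 1 (M * cutoff t₀ t))) (N y) = 0
      rw [hy', map_zero]
    rw [this, inner_zero_right]
  have hΨE' : ∀ x, Ψ (E.starProjection x) = Ψ x := by
    intro x
    apply ext_inner_right ℂ
    intro y
    rw [← ContinuousLinearMap.adjoint_inner_right, hΨadj,
      Submodule.inner_starProjection_left_eq_right, hΨE, ← ContinuousLinearMap.adjoint_inner_right,
      hΨadj]
  have hnorm : ‖Ψ‖ ≤ 1 := norm_fc_le hn1 zero_le_one fun x _ => by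
    rw [abs_of_nonneg (bump_nonneg hM x)]
    exact bump_le_one x
  have hle : ∀ x, (⟪x, Ψ x⟫_ℂ).re ≤ ‖E.starProjection x‖ ^ 2 := by
    intro x
    have h1 : ⟪x, Ψ x⟫_ℂ = ⟪E.starProjection x, Ψ (E.starProjection x)⟫_ℂ := by
      rw [hΨE', ← hΨE x, ← Submodule.inner_starProjection_left_eq_right, hΨE x]
    rw [h1]
    have h2 : ‖⟪E.starProjection x, Ψ (E.starProjection x)⟫_ℂ‖
        ≤ ‖E.starProjection x‖ * ‖Ψ (E.starProjection x)‖ := norm_inner_le_norm _ _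
    have h3 : ‖Ψ (E.starProjection x)‖ ≤ ‖E.starProjection x‖ := by
      simpa using Ψ.le_of_opNorm_le hnorm (E.starProjection x)
    have h4 : (⟪E.starProjection x, Ψ (E.starProjection x)⟫_ℂ).re
        ≤ ‖⟪E.starProjection x, Ψ (E.starProjection x)⟫_ℂ‖ := Complex.re_le_norm _
    have h5 := mul_le_mul_of_nonneg_left h3 (norm_nonneg (E.starProjection x))
    nlinarith
  have htr : (tr Ψ).re ≤ vdim (E : Set (L2 ι G)) := by
    rw [vdim_eq_sum]
    unfold tr
    rw [Complex.re_sum]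
    exact Finset.sum_le_sum fun i _ => hle _
  have h1 := tr_fc_op F b β hβ hβc hβ1 hsa hn1 (bump t₀ M) (bump_continuous t₀ M)
  have h2 : 2 * Real.pi * (tr Ψ).re
      = (Fintype.card ι : ℝ) * ∫ θ in (0 : ℝ)..(2 * Real.pi), bump t₀ M (β θ) := by
    have := congrArg Complex.re h1
    rw [← hΨ] at this
    have e1 : ((2 * Real.pi : ℂ) * tr Ψ).re = 2 * Real.pi * (tr Ψ).re := by
      have : (2 * Real.pi : ℂ) = ((2 * Real.pi : ℝ) : ℂ) := by push_cast; ring
      rw [this, Complex.re_ofReal_mul]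
    have e2 : ((Fintype.card ι : ℂ)
        * ((∫ θ in (0 : ℝ)..(2 * Real.pi), bump t₀ M (β θ) : ℝ) : ℂ)).re
        = (Fintype.card ι : ℝ) * ∫ θ in (0 : ℝ)..(2 * Real.pi), bump t₀ M (β θ) := by
      norm_cast
    rw [e1, e2] at this
    exact this
  have h3 := integral_bump_ge' (t₀ := t₀) hM β hβc
  have hpi := Real.pi_pos
  refine le_trans ?_ htr
  have h5 : (tr Ψ).re = (Fintype.card ι : ℝ) *
      ((∫ θ in (0 : ℝ)..(2 * Real.pi), bump t₀ M (β θ)) / (2 * Real.pi)) := by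
    field_simp
    linarith
  rw [h5]
  gcongr

/-- The spectral bound: on `V` the quadratic form of `op b` is non-positive, so that the dimension
of `V` is at most the measure of the set where `b ≤ 0`. -/
theorem spectral_bound (b : AddMonoidAlgebra ℂ ℤ) (β : ℝ → ℝ) (hβ : ∀ θ, fn b θ = β θ)
    (hβc : Continuous β) (hβ1 : ∀ θ, β θ ∈ Set.Icc (-1 : ℝ) 1) (hsa : IsSelfAdjoint (F.op b))
    (hn1 : ‖F.op b‖ ≤ 1) (V : Submodule ℂ (L2 ι G)) (hV : Invar V)
    (hVc : IsClosed (V : Set (L2 ι G))) (h : ∀ v ∈ V, (⟪v, F.op b v⟫_ℂ).re ≤ 0) :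
    vdim (V : Set (L2 ι G)) ≤ Fintype.card ι *
      (volume.real {θ | θ ∈ Set.Ioc 0 (2 * Real.pi) ∧ β θ ≤ 0} / (2 * Real.pi)) := by
  have hpi := Real.pi_pos
  have key : ∀ t₀ : ℝ, 0 < t₀ → ∀ M : ℝ, 0 < M →
      vdim (V : Set (L2 ι G)) ≤ Fintype.card ι * (1 -
        volume.real {θ | θ ∈ Set.Ioc 0 (2 * Real.pi) ∧ t₀ + 1 / M ≤ β θ} / (2 * Real.pi)) := by
    intro t₀ ht₀ M hM
    set N := fc (F.op b) (cutoff t₀) with hN
    set E : Submodule ℂ (L2 ι G) := (LinearMap.ker N.toLinearMap)ᗮ with hE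
    have hNadj : ContinuousLinearMap.adjoint N = N := fc_adj _
    have hEr : E = (LinearMap.range N.toLinearMap).topologicalClosure := by
      rw [hE, ← Submodule.orthogonal_orthogonal_eq_closure]
      congr 1
      ext y
      rw [Submodule.mem_orthogonal']
      constructor
      · rintro hy _ ⟨x, rfl⟩
        have hy' : N y = 0 := hy
        show ⟪y, N x⟫_ℂ = 0
        rw [← ContinuousLinearMap.adjoint_inner_left, hNadj, hy', inner_zero_left]
      · intro hy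
        show N y = 0
        apply ext_inner_right ℂ
        intro x
        rw [← ContinuousLinearMap.adjoint_inner_right, hNadj, inner_zero_left]
        exact hy _ ⟨x, rfl⟩
    have hEge : ∀ v ∈ E, t₀ * ‖v‖ ^ 2 ≤ (⟪v, F.op b v⟫_ℂ).re := by
      intro v hv
      rw [hEr] at hv
      have hcl : IsClosed {v : L2 ι G | t₀ * ‖v‖ ^ 2 ≤ (⟪v, F.op b v⟫_ℂ).re} := by
        apply isClosed_le
        · fun_prop
        · exact Complex.continuous_re.comp (continuous_id.inner (F.op b).continuous)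
      have hsub : ((LinearMap.range N.toLinearMap : Submodule ℂ (L2 ι G)) : Set (L2 ι G))
          ⊆ {v : L2 ι G | t₀ * ‖v‖ ^ 2 ≤ (⟪v, F.op b v⟫_ℂ).re} := by
        rintro _ ⟨w, rfl⟩
        exact fc_range_ge hsa hn1 t₀ w
      exact closure_minimal hsub hcl hv
    have hbot : V ⊓ E = ⊥ := by
      rw [Submodule.eq_bot_iff]
      rintro v ⟨hv1, hv2⟩
      have h1 := h v hv1
      have h2 := hEge v hv2
      by_contra hne
      have : 0 < ‖v‖ ^ 2 := by
        have := norm_pos_iff.mpr hne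
        positivity
      nlinarith
    have hEinv : Invar E := (Invar.ker (fc_op_eqv F b _)).orthogonal
    have hEcl : IsClosed (E : Set (L2 ι G)) := Submodule.isClosed_orthogonal _
    have h1 := vdim_inter hV hVc hEinv hEcl
    rw [hbot, vdim_bot, add_zero] at h1
    have h2 := vdim_cut_ge' F b β hβ hβc hβ1 hsa hn1 (t₀ := t₀) hM
    rw [← hN, ← hE] at h2
    linarith
  -- continuity of the measure
  set S : ℕ → Set ℝ := fun n => {θ | θ ∈ Set.Ioc 0 (2 * Real.pi) ∧ 2 / ((n : ℝ) + 1) ≤ β θ} with hS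
  have hSmono : Monotone S := by
    intro m n hmn θ hθ
    refine ⟨hθ.1, le_trans ?_ hθ.2⟩
    have : (m : ℝ) ≤ n := by exact_mod_cast hmn
    gcongr
  have hSun : (⋃ n, S n) = {θ | θ ∈ Set.Ioc 0 (2 * Real.pi) ∧ 0 < β θ} := by
    ext θ
    simp only [Set.mem_iUnion, hS]
    constructor
    · rintro ⟨n, h1, h2⟩
      exact ⟨h1, lt_of_lt_of_le (by positivity) h2⟩
    · rintro ⟨h1, h2⟩
      obtain ⟨n, hn⟩ := exists_nat_gt (2 / β θ)
      refine ⟨n, h1, ?_⟩
      rw [div_lt_iff₀ h2] at hn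
      rw [div_le_iff₀ (by positivity)]
      nlinarith
  have hfin : volume (Set.Ioc 0 (2 * Real.pi)) ≠ ⊤ := measure_Ioc_lt_top.ne
  have hlim : Tendsto (fun n => volume.real (S n)) atTop
      (𝓝 (volume.real {θ | θ ∈ Set.Ioc 0 (2 * Real.pi) ∧ 0 < β θ})) := by
    have h1 := tendsto_measure_iUnion_atTop (μ := volume) hSmono
    rw [hSun] at h1
    refine (ENNReal.tendsto_toReal ?_).comp h1
    exact ne_top_of_le_ne_top hfin (measure_mono fun θ hθ => hθ.1)
  have key2 : ∀ n : ℕ, vdim (V : Set (L2 ι G)) ≤ Fintype.card ι * (1 -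
      volume.real (S n) / (2 * Real.pi)) := by
    intro n
    have h1 := key (1 / ((n : ℝ) + 1)) (by positivity) ((n : ℝ) + 1) (by positivity)
    have h2 : 1 / ((n : ℝ) + 1) + 1 / ((n : ℝ) + 1) = 2 / ((n : ℝ) + 1) := by ring
    rw [h2] at h1
    exact h1
  have hlim2 : Tendsto (fun n : ℕ => (Fintype.card ι : ℝ) * (1 -
      volume.real (S n) / (2 * Real.pi))) atTop (𝓝 ((Fintype.card ι : ℝ) * (1 -
      volume.real {θ | θ ∈ Set.Ioc 0 (2 * Real.pi) ∧ 0 < β θ} / (2 * Real.pi)))) :=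
    tendsto_const_nhds.mul (tendsto_const_nhds.sub (hlim.div_const _))
  have h3 := ge_of_tendsto' hlim2 key2
  have h4 : volume.real {θ | θ ∈ Set.Ioc 0 (2 * Real.pi) ∧ 0 < β θ}
      + volume.real {θ | θ ∈ Set.Ioc 0 (2 * Real.pi) ∧ β θ ≤ 0} = 2 * Real.pi := by
    have hm : MeasurableSet {θ | θ ∈ Set.Ioc 0 (2 * Real.pi) ∧ β θ ≤ 0} :=
      measurableSet_Ioc.inter (measurableSet_le hβc.measurable measurable_const)
    rw [← measureReal_union _ hm (ne_top_of_le_ne_top hfin (measure_mono fun θ hθ => hθ.1))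
      (ne_top_of_le_ne_top hfin (measure_mono fun θ hθ => hθ.1))]
    · have : {θ | θ ∈ Set.Ioc 0 (2 * Real.pi) ∧ 0 < β θ}
          ∪ {θ | θ ∈ Set.Ioc 0 (2 * Real.pi) ∧ β θ ≤ 0} = Set.Ioc 0 (2 * Real.pi) := by
        ext θ
        constructor
        · rintro (h | h)
          · exact h.1
          · exact h.1
        · intro h
          rcases lt_or_ge 0 (β θ) with h' | h'
          · exact Or.inl ⟨h, h'⟩
          · exact Or.inr ⟨h, h'⟩
      rw [this, Real.volume_real_Ioc_of_le (by positivity)]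
      ring
    · rw [Set.disjoint_left]
      rintro θ h1 h2
      exact absurd h1.2 (not_lt.mpr h2.2)
  refine le_trans h3 (le_of_eq ?_)
  congr 1
  have h5 : volume.real {θ | θ ∈ Set.Ioc 0 (2 * Real.pi) ∧ 0 < β θ}
      = 2 * Real.pi - volume.real {θ | θ ∈ Set.Ioc 0 (2 * Real.pi) ∧ β θ ≤ 0} := by linarith
  rw [h5]
  field_simp
  ring

section assemble

/-- Laurent polynomial -/
def toA (p : ℤ →₀ ℂ) : AddMonoidAlgebra ℂ ℤ := ∑ n ∈ p.support, AddMonoidAlgebra.single n (p n)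

/-- conjugate Laurent polynomial -/
def starA (p : ℤ →₀ ℂ) : AddMonoidAlgebra ℂ ℤ :=
  ∑ n ∈ p.support, AddMonoidAlgebra.single (-n) (star (p n))

lemma op_toA (p : ℤ →₀ ℂ) : F.op (toA p) = ∑ n ∈ p.support, p n • F.W n := by
  unfold HaarFam.op toA
  rw [map_sum]
  refine Finset.sum_congr rfl fun n _ => ?_
  rw [AddMonoidAlgebra.lift_single]
  rfl

lemma op_starA (p : ℤ →₀ ℂ) : F.op (starA p) = ContinuousLinearMap.adjoint (F.op (toA p)) := by
  rw [op_toA, map_sum]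
  unfold HaarFam.op starA
  rw [map_sum]
  refine Finset.sum_congr rfl fun n _ => ?_
  rw [AddMonoidAlgebra.lift_single, LinearIsometryEquiv.map_smulₛₗ, F.adj]
  rfl

lemma fn_toA (p : ℤ →₀ ℂ) (θ : ℝ) : fn (toA p) θ = trig p θ := by
  unfold fn toA trig Finsupp.sum
  rw [map_sum, Finset.sum_apply]
  refine Finset.sum_congr rfl fun n _ => ?_
  rw [AddMonoidAlgebra.lift_single]
  rfl

lemma fn_starA (p : ℤ →₀ ℂ) (θ : ℝ) : fn (starA p) θ = star (trig p θ) := by
  unfold fn starA trig Finsupp.sum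
  rw [map_sum, Finset.sum_apply, star_sum]
  refine Finset.sum_congr rfl fun n _ => ?_
  rw [AddMonoidAlgebra.lift_single]
  show star (p n) * Complex.exp (Complex.I * ((-n : ℤ) : ℂ) * θ) = _
  rw [star_mul']
  congr 1
  have : star (Complex.exp (Complex.I * (n : ℂ) * θ))
      = Complex.exp ((starRingEnd ℂ) (Complex.I * (n : ℂ) * θ)) := Complex.exp_conj _ ▸ rfl
  rw [this]
  congr 1
  rw [map_mul, map_mul, Complex.conj_I, Complex.conj_ofReal]
  have h2 : (starRingEnd ℂ) (n : ℂ) = n := by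
    have : ((n : ℤ) : ℂ) = (((n : ℤ) : ℝ) : ℂ) := by push_cast; rfl
    rw [this, Complex.conj_ofReal]
  rw [h2]
  push_cast
  ring

/-- sum of the absolute values of the coefficients -/
def l1 (p : ℤ →₀ ℂ) : ℝ := ∑ n ∈ p.support, ‖p n‖

lemma norm_trig_le (p : ℤ →₀ ℂ) (θ : ℝ) : ‖trig p θ‖ ≤ l1 p := by
  unfold trig Finsupp.sum l1
  refine le_trans (norm_sum_le _ _) (Finset.sum_le_sum fun n _ => ?_)
  rw [norm_mul]
  have : Complex.I * (n : ℂ) * (θ : ℂ) = ((n * θ : ℝ) : ℂ) * Complex.I := by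
    push_cast; ring
  rw [this, Complex.norm_exp_ofReal_mul_I, mul_one]

lemma norm_op_le (p : ℤ →₀ ℂ) (x : L2 ι G) : ‖F.op (toA p) x‖ ≤ l1 p * ‖x‖ := by
  rw [op_toA, _root_.sum_apply]
  unfold l1
  rw [Finset.sum_mul]
  refine le_trans (norm_sum_le _ _) (Finset.sum_le_sum fun n _ => ?_)
  show ‖p n • F.W n x‖ ≤ _
  rw [norm_smul, F.norm_W_apply]

lemma l1_nonneg (p : ℤ →₀ ℂ) : 0 ≤ l1 p := Finset.sum_nonneg fun _ _ => norm_nonneg _

theorem master_aux {K : Type*} [Fintype K] [DecidableEq K] (k₀ : K) (lam : K → ℝ)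
    (hlam : ∀ k, 0 < lam k) (hsum : ∑ k ∈ Finset.univ.erase k₀, lam k ≤ 1) (p : K → (ℤ →₀ ℂ))
    (V : Submodule ℂ (L2 ι G)) (hV : Invar V) (hVc : IsClosed (V : Set (L2 ι G)))
    (h : ∀ v ∈ V, ‖F.op (toA (p k₀)) v‖ ≤ ∑ k ∈ Finset.univ.erase k₀, ‖F.op (toA (p k)) v‖) :
    vdim (V : Set (L2 ι G)) ≤ Fintype.card ι * badAngle k₀ lam p := by
  set T : K → (L2 ι G →L[ℂ] L2 ι G) := fun k => F.op (toA (p k)) with hT
  set Kc : ℝ := l1 (p k₀) ^ 2 + ∑ k ∈ Finset.univ.erase k₀, l1 (p k) ^ 2 / lam k + 1 with hKc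
  have hKpos : 0 < Kc := by
    have : 0 ≤ ∑ k ∈ Finset.univ.erase k₀, l1 (p k) ^ 2 / lam k :=
      Finset.sum_nonneg fun k _ => div_nonneg (sq_nonneg _) (hlam k).le
    positivity
  set b : AddMonoidAlgebra ℂ ℤ := ((Kc⁻¹ : ℝ) : ℂ) • (starA (p k₀) * toA (p k₀)
    - ∑ k ∈ Finset.univ.erase k₀, (((lam k)⁻¹ : ℝ) : ℂ) • (starA (p k) * toA (p k))) with hb
  have hopb : F.op b = ((Kc⁻¹ : ℝ) : ℂ) • (ContinuousLinearMap.adjoint (T k₀) * T k₀
      - ∑ k ∈ Finset.univ.erase k₀, (((lam k)⁻¹ : ℝ) : ℂ) •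
        (ContinuousLinearMap.adjoint (T k) * T k)) := by
    rw [hb]
    unfold HaarFam.op
    rw [map_smul, map_sub, map_mul, map_sum]
    have e : ∀ k, AddMonoidAlgebra.lift ℂ _ ℤ F.hom1 (starA (p k))
        = ContinuousLinearMap.adjoint (T k) := fun k => op_starA F (p k)
    rw [e]
    congr 2
    refine Finset.sum_congr rfl fun k _ => ?_
    rw [map_smul, map_mul, e]
    rfl
  set β : ℝ → ℝ := fun θ => Kc⁻¹ * (‖trig (p k₀) θ‖ ^ 2
    - ∑ k ∈ Finset.univ.erase k₀, (lam k)⁻¹ * ‖trig (p k) θ‖ ^ 2) with hβdef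
  have hmulfn : ∀ k θ, fn (starA (p k) * toA (p k)) θ = ((‖trig (p k) θ‖ ^ 2 : ℝ) : ℂ) := by
    intro k θ
    have : fn (starA (p k) * toA (p k)) θ = fn (starA (p k)) θ * fn (toA (p k)) θ := by
      unfold fn
      rw [map_mul]
      rfl
    rw [this, fn_starA, fn_toA]
    have h2 := Complex.normSq_eq_conj_mul_self (z := trig (p k) θ)
    rw [Complex.normSq_eq_norm_sq] at h2
    exact h2.symm
  have hβ : ∀ θ, fn b θ = β θ := by
    intro θ
    have e1 : fn b θ = ((Kc⁻¹ : ℝ) : ℂ) * (fn (starA (p k₀) * toA (p k₀)) θ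
        - ∑ k ∈ Finset.univ.erase k₀, (((lam k)⁻¹ : ℝ) : ℂ) * fn (starA (p k) * toA (p k)) θ) := by
      rw [hb]
      unfold fn
      rw [map_smul, map_sub, map_sum]
      show ((Kc⁻¹ : ℝ) : ℂ) * (_ - (∑ k ∈ Finset.univ.erase k₀, _ : ℝ → ℂ) θ) = _
      rw [Finset.sum_apply]
      congr 2
      refine Finset.sum_congr rfl fun k _ => ?_
      rw [map_smul]
      rfl
    rw [e1]
    simp only [hmulfn]
    rw [hβdef]
    push_cast
    ring
  have hβc : Continuous β := by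
    have hc : Continuous fun θ => (β θ : ℂ) := by
      have := fn_continuous b
      have e : fn b = fun θ => (β θ : ℂ) := funext hβ
      rwa [e] at this
    exact Complex.continuous_re.comp hc
  have hβ1 : ∀ θ, β θ ∈ Set.Icc (-1 : ℝ) 1 := by
    intro θ
    have h1 : ∀ k, ‖trig (p k) θ‖ ^ 2 ≤ l1 (p k) ^ 2 := fun k =>
      pow_le_pow_left₀ (norm_nonneg _) (norm_trig_le _ _) 2
    have h2 : ∑ k ∈ Finset.univ.erase k₀, (lam k)⁻¹ * ‖trig (p k) θ‖ ^ 2
        ≤ ∑ k ∈ Finset.univ.erase k₀, l1 (p k) ^ 2 / lam k :=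
      Finset.sum_le_sum fun k _ => by
        rw [div_eq_inv_mul]
        exact mul_le_mul_of_nonneg_left (h1 k) (inv_nonneg.mpr (hlam k).le)
    have h3 : 0 ≤ ∑ k ∈ Finset.univ.erase k₀, (lam k)⁻¹ * ‖trig (p k) θ‖ ^ 2 :=
      Finset.sum_nonneg fun k _ => mul_nonneg (inv_nonneg.mpr (hlam k).le) (sq_nonneg _)
    have h4 := h1 k₀
    have h5 : 0 ≤ ‖trig (p k₀) θ‖ ^ 2 := by positivity
    have h6 : 0 ≤ ∑ k ∈ Finset.univ.erase k₀, l1 (p k) ^ 2 / lam k :=
      Finset.sum_nonneg fun k _ => div_nonneg (sq_nonneg _) (hlam k).le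
    rw [hβdef]
    simp only
    rw [Set.mem_Icc, ← neg_le, inv_mul_le_iff₀ hKpos, neg_mul_eq_mul_neg, inv_mul_le_iff₀ hKpos]
    constructor <;> nlinarith [sq_nonneg (l1 (p k₀))]
  have hself : ∀ k, ContinuousLinearMap.adjoint (ContinuousLinearMap.adjoint (T k) * T k)
      = ContinuousLinearMap.adjoint (T k) * T k := by
    intro k
    have : ContinuousLinearMap.adjoint (ContinuousLinearMap.adjoint (T k) * T k)
        = ContinuousLinearMap.adjoint ((ContinuousLinearMap.adjoint (T k)) ∘L (T k)) := rfl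
    rw [this, ContinuousLinearMap.adjoint_comp, ContinuousLinearMap.adjoint_adjoint]
    rfl
  have hsa : IsSelfAdjoint (F.op b) := by
    show ContinuousLinearMap.adjoint (F.op b) = F.op b
    rw [hopb, LinearIsometryEquiv.map_smulₛₗ, map_sub, map_sum, hself, Complex.conj_ofReal]
    congr 2
    refine Finset.sum_congr rfl fun k _ => ?_
    rw [LinearIsometryEquiv.map_smulₛₗ, hself, Complex.conj_ofReal]
  have hopv : ∀ v : L2 ι G, ⟪v, F.op b v⟫_ℂ = ((Kc⁻¹ * (‖T k₀ v‖ ^ 2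
      - ∑ k ∈ Finset.univ.erase k₀, (lam k)⁻¹ * ‖T k v‖ ^ 2) : ℝ) : ℂ) := by
    intro v
    have e0 : ∀ k, ⟪v, (ContinuousLinearMap.adjoint (T k)) (T k v)⟫_ℂ = ((‖T k v‖ ^ 2 : ℝ) : ℂ) := by
      intro k
      rw [ContinuousLinearMap.adjoint_inner_right, inner_self_eq_norm_sq_to_K]
      norm_cast
    have e1 : F.op b v = ((Kc⁻¹ : ℝ) : ℂ) • ((ContinuousLinearMap.adjoint (T k₀)) (T k₀ v)
        - ∑ k ∈ Finset.univ.erase k₀, (((lam k)⁻¹ : ℝ) : ℂ) •
          (ContinuousLinearMap.adjoint (T k)) (T k v)) := by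
      rw [hopb]
      show ((Kc⁻¹ : ℝ) : ℂ) • ((ContinuousLinearMap.adjoint (T k₀)) (T k₀ v)
        - (∑ k ∈ Finset.univ.erase k₀, (((lam k)⁻¹ : ℝ) : ℂ) •
          (ContinuousLinearMap.adjoint (T k) * T k)) v) = _
      rw [_root_.sum_apply]
      rfl
    rw [e1, inner_smul_right, inner_sub_right, e0, inner_sum]
    have e2 : ∀ k ∈ Finset.univ.erase k₀, ⟪v, (((lam k)⁻¹ : ℝ) : ℂ) •
          (ContinuousLinearMap.adjoint (T k)) (T k v)⟫_ℂ
        = (((lam k)⁻¹ * ‖T k v‖ ^ 2 : ℝ) : ℂ) := by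
      intro k _
      rw [inner_smul_right, e0]
      push_cast
      rfl
    rw [Finset.sum_congr rfl e2]
    push_cast
    ring
  have hn1 : ‖F.op b‖ ≤ 1 := by
    refine ContinuousLinearMap.opNorm_le_bound _ zero_le_one fun v => ?_
    have e1 : F.op b v = ((Kc⁻¹ : ℝ) : ℂ) • ((ContinuousLinearMap.adjoint (T k₀)) (T k₀ v)
        - ∑ k ∈ Finset.univ.erase k₀, (((lam k)⁻¹ : ℝ) : ℂ) •
          (ContinuousLinearMap.adjoint (T k)) (T k v)) := by
      rw [hopb]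
      show ((Kc⁻¹ : ℝ) : ℂ) • ((ContinuousLinearMap.adjoint (T k₀)) (T k₀ v)
        - (∑ k ∈ Finset.univ.erase k₀, (((lam k)⁻¹ : ℝ) : ℂ) •
          (ContinuousLinearMap.adjoint (T k) * T k)) v) = _
      rw [_root_.sum_apply]
      rfl
    have hTn : ∀ k, ‖T k‖ ≤ l1 (p k) := fun k =>
      ContinuousLinearMap.opNorm_le_bound _ (l1_nonneg _) fun x => norm_op_le F (p k) x
    have hTT : ∀ k, ‖(ContinuousLinearMap.adjoint (T k)) (T k v)‖ ≤ l1 (p k) ^ 2 * ‖v‖ := by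
      intro k
      have h1 : ‖ContinuousLinearMap.adjoint (T k)‖ ≤ l1 (p k) := by
        rw [LinearIsometryEquiv.norm_map]; exact hTn k
      have h2 := (ContinuousLinearMap.adjoint (T k)).le_of_opNorm_le h1 (T k v)
      have h3 := norm_op_le F (p k) v
      calc _ ≤ l1 (p k) * ‖T k v‖ := h2
        _ ≤ l1 (p k) * (l1 (p k) * ‖v‖) := mul_le_mul_of_nonneg_left h3 (l1_nonneg _)
        _ = _ := by ring
    rw [e1, norm_smul, Complex.norm_real, Real.norm_of_nonneg (inv_nonneg.mpr hKpos.le),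
      inv_mul_le_iff₀ hKpos, one_mul]
    refine le_trans (norm_sub_le _ _) ?_
    have h5 : ‖∑ k ∈ Finset.univ.erase k₀, (((lam k)⁻¹ : ℝ) : ℂ) •
          (ContinuousLinearMap.adjoint (T k)) (T k v)‖
        ≤ ∑ k ∈ Finset.univ.erase k₀, l1 (p k) ^ 2 / lam k * ‖v‖ := by
      refine le_trans (norm_sum_le _ _) (Finset.sum_le_sum fun k _ => ?_)
      rw [norm_smul, Complex.norm_real, Real.norm_of_nonneg (inv_nonneg.mpr (hlam k).le)]
      have := mul_le_mul_of_nonneg_left (hTT k) (inv_nonneg.mpr (hlam k).le)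
      calc _ ≤ (lam k)⁻¹ * (l1 (p k) ^ 2 * ‖v‖) := this
        _ = _ := by rw [div_eq_inv_mul]; ring
    rw [← Finset.sum_mul] at h5
    have h6 := hTT k₀
    have h7 : 0 ≤ ‖v‖ := norm_nonneg v
    rw [hKc]
    nlinarith
  have hform : ∀ v ∈ V, (⟪v, F.op b v⟫_ℂ).re ≤ 0 := by
    intro v hv
    rw [hopv, Complex.ofReal_re]
    have h1 := h v hv
    have h2 : (∑ k ∈ Finset.univ.erase k₀, ‖T k v‖) ^ 2
        ≤ (∑ k ∈ Finset.univ.erase k₀, lam k)
          * (∑ k ∈ Finset.univ.erase k₀, (lam k)⁻¹ * ‖T k v‖ ^ 2) := by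
      apply Finset.sum_sq_le_sum_mul_sum_of_sq_le_mul
      · intro k _; exact (hlam k).le
      · intro k _; exact mul_nonneg (inv_nonneg.mpr (hlam k).le) (sq_nonneg _)
      · intro k _
        have := (hlam k).ne'
        apply le_of_eq
        field_simp
    have h3 : 0 ≤ ∑ k ∈ Finset.univ.erase k₀, (lam k)⁻¹ * ‖T k v‖ ^ 2 :=
      Finset.sum_nonneg fun k _ => mul_nonneg (inv_nonneg.mpr (hlam k).le) (sq_nonneg _)
    have h4 : ‖T k₀ v‖ ^ 2 ≤ (∑ k ∈ Finset.univ.erase k₀, ‖T k v‖) ^ 2 :=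
      pow_le_pow_left₀ (norm_nonneg _) h1 2
    have h5 : ‖T k₀ v‖ ^ 2 - ∑ k ∈ Finset.univ.erase k₀, (lam k)⁻¹ * ‖T k v‖ ^ 2 ≤ 0 := by
      nlinarith
    exact mul_nonpos_of_nonneg_of_nonpos (inv_nonneg.mpr hKpos.le) h5
  have hmain := spectral_bound F b β hβ hβc hβ1 hsa hn1 V hV hVc hform
  refine le_trans hmain (le_of_eq ?_)
  unfold badAngle
  congr 3
  ext θ
  simp only [Set.mem_ofPred_eq]
  refine and_congr_right fun _ => ?_
  rw [hβdef]
  simp only
  have e1 : ∑ k ∈ Finset.univ.erase k₀, (lam k)⁻¹ * ‖trig (p k) θ‖ ^ 2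
      = ∑ k ∈ Finset.univ.erase k₀, ‖trig (p k) θ‖ ^ 2 / lam k :=
    Finset.sum_congr rfl fun k _ => by rw [div_eq_inv_mul]
  rw [e1]
  constructor
  · intro h0
    by_contra hcon
    push Not at hcon
    have : 0 < Kc⁻¹ * (‖trig (p k₀) θ‖ ^ 2 - ∑ k ∈ Finset.univ.erase k₀, ‖trig (p k) θ‖ ^ 2 / lam k) :=
      mul_pos (inv_pos.mpr hKpos) (by linarith)
    linarith
  · intro h0
    exact mul_nonpos_of_nonneg_of_nonpos (inv_nonneg.mpr hKpos.le) (by linarith)

end assemble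

end Pool.Agent.VN
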