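import Pool.Agent.VN.Master

set_option autoImplicit false
set_option linter.unusedSectionVars false

noncomputable section

open scoped InnerProductSpace ENNReal Topology
open Classical Filter ContinuousLinearMap MeasureTheory

namespace Pool.Agent.VN

variable {ι κ μ G : Type*} [Group G]

lemma rtA_eq (a : G →₀ ℂ) : (rtA a : L2 ι G →L[ℂ] L2 ι G) = a.sum fun h c => c • rt h := rfl

lemma rtA_add (a b : G →₀ ℂ) : (rtA (a + b) : L2 ι G →L[ℂ] L2 ι G) = rtA a + rtA b := by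
  rw [rtA_eq, rtA_eq, rtA_eq, Finsupp.sum_add_index']
  · intro h; simp
  · intro h c d; rw [add_smul]

lemma rtA_zero : (rtA (0 : G →₀ ℂ) : L2 ι G →L[ℂ] L2 ι G) = 0 := by
  rw [rtA_eq]; simp

lemma rtA_single (h : G) (c : ℂ) : (rtA (Finsupp.single h c) : L2 ι G →L[ℂ] L2 ι G) = c • rt h := by
  rw [rtA_eq, Finsupp.sum_single_index]
  simp

lemma rtA_sum {σ : Type*} (s : Finset σ) (f : σ → (G →₀ ℂ)) :
    (rtA (∑ i ∈ s, f i) : L2 ι G →L[ℂ] L2 ι G) = ∑ i ∈ s, rtA (f i) := by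
  induction s using Finset.induction_on with
  | empty => simp [rtA_zero]
  | insert a s ha ih => rw [Finset.sum_insert ha, Finset.sum_insert ha, rtA_add, ih]

lemma rtA_polyElt [Fintype ι] {K : Type*} [Fintype K] (u : G) (hu : ∀ n : ℕ, 0 < n → u ^ n ≠ 1)
    (g : K → G) (p : K → (ℤ →₀ ℂ)) (v : L2 ι G) :
    rtA (polyElt u g p) v
      = ∑ k, rt (g k) ((haarOf (ι := ι) u hu 1 norm_one).op (toA (p k)) v) := by
  unfold polyElt
  rw [rtA_sum, _root_.sum_apply]
  refine Finset.sum_congr rfl fun k _ => ?_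
  unfold Finsupp.sum
  rw [rtA_sum, _root_.sum_apply, op_toA, _root_.sum_apply, map_sum]
  refine Finset.sum_congr rfl fun n _ => ?_
  rw [rtA_single]
  show p k n • rt (u ^ n * g k) v = rt (g k) (p k n • ((1 : ℂ) ^ n • rt (u ^ n) v))
  rw [one_zpow, one_smul, map_smul, rt_rt]

theorem master_bound {G : Type} [Group G]
    (htf : ∀ g : G, ∀ n : ℕ, 0 < n → g ^ n = 1 → g = 1) {K : Type} [Fintype K] [DecidableEq K]
    (k₀ : K) (lam : K → ℝ) (hlam : ∀ k, 0 < lam k) (hsum : ∑ k ∈ Finset.univ.erase k₀, lam k ≤ 1)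
    (u : G) (hu : u ≠ 1) (g : K → G) (p : K → (ℤ →₀ ℂ)) :
    kerDim (Matrix.of fun (_ _ : Fin 1) => polyElt u g p) ≤ badAngle k₀ lam p := by
  have hu' := torsionfree_pow htf hu
  rw [kerDim_eq]
  have h := master_aux (haarOf (ι := Fin 1) u hu' 1 norm_one) k₀ lam hlam hsum p
    (Sol (Set.range (colF (Matrix.of fun (_ _ : Fin 1) => polyElt u g p)))) (Sol_invar _)
    (Sol_closed _)
  rw [Fintype.card_fin, Nat.cast_one, one_mul] at h
  apply h
  intro v hv
  have hv0 : rtA (polyElt u g p) v = 0 := by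
    rw [← mem_l2Ker_one, l2Ker_eq]
    exact hv
  rw [rtA_polyElt u hu', ← Finset.add_sum_erase _ _ (Finset.mem_univ k₀)] at hv0
  have e := eq_neg_of_add_eq_zero_left hv0
  have e2 : ‖rt (g k₀) ((haarOf (ι := Fin 1) u hu' 1 norm_one).op (toA (p k₀)) v)‖
      = ‖(haarOf (ι := Fin 1) u hu' 1 norm_one).op (toA (p k₀)) v‖ := norm_rt _ _
  rw [← e2, e, norm_neg]
  refine le_trans (norm_sum_le _ _) (Finset.sum_le_sum fun k _ => ?_)
  rw [norm_rt]

/-- over an overgroup of finite index `n` of a group satisfying the Atiyah conjecture, elements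
with kernel dimension `< 1/n` are injective -/
theorem finIndex_lt {G : Type} [Group G] (H : Subgroup G) [H.FiniteIndex]
    (hH : ∀ (m n : ℕ) (A : Matrix (Fin m) (Fin n) (H →₀ ℚ)), ∃ d : ℤ, kerDimQ A = d)
    (a : G →₀ ℚ) (hlt : kerDim (Matrix.of fun (_ _ : Fin 1) => toC a) < 1 / H.index)
    (x : lp (fun _ : G => ℂ) 2)
    (hx : ∀ g : G, ∑ h ∈ a.support, x (g * h⁻¹) * ((a h : ℚ) : ℂ) = 0) : x = 0 := by
  have hn : 0 < H.index := Nat.pos_of_ne_zero Subgroup.FiniteIndex.index_ne_zero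
  have hn' : (0 : ℝ) < H.index := by exact_mod_cast hn
  rw [← kerDimQ_one] at hlt
  obtain ⟨d, hd⟩ := finIndex_int H hH (kerDimQ_mem_Dset (Matrix.of fun (_ _ : Fin 1) => a))
  have h0 : 0 ≤ kerDimQ (Matrix.of fun (_ _ : Fin 1) => a) := by
    rw [kerDimQ_eq]
    exact vdim_nonneg _
  have hd0 : d = 0 := by
    have e1 : (d : ℝ) < 1 := by
      rw [← hd]
      rw [lt_div_iff₀ hn'] at hlt
      linarith
    have e2 : (0 : ℝ) ≤ d := by
      rw [← hd]
      positivity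
    have e3 : d < 1 := by exact_mod_cast e1
    have e4 : 0 ≤ d := by exact_mod_cast e2
    omega
  have hz : kerDimQ (Matrix.of fun (_ _ : Fin 1) => a) = 0 := by
    rw [hd0, Int.cast_zero] at hd
    exact (mul_eq_zero.mp hd).resolve_left hn'.ne'
  rw [kerDimQ_eq] at hz
  have hbot := eq_bot_of_vdim_eq_zero (Sol_invar _) (Sol_closed _) hz
  have hinj : Function.Injective (fun p : Fin 1 × G => p.2) := by
    rintro ⟨i, g⟩ ⟨j, h⟩ e
    exact Prod.ext (Subsingleton.elim _ _) e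
  have hmem : pull _ hinj x ∈ Sol (Set.range (colQ (Matrix.of fun (_ _ : Fin 1) => a))) := by
    rintro _ ⟨j, rfl⟩ g
    rw [ev_colQ, Fin.sum_univ_one]
    exact hx g
  rw [hbot, Submodule.mem_bot] at hmem
  ext g
  have h5 : (pull _ hinj x) (0, g) = 0 := by rw [hmem]; rfl
  exact h5

theorem finIndex_master {G : Type} [Group G]
    (htf : ∀ g : G, ∀ n : ℕ, 0 < n → g ^ n = 1 → g = 1) (H : Subgroup G) [H.FiniteIndex]
    (hH : ∀ (m n : ℕ) (A : Matrix (Fin m) (Fin n) (H →₀ ℚ)), ∃ d : ℤ, kerDimQ A = d)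
    (a : G →₀ ℚ) {K : Type} [Fintype K] [DecidableEq K]
    (k₀ : K) (lam : K → ℝ) (hlam : ∀ k, 0 < lam k) (hsum : ∑ k ∈ Finset.univ.erase k₀, lam k ≤ 1)
    (u : G) (hu : u ≠ 1) (g : K → G) (p : K → (ℤ →₀ ℂ))
    (hap : ∀ h, ((a h : ℚ) : ℂ) = polyElt u g p h) (hb : badAngle k₀ lam p < 1 / H.index)
    (x : lp (fun _ : G => ℂ) 2)
    (hx : ∀ g : G, ∑ h ∈ a.support, x (g * h⁻¹) * ((a h : ℚ) : ℂ) = 0) : x = 0 := by
  refine finIndex_lt H hH a ?_ x hx
  have e : toC a = polyElt u g p := Finsupp.ext fun h => hap h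
  rw [e]
  exact lt_of_le_of_lt (master_bound htf k₀ lam hlam hsum u hu g p) hb

end Pool.Agent.VN
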