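import Pool.Agent.VN.Dim

set_option autoImplicit false
set_option linter.unusedSectionVars false

noncomputable section

open scoped InnerProductSpace ENNReal Topology
open Classical Filter

namespace Pool.Agent.VN

variable {ι κ μ G : Type*} [Group G]

/-- evaluation of a linear form with coefficients in the group ring -/
def ev (a : ι × G →₀ ℂ) (x : ι × G → ℂ) (g : G) : ℂ := a.sum fun p c => c * x (p.1, g * p.2⁻¹)

lemma ev_def (a : ι × G →₀ ℂ) (x : ι × G → ℂ) (g : G) :
    ev a x g = ∑ p ∈ a.support, a p * x (p.1, g * p.2⁻¹) := rfl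

lemma ev_single (p : ι × G) (c : ℂ) (x : ι × G → ℂ) (g : G) :
    ev (Finsupp.single p c) x g = c * x (p.1, g * p.2⁻¹) := by
  unfold ev
  rw [Finsupp.sum_single_index]
  simp

lemma ev_zero (x : ι × G → ℂ) (g : G) : ev (0 : ι × G →₀ ℂ) x g = 0 := by
  simp [ev]

lemma ev_add (a b : ι × G →₀ ℂ) (x : ι × G → ℂ) (g : G) :
    ev (a + b) x g = ev a x g + ev b x g := by
  unfold ev
  rw [Finsupp.sum_add_index']
  · intro p; simp
  · intro p c d; ring

lemma ev_finsetSum {σ : Type*} (s : Finset σ) (f : σ → (ι × G →₀ ℂ)) (x : ι × G → ℂ) (g : G) :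
    ev (∑ i ∈ s, f i) x g = ∑ i ∈ s, ev (f i) x g := by
  induction s using Finset.induction_on with
  | empty => simp [ev_zero]
  | insert a s ha ih => rw [Finset.sum_insert ha, Finset.sum_insert ha, ev_add, ih]

/-- right multiplication by an elementary matrix -/
def elem (j : κ) (p : ι × G) : L2 ι G →L[ℂ] L2 κ G :=
  (push (fun g : G => (j, g)) (fun a b h => by simpa using h)) ∘L
    (pull (fun g : G => (p.1, g * p.2⁻¹)) (fun a b h => by simpa using h))

lemma elem_apply (j : κ) (p : ι × G) (x : L2 ι G) (q : κ × G) :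
    (elem j p x) q = if q.1 = j then x (p.1, q.2 * p.2⁻¹) else 0 := by
  unfold elem
  rw [ContinuousLinearMap.comp_apply]
  obtain ⟨j', g⟩ := q
  by_cases h : j' = j
  · subst h
    rw [if_pos rfl]
    exact push_apply (fun g : G => (j', g)) _ _ g
  · rw [if_neg h]
    apply push_apply_of_notMem
    intro a ha
    exact h (congrArg Prod.fst ha).symm

lemma elem_equivar (j : κ) (p : ι × G) : Equivar (elem j p : L2 ι G →L[ℂ] L2 κ G) := by
  intro s x
  ext q
  obtain ⟨j', g⟩ := q
  have e2 : (lt s (elem j p x)) (j', g) = (elem j p x) (j', s⁻¹ * g) := rfl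
  rw [e2, elem_apply, elem_apply]
  by_cases h : j' = j
  · rw [if_pos h, if_pos h, lt_apply, mul_assoc]
  · rw [if_neg h, if_neg h]

/-- right multiplication by a matrix over the complex group ring: the matrix is given by its
columns. -/
def mulR [Fintype κ] (A : κ → (ι × G →₀ ℂ)) : L2 ι G →L[ℂ] L2 κ G :=
  ∑ j : κ, ∑ p ∈ (A j).support, (A j p) • elem j p

lemma mulR_apply [Fintype κ] (A : κ → (ι × G →₀ ℂ)) (x : L2 ι G) (q : κ × G) :
    (mulR A x) q = ev (A q.1) x q.2 := by
  unfold mulR ev Finsupp.sum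
  rw [_root_.sum_apply, lp.coeFn_sum, Finset.sum_apply, Finset.sum_eq_single q.1]
  · rw [_root_.sum_apply, lp.coeFn_sum, Finset.sum_apply]
    refine Finset.sum_congr rfl fun p _ => ?_
    show ((A q.1 p) • (elem q.1 p x)) q = _
    rw [lp.coeFn_smul, Pi.smul_apply, elem_apply, if_pos rfl, smul_eq_mul]
  · intro j _ hj
    rw [_root_.sum_apply, lp.coeFn_sum, Finset.sum_apply]
    refine Finset.sum_eq_zero fun p _ => ?_
    show ((A j p) • (elem j p x)) q = _
    rw [lp.coeFn_smul, Pi.smul_apply, elem_apply, if_neg hj.symm, smul_zero]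
  · intro h
    exact absurd (Finset.mem_univ _) h

lemma mulR_equivar [Fintype κ] (A : κ → (ι × G →₀ ℂ)) : Equivar (mulR A) :=
  Equivar.sum _ fun j _ => Equivar.sum _ fun p _ => (elem_equivar j p).smul _

/-- The solution space of a family of linear equations over the group ring. -/
def Sol (C : Set (ι × G →₀ ℂ)) : Submodule ℂ (L2 ι G) where
  carrier := {x | ∀ a ∈ C, ∀ g : G, ev a x g = 0}
  add_mem' := by
    intro x y hx hy a ha g
    have h1 := hx a ha g
    have h2 := hy a ha g
    unfold ev at *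
    have : (a.sum fun p c => c * (x + y : L2 ι G) (p.1, g * p.2⁻¹))
        = (a.sum fun p c => c * x (p.1, g * p.2⁻¹)) + (a.sum fun p c => c * y (p.1, g * p.2⁻¹)) := by
      rw [← Finsupp.sum_add]
      refine Finsupp.sum_congr fun p _ => ?_
      rw [lp.coeFn_add, Pi.add_apply]
      ring
    rw [this, h1, h2, add_zero]
  zero_mem' := by
    intro a _ g
    simp [ev]
  smul_mem' := by
    intro c x hx a ha g
    have h1 := hx a ha g
    unfold ev at *
    have : (a.sum fun p d => d * (c • x : L2 ι G) (p.1, g * p.2⁻¹))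
        = c * (a.sum fun p d => d * x (p.1, g * p.2⁻¹)) := by
      rw [Finsupp.mul_sum]
      refine Finsupp.sum_congr fun p _ => ?_
      rw [lp.coeFn_smul, Pi.smul_apply, smul_eq_mul]
      ring
    rw [this, h1, mul_zero]

lemma mem_Sol {C : Set (ι × G →₀ ℂ)} {x : L2 ι G} :
    x ∈ Sol C ↔ ∀ a ∈ C, ∀ g : G, ev a x g = 0 := Iff.rfl

lemma continuous_coord {α : Type*} (p : α) : Continuous fun x : Ell α => x p := by
  have : (fun x : Ell α => x p) = fun x => ⟪dl p, x⟫_ℂ := by
    funext x; rw [inner_dl_left]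
  rw [this]
  exact continuous_const.inner continuous_id

lemma continuous_ev (a : ι × G →₀ ℂ) (g : G) : Continuous fun x : L2 ι G => ev a x g := by
  unfold ev Finsupp.sum
  exact continuous_finsetSum _ fun p _ => continuous_const.mul (continuous_coord _)

lemma Sol_closed (C : Set (ι × G →₀ ℂ)) : IsClosed (Sol C : Set (L2 ι G)) := by
  have : (Sol C : Set (L2 ι G)) = ⋂ a ∈ C, ⋂ g : G, {x : L2 ι G | ev a x g = 0} := by
    ext x
    simp only [Set.mem_iInter, SetLike.mem_coe, mem_Sol]
    rfl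
  rw [this]
  exact isClosed_biInter fun a _ => isClosed_iInter fun g =>
    isClosed_eq (continuous_ev a g) continuous_const

lemma ev_lt (a : ι × G →₀ ℂ) (s : G) (x : L2 ι G) (g : G) :
    ev a (lt s x) g = ev a x (s⁻¹ * g) := by
  unfold ev
  refine Finsupp.sum_congr fun p _ => ?_
  rw [lt_apply]
  simp [mul_assoc]

lemma Sol_invar (C : Set (ι × G →₀ ℂ)) : Invar (Sol C) := by
  intro s x hx a ha g
  rw [ev_lt]
  exact hx a ha _

lemma ker_mulR [Fintype κ] (A : κ → (ι × G →₀ ℂ)) :
    LinearMap.ker (mulR A).toLinearMap = Sol (Set.range A) := by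
  ext x
  rw [mem_Sol]
  constructor
  · intro h a ha g
    obtain ⟨j, rfl⟩ := ha
    have h' : mulR A x = 0 := h
    have := mulR_apply A x (j, g)
    rw [h'] at this
    exact this.symm
  · intro h
    show mulR A x = 0
    ext q
    rw [mulR_apply, h (A q.1) ⟨q.1, rfl⟩]
    rfl

/-- Dimension is invariant under an injective change of variables. -/
theorem vdim_eq_of_param [Fintype ι] [Fintype κ] (Φ : κ → (ι × G →₀ ℂ))
    (K : Submodule ℂ (L2 ι G)) (hK : Invar K) (hKc : IsClosed (K : Set (L2 ι G)))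
    (K' : Submodule ℂ (L2 κ G))
    (hinj : ∀ x ∈ K, mulR Φ x = 0 → x = 0) (hmaps : ∀ x ∈ K, mulR Φ x ∈ K')
    (hsurj : ∀ y ∈ K', ∃ x ∈ K, mulR Φ x = y) :
    vdim (K' : Set (L2 κ G)) = vdim (K : Set (L2 ι G)) := by
  have h := vdim_map (mulR_equivar Φ) hK hKc
  have h1 : K ⊓ LinearMap.ker (mulR Φ).toLinearMap = ⊥ := by
    rw [Submodule.eq_bot_iff]
    rintro x ⟨h1, h2⟩
    exact hinj x h1 h2
  have h2 : K.map (mulR Φ).toLinearMap = K' := by
    ext y
    constructor
    · rintro ⟨x, hx, rfl⟩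
      exact hmaps x hx
    · intro hy
      obtain ⟨x, hx, rfl⟩ := hsurj y hy
      exact ⟨x, hx, rfl⟩
  rw [h1, h2, vdim_bot, add_zero] at h
  exact h

/-- coordinate subspaces -/
theorem vdim_coord [Fintype ι] (Z : Set ι) (K : Submodule ℂ (L2 ι G))
    (hK : ∀ x : L2 ι G, x ∈ K ↔ ∀ k ∈ Z, ∀ g : G, x (k, g) = 0) :
    vdim (K : Set (L2 ι G)) = ((Finset.univ.filter fun i => i ∉ Z).card : ℝ) := by
  have hcl : IsClosed (K : Set (L2 ι G)) := by
    have : (K : Set (L2 ι G)) = ⋂ k ∈ Z, ⋂ g : G, {x | x (k, g) = 0} := by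
      ext x
      simp only [Set.mem_iInter, SetLike.mem_coe, hK]
      rfl
    rw [this]
    exact isClosed_biInter fun a _ => isClosed_iInter fun g =>
      isClosed_eq (continuous_coord _) continuous_const
  have c1 : CompleteSpace K := hcl.completeSpace_coe
  rw [vdim_eq_sum, Finset.card_filter]
  push_cast
  refine Finset.sum_congr rfl fun i _ => ?_
  by_cases hi : i ∈ Z
  · rw [if_neg (by simpa using hi)]
    have : K.starProjection (dl (i, (1 : G))) = 0 := by
      rw [Submodule.starProjection_apply_eq_zero_iff, Submodule.mem_orthogonal']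
      intro x hx
      rw [inner_dl_left]
      exact (hK x).mp hx i hi 1
    rw [this]
    simp
  · rw [if_pos hi]
    have : K.starProjection (dl (i, (1 : G))) = dl (i, 1) := by
      rw [Submodule.starProjection_eq_self_iff, hK]
      intro k hk g
      rw [dl_apply, if_neg]
      intro h
      have h' : k = i := congrArg Prod.fst h
      exact hi (h' ▸ hk)
    rw [this, norm_dl]
    norm_num

/-- There are no `ℓ²` eigenvectors of an element of infinite order. -/
lemma no_eigen (x : L2 ι G) (k : ι) (u : G) (hu : ∀ n : ℕ, 0 < n → u ^ n ≠ 1) (γ : ℂ)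
    (h : ∀ g, x (k, g) = γ * x (k, g * u)) : ∀ g, x (k, g) = 0 := by
  intro g0
  by_contra hne
  have hinj : ∀ v : G, (∀ n : ℕ, 0 < n → v ^ n ≠ 1) →
      Function.Injective fun n : ℕ => ((k, g0 * v ^ n) : ι × G) := by
    intro v hv m n hmn
    simp only [Prod.mk.injEq, mul_right_inj, true_and] at hmn
    by_contra hne'
    rcases lt_or_gt_of_ne hne' with hlt | hlt
    · apply hv (n - m) (by omega)
      have : v ^ n = v ^ m * v ^ (n - m) := by rw [← pow_add]; congr 1; omega
      rw [this] at hmn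
      exact (left_eq_mul.mp hmn)
    · apply hv (m - n) (by omega)
      have : v ^ m = v ^ n * v ^ (m - n) := by rw [← pow_add]; congr 1; omega
      rw [this] at hmn
      exact (left_eq_mul.mp hmn.symm)
  have htend : ∀ v : G, (∀ n : ℕ, 0 < n → v ^ n ≠ 1) →
      Tendsto (fun n : ℕ => ‖x (k, g0 * v ^ n)‖ ^ 2) atTop (𝓝 0) := fun v hv =>
    ((summable_norm_sq x).comp_injective (hinj v hv)).tendsto_atTop_zero
  have hpos : 0 < ‖x (k, g0)‖ ^ 2 := by
    have : 0 < ‖x (k, g0)‖ := norm_pos_iff.mpr hne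
    positivity
  rcases le_total ‖γ‖ 1 with hγ | hγ
  · -- norms are non-decreasing along u ^ n
    have h1 : ∀ n : ℕ, ‖x (k, g0)‖ ≤ ‖x (k, g0 * u ^ n)‖ := by
      intro n
      induction n with
      | zero => simp
      | succ n ih =>
        have h2 := h (g0 * u ^ n)
        rw [mul_assoc, ← pow_succ] at h2
        calc ‖x (k, g0)‖ ≤ ‖x (k, g0 * u ^ n)‖ := ih
          _ = ‖γ‖ * ‖x (k, g0 * u ^ (n + 1))‖ := by rw [h2, norm_mul]
          _ ≤ 1 * ‖x (k, g0 * u ^ (n + 1))‖ := by gcongr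
          _ = _ := one_mul _
    have h3 := ge_of_tendsto' (htend u hu) (fun n => pow_le_pow_left₀ (norm_nonneg _) (h1 n) 2)
    linarith
  · have hu' : ∀ n : ℕ, 0 < n → u⁻¹ ^ n ≠ 1 := by
      intro n hn h'
      rw [inv_pow, inv_eq_one] at h'
      exact hu n hn h'
    have h1 : ∀ n : ℕ, ‖x (k, g0)‖ ≤ ‖x (k, g0 * u⁻¹ ^ n)‖ := by
      intro n
      induction n with
      | zero => simp
      | succ n ih =>
        have h2 := h (g0 * u⁻¹ ^ (n + 1))
        have e : g0 * u⁻¹ ^ (n + 1) * u = g0 * u⁻¹ ^ n := by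
          rw [pow_succ]; group
        rw [e] at h2
        calc ‖x (k, g0)‖ ≤ 1 * ‖x (k, g0 * u⁻¹ ^ n)‖ := by rw [one_mul]; exact ih
          _ ≤ ‖γ‖ * ‖x (k, g0 * u⁻¹ ^ n)‖ := by gcongr
          _ = _ := by rw [h2, norm_mul]
    have h3 := ge_of_tendsto' (htend _ hu') (fun n => pow_le_pow_left₀ (norm_nonneg _) (h1 n) 2)
    linarith

end Pool.Agent.VN
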