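import Pool.Agent.VN.Dich

set_option autoImplicit false
set_option linter.unusedSectionVars false

noncomputable section

open scoped InnerProductSpace ENNReal Topology
open Classical Filter ContinuousLinearMap

namespace Pool.Agent.VN

variable {ι κ G : Type*} [Group G]

/-- form of a list of monomials -/
def listF {ρ : Type*} (l : List (ρ × G)) : ρ × G →₀ ℂ := (l.map fun p => Finsupp.single p 1).sum

lemma ev_listF {ρ : Type*} (l : List (ρ × G)) (y : ρ × G → ℂ) (g : G) :
    ev (listF l) y g = (l.map fun p => y (p.1, g * p.2⁻¹)).sum := by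
  induction l with
  | nil => simp [listF, ev_zero]
  | cons p l ih =>
    have : listF (p :: l) = Finsupp.single p 1 + listF l := by simp [listF]
    rw [this, ev_add, ih, ev_single, List.map_cons, List.sum_cons, one_mul]

/-- signed monomial; `true` is the minus sign -/
def termF (o : Option (Bool × ι × G)) : ι × G →₀ ℂ :=
  match o with
  | none => 0
  | some (b, p) => Finsupp.single p (if b then -1 else 1)

/-- the form given by a family of signed monomials -/
def sysF {N : ℕ} (t : κ → Fin N → Option (Bool × ι × G)) (j : κ) : ι × G →₀ ℂ :=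
  ∑ s, termF (t j s)

section construction

variable [Fintype ι] [Fintype κ] {N : ℕ} (t : κ → Fin N → Option (Bool × ι × G))

/-- number of slots -/
def slots (κ : Type*) [Fintype κ] (N : ℕ) : ℕ := Fintype.card (κ × Fin N)

/-- position of a slot -/
def pos (j : κ) (s : Fin N) (b : Bool) : Fin (2 * slots κ N + 1) :=
  ⟨2 * (Fintype.equivFin (κ × Fin N) (j, s)).val + (if b then 1 else 0), by
    have := (Fintype.equivFin (κ × Fin N) (j, s)).isLt
    unfold slots
    split_ifs <;> omega⟩

/-- rows -/
abbrev Row (ι κ : Type*) [Fintype κ] (N : ℕ) :=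
  (ι × Fin (2 * slots κ N + 1)) ⊕ (κ × Fin (N + 1)) ⊕ (κ × Fin (N + 1))

/-- columns -/
abbrev Col (ι κ : Type*) [Fintype κ] (N : ℕ) :=
  (ι × Fin (2 * slots κ N)) ⊕ (κ × Fin (N + 1)) ⊕ κ ⊕ κ ⊕ (κ × Fin N)

/-- copies of the old unknowns -/
def rz (i : ι) (n : Fin (2 * slots κ N + 1)) : Row ι κ N := Sum.inl (i, n)
/-- partial sums -/
def rp (j : κ) (s : Fin (N + 1)) : Row ι κ N := Sum.inr (Sum.inl (j, s))
/-- negatives of partial sums -/
def rq (j : κ) (s : Fin (N + 1)) : Row ι κ N := Sum.inr (Sum.inr (j, s))

/-- the columns as lists of monomials -/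
def colL : Col ι κ N → List (Row ι κ N × G)
  | Sum.inl (i, n) => [(rz i n.castSucc, 1), (rz i n.succ, 1)]
  | Sum.inr (Sum.inl (j, s)) => [(rp j s, 1), (rq j s, 1)]
  | Sum.inr (Sum.inr (Sum.inl j)) => [(rp j 0, 1)]
  | Sum.inr (Sum.inr (Sum.inr (Sum.inl j))) => [(rp j (Fin.last N), 1)]
  | Sum.inr (Sum.inr (Sum.inr (Sum.inr (j, s)))) =>
      (rp j s.castSucc, 1) :: (rq j s.succ, 1) ::
        (match t j s with
        | none => []
        | some (b, i, h) => [(rz i (pos j s b), h)])

/-- parametrisation of the solutions of the new system -/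
def parF : Row ι κ N → (ι × G →₀ ℂ)
  | Sum.inl (i, n) => Finsupp.single (i, 1) ((-1) ^ n.val)
  | Sum.inr (Sum.inl (j, s)) => ∑ s' ∈ Finset.univ.filter (fun s' : Fin N => s'.val < s.val), termF (t j s')
  | Sum.inr (Sum.inr (j, s)) =>
      ∑ s' ∈ Finset.univ.filter (fun s' : Fin N => s'.val < s.val), -termF (t j s')

lemma ev_neg (a : ι × G →₀ ℂ) (x : ι × G → ℂ) (g : G) : ev (-a) x g = -ev a x g := by
  have h := ev_add a (-a) x g
  rw [add_neg_cancel, ev_zero] at h
  exact (neg_eq_of_add_eq_zero_right h.symm).symm

lemma pos_parity (j : κ) (s : Fin N) (b : Bool) :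
    ((-1 : ℂ)) ^ (pos j s b).val = if b then -1 else 1 := by
  unfold pos
  cases b <;> simp [pow_add, pow_mul]

/-- value of the new unknowns in terms of the old -/
lemma ev_termF (x : ι × G → ℂ) (g : G) (j : κ) (s : Fin N) :
    ev (termF (t j s)) x g = (match t j s with
        | none => 0
        | some (b, i, h) => (-1) ^ (pos j s b).val * x (i, g * h⁻¹)) := by
  rcases h : t j s with _ | ⟨b, i, h⟩
  · simp [termF, ev_zero]
  · simp only [termF]
    rw [ev_single, pos_parity]

lemma filter_succ (s : Fin N) :
    Finset.univ.filter (fun s' : Fin N => s'.val < s.succ.val)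
      = insert s (Finset.univ.filter (fun s' : Fin N => s'.val < s.castSucc.val)) := by
  ext s'
  simp only [Finset.mem_filter, Finset.mem_univ, true_and, Finset.mem_insert, Fin.val_succ,
    Fin.val_castSucc]
  rw [Fin.ext_iff]
  omega

theorem sparse_vdim :
    vdim (Sol (Set.range fun c => listF (colL t c)) : Set (L2 (Row ι κ N) G))
      = vdim (Sol (Set.range (sysF t)) : Set (L2 ι G)) := by
  apply vdim_eq_of_param (parF t) _ (Sol_invar _) (Sol_closed _)
  · -- injectivity
    intro x _ h
    ext q
    obtain ⟨i, g⟩ := q
    have h1 := mulR_apply (parF t) x (Sum.inl (i, 0), g)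
    rw [h] at h1
    simp only [parF] at h1
    rw [ev_single] at h1
    simpa using h1.symm
  · -- the image consists of solutions
    rintro x hx _ ⟨c, rfl⟩ g
    have hc : ∀ (r : Row ι κ N) (g : G), (mulR (parF t) x) (r, g) = ev (parF t r) x g := fun r g =>
      mulR_apply _ _ _
    show ev (listF (colL t c)) _ g = 0
    rw [ev_listF]
    rcases c with ⟨i, n⟩ | ⟨j, s⟩ | j | j | ⟨j, s⟩
    · simp only [colL, List.map_cons, List.map_nil, List.sum_cons, List.sum_nil, hc, rz, parF]
      rw [ev_single, ev_single]
      simp [pow_succ]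
    · simp only [colL, List.map_cons, List.map_nil, List.sum_cons, List.sum_nil, hc, rp, rq, parF]
      rw [ev_finsetSum, ev_finsetSum]
      simp only [ev_neg, Finset.sum_neg_distrib]
      ring
    · simp only [colL, List.map_cons, List.map_nil, List.sum_cons, List.sum_nil, hc, rp, parF]
      rw [ev_finsetSum]
      simp
    · simp only [colL, List.map_cons, List.map_nil, List.sum_cons, List.sum_nil, hc, rp, parF]
      have h1 : Finset.univ.filter (fun s' : Fin N => s'.val < (Fin.last N).val) = Finset.univ := by
        ext s'
        simp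
      rw [h1]
      have := hx _ ⟨j, rfl⟩ (g * 1⁻¹)
      unfold sysF at this
      rw [this, add_zero]
    · simp only [colL, List.map_cons, List.sum_cons, hc, rp, rq, parF]
      rw [ev_finsetSum, ev_finsetSum]
      simp only [ev_neg, Finset.sum_neg_distrib]
      rw [filter_succ, Finset.sum_insert (by simp), ev_termF]
      rcases h : t j s with _ | ⟨b, i, h⟩
      · simp
      · simp only [List.map_cons, List.map_nil, List.sum_cons, List.sum_nil, rz, hc, parF]
        rw [ev_single]
        simp
  · -- every solution is in the image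
    intro y hy
    have hcol : ∀ c g, ((colL t c).map fun p => y (p.1, g * p.2⁻¹)).sum = 0 := by
      intro c g
      rw [← ev_listF]
      exact hy _ ⟨c, rfl⟩ g
    set x : L2 ι G := pull (fun q : ι × G => ((rz q.1 0, q.2) : Row ι κ N × G)) (by
      rintro ⟨a, b⟩ ⟨c, d⟩ h
      simp only [Prod.mk.injEq, rz, Sum.inl.injEq] at h
      exact Prod.ext h.1.1 h.2) y with hx
    have hz : ∀ (i : ι) (n : ℕ) (hn : n < 2 * slots κ N + 1) (g : G),
        y (rz i ⟨n, hn⟩, g) = (-1) ^ n * x (i, g) := by
      intro i n
      induction n with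
      | zero =>
        intro hn g
        rw [pow_zero, one_mul]
        rfl
      | succ n ih =>
        intro hn g
        have h1 := hcol (Sum.inl (i, ⟨n, by omega⟩)) g
        simp only [colL, List.map_cons, List.map_nil, List.sum_cons, List.sum_nil, inv_one,
          mul_one, add_zero] at h1
        have h2 := ih (by omega) g
        have h3 : y (rz i (Fin.castSucc ⟨n, by omega⟩), g) = (-1) ^ n * x (i, g) := h2
        rw [h3] at h1
        have h4 : y (rz i ⟨n + 1, hn⟩, g) = y (rz i (Fin.succ ⟨n, by omega⟩), g) := rfl
        rw [h4, pow_succ]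
        linear_combination h1
    have hp : ∀ (j : κ) (s : ℕ) (hs : s < N + 1) (g : G),
        y (rp j ⟨s, hs⟩, g) = ev (parF t (rp j ⟨s, hs⟩)) x g := by
      intro j s
      induction s with
      | zero =>
        intro hs g
        have h1 := hcol (Sum.inr (Sum.inr (Sum.inl j))) g
        simp only [colL, List.map_cons, List.map_nil, List.sum_cons, List.sum_nil, inv_one,
          mul_one, add_zero] at h1
        have h2 : y (rp j ⟨0, hs⟩, g) = y (rp j 0, g) := rfl
        rw [h2, h1]
        simp only [rp, parF]
        rw [ev_finsetSum]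
        simp
      | succ s ih =>
        intro hs g
        let s0 : Fin N := ⟨s, by omega⟩
        have h1 := hcol (Sum.inr (Sum.inl (j, ⟨s + 1, hs⟩))) g
        have h2 := hcol (Sum.inr (Sum.inr (Sum.inr (Sum.inr (j, s0))))) g
        simp only [colL, List.map_cons, List.map_nil, List.sum_cons, List.sum_nil, inv_one,
          mul_one, add_zero] at h1 h2
        have h3 := ih (by omega) g
        have h4 : y (rp j (Fin.castSucc s0), g)
            = ev (parF t (rp j ⟨s, by omega⟩)) x g := h3
        have h5 : y (rq j (Fin.succ s0), g) = y (rq j ⟨s + 1, hs⟩, g) := rfl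
        rw [h4, h5] at h2
        have h6 : ev (parF t (rp j ⟨s + 1, hs⟩)) x g
            = ev (parF t (rp j ⟨s, by omega⟩)) x g + ev (termF (t j s0)) x g := by
          simp only [rp, parF]
          rw [ev_finsetSum, ev_finsetSum]
          have := filter_succ (N := N) s0
          simp only [Fin.val_succ, Fin.val_castSucc] at this
          have e0 : s0.val = s := rfl
          rw [e0] at this
          rw [this, Finset.sum_insert (by simp [s0])]
          ring
        rw [h6, ev_termF]
        rcases ht : t j s0 with _ | ⟨b, i, h⟩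
        · rw [ht] at h2
          simp only [List.map_nil, List.sum_nil] at h2
          simp only
          linear_combination h1 - h2
        · rw [ht] at h2
          simp only [List.map_cons, List.map_nil, List.sum_cons, List.sum_nil] at h2
          have h7 := hz i (pos j s0 b).val (pos j s0 b).isLt (g * h⁻¹)
          have h8 : y (rz i (pos j s0 b), g * h⁻¹)
              = (-1) ^ (pos j s0 b).val * x (i, g * h⁻¹) := h7
          rw [h8] at h2
          simp only
          linear_combination h1 - h2
    refine ⟨x, ?_, ?_⟩
    · rintro _ ⟨j, rfl⟩ g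
      have h1 := hp j N (by omega) g
      have h2 := hcol (Sum.inr (Sum.inr (Sum.inr (Sum.inl j)))) g
      simp only [colL, List.map_cons, List.map_nil, List.sum_cons, List.sum_nil, inv_one,
        mul_one, add_zero] at h2
      have h3 : y (rp j (Fin.last N), g) = y (rp j ⟨N, by omega⟩, g) := rfl
      rw [h3, h1] at h2
      simp only [rp, parF] at h2
      have h4 : Finset.univ.filter (fun s' : Fin N => s'.val < N) = Finset.univ := by
        ext s'
        simp
      rw [h4] at h2
      exact h2
    · ext q
      obtain ⟨r, g⟩ := q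
      rw [mulR_apply]
      rcases r with ⟨i, n⟩ | ⟨j, s⟩ | ⟨j, s⟩
      · have := hz i n.val n.isLt g
        simp only [parF]
        rw [ev_single, inv_one, mul_one]
        exact this.symm
      · exact (hp j s.val s.isLt g).symm
      · have h1 := hcol (Sum.inr (Sum.inl (j, s))) g
        simp only [colL, List.map_cons, List.map_nil, List.sum_cons, List.sum_nil, inv_one,
          mul_one, add_zero] at h1
        have h2 := hp j s.val s.isLt g
        have h3 : y (rp j s, g) = ev (parF t (rp j s)) x g := h2
        rw [h3] at h1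
        have h4 : ev (parF t (Sum.inr (Sum.inr (j, s)))) x g = -ev (parF t (rp j s)) x g := by
          simp only [parF, rp]
          rw [ev_finsetSum, ev_finsetSum]
          simp only [ev_neg, Finset.sum_neg_distrib]
        show ev (parF t (Sum.inr (Sum.inr (j, s)))) x g = y (rq j s, g)
        rw [h4]
        linear_combination -h1

end construction

end Pool.Agent.VN
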