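import Pool.Agent.VN.Sparse

set_option autoImplicit false
set_option linter.unusedSectionVars false

noncomputable section

open scoped InnerProductSpace ENNReal Topology
open Classical Filter ContinuousLinearMap

namespace Pool.Agent.VN

variable {ι κ G : Type*} [Group G]

lemma sum_getD {α M : Type*} [AddCommMonoid M] (F : Option α → M) (hF : F none = 0) :
    ∀ (l : List (Option α)) (N : ℕ), l.length ≤ N →
      ∑ s : Fin N, F (l.getD s.val none) = (l.map F).sum := by
  intro l
  induction l with
  | nil =>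
    intro N _
    simp [hF]
  | cons a l ih =>
    intro N hN
    obtain ⟨N, rfl⟩ : ∃ N', N = N' + 1 := ⟨N - 1, by simp at hN; omega⟩
    rw [Fin.sum_univ_succ, List.map_cons, List.sum_cons, ← ih N (by simpa using hN)]
    simp

lemma int_terms (a : ι × G →₀ ℂ) (ha : ∀ p, ∃ z : ℤ, a p = z) :
    ∃ l : List (Option (Bool × ι × G)), (l.map termF).sum = a := by
  have hsingle : ∀ (p : ι × G) (z : ℤ), ∃ l : List (Option (Bool × ι × G)),
      (l.map termF).sum = Finsupp.single p (z : ℂ) := by
    intro p z
    refine ⟨List.replicate z.natAbs (some (decide (z < 0), p)), ?_⟩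
    rw [List.map_replicate, List.sum_replicate]
    simp only [termF]
    rw [Finsupp.smul_single]
    congr 1
    by_cases hz : z < 0
    · simp only [hz, decide_true, if_true, nsmul_eq_mul, mul_neg, mul_one]
      have : (z.natAbs : ℤ) = -z := by omega
      have h2 : ((z.natAbs : ℤ) : ℂ) = ((-z : ℤ) : ℂ) := by rw [this]
      rw [Int.cast_natCast] at h2
      rw [h2]
      push_cast
      ring
    · have : (z.natAbs : ℤ) = z := by omega
      have h2 : ((z.natAbs : ℤ) : ℂ) = z := by rw [this]
      simp only [hz, decide_false, nsmul_eq_mul]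
      simpa using h2
  have key : ∀ s : Finset (ι × G), ∃ l : List (Option (Bool × ι × G)),
      (l.map termF).sum = ∑ p ∈ s, Finsupp.single p (a p) := by
    intro s
    induction s using Finset.induction_on with
    | empty => exact ⟨[], by simp⟩
    | insert p s hp ih =>
      obtain ⟨l, hl⟩ := ih
      obtain ⟨z, hz⟩ := ha p
      obtain ⟨l', hl'⟩ := hsingle p z
      refine ⟨l' ++ l, ?_⟩
      rw [List.map_append, List.sum_append, hl, hl', Finset.sum_insert hp, hz]
  obtain ⟨l, hl⟩ := key a.support
  refine ⟨l, ?_⟩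
  rw [hl]
  exact Finsupp.sum_single a

lemma exists_sysF {ι : Type} (C : Set (ι × G →₀ ℂ)) (hC : C.Finite)
    (hk : ∀ a ∈ C, ∀ p, ∃ z : ℤ, a p = z) :
    ∃ (κ : Type) (_ : Fintype κ) (N : ℕ) (t : κ → Fin N → Option (Bool × ι × G)),
      Set.range (sysF t) = C := by
  obtain ⟨n, f, hf⟩ : ∃ (n : ℕ) (f : Fin n → (ι × G →₀ ℂ)), Set.range f = C := by
    have := hC.to_subtype
    have hfin : Fintype C := Fintype.ofFinite C
    refine ⟨Fintype.card C, fun i => ((Fintype.equivFin C).symm i : ι × G →₀ ℂ), ?_⟩
    ext a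
    constructor
    · rintro ⟨i, rfl⟩
      exact ((Fintype.equivFin C).symm i).2
    · intro ha
      exact ⟨Fintype.equivFin C ⟨a, ha⟩, by simp⟩
  have h1 : ∀ j : Fin n, ∃ l : List (Option (Bool × ι × G)), (l.map termF).sum = f j := fun j =>
    int_terms _ (hk _ (by rw [← hf]; exact ⟨j, rfl⟩))
  choose l hl using h1
  refine ⟨Fin n, inferInstance, Finset.univ.sup fun j => (l j).length,
    fun j s => (l j).getD s.val none, ?_⟩
  rw [← hf]
  congr 1
  funext j
  unfold sysF
  rw [sum_getD (fun o => termF o) rfl _ _ (Finset.le_sup (f := fun j => (l j).length) (Finset.mem_univ j))]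
  exact hl j

/-- lookup in an association list -/
def look {ρ : Type*} : List (ρ × G) → ρ → Option G
  | [], _ => none
  | p :: l, r => if p.1 = r then some p.2 else look l r

lemma look_ne_none {ρ : Type*} (l : List (ρ × G)) (r : ρ) (h : look l r ≠ none) :
    r ∈ l.map Prod.fst := by
  induction l with
  | nil => exact absurd rfl h
  | cons p l ih =>
    unfold look at h
    by_cases hp : p.1 = r
    · simp [hp]
    · rw [if_neg hp] at h
      exact List.mem_cons_of_mem _ (ih h)

/-- the monomial form of an optional group element in a row -/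
def optF {ρ : Type*} (r : ρ) (o : Option G) : ρ × G →₀ ℂ :=
  match o with
  | none => 0
  | some h => Finsupp.single (r, h) 1

lemma look_sum {ρ : Type*} [Fintype ρ] (l : List (ρ × G)) (hl : (l.map Prod.fst).Nodup) :
    ∑ r, optF r (look l r) = listF l := by
  induction l with
  | nil =>
    simp [look, optF, listF]
  | cons p l ih =>
    rw [List.map_cons, List.nodup_cons] at hl
    have h1 : listF (p :: l) = Finsupp.single p 1 + listF l := by simp [listF]
    rw [h1, ← ih hl.2]
    have h2 : ∀ r, optF r (look (p :: l) r)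
        = (if p.1 = r then Finsupp.single p 1 else 0) + optF r (look l r) := by
      intro r
      have hlc : look (p :: l) r = if p.1 = r then some p.2 else look l r := rfl
      rw [hlc]
      by_cases h : p.1 = r
      · rw [if_pos h, if_pos h]
        have h3 : look l r = none := by
          by_contra hne
          have := look_ne_none l r hne
          rw [← h] at this
          exact hl.1 this
        rw [h3]
        subst h
        simp [optF]
      · rw [if_neg h, if_neg h, zero_add]
    rw [Finset.sum_congr rfl fun r _ => h2 r, Finset.sum_add_distrib]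
    congr 1
    rw [Finset.sum_ite_eq]
    simp

lemma card_le_three {α : Type*} [Fintype α] (s : Finset α) (P₁ P₂ P₃ : α → Prop)
    (h : ∀ x ∈ s, P₁ x ∨ P₂ x ∨ P₃ x) (h₁ : ∀ x y, P₁ x → P₁ y → x = y)
    (h₂ : ∀ x y, P₂ x → P₂ y → x = y) (h₃ : ∀ x y, P₃ x → P₃ y → x = y) : s.card ≤ 3 := by
  have h4 : s ⊆ Finset.univ.filter P₁ ∪ (Finset.univ.filter P₂ ∪ Finset.univ.filter P₃) := by
    intro x hx
    simp only [Finset.mem_union, Finset.mem_filter, Finset.mem_univ, true_and]
    exact h x hx
  have c : ∀ P : α → Prop, (∀ x y, P x → P y → x = y) → (Finset.univ.filter P).card ≤ 1 := by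
    intro P hP
    rw [Finset.card_le_one]
    intro x hx y hy
    exact hP x y (Finset.mem_filter.mp hx).2 (Finset.mem_filter.mp hy).2
  have h5 := Finset.card_le_card h4
  have h6 := Finset.card_union_le (Finset.univ.filter P₁)
    (Finset.univ.filter P₂ ∪ Finset.univ.filter P₃)
  have h7 := Finset.card_union_le (Finset.univ.filter P₂) (Finset.univ.filter P₃)
  have := c P₁ h₁
  have := c P₂ h₂
  have := c P₃ h₃
  omega

section counts

variable [Fintype ι] [Fintype κ] {N : ℕ} (t : κ → Fin N → Option (Bool × ι × G))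

lemma colL_nodup (c : Col ι κ N) : ((colL t c).map Prod.fst).Nodup := by
  rcases c with ⟨i, n⟩ | ⟨j, s⟩ | j | j | ⟨j, s⟩
  · simp [colL, rz, Fin.ext_iff]
  · simp [colL, rp, rq]
  · simp [colL]
  · simp [colL]
  · rcases h : t j s with _ | ⟨b, i, g⟩
    · simp [colL, h, rp, rq]
    · simp [colL, h, rp, rq, rz]

lemma colL_length (c : Col ι κ N) : (colL t c).length ≤ 3 := by
  rcases c with ⟨i, n⟩ | ⟨j, s⟩ | j | j | ⟨j, s⟩
  · simp [colL]
  · simp [colL]
  · simp [colL]
  · simp [colL]
  · rcases h : t j s with _ | ⟨b, i, g⟩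
    · simp [colL, h]
    · simp [colL, h]

lemma col_count (c : Col ι κ N) :
    (Finset.univ.filter fun r => look (colL t c) r ≠ none).card ≤ 3 := by
  refine le_trans ?_ (colL_length t c)
  have h1 : (Finset.univ.filter fun r => look (colL t c) r ≠ none)
      ⊆ ((colL t c).map Prod.fst).toFinset := by
    intro r hr
    rw [List.mem_toFinset]
    exact look_ne_none _ _ (Finset.mem_filter.mp hr).2
  refine le_trans (Finset.card_le_card h1) (le_trans (List.toFinset_card_le _) ?_)
  simp

lemma pos_inj {j j' : κ} {s s' : Fin N} {b b' : Bool} (h : pos j s b = pos j' s' b') :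
    j = j' ∧ s = s' := by
  unfold pos at h
  rw [Fin.mk.injEq] at h
  have h2 : (Fintype.equivFin (κ × Fin N) (j, s)).val
      = (Fintype.equivFin (κ × Fin N) (j', s')).val := by
    split_ifs at h <;> omega
  have h3 := (Fintype.equivFin (κ × Fin N)).injective (Fin.ext h2)
  exact ⟨congrArg Prod.fst h3, congrArg Prod.snd h3⟩

lemma row_count (r : Row ι κ N) :
    (Finset.univ.filter fun c => look (colL t c) r ≠ none).card ≤ 3 := by
  have hmem : ∀ c ∈ (Finset.univ.filter fun c => look (colL t c) r ≠ none),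
      r ∈ (colL t c).map Prod.fst := fun c hc =>
    look_ne_none _ _ (Finset.mem_filter.mp hc).2
  rcases r with ⟨i, n⟩ | ⟨j, s⟩ | ⟨j, s⟩
  · apply card_le_three _
      (fun c => ∃ n', c = Sum.inl (i, n') ∧ Fin.castSucc n' = n)
      (fun c => ∃ n', c = Sum.inl (i, n') ∧ Fin.succ n' = n)
      (fun c => ∃ j s b, c = Sum.inr (Sum.inr (Sum.inr (Sum.inr (j, s)))) ∧ pos j s b = n)
    · intro c hc
      have h := hmem c hc
      rcases c with ⟨i', n'⟩ | ⟨j', s'⟩ | j' | j' | ⟨j', s'⟩
      · simp only [colL, rz, List.map_cons, List.map_nil, List.mem_cons, Sum.inl.injEq,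
          Prod.mk.injEq, List.not_mem_nil, or_false] at h
        rcases h with ⟨rfl, h⟩ | ⟨rfl, h⟩
        · exact Or.inl ⟨n', rfl, h.symm⟩
        · exact Or.inr (Or.inl ⟨n', rfl, h.symm⟩)
      · simp [colL, rp, rq] at h
      · simp [colL, rp] at h
      · simp [colL, rp] at h
      · rcases ht : t j' s' with _ | ⟨b, i', g⟩
        · simp [colL, ht, rp, rq] at h
        · simp only [colL, ht, rz, rp, rq, List.map_cons, List.map_nil, List.mem_cons,
            Sum.inl.injEq, Prod.mk.injEq, List.not_mem_nil, or_false, reduceCtorEq,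
            false_or] at h
          exact Or.inr (Or.inr ⟨j', s', b, rfl, h.2.symm⟩)
    · rintro x y ⟨n₁, rfl, h1⟩ ⟨n₂, rfl, h2⟩
      rw [Fin.castSucc_injective _ (h1.trans h2.symm)]
    · rintro x y ⟨n₁, rfl, h1⟩ ⟨n₂, rfl, h2⟩
      rw [Fin.succ_injective _ (h1.trans h2.symm)]
    · rintro x y ⟨j₁, s₁, b₁, rfl, h1⟩ ⟨j₂, s₂, b₂, rfl, h2⟩
      obtain ⟨rfl, rfl⟩ := pos_inj (h1.trans h2.symm)
      rfl
  · apply card_le_three _
      (fun c => c = Sum.inr (Sum.inl (j, s)))
      (fun c => c = Sum.inr (Sum.inr (Sum.inl j)))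
      (fun c => (c = Sum.inr (Sum.inr (Sum.inr (Sum.inl j))) ∧ s = Fin.last N) ∨
        ∃ s', c = Sum.inr (Sum.inr (Sum.inr (Sum.inr (j, s')))) ∧ Fin.castSucc s' = s)
    · intro c hc
      have h := hmem c hc
      rcases c with ⟨i', n'⟩ | ⟨j', s'⟩ | j' | j' | ⟨j', s'⟩
      · simp [colL, rz] at h
      · simp only [colL, rp, rq, List.map_cons, List.map_nil, List.mem_cons, Sum.inr.injEq,
          Sum.inl.injEq, Prod.mk.injEq, List.not_mem_nil, or_false, reduceCtorEq] at h
        obtain ⟨rfl, rfl⟩ := h
        exact Or.inl rfl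
      · simp only [colL, rp, List.map_cons, List.map_nil, List.mem_cons, Sum.inr.injEq,
          Sum.inl.injEq, Prod.mk.injEq, List.not_mem_nil, or_false] at h
        obtain ⟨rfl, rfl⟩ := h
        exact Or.inr (Or.inl rfl)
      · simp only [colL, rp, List.map_cons, List.map_nil, List.mem_cons, Sum.inr.injEq,
          Sum.inl.injEq, Prod.mk.injEq, List.not_mem_nil, or_false] at h
        obtain ⟨rfl, rfl⟩ := h
        exact Or.inr (Or.inr (Or.inl ⟨rfl, rfl⟩))
      · rcases ht : t j' s' with _ | ⟨b, i', g⟩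
        · simp only [colL, ht, rp, rq, List.map_cons, List.map_nil, List.mem_cons, Sum.inr.injEq,
            Sum.inl.injEq, Prod.mk.injEq, List.not_mem_nil, or_false, reduceCtorEq] at h
          obtain ⟨rfl, rfl⟩ := h
          exact Or.inr (Or.inr (Or.inr ⟨s', rfl, rfl⟩))
        · simp only [colL, ht, rz, rp, rq, List.map_cons, List.map_nil, List.mem_cons, Sum.inr.injEq,
            Sum.inl.injEq, Prod.mk.injEq, List.not_mem_nil, or_false, reduceCtorEq] at h
          obtain ⟨rfl, rfl⟩ := h
          exact Or.inr (Or.inr (Or.inr ⟨s', rfl, rfl⟩))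
    · rintro x y rfl rfl; rfl
    · rintro x y rfl rfl; rfl
    · rintro x y (⟨rfl, h1⟩ | ⟨s₁, rfl, h1⟩) (⟨rfl, h2⟩ | ⟨s₂, rfl, h2⟩)
      · rfl
      · exfalso
        rw [h1] at h2
        have := congrArg Fin.val h2
        simp at this
        have := s₂.isLt
        omega
      · exfalso
        rw [h2] at h1
        have := congrArg Fin.val h1
        simp at this
        have := s₁.isLt
        omega
      · rw [Fin.castSucc_injective _ (h1.trans h2.symm)]
  · apply card_le_three _
      (fun c => c = Sum.inr (Sum.inl (j, s)))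
      (fun c => ∃ s', c = Sum.inr (Sum.inr (Sum.inr (Sum.inr (j, s')))) ∧ Fin.succ s' = s)
      (fun c => False)
    · intro c hc
      have h := hmem c hc
      rcases c with ⟨i', n'⟩ | ⟨j', s'⟩ | j' | j' | ⟨j', s'⟩
      · simp [colL, rz] at h
      · simp only [colL, rp, rq, List.map_cons, List.map_nil, List.mem_cons, Sum.inr.injEq,
          Prod.mk.injEq, List.not_mem_nil, or_false, reduceCtorEq, false_or] at h
        obtain ⟨rfl, rfl⟩ := h
        exact Or.inl rfl
      · simp [colL, rp] at h
      · simp [colL, rp] at h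
      · rcases ht : t j' s' with _ | ⟨b, i', g⟩
        · simp only [colL, ht, rp, rq, List.map_cons, List.map_nil, List.mem_cons, Sum.inr.injEq,
            Prod.mk.injEq, List.not_mem_nil, or_false, reduceCtorEq, false_or] at h
          obtain ⟨rfl, rfl⟩ := h
          exact Or.inr (Or.inl ⟨s', rfl, rfl⟩)
        · simp only [colL, ht, rz, rp, rq, List.map_cons, List.map_nil, List.mem_cons, Sum.inr.injEq,
            Prod.mk.injEq, List.not_mem_nil, or_false, reduceCtorEq, false_or] at h
          obtain ⟨rfl, rfl⟩ := h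
          exact Or.inr (Or.inl ⟨s', rfl, rfl⟩)
    · rintro x y rfl rfl; rfl
    · rintro x y ⟨s₁, rfl, h1⟩ ⟨s₂, rfl, h2⟩
      rw [Fin.succ_injective _ (h1.trans h2.symm)]
    · intro x y h
      exact absurd h id

end counts

end Pool.Agent.VN
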