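import Pool.Agent.VN.Loc

set_option autoImplicit false
set_option linter.unusedSectionVars false

noncomputable section

open scoped InnerProductSpace ENNReal Topology
open Classical Filter ContinuousLinearMap

/-!
Groups acting on trees: the dimension formula and the monotonicity of kernel dimensions under
homomorphisms whose kernel acts freely on the tree.
-/

namespace Pool.Agent.VN

/-- What is used about trees: every edge has a half, i.e. a set of vertices containing the first
end but not the second one, such that every other edge has both ends in it or none. -/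
structure Halves {V : Type*} (T : SimpleGraph V) (Half : V → V → Set V) : Prop where
  fst : ∀ u v, T.Adj u v → u ∈ Half u v
  snd : ∀ u v, T.Adj u v → v ∉ Half u v
  other : ∀ u v, T.Adj u v → ∀ u' v', T.Adj u' v' → s(u', v') ≠ s(u, v) →
    (u' ∈ Half u v ↔ v' ∈ Half u v)

/-- halves of a forest -/
lemma exists_halves {V : Type*} {T : SimpleGraph V} (hT : T.IsAcyclic) :
    ∃ Half : V → V → Set V, Halves T Half := by
  refine ⟨fun u v => {w | (T \ SimpleGraph.fromEdgeSet {s(u, v)}).Reachable u w}, ?_, ?_, ?_⟩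
  · intro u v _
    exact SimpleGraph.Reachable.refl _
  · intro u v h h2
    have h1 := (SimpleGraph.isAcyclic_iff_forall_adj_isBridge.mp hT) h
    rw [SimpleGraph.isBridge_iff] at h1
    exact h1 h2
  · intro u v h u' v' h' hne
    have hadj : (T \ SimpleGraph.fromEdgeSet {s(u, v)}).Adj u' v' := by
      rw [SimpleGraph.sdiff_adj]
      refine ⟨h', ?_⟩
      rw [SimpleGraph.fromEdgeSet_adj]
      rintro ⟨h3, _⟩
      exact hne h3
    constructor
    · intro h2
      exact SimpleGraph.Reachable.trans h2 hadj.reachable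
    · intro h2
      exact SimpleGraph.Reachable.trans h2 hadj.symm.reachable

section Main

variable {V J E : Type*} {G : Type*} [Group G] [MulAction G V]

/-- location of a vertex variable -/
def pV (s : J → V) : J × G → V := fun q => q.2 • s q.1

/-- location of an edge variable -/
def pE (s : J → V) (j1 j2 : E → J) : E × G → Sym2 V :=
  fun q => s(q.2 • s (j1 q.1), q.2 • s (j2 q.1))

lemma pV_inv (s : J → V) : PInv (pV (G := G) s) := by
  intro k q q' h
  show (k * q.2) • s q.1 = (k * q'.2) • s q'.1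
  rw [mul_smul, mul_smul]
  exact congrArg _ h

lemma pE_inv (s : J → V) (j1 j2 : E → J) : PInv (pE (G := G) s j1 j2) := by
  intro k q q' h
  show s((k * q.2) • s (j1 q.1), (k * q.2) • s (j2 q.1))
    = s((k * q'.2) • s (j1 q'.1), (k * q'.2) • s (j2 q'.1))
  have := congrArg (Sym2.map fun v => k • v) h
  simpa only [pE, Sym2.map_mk, mul_smul] using this

variable [Fintype E]

/-- the boundary operator -/
def bd (G : Type*) [Group G] (j1 j2 : E → J) : L2 J G →L[ℂ] L2 E G :=
  mulR fun a => Finsupp.single (j1 a, (1 : G)) 1 - Finsupp.single (j2 a, (1 : G)) 1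

lemma ev_sub' {ι G : Type*} [Group G] (a b : ι × G →₀ ℂ) (x : ι × G → ℂ) (g : G) :
    ev (a - b) x g = ev a x g - ev b x g := by
  have h := ev_add (a - b) b x g
  rw [sub_add_cancel] at h
  rw [h]; ring

lemma bd_apply (j1 j2 : E → J) (x : L2 J G) (q : E × G) :
    bd G j1 j2 x q = x (j1 q.1, q.2) - x (j2 q.1, q.2) := by
  unfold bd
  rw [mulR_apply, ev_sub', ev_single, ev_single]
  simp

lemma bd_equivar (j1 j2 : E → J) : Equivar (bd G j1 j2) := mulR_equivar _

variable (T : SimpleGraph V) (s : J → V) (j1 j2 : E → J)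

/-- one half of the boundary of `x` on the edge `{u, v}` -/
def hb (u v : V) : L2 J G →L[ℂ] L2 E G :=
  (cutF (pE s j1 j2) s(u, v)) ∘L (bd G j1 j2) ∘L (cutF (pV s) u)

lemma hb_def (u v : V) (x : L2 J G) :
    hb (G := G) s j1 j2 u v x = cutF (pE s j1 j2) s(u, v) (bd G j1 j2 (cutF (pV s) u x)) := rfl

lemma hb_add {u v : V} (huv : u ≠ v) (x : L2 J G) :
    cutF (pE s j1 j2) s(u, v) (bd G j1 j2 x)
      = hb (G := G) s j1 j2 u v x + hb (G := G) s j1 j2 v u x := by
  rw [hb_def, hb_def, Sym2.eq_swap (a := v) (b := u), ← map_add, ← map_add]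
  ext q
  rw [cutF_apply, cutF_apply]
  by_cases hq : pE s j1 j2 q = s(u, v)
  · rw [if_pos hq, if_pos hq, bd_apply, bd_apply]
    have e : ∀ j, (q.2 • s j = u ∨ q.2 • s j = v) →
        (cutF (pV s) u x + cutF (pV s) v x : L2 J G) (j, q.2) = x (j, q.2) := by
      intro j hj
      rw [lp.coeFn_add, Pi.add_apply, cutF_apply, cutF_apply]
      have e1 : pV (G := G) s (j, q.2) = q.2 • s j := rfl
      rcases hj with h | h
      · rw [e1, h, if_pos rfl, if_neg huv, add_zero]
      · rw [e1, h, if_pos rfl, if_neg huv.symm, zero_add]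
    have hq' : s(q.2 • s (j1 q.1), q.2 • s (j2 q.1)) = s(u, v) := hq
    rw [Sym2.eq_iff] at hq'
    rcases hq' with ⟨h1, h2⟩ | ⟨h1, h2⟩
    · rw [e _ (Or.inl h1), e _ (Or.inr h2)]
    · rw [e _ (Or.inr h1), e _ (Or.inl h2)]
  · rw [if_neg hq, if_neg hq]

/-- values on edges -/
def TT (K : Submodule ℂ (L2 J G)) (u v : V) : Submodule ℂ (L2 E G) :=
  (K.map (hb (G := G) s j1 j2 u v).toLinearMap).topologicalClosure

lemma TT_le {K : Submodule ℂ (L2 J G)} (hK : K ≤ LinearMap.ker (bd G j1 j2).toLinearMap)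
    {u v : V} (huv : u ≠ v) : TT s j1 j2 K u v ≤ TT s j1 j2 K v u := by
  apply Submodule.topologicalClosure_mono
  rintro _ ⟨x, hx, rfl⟩
  have h1 := hb_add s j1 j2 huv x
  have h2 : bd G j1 j2 x = 0 := hK hx
  rw [h2, map_zero] at h1
  refine ⟨-x, K.neg_mem hx, ?_⟩
  show hb (G := G) s j1 j2 v u (-x) = hb (G := G) s j1 j2 u v x
  rw [map_neg, eq_comm]
  exact eq_neg_of_add_eq_zero_left h1.symm

/-- the space of boundary values -/
def TS (K : Submodule ℂ (L2 J G)) : Submodule ℂ (L2 E G) where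
  carrier := {y | ∀ u v, T.Adj u v → cutF (pE s j1 j2) s(u, v) y ∈ TT s j1 j2 K u v}
  add_mem' := by
    intro x y hx hy u v h
    rw [map_add]
    exact Submodule.add_mem _ (hx u v h) (hy u v h)
  zero_mem' := by
    intro u v _
    rw [map_zero]
    exact Submodule.zero_mem _
  smul_mem' := by
    intro c x hx u v h
    rw [map_smul]
    exact Submodule.smul_mem _ c (hx u v h)

/-- the space of functions which satisfy the vertex equations and have admissible values on the
edges -/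
def SS (M K : Submodule ℂ (L2 J G)) : Submodule ℂ (L2 J G) where
  carrier := {x | x ∈ M ∧ ∀ u v, T.Adj u v → hb (G := G) s j1 j2 u v x ∈ TT s j1 j2 K u v}
  add_mem' := by
    intro x y hx hy
    refine ⟨M.add_mem hx.1 hy.1, fun u v h => ?_⟩
    rw [map_add]
    exact Submodule.add_mem _ (hx.2 u v h) (hy.2 u v h)
  zero_mem' := by
    refine ⟨M.zero_mem, fun u v _ => ?_⟩
    rw [map_zero]
    exact Submodule.zero_mem _
  smul_mem' := by
    intro c x hx
    refine ⟨M.smul_mem c hx.1, fun u v h => ?_⟩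
    rw [map_smul]
    exact Submodule.smul_mem _ c (hx.2 u v h)

lemma TT_closed (K : Submodule ℂ (L2 J G)) (u v : V) :
    IsClosed (TT s j1 j2 K u v : Set (L2 E G)) := Submodule.isClosed_topologicalClosure _

lemma TS_closed (K : Submodule ℂ (L2 J G)) : IsClosed (TS T s j1 j2 K : Set (L2 E G)) := by
  have : (TS T s j1 j2 K : Set (L2 E G)) = ⋂ u : V, ⋂ v : V, ⋂ _ : T.Adj u v,
      (fun z => cutF (pE s j1 j2) s(u, v) z) ⁻¹' TT s j1 j2 K u v := by
    ext z
    simp only [Set.mem_iInter, Set.mem_preimage, SetLike.mem_coe]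
    rfl
  rw [this]
  exact isClosed_iInter fun u => isClosed_iInter fun v => isClosed_iInter fun _ =>
    (TT_closed s j1 j2 K u v).preimage (cutF (pE s j1 j2) s(u, v)).continuous

lemma SS_closed {M K : Submodule ℂ (L2 J G)} (hM : IsClosed (M : Set (L2 J G))) :
    IsClosed (SS T s j1 j2 M K : Set (L2 J G)) := by
  have : (SS T s j1 j2 M K : Set (L2 J G)) = (M : Set (L2 J G)) ∩ ⋂ u : V, ⋂ v : V, ⋂ _ : T.Adj u v,
      (fun z => hb (G := G) s j1 j2 u v z) ⁻¹' TT s j1 j2 K u v := by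
    ext z
    simp only [Set.mem_iInter, Set.mem_preimage, SetLike.mem_coe, Set.mem_inter_iff]
    rfl
  rw [this]
  exact hM.inter (isClosed_iInter fun u => isClosed_iInter fun v => isClosed_iInter fun _ =>
    (TT_closed s j1 j2 K u v).preimage (hb (G := G) s j1 j2 u v).continuous)

lemma lt_cutV (k : G) (u : V) (x : L2 J G) :
    lt k (cutF (pV s) u x) = cutF (pV s) (k • u) (lt k x) := by
  ext r
  rw [lt_apply, cutF_apply, cutF_apply, lt_apply]
  have : pV s (r.1, k⁻¹ * r.2) = u ↔ pV s r = k • u := by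
    show (k⁻¹ * r.2) • s r.1 = u ↔ r.2 • s r.1 = k • u
    rw [mul_smul, inv_smul_eq_iff]
  by_cases h : pV s (r.1, k⁻¹ * r.2) = u
  · rw [if_pos h, if_pos (this.mp h)]
  · rw [if_neg h, if_neg (fun h' => h (this.mpr h'))]

lemma lt_cutE (k : G) (u v : V) (x : L2 E G) :
    lt k (cutF (pE s j1 j2) s(u, v) x) = cutF (pE s j1 j2) s(k • u, k • v) (lt k x) := by
  ext r
  rw [lt_apply, cutF_apply, cutF_apply, lt_apply]
  have : pE s j1 j2 (r.1, k⁻¹ * r.2) = s(u, v) ↔ pE s j1 j2 r = s(k • u, k • v) := by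
    show s((k⁻¹ * r.2) • s (j1 r.1), (k⁻¹ * r.2) • s (j2 r.1)) = s(u, v)
      ↔ s(r.2 • s (j1 r.1), r.2 • s (j2 r.1)) = s(k • u, k • v)
    rw [mul_smul, mul_smul, Sym2.eq_iff, Sym2.eq_iff, inv_smul_eq_iff, inv_smul_eq_iff,
      inv_smul_eq_iff, inv_smul_eq_iff]
  by_cases h : pE s j1 j2 (r.1, k⁻¹ * r.2) = s(u, v)
  · rw [if_pos h, if_pos (this.mp h)]
  · rw [if_neg h, if_neg (fun h' => h (this.mpr h'))]

lemma lt_hb (k : G) (u v : V) (x : L2 J G) :
    lt k (hb (G := G) s j1 j2 u v x) = hb (G := G) s j1 j2 (k • u) (k • v) (lt k x) := by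
  rw [hb_def, hb_def, lt_cutE, ← bd_equivar, lt_cutV]

lemma lt_TT {K : Submodule ℂ (L2 J G)} (hK : Invar K) (k : G) (u v : V) {y : L2 E G}
    (hy : y ∈ TT s j1 j2 K u v) : lt k y ∈ TT s j1 j2 K (k • u) (k • v) := by
  have h1 : Continuous (lt k : L2 E G → L2 E G) := (lt k).continuous
  have h2 : Set.MapsTo (lt k : L2 E G → L2 E G)
      (K.map (hb (G := G) s j1 j2 u v).toLinearMap : Set (L2 E G))
      (K.map (hb (G := G) s j1 j2 (k • u) (k • v)).toLinearMap : Set (L2 E G)) := by
    rintro _ ⟨x, hx, rfl⟩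
    exact ⟨lt k x, hK k x hx, (lt_hb s j1 j2 k u v x).symm⟩
  exact h2.closure h1 hy

variable {T} in
lemma adj_smul (hT : ∀ (g : G) u v, T.Adj u v → T.Adj (g • u) (g • v)) (g : G) {u v : V} :
    T.Adj (g • u) (g • v) ↔ T.Adj u v := by
  constructor
  · intro h
    have := hT g⁻¹ _ _ h
    simpa using this
  · exact hT g u v

lemma TS_invar (hT : ∀ (g : G) u v, T.Adj u v → T.Adj (g • u) (g • v))
    {K : Submodule ℂ (L2 J G)} (hK : Invar K) : Invar (TS T s j1 j2 K) := by
  intro k y hy u v h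
  have h1 := hy (k⁻¹ • u) (k⁻¹ • v) (hT _ _ _ h)
  have h2 := lt_TT s j1 j2 hK k _ _ h1
  rw [lt_cutE, smul_inv_smul, smul_inv_smul] at h2
  exact h2

lemma SS_invar (hT : ∀ (g : G) u v, T.Adj u v → T.Adj (g • u) (g • v))
    {M K : Submodule ℂ (L2 J G)} (hM : Invar M) (hK : Invar K) : Invar (SS T s j1 j2 M K) := by
  intro k x hx
  refine ⟨hM k x hx.1, fun u v h => ?_⟩
  have h1 := hx.2 (k⁻¹ • u) (k⁻¹ • v) (hT _ _ _ h)
  have h2 := lt_TT s j1 j2 hK k _ _ h1
  rw [lt_hb, smul_inv_smul, smul_inv_smul] at h2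
  exact h2

lemma TS_loc (K : Submodule ℂ (L2 J G)) : Loc (pE s j1 j2) (TS T s j1 j2 K) := by
  intro y hy w u v h
  rw [cutF_cutF]
  by_cases hw : s(u, v) = w
  · rw [if_pos hw]
    exact hy u v h
  · rw [if_neg hw]
    exact Submodule.zero_mem _

lemma hb_cutV (u v w : V) (x : L2 J G) :
    hb (G := G) s j1 j2 u v (cutF (pV s) w x) = if u = w then hb (G := G) s j1 j2 u v x else 0 := by
  rw [hb_def, cutF_cutF]
  by_cases hw : u = w
  · rw [if_pos hw, if_pos hw, hb_def]
  · rw [if_neg hw, if_neg hw, map_zero, map_zero]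

lemma SS_loc {M K : Submodule ℂ (L2 J G)} (hM : Loc (pV s) M) :
    Loc (pV s) (SS T s j1 j2 M K) := by
  intro x hx w
  refine ⟨hM x hx.1 w, fun u v h => ?_⟩
  rw [hb_cutV]
  split_ifs
  · exact hx.2 u v h
  · exact Submodule.zero_mem _

/-- admissible functions have admissible boundary values -/
lemma bd_SS {M K : Submodule ℂ (L2 J G)} (hK : K ≤ LinearMap.ker (bd G j1 j2).toLinearMap)
    {x : L2 J G} (hx : x ∈ SS T s j1 j2 M K) : bd G j1 j2 x ∈ TS T s j1 j2 K := by
  intro u v h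
  rw [hb_add s j1 j2 h.ne x]
  exact Submodule.add_mem _ (hx.2 u v h) (TT_le s j1 j2 hK h.ne' (hx.2 v u h.symm))

variable {T} {Half : V → V → Set V}

/-- the truncation of a solution to a half tree -/
lemma cut_half (hHalf : Halves T Half) (hT : ∀ (g : G) u v, T.Adj u v → T.Adj (g • u) (g • v))
    (hadj : ∀ a, T.Adj (s (j1 a)) (s (j2 a)))
    {M K : Submodule ℂ (L2 J G)} (hMc : IsClosed (M : Set (L2 J G))) (hM : Loc (pV s) M)
    (hKM : K ≤ M) (hK : K ≤ LinearMap.ker (bd G j1 j2).toLinearMap)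
    {u v : V} (h : T.Adj u v) {x : L2 J G} (hx : x ∈ K) :
    cut (pV s ⁻¹' Half u v) x ∈ SS T s j1 j2 M K ∧
      bd G j1 j2 (cut (pV s ⁻¹' Half u v) x) = hb (G := G) s j1 j2 u v x := by
  have hpc : ∀ w, cutF (pV s) w (cut (pV s ⁻¹' Half u v) x)
      = if w ∈ Half u v then cutF (pV s) w x else 0 := by
    intro w
    rw [cutF, cut_cut]
    by_cases hw : w ∈ Half u v
    · rw [if_pos hw]
      congr 1
      congr 1
      ext q
      simp only [Set.mem_inter_iff, Set.mem_preimage, Set.mem_singleton_iff]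
      constructor
      · rintro ⟨h1, _⟩
        exact h1
      · intro h1
        exact ⟨h1, by rw [h1]; exact hw⟩
    · rw [if_neg hw]
      ext q
      rw [cut_apply, if_neg]
      · rfl
      · rintro ⟨h1, h2⟩
        have h3 : pV (G := G) s q = w := h1
        apply hw
        rw [← h3]
        exact h2
  refine ⟨⟨?_, ?_⟩, ?_⟩
  · apply mem_of_pieces hMc hM
    intro w
    rw [hpc]
    split_ifs
    · exact hM x (hKM hx) w
    · exact Submodule.zero_mem _
  · intro u' v' h'
    rw [hb_def, hpc]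
    split_ifs
    · exact Submodule.le_topologicalClosure _ ⟨x, hx, rfl⟩
    · rw [map_zero, map_zero]
      exact Submodule.zero_mem _
  · ext q
    have hbx : bd G j1 j2 x = 0 := hK hx
    have hb0 : x (j1 q.1, q.2) - x (j2 q.1, q.2) = 0 := by
      have := bd_apply j1 j2 x q
      rw [hbx] at this
      exact this.symm
    rw [hb_def, cutF_apply, bd_apply, bd_apply, cut_apply, cut_apply, cutF_apply, cutF_apply]
    simp only [Set.mem_preimage]
    have e1 : pV (G := G) s (j1 q.1, q.2) = q.2 • s (j1 q.1) := rfl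
    have e2 : pV (G := G) s (j2 q.1, q.2) = q.2 • s (j2 q.1) := rfl
    rw [e1, e2]
    have ha : T.Adj (q.2 • s (j1 q.1)) (q.2 • s (j2 q.1)) := hT _ _ _ (hadj _)
    have hfst := hHalf.fst u v h
    have hsnd := hHalf.snd u v h
    by_cases hq : pE s j1 j2 q = s(u, v)
    · rw [if_pos hq]
      have hq' : s(q.2 • s (j1 q.1), q.2 • s (j2 q.1)) = s(u, v) := hq
      rw [Sym2.eq_iff] at hq'
      rcases hq' with ⟨h1, h2⟩ | ⟨h1, h2⟩
      · rw [h1, h2, if_pos hfst, if_neg hsnd, if_pos rfl, if_neg h.ne']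
      · rw [h1, h2, if_pos hfst, if_neg hsnd, if_pos rfl, if_neg h.ne']
    · rw [if_neg hq]
      have hne : s(q.2 • s (j1 q.1), q.2 • s (j2 q.1)) ≠ s(u, v) := hq
      have hiff := hHalf.other u v h _ _ ha hne
      by_cases h1 : q.2 • s (j1 q.1) ∈ Half u v
      · rw [if_pos h1, if_pos (hiff.mp h1), hb0]
      · rw [if_neg h1, if_neg (fun h2 => h1 (hiff.mpr h2)), sub_zero]

variable [Fintype J]

/-- The dimension formula for groups acting on trees. -/
theorem tree_formula (hHalf : Halves T Half)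
    (hT : ∀ (g : G) u v, T.Adj u v → T.Adj (g • u) (g • v))
    (hadj : ∀ a, T.Adj (s (j1 a)) (s (j2 a)))
    {M : Submodule ℂ (L2 J G)} (hMi : Invar M) (hMc : IsClosed (M : Set (L2 J G)))
    (hM : Loc (pV s) M) {K : Submodule ℂ (L2 J G)}
    (hK : K = M ⊓ LinearMap.ker (bd G j1 j2).toLinearMap) :
    vdim (TS T s j1 j2 K : Set (L2 E G)) + vdim (K : Set (L2 J G))
      = vdim (SS T s j1 j2 M K : Set (L2 J G)) := by
  have hKi : Invar K := by
    rw [hK]
    exact hMi.inf (Invar.ker (bd_equivar j1 j2))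
  have hKM : K ≤ M := by rw [hK]; exact inf_le_left
  have hKk : K ≤ LinearMap.ker (bd G j1 j2).toLinearMap := by rw [hK]; exact inf_le_right
  have hSi := SS_invar T s j1 j2 hT hMi hKi
  have hSc := SS_closed T s j1 j2 (K := K) hMc
  have h1 := vdim_map (bd_equivar j1 j2) hSi hSc
  have h2 : SS T s j1 j2 M K ⊓ LinearMap.ker (bd G j1 j2).toLinearMap = K := by
    apply le_antisymm
    · rintro x ⟨hx1, hx2⟩
      rw [hK]
      exact ⟨hx1.1, hx2⟩
    · intro x hx
      refine ⟨⟨hKM hx, fun u v _ => ?_⟩, hKk hx⟩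
      exact Submodule.le_topologicalClosure _ ⟨x, hx, rfl⟩
  set W : Submodule ℂ (L2 E G) :=
    ((SS T s j1 j2 M K).map (bd G j1 j2).toLinearMap).topologicalClosure with hW
  have hWT : W = TS T s j1 j2 K := by
    apply le_antisymm
    · apply Submodule.topologicalClosure_minimal
      · rintro _ ⟨x, hx, rfl⟩
        exact bd_SS T s j1 j2 hKk hx
      · exact TS_closed T s j1 j2 K
    · have c1 : CompleteSpace W := (Submodule.isClosed_topologicalClosure _).completeSpace_coe
      have hWle : W ≤ TS T s j1 j2 K := by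
        apply Submodule.topologicalClosure_minimal
        · rintro _ ⟨x, hx, rfl⟩
          exact bd_SS T s j1 j2 hKk hx
        · exact TS_closed T s j1 j2 K
      have hTW : ∀ u v, T.Adj u v → TT s j1 j2 K u v ≤ W := by
        intro u v h
        apply Submodule.topologicalClosure_minimal
        · rintro _ ⟨x, hx, rfl⟩
          obtain ⟨h3, h4⟩ := cut_half s j1 j2 hHalf hT hadj hMc hM hKM hKk h hx
          apply Submodule.le_topologicalClosure
          exact ⟨_, h3, h4⟩
        · exact Submodule.isClosed_topologicalClosure _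
      intro y hy
      set z := y - W.starProjection y with hz
      have hzT : z ∈ TS T s j1 j2 K :=
        Submodule.sub_mem _ hy (hWle (Submodule.starProjection_apply_mem _ _))
      have hzW : ∀ t ∈ W, ⟪t, z⟫_ℂ = 0 := by
        intro t ht
        have := W.starProjection_inner_eq_zero y t ht
        rw [← inner_conj_symm, this, map_zero]
      have hz0 : z = 0 := by
        ext q
        have ha : T.Adj (q.2 • s (j1 q.1)) (q.2 • s (j2 q.1)) := hT _ _ _ (hadj _)
        have h5 := hTW _ _ ha (hzT _ _ ha)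
        have h6 := norm_cut_sq (pE s j1 j2 ⁻¹' {s(q.2 • s (j1 q.1), q.2 • s (j2 q.1))}) z
        rw [hzW _ h5] at h6
        have h7 : cutF (pE s j1 j2) s(q.2 • s (j1 q.1), q.2 • s (j2 q.1)) z = 0 := by
          rw [← norm_eq_zero]
          have h8 : ((‖cutF (pE s j1 j2) s(q.2 • s (j1 q.1), q.2 • s (j2 q.1)) z‖ : ℂ)) = 0 :=
            pow_eq_zero_iff two_ne_zero |>.mp h6
          exact_mod_cast h8
        have h8 := cutF_apply (pE s j1 j2) s(q.2 • s (j1 q.1), q.2 • s (j2 q.1)) z q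
        rw [if_pos (show pE s j1 j2 q = s(q.2 • s (j1 q.1), q.2 • s (j2 q.1)) from rfl), h7] at h8
        exact h8.symm
      rw [hz, sub_eq_zero] at hz0
      rw [hz0]
      exact Submodule.starProjection_apply_mem _ _
  have h3 : vdim (((SS T s j1 j2 M K).map (bd G j1 j2).toLinearMap : Submodule ℂ (L2 E G)) :
      Set (L2 E G)) = vdim (TS T s j1 j2 K : Set (L2 E G)) := by
    rw [← hWT, hW, Submodule.topologicalClosure_coe, vdim_closure]
  rw [h2, h3] at h1
  exact h1

variable {H : Type*} [Group H] {π : G →* H}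

/-- transport of boundaries -/
lemma bd_LH {M K : Submodule ℂ (L2 J G)} (hiV : InjF (pV s) π) (hiE : InjF (pE s j1 j2) π)
    (hT : ∀ (g : G) u v, T.Adj u v → T.Adj (g • u) (g • v))
    (hadj : ∀ a, T.Adj (s (j1 a)) (s (j2 a)))
    (hK : K ≤ LinearMap.ker (bd G j1 j2).toLinearMap)
    {x : L2 J H} (hx : x ∈ LH hiV (SS T s j1 j2 M K)) :
    bd H j1 j2 x ∈ LH hiE (TS T s j1 j2 K) := by
  intro k e
  rw [← bd_equivar (G := H) j1 j2 k x]
  by_cases he : ∃ q : E × G, pE s j1 j2 q = e
  · obtain ⟨q0, rfl⟩ := he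
    obtain ⟨u, hu⟩ : ∃ u, u = q0.2 • s (j1 q0.1) := ⟨_, rfl⟩
    obtain ⟨v, hv⟩ : ∃ v, v = q0.2 • s (j2 q0.1) := ⟨_, rfl⟩
    have huv : u ≠ v := by
      rw [hu, hv]
      exact (hT q0.2 _ _ (hadj q0.1)).ne
    have he : pE s j1 j2 q0 = s(u, v) := by rw [hu, hv]; rfl
    rw [he]
    set z : L2 J G := liftF hiV u (lt k x) + liftF hiV v (lt k x) with hz
    have hzS : z ∈ SS T s j1 j2 M K := Submodule.add_mem _ (hx k u) (hx k v)
    have h1 := TS_loc T s j1 j2 K _ (bd_SS T s j1 j2 hK hzS) s(u, v)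
    have h2 : liftF hiE s(u, v) (bd H j1 j2 (lt k x))
        = cutF (pE s j1 j2) s(u, v) (bd G j1 j2 z) := by
      ext q
      rw [liftF_apply, cutF_apply]
      by_cases hq : pE s j1 j2 q = s(u, v)
      · rw [if_pos hq, if_pos hq, bd_apply, bd_apply]
        have e : ∀ j, (q.2 • s j = u ∨ q.2 • s j = v) → z (j, q.2) = (lt k x) (j, π q.2) := by
          intro j hj
          rw [hz, lp.coeFn_add, Pi.add_apply, liftF_apply, liftF_apply]
          have e1 : pV (G := G) s (j, q.2) = q.2 • s j := rfl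
          rcases hj with h | h
          · rw [e1, h, if_pos rfl, if_neg huv, add_zero]
          · rw [e1, h, if_pos rfl, if_neg huv.symm, zero_add]
        have hq' : s(q.2 • s (j1 q.1), q.2 • s (j2 q.1)) = s(u, v) := hq
        rw [Sym2.eq_iff] at hq'
        rcases hq' with ⟨h1, h2⟩ | ⟨h1, h2⟩
        · rw [e _ (Or.inl h1), e _ (Or.inr h2)]
        · rw [e _ (Or.inr h1), e _ (Or.inl h2)]
      · rw [if_neg hq, if_neg hq]
    rw [h2]
    exact h1
  · have h2 : liftF hiE e (bd H j1 j2 (lt k x)) = 0 := by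
      ext q
      rw [liftF_apply, if_neg (fun h => he ⟨q, h⟩)]
      rfl
    rw [h2]
    exact Submodule.zero_mem _

/-- Monotonicity of dimensions for groups acting on trees. -/
theorem tree_mono (hHalf : Halves T Half)
    (hT : ∀ (g : G) u v, T.Adj u v → T.Adj (g • u) (g • v))
    (hadj : ∀ a, T.Adj (s (j1 a)) (s (j2 a)))
    (hiV : InjF (pV s) π) (hiE : InjF (pE s j1 j2) π)
    {M : Submodule ℂ (L2 J G)} (hMi : Invar M) (hMc : IsClosed (M : Set (L2 J G)))
    (hM : Loc (pV s) M) :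
    vdim ((M ⊓ LinearMap.ker (bd G j1 j2).toLinearMap : Submodule ℂ (L2 J G)) : Set (L2 J G))
      ≤ vdim ((LH hiV M ⊓ LinearMap.ker (bd H j1 j2).toLinearMap : Submodule ℂ (L2 J H)) :
        Set (L2 J H)) := by
  obtain ⟨K, hK⟩ : ∃ K, K = M ⊓ LinearMap.ker (bd G j1 j2).toLinearMap := ⟨_, rfl⟩
  have hKi : Invar K := by
    rw [hK]
    exact hMi.inf (Invar.ker (bd_equivar j1 j2))
  have hKk : K ≤ LinearMap.ker (bd G j1 j2).toLinearMap := by rw [hK]; exact inf_le_right
  have h1 := tree_formula s j1 j2 hHalf hT hadj hMi hMc hM hK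
  have hSi := SS_invar T s j1 j2 hT hMi hKi
  have hSc := SS_closed T s j1 j2 (K := K) hMc
  have h2 := vdim_LH (pV_inv s) hiV hSi hSc (SS_loc T s j1 j2 hM)
  have h3 := vdim_LH (pE_inv s j1 j2) hiE (TS_invar T s j1 j2 hT hKi) (TS_closed T s j1 j2 K)
    (TS_loc T s j1 j2 K)
  have h4 := vdim_map (bd_equivar (G := H) j1 j2) (LH_invar hiV (SS T s j1 j2 M K))
    (LH_closed hiV hSc)
  have h5 : (LH hiV (SS T s j1 j2 M K)).map (bd H j1 j2).toLinearMap
      ≤ LH hiE (TS T s j1 j2 K) := by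
    rintro _ ⟨x, hx, rfl⟩
    exact bd_LH s j1 j2 hiV hiE hT hadj hKk hx
  have h6 := vdim_mono h5
  have h7 : LH hiV (SS T s j1 j2 M K) ⊓ LinearMap.ker (bd H j1 j2).toLinearMap
      ≤ LH hiV M ⊓ LinearMap.ker (bd H j1 j2).toLinearMap := by
    apply inf_le_inf_right
    apply LH_mono
    intro x hx
    exact hx.1
  have h8 := vdim_mono h7
  rw [← hK]
  linarith

end Main

end Pool.Agent.VN
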