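import Pool.Agent.VN.TreeG
import Pool.Agent.VN.Lin

set_option autoImplicit false
set_option linter.unusedSectionVars false

noncomputable section

open scoped InnerProductSpace ENNReal Topology
open Classical Filter ContinuousLinearMap

/-!
Linearisation of a finite linear system over a group acting on a tree, along a finite subtree.
-/

namespace Pool.Agent.VN

section LocalForms

variable {J W : Type*} {G H : Type*} [Group G] [Group H]

/-- a linear form all of whose variables have the same location -/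
def LocF (p : J × G → W) (c : J × G →₀ ℂ) : Prop :=
  ∀ g : G, ∀ q ∈ c.support, ∀ q' ∈ c.support, p (q.1, g * q.2⁻¹) = p (q'.1, g * q'.2⁻¹)

lemma Sol_loc {p : J × G → W} {D : Set (J × G →₀ ℂ)} (hD : ∀ c ∈ D, LocF p c) :
    Loc p (Sol D) := by
  intro x hx w c hc g
  rw [ev_def]
  by_cases h : ∃ q0 ∈ c.support, p (q0.1, g * q0.2⁻¹) = w
  · obtain ⟨q0, hq0, hw⟩ := h
    have h1 := hx c hc g
    rw [ev_def] at h1
    rw [← h1]
    refine Finset.sum_congr rfl fun q hq => ?_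
    have := hD c hc g q hq q0 hq0
    rw [cutF_apply, if_pos (this.trans hw)]
  · refine Finset.sum_eq_zero fun q hq => ?_
    rw [cutF_apply, if_neg (fun h' => h ⟨q, hq, h'⟩), mul_zero]

lemma LH_Sol {p : J × G → W} {π : G →* H} (h : InjF p π) {D : Set (J × G →₀ ℂ)}
    (hD : ∀ c ∈ D, LocF p c) : LH h (Sol D) = Sol (mapF π '' D) := by
  ext x
  constructor
  · rintro hx _ ⟨c, hc, rfl⟩ g
    rw [ev_mapF]
    by_cases h0 : ∃ q0, q0 ∈ c.support
    · obtain ⟨q0, hq0⟩ := h0
      have h1 := hx g⁻¹ (p (q0.1, 1 * q0.2⁻¹)) c hc 1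
      rw [ev_def] at h1
      rw [← h1]
      refine Finset.sum_congr rfl fun q hq => ?_
      rw [liftF_apply, if_pos (hD c hc 1 q hq q0 hq0), lt_apply]
      simp
    · refine Finset.sum_eq_zero fun q hq => absurd ⟨q, hq⟩ h0
  · intro hx k w c hc g
    rw [ev_def]
    by_cases h0 : ∃ q0 ∈ c.support, p (q0.1, g * q0.2⁻¹) = w
    · obtain ⟨q0, hq0, hw⟩ := h0
      have h1 := hx _ ⟨c, hc, rfl⟩ (k⁻¹ * π g)
      rw [ev_mapF] at h1
      rw [← h1]
      refine Finset.sum_congr rfl fun q hq => ?_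
      rw [liftF_apply, if_pos ((hD c hc g q hq q0 hq0).trans hw), lt_apply]
      simp [mul_assoc]
    · refine Finset.sum_eq_zero fun q hq => ?_
      rw [liftF_apply, if_neg (fun h' => h0 ⟨q, hq, h'⟩), mul_zero]

end LocalForms

section Conn

variable {V : Type*} {T : SimpleGraph V}

/-- a finite set of vertices which is connected through `v0` -/
def ConnF (T : SimpleGraph V) (v0 : V) (F : Finset V) : Prop :=
  v0 ∈ F ∧ ∀ P : V → Prop, P v0 → (∀ u v, u ∈ F → v ∈ F → T.Adj u v → P u → P v) → ∀ s ∈ F, P s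

lemma walk_aux (F : Finset V) (P : V → Prop)
    (hP : ∀ u v, u ∈ F → v ∈ F → T.Adj u v → P u → P v) {x a : V} (w : T.Walk x a) :
    (∀ s ∈ w.support, s ∈ F) → P x → ∀ s ∈ w.support, P s := by
  induction w with
  | nil =>
    intro _ hx s hs
    rw [SimpleGraph.Walk.support_nil, List.mem_singleton] at hs
    rw [hs]
    exact hx
  | cons h w ih =>
    intro hF hx s hs
    rw [SimpleGraph.Walk.support_cons] at hF hs
    have hF' : ∀ s ∈ w.support, s ∈ F := fun s hs => hF s (List.mem_cons_of_mem _ hs)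
    rcases List.mem_cons.mp hs with rfl | hs
    · exact hx
    · refine ih hF' ?_ s hs
      exact hP _ _ (hF _ List.mem_cons_self) (hF' _ w.start_mem_support) h hx

lemma exists_connF (hT : T.Preconnected) (v0 : V) (A : Finset V) :
    ∃ F : Finset V, ConnF T v0 F ∧ A ⊆ F := by
  have hw : ∀ a : V, ∃ w : T.Walk v0 a, True := fun a => ⟨(hT v0 a).some, trivial⟩
  choose w _ using hw
  refine ⟨insert v0 (A.biUnion fun a => (w a).support.toFinset), ⟨Finset.mem_insert_self _ _, ?_⟩,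
    ?_⟩
  · intro P h0 hP s hs
    rcases Finset.mem_insert.mp hs with rfl | hs
    · exact h0
    · rw [Finset.mem_biUnion] at hs
      obtain ⟨a, ha, hs⟩ := hs
      refine walk_aux _ P hP (w a) ?_ h0 s (List.mem_toFinset.mp hs)
      intro t ht
      rw [Finset.mem_insert]
      right
      rw [Finset.mem_biUnion]
      exact ⟨a, ha, List.mem_toFinset.mpr ht⟩
  · intro a ha
    rw [Finset.mem_insert]
    right
    rw [Finset.mem_biUnion]
    exact ⟨a, ha, List.mem_toFinset.mpr (w a).end_mem_support⟩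

end Conn

section Lin

variable {V ι : Type} {G : Type} [Group G] [MulAction G V] {T : SimpleGraph V}

/-- vertex variables -/
abbrev JJ (ι : Type) (F : Finset V) : Type := ι × F
/-- edge variables -/
abbrev EE (ι : Type) (T : SimpleGraph V) (F : Finset V) : Type :=
  {a : ι × F × F // T.Adj a.2.1.1 a.2.2.1}

/-- location of the vertex variables -/
def sJ (ι : Type) (F : Finset V) : JJ ι F → V := fun j => j.2.1
/-- first end -/
def e1 (ι : Type) (T : SimpleGraph V) (F : Finset V) : EE ι T F → JJ ι F :=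
  fun a => (a.1.1, a.1.2.1)
/-- second end -/
def e2 (ι : Type) (T : SimpleGraph V) (F : Finset V) : EE ι T F → JJ ι F :=
  fun a => (a.1.1, a.1.2.2)

lemma e_adj (F : Finset V) (a : EE ι T F) :
    T.Adj (sJ ι F (e1 ι T F a)) (sJ ι F (e2 ι T F a)) := a.2

/-- the vertex of `F` at which a term is placed -/
def wo {v0 : V} {F : Finset V} (hF : v0 ∈ F) (h : G) : F :=
  if h' : h • v0 ∈ F then ⟨h • v0, h'⟩ else ⟨v0, hF⟩

/-- the equations at the vertices -/
def scF {v0 : V} {F : Finset V} (hF : v0 ∈ F) (c : ι × G →₀ ℂ) : JJ ι F × G →₀ ℂ :=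
  ∑ p ∈ c.support, Finsupp.single (((p.1, wo hF p.2) : JJ ι F), p.2) (c p)

lemma scF_support {v0 : V} {F : Finset V} (hF : v0 ∈ F) (c : ι × G →₀ ℂ) {q : JJ ι F × G}
    (hq : q ∈ (scF hF c).support) : ∃ p ∈ c.support, q = ((p.1, wo hF p.2), p.2) := by
  unfold scF at hq
  have h1 := Finsupp.support_finsetSum hq
  rw [Finset.mem_biUnion] at h1
  obtain ⟨p, hp, h2⟩ := h1
  refine ⟨p, hp, ?_⟩
  have := Finsupp.support_single_subset h2
  exact Finset.mem_singleton.mp this

lemma scF_loc {v0 : V} {F : Finset V} (hF : v0 ∈ F) (c : ι × G →₀ ℂ)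
    (hc : ∀ p ∈ c.support, p.2 • v0 ∈ F) : LocF (pV (sJ ι F)) (scF hF c) := by
  have key : ∀ g : G, ∀ q ∈ (scF hF c).support, pV (sJ ι F) (q.1, g * q.2⁻¹) = g • v0 := by
    intro g q hq
    obtain ⟨p, hp, rfl⟩ := scF_support hF c hq
    show (g * p.2⁻¹) • (wo hF p.2).1 = g • v0
    unfold wo
    rw [dif_pos (hc p hp)]
    simp [mul_smul]
  intro g q hq q' hq'
  rw [key g q hq, key g q' hq']

variable {H : Type} [Group H] (π : G →* H)

lemma mapF_scF {v0 : V} {F : Finset V} (hF : v0 ∈ F) (c : ι × G →₀ ℂ) :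
    mapF π (scF hF c)
      = ∑ p ∈ c.support, Finsupp.single (((p.1, wo hF p.2) : JJ ι F), π p.2) (c p) := by
  rw [mapF_eq, scF, Finsupp.mapDomain_finsetSum]
  refine Finset.sum_congr rfl fun p _ => ?_
  rw [Finsupp.mapDomain_single]

lemma ev_mapF_scF {v0 : V} {F : Finset V} (hF : v0 ∈ F) (c : ι × G →₀ ℂ) (y : L2 (JJ ι F) H)
    (g : H) : ev (mapF π (scF hF c)) y g
      = ∑ p ∈ c.support, c p * y ((p.1, wo hF p.2), g * (π p.2)⁻¹) := by
  rw [mapF_scF, ev_finsetSum]
  refine Finset.sum_congr rfl fun p _ => ?_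
  rw [ev_single]

variable [Fintype ι]

/-- the new system has the same dimension, over every homomorphic image -/
theorem vdim_scF {v0 : V} {F : Finset V} (hF : ConnF T v0 F) (C : Set (ι × G →₀ ℂ)) :
    vdim ((Sol (mapF π '' (scF hF.1 '' C))
        ⊓ LinearMap.ker (bd H (e1 ι T F) (e2 ι T F)).toLinearMap : Submodule ℂ (L2 (JJ ι F) H)) :
        Set (L2 (JJ ι F) H))
      = vdim (Sol (mapF π '' C) : Set (L2 ι H)) := by
  set Φ : JJ ι F → (ι × H →₀ ℂ) := fun q => Finsupp.single (q.1, 1) 1 with hΦ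
  have hΦa : ∀ (x : L2 ι H) (q : JJ ι F) (g : H), (mulR Φ x) (q, g) = x (q.1, g) := by
    intro x q g
    rw [mulR_apply, ev_single, one_mul]
    simp
  apply vdim_eq_of_param Φ (Sol (mapF π '' C)) (Sol_invar _) (Sol_closed _)
  · intro x _ h0
    ext q
    have h1 := hΦa x (q.1, ⟨v0, hF.1⟩) q.2
    rw [h0] at h1
    exact h1.symm
  · intro x hx
    refine ⟨?_, ?_⟩
    · rintro _ ⟨_, ⟨c, hc, rfl⟩, rfl⟩ g
      rw [ev_mapF_scF]
      have h1 := hx _ ⟨c, hc, rfl⟩ g
      rw [ev_mapF] at h1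
      rw [← h1]
      refine Finset.sum_congr rfl fun p _ => ?_
      rw [hΦa]
    · show bd H (e1 ι T F) (e2 ι T F) (mulR Φ x) = 0
      ext q
      rw [bd_apply, hΦa, hΦa]
      simp only [e1, e2, sub_self]
      rfl
  · rintro y ⟨hy1, hy2⟩
    set x : L2 ι H := mulR (fun k => Finsupp.single (((k, ⟨v0, hF.1⟩) : JJ ι F), (1 : H)) 1) y
      with hx
    have hxa : ∀ k g, x (k, g) = y ((k, ⟨v0, hF.1⟩), g) := by
      intro k g
      rw [hx, mulR_apply, ev_single]
      simp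
    have hyx : ∀ s ∈ F, ∀ (hs : s ∈ F) (k : ι) (g : H), y ((k, ⟨s, hs⟩), g) = x (k, g) := by
      apply hF.2 (fun s => ∀ (hs : s ∈ F) (k : ι) (g : H), y ((k, ⟨s, hs⟩), g) = x (k, g))
      · intro hs k g
        rw [hxa]
      · intro u v hu hv huv hPu hs k g
        have h0 : bd H (e1 ι T F) (e2 ι T F) y = 0 := hy2
        have h1 := bd_apply (G := H) (e1 ι T F) (e2 ι T F) y
          ((⟨(k, ⟨u, hu⟩, ⟨v, hs⟩), huv⟩ : EE ι T F), g)
        rw [h0] at h1
        have h2 : y ((k, ⟨u, hu⟩), g) - y ((k, ⟨v, hs⟩), g) = 0 := h1.symm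
        rw [sub_eq_zero] at h2
        rw [← h2, hPu]
    refine ⟨x, ?_, ?_⟩
    · rintro _ ⟨c, hc, rfl⟩ g
      have h1 := hy1 _ ⟨_, ⟨c, hc, rfl⟩, rfl⟩ g
      rw [ev_mapF_scF] at h1
      rw [ev_mapF, ← h1]
      refine Finset.sum_congr rfl fun p _ => ?_
      rw [hyx (wo hF.1 p.2).1 (wo hF.1 p.2).2]
    · ext q
      obtain ⟨⟨k, s⟩, g⟩ := q
      rw [hΦa]
      exact (hyx s.1 s.2 s.2 k g).symm

omit [Fintype ι] in
lemma injV_of (F : Finset V) (hst : ∀ (g : G) (v : V), g • v = v → π g = 1 → g = 1) :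
    InjF (pV (G := G) (sJ ι F)) π := by
  intro j g g' h1 h2
  have h3 : g • sJ ι F j = g' • sJ ι F j := h1
  have h4 : (g'⁻¹ * g) • sJ ι F j = sJ ι F j := by
    rw [mul_smul, h3, inv_smul_smul]
  have h5 := hst _ _ h4 (by rw [map_mul, map_inv, h2, inv_mul_cancel])
  rw [inv_mul_eq_one] at h5
  exact h5.symm

omit [Fintype ι] in
lemma injE_of (F : Finset V) (hst : ∀ (g : G) (u v : V), T.Adj u v → g • u = u → g • v = v →
      π g = 1 → g = 1)
    (hinv : ∀ (g : G) (u v : V), T.Adj u v → g • u = v → g • v = u → π g = 1 → g = 1) :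
    InjF (pE (G := G) (sJ ι F) (e1 ι T F) (e2 ι T F)) π := by
  intro a g g' h1 h2
  obtain ⟨u, hu⟩ : ∃ u, u = sJ ι F (e1 ι T F a) := ⟨_, rfl⟩
  obtain ⟨v, hv⟩ : ∃ v, v = sJ ι F (e2 ι T F a) := ⟨_, rfl⟩
  have huv : T.Adj u v := by rw [hu, hv]; exact e_adj F a
  have h3 : s(g • u, g • v) = s(g' • u, g' • v) := by rw [hu, hv]; exact h1
  have h6 : π (g'⁻¹ * g) = 1 := by rw [map_mul, map_inv, h2, inv_mul_cancel]
  rw [Sym2.eq_iff] at h3
  have h5 : g'⁻¹ * g = 1 := by
    rcases h3 with ⟨h3, h4⟩ | ⟨h3, h4⟩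
    · exact hst _ u v huv (by rw [mul_smul, h3, inv_smul_smul])
        (by rw [mul_smul, h4, inv_smul_smul]) h6
    · exact hinv _ u v huv (by rw [mul_smul, h3, inv_smul_smul])
        (by rw [mul_smul, h4, inv_smul_smul]) h6
  rw [inv_mul_eq_one] at h5
  exact h5.symm

/-- Monotonicity of kernel dimensions under homomorphisms whose kernel acts freely on a tree. -/
theorem tree_mono_Sol (hT : T.IsTree) (hact : ∀ (g : G) u v, T.Adj u v → T.Adj (g • u) (g • v))
    (hst : ∀ (g : G) (v : V), g • v = v → π g = 1 → g = 1)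
    (hinv : ∀ (g : G) (u v : V), T.Adj u v → g • u = v → g • v = u → π g = 1 → g = 1)
    (C : Set (ι × G →₀ ℂ)) (hC : C.Finite) :
    vdim (Sol C : Set (L2 ι G)) ≤ vdim (Sol (mapF π '' C) : Set (L2 ι H)) := by
  obtain ⟨Half, hHalf⟩ := exists_halves hT.isAcyclic
  have hne : Nonempty V := hT.connected.nonempty
  obtain ⟨v0⟩ := hne
  obtain ⟨F, hF, hA⟩ := exists_connF hT.connected.preconnected v0
    (hC.toFinset.biUnion fun c => c.support.image fun p => p.2 • v0)
  have hcF : ∀ c ∈ C, ∀ p ∈ c.support, p.2 • v0 ∈ F := by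
    intro c hc p hp
    apply hA
    rw [Finset.mem_biUnion]
    exact ⟨c, hC.mem_toFinset.mpr hc, Finset.mem_image.mpr ⟨p, hp, rfl⟩⟩
  have hloc : ∀ d ∈ scF hF.1 '' C, LocF (pV (sJ ι F)) d := by
    rintro _ ⟨c, hc, rfl⟩
    exact scF_loc hF.1 c (hcF c hc)
  have hiV := injV_of (ι := ι) π F hst
  have hiE := injE_of (ι := ι) (T := T) π F (fun g u v _ h _ => hst g u h) hinv
  have h1 := tree_mono (sJ ι F) (e1 ι T F) (e2 ι T F) hHalf hact (e_adj F) hiV hiE
    (Sol_invar (scF hF.1 '' C)) (Sol_closed _) (Sol_loc hloc)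
  rw [LH_Sol hiV hloc, vdim_scF π hF C] at h1
  have h2 := vdim_scF (MonoidHom.id G) hF C
  have h3 : ∀ {κ : Type} (D : Set (κ × G →₀ ℂ)), mapF (MonoidHom.id G) '' D = D := by
    intro κ D
    have : mapF (ι := κ) (MonoidHom.id G) = id := by
      funext a
      show mapF (MonoidHom.id G) a = a
      unfold mapF
      exact Finsupp.sum_single a
    rw [this, Set.image_id]
  rw [h3, h3] at h2
  rw [← h2]
  exact h1

end Lin

end Pool.Agent.VN
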