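import Pool.Agent.VN.TreeLin

set_option autoImplicit false
set_option linter.unusedSectionVars false

noncomputable section

open scoped InnerProductSpace ENNReal Topology
open Classical Filter ContinuousLinearMap

/-!
Groups with a homomorphism onto `ℤ`: kernel dimensions as limits of dimensions over windows, with a
uniform rate, and convexity of the dimensions over windows.
-/

namespace Pool.Agent.VN

section Window

variable {ι H : Type} [Group H]

/-- value of a window function, extended by zero -/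
def zb {M : ℕ} (z : (ι × Fin (M + 1)) × H → ℂ) (i : ι) (k : ℤ) (h : H) : ℂ :=
  if h' : 0 ≤ k ∧ k ≤ M then z ((i, ⟨k.toNat, by omega⟩), h) else 0

lemma zb_of_mem {M : ℕ} (z : (ι × Fin (M + 1)) × H → ℂ) (i : ι) (a : Fin (M + 1)) (h : H) :
    zb z i (a : ℕ) h = z ((i, a), h) := by
  unfold zb
  have h1 : (0 : ℤ) ≤ ((a : ℕ) : ℤ) ∧ ((a : ℕ) : ℤ) ≤ M := by
    have := a.2
    omega
  rw [dif_pos h1]
  congr 3

variable (φ : H → ℤ)

/-- the form `c` at level `b` -/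
def hat (M : ℕ) (b : ℤ) (c : ι × H →₀ ℂ) : (ι × Fin (M + 1)) × H →₀ ℂ :=
  ∑ p ∈ c.support, if h' : 0 ≤ b - φ p.2 ∧ b - φ p.2 ≤ M then
    Finsupp.single ((p.1, (⟨(b - φ p.2).toNat, by omega⟩ : Fin (M + 1))), p.2) (c p) else 0

lemma ev_hat (M : ℕ) (b : ℤ) (c : ι × H →₀ ℂ) (z : (ι × Fin (M + 1)) × H → ℂ) (g : H) :
    ev (hat φ M b c) z g = ∑ p ∈ c.support, c p * zb z p.1 (b - φ p.2) (g * p.2⁻¹) := by
  unfold hat
  rw [ev_finsetSum]
  refine Finset.sum_congr rfl fun p _ => ?_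
  unfold zb
  by_cases h' : 0 ≤ b - φ p.2 ∧ b - φ p.2 ≤ M
  · rw [dif_pos h', dif_pos h', ev_single]
  · rw [dif_neg h', dif_neg h', ev_zero, mul_zero]

/-- all window equations of functions supported on the window -/
def H0 (M : ℕ) (C : Set (ι × H →₀ ℂ)) : Set ((ι × Fin (M + 1)) × H →₀ ℂ) :=
  {d | ∃ c ∈ C, ∃ b : ℤ, d = hat φ M b c}

lemma mem_Sol_H0 {M : ℕ} {C : Set (ι × H →₀ ℂ)} {z : L2 (ι × Fin (M + 1)) H} :
    z ∈ Sol (H0 φ M C) ↔ ∀ c ∈ C, ∀ b : ℤ, ∀ g : H,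
      ∑ p ∈ c.support, c p * zb z p.1 (b - φ p.2) (g * p.2⁻¹) = 0 := by
  rw [mem_Sol]
  constructor
  · intro h c hc b g
    rw [← ev_hat]
    exact h _ ⟨c, hc, b, rfl⟩ g
  · rintro h _ ⟨c, hc, b, rfl⟩ g
    rw [ev_hat]
    exact h c hc b g

variable [Fintype ι]

/-- the dimension of the space of solutions supported on the window -/
def c0 (M : ℕ) (C : Set (ι × H →₀ ℂ)) : ℝ :=
  vdim (Sol (H0 φ M C) : Set (L2 (ι × Fin (M + 1)) H))

/-- functions vanishing outside a sub-window -/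
def coordZ (H : Type) [Group H] (ι : Type) (M' : ℕ) (s M : ℕ) :
    Submodule ℂ (L2 (ι × Fin (M' + 1)) H) where
  carrier := {z | ∀ (i : ι) (a : Fin (M' + 1)) (h : H), ¬ (s ≤ (a : ℕ) ∧ (a : ℕ) ≤ s + M) →
    z ((i, a), h) = 0}
  add_mem' := by
    intro x y hx hy i a h ha
    rw [lp.coeFn_add, Pi.add_apply, hx i a h ha, hy i a h ha, add_zero]
  zero_mem' := by
    intro i a h _
    rfl
  smul_mem' := by
    intro c x hx i a h ha
    rw [lp.coeFn_smul, Pi.smul_apply, hx i a h ha, smul_zero]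

lemma coordZ_invar (M' s M : ℕ) : Invar (coordZ H ι M' s M) := by
  intro k z hz i a h ha
  rw [lt_apply]
  exact hz i a _ ha

lemma coordZ_closed (M' s M : ℕ) : IsClosed (coordZ H ι M' s M : Set (L2 (ι × Fin (M' + 1)) H)) := by
  have : (coordZ H ι M' s M : Set (L2 (ι × Fin (M' + 1)) H))
      = ⋂ i : ι, ⋂ a : Fin (M' + 1), ⋂ h : H, ⋂ _ : ¬ (s ≤ (a : ℕ) ∧ (a : ℕ) ≤ s + M),
        {z | z ((i, a), h) = 0} := by
    ext z
    simp only [Set.mem_iInter, SetLike.mem_coe]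
    rfl
  rw [this]
  exact isClosed_iInter fun i => isClosed_iInter fun a => isClosed_iInter fun h =>
    isClosed_iInter fun _ => isClosed_eq (continuous_coord _) continuous_const

/-- the solutions supported on a sub-window have the dimension of the smaller window -/
lemma vdim_sub {M' s M : ℕ} (hs : s + M ≤ M') (C : Set (ι × H →₀ ℂ)) :
    vdim ((Sol (H0 φ M' C) ⊓ coordZ H ι M' s M : Submodule ℂ (L2 (ι × Fin (M' + 1)) H)) :
      Set (L2 (ι × Fin (M' + 1)) H)) = c0 φ M C := by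
  set Φ : ι × Fin (M' + 1) → ((ι × Fin (M + 1)) × H →₀ ℂ) := fun q =>
    if h' : s ≤ (q.2 : ℕ) ∧ (q.2 : ℕ) ≤ s + M then
      Finsupp.single ((q.1, (⟨(q.2 : ℕ) - s, by omega⟩ : Fin (M + 1))), (1 : H)) 1 else 0 with hΦ
  have hΦ1 : ∀ (x : L2 (ι × Fin (M + 1)) H) (i : ι) (a : Fin (M' + 1)) (g : H)
      (h' : s ≤ (a : ℕ) ∧ (a : ℕ) ≤ s + M),
      (mulR Φ x) ((i, a), g) = x ((i, ⟨(a : ℕ) - s, by omega⟩), g) := by
    intro x i a g h'
    rw [mulR_apply]
    have : Φ (i, a) = Finsupp.single ((i, (⟨(a : ℕ) - s, by omega⟩ : Fin (M + 1))), (1 : H)) 1 := by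
      simp only [hΦ]
      rw [dif_pos h']
    rw [this, ev_single]
    simp
  have hΦ0 : ∀ (x : L2 (ι × Fin (M + 1)) H) (i : ι) (a : Fin (M' + 1)) (g : H)
      (_ : ¬ (s ≤ (a : ℕ) ∧ (a : ℕ) ≤ s + M)), (mulR Φ x) ((i, a), g) = 0 := by
    intro x i a g h'
    rw [mulR_apply]
    have : Φ (i, a) = 0 := by
      simp only [hΦ]
      rw [dif_neg h']
    rw [this, ev_zero]
  have hzb : ∀ (x : L2 (ι × Fin (M + 1)) H) (i : ι) (k : ℤ) (g : H),
      zb (mulR Φ x) i k g = zb x i (k - s) g := by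
    intro x i k g
    unfold zb
    by_cases h1 : 0 ≤ k ∧ k ≤ M'
    · rw [dif_pos h1]
      by_cases h2 : 0 ≤ k - s ∧ k - s ≤ M
      · rw [dif_pos h2, hΦ1 x i _ g (by simp only; omega)]
        exact congrArg (fun a : Fin (M + 1) => x ((i, a), g)) (Fin.ext (by simp only; omega))
      · rw [dif_neg h2, hΦ0 x i _ g (by simp only; omega)]
    · rw [dif_neg h1, dif_neg (by omega)]
  unfold c0
  apply vdim_eq_of_param Φ (Sol (H0 φ M C)) (Sol_invar _) (Sol_closed _)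
  · intro x _ h0
    ext q
    obtain ⟨⟨i, a⟩, g⟩ := q
    have h1 := hzb x i ((a : ℕ) + s) g
    rw [h0] at h1
    have h2 : (((a : ℕ) : ℤ) + s - s) = ((a : ℕ) : ℤ) := by ring
    rw [h2, zb_of_mem] at h1
    rw [← h1]
    unfold zb
    split_ifs <;> rfl
  · intro x hx
    refine ⟨?_, ?_⟩
    · rw [SetLike.mem_coe, mem_Sol_H0]
      intro c hc b g
      have h1 := (mem_Sol_H0 φ).mp hx c hc (b - s) g
      rw [← h1]
      refine Finset.sum_congr rfl fun p _ => ?_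
      rw [hzb]
      congr 2
      ring
    · intro i a h ha
      exact hΦ0 x i a h ha
  · rintro y ⟨hy1, hy2⟩
    set x : L2 (ι × Fin (M + 1)) H := mulR (fun q : ι × Fin (M + 1) =>
      Finsupp.single ((q.1, (⟨(q.2 : ℕ) + s, by omega⟩ : Fin (M' + 1))), (1 : H)) 1) y with hx
    have hxa : ∀ i a g, x ((i, a), g) = y ((i, ⟨(a : ℕ) + s, by omega⟩), g) := by
      intro i a g
      rw [hx, mulR_apply, ev_single]
      simp
    have hyx : mulR Φ x = y := by
      ext q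
      obtain ⟨⟨i, a⟩, g⟩ := q
      by_cases h' : s ≤ (a : ℕ) ∧ (a : ℕ) ≤ s + M
      · rw [hΦ1 x i a g h', hxa]
        exact congrArg (fun a : Fin (M' + 1) => y ((i, a), g)) (Fin.ext (by simp only; omega))
      · rw [hΦ0 x i a g h']
        exact (hy2 i a g h').symm
    refine ⟨x, ?_, hyx⟩
    rw [mem_Sol_H0]
    intro c hc b g
    have h1 := (mem_Sol_H0 φ).mp hy1 c hc (b + s) g
    rw [← h1]
    refine Finset.sum_congr rfl fun p _ => ?_
    rw [← hyx, hzb]
    congr 2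
    ring

/-- convexity -/
theorem c0_convex (M : ℕ) (C : Set (ι × H →₀ ℂ)) :
    2 * c0 φ (M + 1) C ≤ c0 φ (M + 2) C + c0 φ M C := by
  have hP := vdim_sub φ (M' := M + 2) (s := 0) (M := M + 1) (by omega) C
  have hQ := vdim_sub φ (M' := M + 2) (s := 1) (M := M + 1) (by omega) C
  have hPQ := vdim_sub φ (M' := M + 2) (s := 1) (M := M) (by omega) C
  have hi := Sol_invar (H0 φ (M + 2) C)
  have hc := Sol_closed (H0 φ (M + 2) C)
  have h1 := vdim_inter_rel (P := Sol (H0 φ (M + 2) C) ⊓ coordZ H ι (M + 2) 0 (M + 1))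
    (Q := Sol (H0 φ (M + 2) C) ⊓ coordZ H ι (M + 2) 1 (M + 1)) (R := Sol (H0 φ (M + 2) C))
    (hi.inf (coordZ_invar _ _ _)) (hc.inter (coordZ_closed _ _ _))
    (hi.inf (coordZ_invar _ _ _)) (hc.inter (coordZ_closed _ _ _)) hi hc inf_le_left inf_le_left
  have h2 : (Sol (H0 φ (M + 2) C) ⊓ coordZ H ι (M + 2) 0 (M + 1)) ⊓
      (Sol (H0 φ (M + 2) C) ⊓ coordZ H ι (M + 2) 1 (M + 1))
      = Sol (H0 φ (M + 2) C) ⊓ coordZ H ι (M + 2) 1 M := by
    ext z
    constructor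
    · rintro ⟨⟨h1, h2⟩, ⟨_, h3⟩⟩
      refine ⟨h1, fun i a h ha => ?_⟩
      by_cases h4 : 0 ≤ (a : ℕ) ∧ (a : ℕ) ≤ 0 + (M + 1)
      · exact h3 i a h (by omega)
      · exact h2 i a h h4
    · rintro ⟨h1, h2⟩
      exact ⟨⟨h1, fun i a h ha => h2 i a h (by omega)⟩, ⟨h1, fun i a h ha => h2 i a h (by omega)⟩⟩
  rw [h2, hP, hQ, hPQ] at h1
  unfold c0 at h1 ⊢
  linarith

end Window

section Bounds

variable {ι H : Type} [Group H] [Fintype ι] (φ : H → ℤ) (hφ : ∀ a b, φ (a * b) = φ a + φ b)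

include hφ in
lemma phi_one : φ 1 = 0 := by
  have := hφ 1 1
  rw [mul_one] at this
  omega

include hφ in
lemma phi_inv (a : H) : φ a⁻¹ = - φ a := by
  have := hφ a a⁻¹
  rw [mul_inv_cancel, phi_one φ hφ] at this
  omega

/-- extension by zero of the piece through `a` -/
def extZ (M : ℕ) (a : Fin (M + 1)) : L2 (ι × Fin (M + 1)) H →L[ℂ] L2 ι H :=
  (push (fun q : {q : ι × H // 0 ≤ φ q.2 + a ∧ φ q.2 + a ≤ M} => q.1) Subtype.val_injective) ∘L
    (pull (fun q : {q : ι × H // 0 ≤ φ q.2 + (a : ℕ) ∧ φ q.2 + (a : ℕ) ≤ M} =>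
      (((q.1.1, (⟨(φ q.1.2 + (a : ℕ)).toNat, by have := q.2; omega⟩ : Fin (M + 1))), q.1.2) :
        (ι × Fin (M + 1)) × H)) (by
      rintro ⟨⟨i, h⟩, hq⟩ ⟨⟨i', h'⟩, hq'⟩ heq
      simp only [Prod.mk.injEq] at heq
      obtain ⟨⟨rfl, _⟩, rfl⟩ := heq
      rfl))

lemma extZ_apply (M : ℕ) (a : Fin (M + 1)) (z : L2 (ι × Fin (M + 1)) H) (i : ι) (h : H) :
    extZ φ M a z (i, h) = zb z i (φ h + (a : ℕ)) h := by
  unfold extZ
  rw [ContinuousLinearMap.comp_apply]
  by_cases h' : 0 ≤ φ h + (a : ℕ) ∧ φ h + (a : ℕ) ≤ M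
  · rw [push_apply (fun q : {q : ι × H // 0 ≤ φ q.2 + (a : ℕ) ∧ φ q.2 + (a : ℕ) ≤ M} => q.1) _ _
      ⟨(i, h), h'⟩]
    unfold zb
    rw [dif_pos h']
    rfl
  · rw [push_apply_of_notMem]
    · unfold zb
      rw [dif_neg h']
    · rintro ⟨q, hq⟩ he
      apply h'
      have he' : q = (i, h) := he
      subst he'
      exact hq

lemma norm_extZ_le (M : ℕ) (a : Fin (M + 1)) (z : L2 (ι × Fin (M + 1)) H) :
    ‖extZ φ M a z‖ ≤ ‖z‖ := by
  refine lp.norm_le_of_forall_sum_le (by norm_num) (norm_nonneg _) ?_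
  intro s
  have h1 : ∀ q : ι × H, ‖extZ φ M a z q‖ ^ (2 : ℝ≥0∞).toReal
      = ‖extZ φ M a z q‖ ^ 2 := by
    intro q
    norm_num
  have h2 : ‖z‖ ^ (2 : ℝ≥0∞).toReal = ‖z‖ ^ 2 := by norm_num
  rw [h2]
  simp only [h1]
  set s' := s.filter fun q => 0 ≤ φ q.2 + (a : ℕ) ∧ φ q.2 + (a : ℕ) ≤ M with hs'
  have h3 : ∑ q ∈ s, ‖extZ φ M a z q‖ ^ 2 = ∑ q ∈ s', ‖extZ φ M a z q‖ ^ 2 := by
    symm
    apply Finset.sum_subset (Finset.filter_subset _ _)
    intro q hq hq'
    obtain ⟨i, h⟩ := q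
    rw [extZ_apply]
    unfold zb
    rw [dif_neg]
    · norm_num
    · intro h'
      exact hq' (Finset.mem_filter.mpr ⟨hq, h'⟩)
  rw [h3]
  set e : ι × H → (ι × Fin (M + 1)) × H := fun q =>
    ((q.1, Fin.ofNat (M + 1) (φ q.2 + (a : ℕ)).toNat), q.2) with he
  have h4 : ∀ q ∈ s', extZ φ M a z q = z (e q) := by
    intro q hq
    obtain ⟨i, h⟩ := q
    have hq' := (Finset.mem_filter.mp hq).2
    rw [extZ_apply]
    unfold zb
    rw [dif_pos hq', he]
    refine congrArg (fun a : Fin (M + 1) => z ((i, a), h)) (Fin.ext ?_)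
    simp only [Fin.ofNat]
    rw [Nat.mod_eq_of_lt]
    simp only at hq'
    omega
  have h5 : Set.InjOn e s' := by
    rintro ⟨i, h⟩ _ ⟨i', h'⟩ _ heq
    simp only [he, Prod.mk.injEq] at heq
    obtain ⟨⟨rfl, _⟩, rfl⟩ := heq
    rfl
  calc ∑ q ∈ s', ‖extZ φ M a z q‖ ^ 2 = ∑ q ∈ s', ‖z (e q)‖ ^ 2 :=
        Finset.sum_congr rfl fun q hq => by rw [h4 q hq]
    _ = ∑ r ∈ s'.image e, ‖z r‖ ^ 2 :=
        (Finset.sum_image (f := fun r : (ι × Fin (M + 1)) × H => ‖z r‖ ^ 2) h5).symm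
    _ ≤ ‖z‖ ^ 2 := sum_norm_sq_le z _

include hφ in
/-- solutions supported on the window extend by zero -/
lemma extZ_mem {M : ℕ} (a : Fin (M + 1)) {C : Set (ι × H →₀ ℂ)} {z : L2 (ι × Fin (M + 1)) H}
    (hz : z ∈ Sol (H0 φ M C)) : extZ φ M a z ∈ Sol C := by
  intro c hc g
  have h1 := (mem_Sol_H0 φ).mp hz c hc (φ g + (a : ℕ)) g
  rw [ev_def, ← h1]
  refine Finset.sum_congr rfl fun p _ => ?_
  rw [extZ_apply, hφ, phi_inv φ hφ]
  congr 2
  ring

include hφ in
/-- upper bound -/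
theorem c0_le (M : ℕ) (C : Set (ι × H →₀ ℂ)) :
    c0 φ M C ≤ (M + 1) * vdim (Sol C : Set (L2 ι H)) := by
  have c1 : CompleteSpace (Sol (H0 φ M C)) := (Sol_closed _).completeSpace_coe
  have c2 : CompleteSpace (Sol C) := (Sol_closed C).completeSpace_coe
  unfold c0
  rw [vdim_eq_sum, vdim_eq_sum, Fintype.sum_prod_type, Finset.mul_sum]
  refine Finset.sum_le_sum fun i _ => ?_
  have h1 : ∀ a : Fin (M + 1), ‖(Sol (H0 φ M C)).starProjection (dl ((i, a), (1 : H)))‖ ^ 2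
      ≤ ‖(Sol C).starProjection (dl (i, (1 : H)))‖ ^ 2 := by
    intro a
    set w := (Sol (H0 φ M C)).starProjection (dl ((i, a), (1 : H))) with hw
    have hwm : w ∈ Sol (H0 φ M C) := Submodule.starProjection_apply_mem _ _
    have h2 : ((‖w‖ ^ 2 : ℝ) : ℂ) = ⟪w, dl ((i, a), (1 : H))⟫_ℂ := by
      have h3 := (Sol (H0 φ M C)).starProjection_inner_eq_zero (dl ((i, a), (1 : H))) w hwm
      rw [← hw, inner_sub_left, sub_eq_zero, inner_self_eq_norm_sq_to_K] at h3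
      rw [← inner_conj_symm, h3]
      simp
    have h3 : ⟪w, dl ((i, a), (1 : H))⟫_ℂ
        = ⟪extZ φ M a w, (Sol C).starProjection (dl (i, (1 : H)))⟫_ℂ := by
      have h4 := (Sol C).starProjection_inner_eq_zero (dl (i, (1 : H))) (extZ φ M a w)
        (extZ_mem φ hφ a hwm)
      have h5 : ⟪extZ φ M a w, dl (i, (1 : H))⟫_ℂ
          = ⟪extZ φ M a w, (Sol C).starProjection (dl (i, (1 : H)))⟫_ℂ := by
        rw [inner_sub_left, sub_eq_zero] at h4
        rw [← inner_conj_symm, h4, inner_conj_symm]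
      rw [← h5, inner_dl_right, inner_dl_right, extZ_apply, phi_one φ hφ]
      congr 1
      have h6 : (0 : ℤ) + ((a : ℕ) : ℤ) = ((a : ℕ) : ℤ) := by ring
      rw [h6, zb_of_mem]
    rw [h3] at h2
    have h4 : ‖w‖ ^ 2 ≤ ‖w‖ * ‖(Sol C).starProjection (dl (i, (1 : H)))‖ := by
      have h5 := norm_inner_le_norm (𝕜 := ℂ) (extZ φ M a w)
        ((Sol C).starProjection (dl (i, (1 : H))))
      rw [← h2, Complex.norm_real, Real.norm_of_nonneg (by positivity)] at h5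
      exact h5.trans (mul_le_mul_of_nonneg_right (norm_extZ_le φ M a w) (norm_nonneg _))
    have h5 : ‖w‖ ≤ ‖(Sol C).starProjection (dl (i, (1 : H)))‖ := by
      by_cases h0 : ‖w‖ = 0
      · rw [h0]
        exact norm_nonneg _
      · have h0' : 0 < ‖w‖ := lt_of_le_of_ne (norm_nonneg _) (Ne.symm h0)
        rw [sq] at h4
        exact le_of_mul_le_mul_left h4 h0'
    exact pow_le_pow_left₀ (norm_nonneg _) h5 2
  calc ∑ a : Fin (M + 1), ‖(Sol (H0 φ M C)).starProjection (dl ((i, a), (1 : H)))‖ ^ 2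
      ≤ ∑ _a : Fin (M + 1), ‖(Sol C).starProjection (dl (i, (1 : H)))‖ ^ 2 :=
        Finset.sum_le_sum fun a _ => h1 a
    _ = _ := by
        rw [Finset.sum_const, Finset.card_univ, Fintype.card_fin, nsmul_eq_mul]
        push_cast
        ring

/-- restriction to the piece through `a` -/
def resZ (M : ℕ) (a : Fin (M + 1)) : L2 ι H →L[ℂ] L2 (ι × Fin (M + 1)) H :=
  ContinuousLinearMap.adjoint (extZ φ M a)

lemma resZ_apply (M : ℕ) (a : Fin (M + 1)) (x : L2 ι H) (i : ι) (b : Fin (M + 1)) (h : H) :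
    resZ φ M a x ((i, b), h) = if φ h + (a : ℕ) = (b : ℕ) then x (i, h) else 0 := by
  rw [← inner_dl_left, resZ, ContinuousLinearMap.adjoint_inner_right]
  have : extZ φ M a (dl ((i, b), h)) = if φ h + (a : ℕ) = (b : ℕ) then dl (i, h) else 0 := by
    ext q
    obtain ⟨i', h'⟩ := q
    rw [extZ_apply]
    have hb := b.2
    by_cases h1 : φ h + (a : ℕ) = (b : ℕ)
    · rw [if_pos h1, dl_apply]
      unfold zb
      by_cases h2 : (i', h') = (i, h)
      · rw [if_pos h2]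
        obtain ⟨rfl, rfl⟩ := Prod.mk.inj h2
        rw [dif_pos (by omega), dl_apply, if_pos]
        rw [Prod.mk.injEq, Prod.mk.injEq]
        refine ⟨⟨rfl, ?_⟩, rfl⟩
        apply Fin.ext
        simp only
        omega
      · rw [if_neg h2]
        split_ifs with h3
        · rw [dl_apply, if_neg]
          intro h4
          rw [Prod.mk.injEq, Prod.mk.injEq] at h4
          exact h2 (Prod.ext h4.1.1 h4.2)
        · rfl
    · rw [if_neg h1]
      unfold zb
      split_ifs with h3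
      · rw [dl_apply, if_neg]
        · rfl
        · intro h4
          rw [Prod.mk.injEq, Prod.mk.injEq] at h4
          obtain ⟨⟨_, h5⟩, rfl⟩ := h4
          apply h1
          have h6 := congrArg Fin.val h5
          simp only at h6
          omega
      · rfl
  rw [this]
  split_ifs
  · rw [inner_dl_left]
  · rw [inner_zero_left]

lemma norm_resZ_le (M : ℕ) (a : Fin (M + 1)) (x : L2 ι H) : ‖resZ φ M a x‖ ≤ ‖x‖ := by
  have h1 : ‖(resZ φ M a : L2 ι H →L[ℂ] L2 (ι × Fin (M + 1)) H)‖ ≤ 1 := by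
    unfold resZ
    rw [LinearIsometryEquiv.norm_map]
    exact ContinuousLinearMap.opNorm_le_bound _ zero_le_one fun z => by
      rw [one_mul]
      exact norm_extZ_le φ M a z
  have := (resZ φ M a).le_of_opNorm_le h1 x
  simpa using this

/-- the equations inside the window -/
def H1 (m M : ℕ) (C : Set (ι × H →₀ ℂ)) : Set ((ι × Fin (M + 1)) × H →₀ ℂ) :=
  {d | ∃ c ∈ C, ∃ b : ℤ, (m : ℤ) ≤ b ∧ b ≤ (M : ℤ) - m ∧ d = hat φ M b c}

include hφ in
lemma resZ_mem {m M : ℕ} (a : Fin (M + 1)) {C : Set (ι × H →₀ ℂ)}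
    (hm : ∀ c ∈ C, ∀ p ∈ c.support, |φ p.2| ≤ m) {x : L2 ι H}
    (hx : x ∈ Sol C) : resZ φ M a x ∈ Sol (H1 φ m M C) := by
  rintro _ ⟨c, hc, b, hb1, hb2, rfl⟩ g
  rw [ev_hat]
  have key : ∀ p ∈ c.support, zb (resZ φ M a x) p.1 (b - φ p.2) (g * p.2⁻¹)
      = if φ g + (a : ℕ) = b then x (p.1, g * p.2⁻¹) else 0 := by
    intro p hp
    have h1 := abs_le.mp (hm c hc p hp)
    unfold zb
    rw [dif_pos (by omega), resZ_apply]
    have h2 : (φ (g * p.2⁻¹) + (a : ℕ) = (((⟨(b - φ p.2).toNat, by omega⟩ : Fin (M + 1)) : ℕ) : ℤ))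
        ↔ φ g + (a : ℕ) = b := by
      rw [hφ, phi_inv φ hφ]
      simp only
      omega
    by_cases h3 : φ g + (a : ℕ) = b
    · rw [if_pos h3, if_pos (h2.mpr h3)]
    · rw [if_neg h3, if_neg (fun h4 => h3 (h2.mp h4))]
  rw [Finset.sum_congr rfl fun p hp => by rw [key p hp]]
  by_cases h3 : φ g + (a : ℕ) = b
  · simp only [if_pos h3]
    have := hx c hc g
    rw [ev_def] at this
    exact this
  · simp [if_neg h3]

include hφ in
/-- lower bound for the window equations -/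
theorem le_H1 {m M : ℕ} {C : Set (ι × H →₀ ℂ)} (hm : ∀ c ∈ C, ∀ p ∈ c.support, |φ p.2| ≤ m) :
    (M + 1) * vdim (Sol C : Set (L2 ι H))
      ≤ vdim (Sol (H1 φ m M C) : Set (L2 (ι × Fin (M + 1)) H)) := by
  have c1 : CompleteSpace (Sol (H1 φ m M C)) := (Sol_closed _).completeSpace_coe
  have c2 : CompleteSpace (Sol C) := (Sol_closed C).completeSpace_coe
  rw [vdim_eq_sum, vdim_eq_sum, Fintype.sum_prod_type, Finset.mul_sum]
  refine Finset.sum_le_sum fun i _ => ?_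
  have h1 : ∀ a : Fin (M + 1), ‖(Sol C).starProjection (dl (i, (1 : H)))‖ ^ 2
      ≤ ‖(Sol (H1 φ m M C)).starProjection (dl ((i, a), (1 : H)))‖ ^ 2 := by
    intro a
    set w := (Sol C).starProjection (dl (i, (1 : H))) with hw
    have hwm : w ∈ Sol C := Submodule.starProjection_apply_mem _ _
    have h2 : ((‖w‖ ^ 2 : ℝ) : ℂ) = ⟪w, dl (i, (1 : H))⟫_ℂ := by
      have h3 := (Sol C).starProjection_inner_eq_zero (dl (i, (1 : H))) w hwm
      rw [← hw, inner_sub_left, sub_eq_zero, inner_self_eq_norm_sq_to_K] at h3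
      rw [← inner_conj_symm, h3]
      simp
    have h3 : ⟪w, dl (i, (1 : H))⟫_ℂ
        = ⟪resZ φ M a w, (Sol (H1 φ m M C)).starProjection (dl ((i, a), (1 : H)))⟫_ℂ := by
      have h4 := (Sol (H1 φ m M C)).starProjection_inner_eq_zero (dl ((i, a), (1 : H)))
        (resZ φ M a w) (resZ_mem φ hφ a hm hwm)
      have h5 : ⟪resZ φ M a w, dl ((i, a), (1 : H))⟫_ℂ
          = ⟪resZ φ M a w, (Sol (H1 φ m M C)).starProjection (dl ((i, a), (1 : H)))⟫_ℂ := by
        rw [inner_sub_left, sub_eq_zero] at h4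
        rw [← inner_conj_symm, h4, inner_conj_symm]
      rw [← h5, inner_dl_right, inner_dl_right, resZ_apply, phi_one φ hφ, if_pos (by ring)]
    rw [h3] at h2
    have h4 : ‖w‖ ^ 2 ≤ ‖w‖ *
        ‖(Sol (H1 φ m M C)).starProjection (dl ((i, a), (1 : H)))‖ := by
      have h5 := norm_inner_le_norm (𝕜 := ℂ) (resZ φ M a w)
        ((Sol (H1 φ m M C)).starProjection (dl ((i, a), (1 : H))))
      rw [← h2, Complex.norm_real, Real.norm_of_nonneg (by positivity)] at h5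
      exact h5.trans (mul_le_mul_of_nonneg_right (norm_resZ_le φ M a w) (norm_nonneg _))
    have h5 : ‖w‖ ≤ ‖(Sol (H1 φ m M C)).starProjection (dl ((i, a), (1 : H)))‖ := by
      by_cases h0 : ‖w‖ = 0
      · rw [h0]
        exact norm_nonneg _
      · have h0' : 0 < ‖w‖ := lt_of_le_of_ne (norm_nonneg _) (Ne.symm h0)
        rw [sq] at h4
        exact le_of_mul_le_mul_left h4 h0'
    exact pow_le_pow_left₀ (norm_nonneg _) h5 2
  calc (M + 1) * ‖(Sol C).starProjection (dl (i, (1 : H)))‖ ^ 2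
      = ∑ _a : Fin (M + 1), ‖(Sol C).starProjection (dl (i, (1 : H)))‖ ^ 2 := by
        rw [Finset.sum_const, Finset.card_univ, Fintype.card_fin, nsmul_eq_mul]
        push_cast
        ring
    _ ≤ _ := Finset.sum_le_sum fun a _ => h1 a

include hφ in
/-- lower bound -/
theorem le_c0 {m M : ℕ} {C : Set (ι × H →₀ ℂ)} (hm : ∀ c ∈ C, ∀ p ∈ c.support, |φ p.2| ≤ m) :
    (M + 1) * vdim (Sol C : Set (L2 ι H)) - 4 * m * Fintype.card ι ≤ c0 φ M C := by
  by_cases hM : M < 4 * m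
  · have h1 : vdim (Sol C : Set (L2 ι H)) ≤ Fintype.card ι := vdim_le_card _
    have h2 : (0 : ℝ) ≤ c0 φ M C := vdim_nonneg _
    have h3 : ((M : ℝ) + 1) ≤ 4 * m := by exact_mod_cast hM
    have h4 : (0 : ℝ) ≤ Fintype.card ι := by positivity
    have h5 : (0 : ℝ) ≤ vdim (Sol C : Set (L2 ι H)) := vdim_nonneg _
    nlinarith
  push Not at hM
  set Z : Set (ι × Fin (M + 1)) := {q | ¬ (2 * m ≤ (q.2 : ℕ) ∧ (q.2 : ℕ) ≤ 2 * m + (M - 4 * m))}
    with hZ
  have hcz : vdim (coordZ H ι M (2 * m) (M - 4 * m) : Set (L2 (ι × Fin (M + 1)) H))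
      = ((Finset.univ.filter fun q : ι × Fin (M + 1) => q ∉ Z).card : ℝ) := by
    have h0 := vdim_coord Z (coordZ H ι M (2 * m) (M - 4 * m)) (by
      intro x
      constructor
      · rintro hx ⟨i, a⟩ ha g
        exact hx i a g ha
      · intro hx i a h ha
        exact hx (i, a) ha h)
    rw [h0]
    congr 2
    ext q
    simp only [Finset.mem_filter]
  have hcard : ((M : ℝ) + 1 - 4 * m) * Fintype.card ι
      ≤ ((Finset.univ.filter fun q : ι × Fin (M + 1) => q ∉ Z).card : ℝ) := by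
    have h1 : (Finset.univ.filter fun q : ι × Fin (M + 1) => q ∉ Z)
        = (Finset.univ : Finset ι) ×ˢ (Finset.univ.filter fun a : Fin (M + 1) =>
          2 * m ≤ (a : ℕ) ∧ (a : ℕ) ≤ 2 * m + (M - 4 * m)) := by
      ext q
      simp [hZ]
    have h2 : M + 1 - 4 * m ≤ (Finset.univ.filter fun a : Fin (M + 1) =>
          2 * m ≤ (a : ℕ) ∧ (a : ℕ) ≤ 2 * m + (M - 4 * m)).card := by
      have h3 : (Finset.univ : Finset (Fin (M + 1 - 4 * m))).card ≤
          (Finset.univ.filter fun a : Fin (M + 1) =>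
          2 * m ≤ (a : ℕ) ∧ (a : ℕ) ≤ 2 * m + (M - 4 * m)).card := by
        apply Finset.card_le_card_of_injOn
          (fun a : Fin (M + 1 - 4 * m) => (⟨(a : ℕ) + 2 * m, by omega⟩ : Fin (M + 1)))
        · intro a _
          simp only [Finset.coe_filter, Finset.mem_univ, true_and, Set.mem_ofPred_eq]
          omega
        · intro a _ b _ hab
          simp only [Fin.mk.injEq] at hab
          apply Fin.ext
          omega
      simpa using h3
    rw [h1, Finset.card_product, Finset.card_univ]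
    have h4 : ((M + 1 - 4 * m : ℕ) : ℝ) = (M : ℝ) + 1 - 4 * m := by
      rw [Nat.cast_sub (by omega)]
      push_cast
      ring
    rw [← h4]
    push_cast
    rw [mul_comm]
    apply mul_le_mul_of_nonneg_left _ (by positivity)
    exact_mod_cast h2
  have h1 := vdim_inter (Sol_invar (H1 φ m M C)) (Sol_closed _)
    (coordZ_invar (H := H) (ι := ι) M (2 * m) (M - 4 * m)) (coordZ_closed _ _ _)
  have h2 : Sol (H1 φ m M C) ⊓ coordZ H ι M (2 * m) (M - 4 * m) ≤ Sol (H0 φ M C) := by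
    rintro z ⟨hz1, hz2⟩
    rw [mem_Sol_H0]
    intro c hc b g
    by_cases hb : (m : ℤ) ≤ b ∧ b ≤ (M : ℤ) - m
    · have := hz1 _ ⟨c, hc, b, hb.1, hb.2, rfl⟩ g
      rw [ev_hat] at this
      exact this
    · refine Finset.sum_eq_zero fun p hp => ?_
      have h3 := abs_le.mp (hm c hc p hp)
      have h4 : zb z p.1 (b - φ p.2) (g * p.2⁻¹) = 0 := by
        unfold zb
        split_ifs with h5
        · apply hz2
          simp only
          omega
        · rfl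
      rw [h4, mul_zero]
  have h3 := vdim_mono h2
  have h4 := le_H1 φ hφ (M := M) hm
  rw [Fintype.card_prod, Fintype.card_fin, hcz] at h1
  push_cast at h1
  unfold c0
  nlinarith

end Bounds

end Pool.Agent.VN
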