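import Pool.Agent.VN.ZExt
import Pool.Agent.VN.Approx

set_option autoImplicit false
set_option linter.unusedSectionVars false

noncomputable section

open scoped InnerProductSpace ENNReal Topology
open Classical Filter ContinuousLinearMap

/-!
The dimensions over windows are dimensions over the kernel of the homomorphism to `ℤ`.
-/

namespace Pool.Agent.VN

section Bridge

variable {ι G : Type} [Group G] (φ : G → ℤ) (hφ : ∀ a b, φ (a * b) = φ a + φ b)

include hφ in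
lemma phi_zpow (t : G) (n : ℤ) : φ (t ^ n) = n * φ t := by
  have h1 : ∀ n : ℕ, φ (t ^ n) = n * φ t := by
    intro n
    induction n with
    | zero => simp [phi_one φ hφ]
    | succ n ih =>
      rw [pow_succ, hφ, ih]
      push_cast
      ring
  obtain ⟨m, rfl | rfl⟩ := n.eq_nat_or_neg
  · rw [zpow_natCast, h1]
  · rw [zpow_neg, zpow_natCast, phi_inv φ hφ, h1]
    ring

/-- the kernel of `φ` -/
def kerZ : Subgroup G where
  carrier := {g | φ g = 0}
  mul_mem' := by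
    intro a b ha hb
    have ha' : φ a = 0 := ha
    have hb' : φ b = 0 := hb
    show φ (a * b) = 0
    rw [hφ, ha', hb', add_zero]
  one_mem' := phi_one φ hφ
  inv_mem' := by
    intro a ha
    have ha' : φ a = 0 := ha
    show φ a⁻¹ = 0
    rw [phi_inv φ hφ, ha', neg_zero]

lemma mem_kerZ {g : G} : g ∈ kerZ φ hφ ↔ φ g = 0 := Iff.rfl

/-- the level form over the kernel -/
def nf (t : G) (ht : φ t = 1) (M : ℕ) (b : ℤ) (c : ι × G →₀ ℂ) :
    (ι × Fin (M + 1)) × kerZ φ hφ →₀ ℂ :=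
  ∑ p ∈ c.support, if h' : 0 ≤ b - φ p.2 ∧ b - φ p.2 ≤ M then
    Finsupp.single ((p.1, (⟨(b - φ p.2).toNat, by omega⟩ : Fin (M + 1))),
      (⟨t ^ (b - φ p.2) * p.2 * t ^ (-b), by
        rw [mem_kerZ, hφ, hφ, phi_zpow φ hφ, phi_zpow φ hφ, ht]; ring⟩ : kerZ φ hφ)) (c p) else 0

variable {H : Type} [Group H] (π : G →* H)

lemma ev_mapF_nf (t : G) (ht : φ t = 1) (M : ℕ) (b : ℤ) (c : ι × G →₀ ℂ)
    (y : (ι × Fin (M + 1)) × H → ℂ) (g : H) :
    ev (mapF (π.comp (kerZ φ hφ).subtype) (nf φ hφ t ht M b c)) y g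
      = ∑ p ∈ c.support, c p * zb y p.1 (b - φ p.2)
        (g * π t ^ b * (π p.2)⁻¹ * π t ^ (-(b - φ p.2))) := by
  unfold nf
  rw [mapF_eq, Finsupp.mapDomain_finsetSum, ev_finsetSum]
  refine Finset.sum_congr rfl fun p _ => ?_
  unfold zb
  by_cases h' : 0 ≤ b - φ p.2 ∧ b - φ p.2 ≤ M
  · rw [dif_pos h', dif_pos h', Finsupp.mapDomain_single, ev_single]
    congr 3
    simp only [MonoidHom.comp_apply, Subgroup.subtype_apply, map_mul, map_zpow, mul_inv_rev]
    rw [zpow_neg, zpow_neg, inv_inv]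
    group
  · rw [dif_neg h', dif_neg h', Finsupp.mapDomain_zero, ev_zero, mul_zero]

lemma sum_mapF (c : ι × G →₀ ℂ) (F : ι × H → ℂ) :
    ∑ p ∈ (mapF π c).support, (mapF π c) p * F p = ∑ p ∈ c.support, c p * F (p.1, π p.2) := by
  have h : (mapF π c).sum (fun p a => a * F p) = c.sum fun p a => a * F (p.1, π p.2) := by
    rw [mapF_eq, Finsupp.sum_mapDomain_index (by intro p; simp) (by intro p a b; ring)]
  exact h

/-- all level forms -/
def DN (t : G) (ht : φ t = 1) (m M : ℕ) (C : Set (ι × G →₀ ℂ)) :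
    Set ((ι × Fin (M + 1)) × kerZ φ hφ →₀ ℂ) :=
  ⋃ b ∈ Set.Icc (-(m : ℤ)) (M + m), nf φ hφ t ht M b '' C

lemma DN_finite (t : G) (ht : φ t = 1) (m M : ℕ) {C : Set (ι × G →₀ ℂ)} (hC : C.Finite) :
    (DN φ hφ t ht m M C).Finite := by
  unfold DN
  exact (Set.finite_Icc _ _).biUnion fun b _ => hC.image _

lemma DN_coef (k : Subring ℂ) (t : G) (ht : φ t = 1) (m M : ℕ) {C : Set (ι × G →₀ ℂ)}
    (hC : ∀ c ∈ C, ∀ p, c p ∈ k) : ∀ d ∈ DN φ hφ t ht m M C, ∀ p, d p ∈ k := by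
  intro d hd q
  unfold DN at hd
  simp only [Set.mem_iUnion] at hd
  obtain ⟨b, _, c, hc, rfl⟩ := hd
  unfold nf
  rw [Finsupp.finsetSum_apply]
  refine k.sum_mem fun p _ => ?_
  split_ifs
  · rw [Finsupp.single_apply]
    split_ifs
    · exact hC c hc p
    · exact k.zero_mem
  · exact k.zero_mem

variable [Fintype ι]

/-- the window dimension is a dimension over the kernel of `φ`, functorially -/
theorem c0_eq (t : G) (ht : φ t = 1) (m M : ℕ) (C : Set (ι × G →₀ ℂ))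
    (hm : ∀ c ∈ C, ∀ p ∈ c.support, |φ p.2| ≤ m) (φH : H → ℤ) (hφH : ∀ g, φH (π g) = φ g) :
    c0 φH M (mapF π '' C)
      = vdim (Sol (mapF (π.comp (kerZ φ hφ).subtype) '' DN φ hφ t ht m M C) :
        Set (L2 (ι × Fin (M + 1)) H)) := by
  set Φ : ι × Fin (M + 1) → ((ι × Fin (M + 1)) × H →₀ ℂ) := fun q =>
    Finsupp.single (q, π t ^ ((q.2 : ℕ) : ℤ)) 1 with hΦ
  have hΦa : ∀ (x : L2 (ι × Fin (M + 1)) H) (q : ι × Fin (M + 1)) (g : H),
      (mulR Φ x) (q, g) = x (q, g * (π t ^ ((q.2 : ℕ) : ℤ))⁻¹) := by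
    intro x q g
    rw [mulR_apply, ev_single, one_mul]
  have hzb : ∀ (x : L2 (ι × Fin (M + 1)) H) (i : ι) (k : ℤ) (g : H),
      zb (mulR Φ x) i k g = zb x i k (g * π t ^ (-k)) := by
    intro x i k g
    unfold zb
    by_cases h : 0 ≤ k ∧ k ≤ M
    · rw [dif_pos h, dif_pos h, hΦa]
      simp only
      rw [Int.toNat_of_nonneg h.1, zpow_neg]
    · rw [dif_neg h, dif_neg h]
  have key : ∀ (x : L2 (ι × Fin (M + 1)) H) (c : ι × G →₀ ℂ) (b : ℤ) (g : H),
      ∑ p ∈ (mapF π c).support, (mapF π c) p * zb (mulR Φ x) p.1 (b - φH p.2) (g * p.2⁻¹)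
      = ev (mapF (π.comp (kerZ φ hφ).subtype) (nf φ hφ t ht M b c)) x (g * π t ^ (-b)) := by
    intro x c b g
    rw [sum_mapF π c (fun p => zb (mulR Φ x) p.1 (b - φH p.2) (g * p.2⁻¹)), ev_mapF_nf]
    refine Finset.sum_congr rfl fun p _ => ?_
    simp only
    rw [hzb, hφH]
    congr 2
    rw [zpow_neg (π t) b]
    group
  unfold c0
  apply vdim_eq_of_param Φ _ (Sol_invar _) (Sol_closed _)
  · intro x _ h0
    ext q
    obtain ⟨q, g⟩ := q
    have h1 := hΦa x q (g * π t ^ ((q.2 : ℕ) : ℤ))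
    rw [h0, mul_inv_cancel_right] at h1
    exact h1.symm
  · intro x hx
    rw [mem_Sol_H0]
    rintro _ ⟨c, hc, rfl⟩ b g
    rw [key]
    by_cases hb : b ∈ Set.Icc (-(m : ℤ)) (M + m)
    · apply hx
      refine ⟨nf φ hφ t ht M b c, ?_, rfl⟩
      unfold DN
      simp only [Set.mem_iUnion]
      exact ⟨b, hb, c, hc, rfl⟩
    · rw [ev_mapF_nf]
      refine Finset.sum_eq_zero fun p hp => ?_
      have h1 := abs_le.mp (hm c hc p hp)
      have h2 : ¬ (0 ≤ b - φ p.2 ∧ b - φ p.2 ≤ M) := by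
        intro h3
        apply hb
        rw [Set.mem_Icc]
        omega
      unfold zb
      rw [dif_neg h2, mul_zero]
  · intro y hy
    set x : L2 (ι × Fin (M + 1)) H := mulR (fun q : ι × Fin (M + 1) =>
      Finsupp.single (q, (π t ^ ((q.2 : ℕ) : ℤ))⁻¹) 1) y with hx
    have hyx : mulR Φ x = y := by
      ext q
      obtain ⟨q, g⟩ := q
      rw [hΦa, hx, mulR_apply, ev_single, one_mul]
      simp
    refine ⟨x, ?_, hyx⟩
    rintro _ ⟨d, hd, rfl⟩ g
    unfold DN at hd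
    simp only [Set.mem_iUnion] at hd
    obtain ⟨b, _, c, hc, rfl⟩ := hd
    have h1 := (mem_Sol_H0 φH).mp hy _ ⟨c, hc, rfl⟩ b (g * π t ^ b)
    rw [← hyx, key, mul_assoc, ← zpow_add, add_neg_cancel, zpow_zero, mul_one] at h1
    exact h1

end Bridge

end Pool.Agent.VN
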